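import Pool.Agent.Lib.MP_2a9317_an.N1.Base

set_option autoImplicit false

namespace Pool.Agent.Lib.MP_2a9317_an.N1

/-- `M` is the matrix `K(θ, Z)`, `Z = [[x, y], [y, z]]`, of the phases `A` (fraction `θ`), `B`:
`W_M = θ W_A + (1 - θ) W_B - θ (1 - θ) d · Z d`, `d = (L_A - L_B) (X, Y) + V_A - V_B`. -/
def IsKZ (A B : Ph) (θ x y z : ℝ) (M : Ph) : Prop :=
  ∀ X Y : ℝ, W M X Y = θ * W A X Y + (1 - θ) * W B X Y
    - θ * (1 - θ) * (x * ((A 0 - B 0) * X + (A 1 - B 1) * Y + (A 3 - B 3)) ^ 2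
      + 2 * y * ((A 0 - B 0) * X + (A 1 - B 1) * Y + (A 3 - B 3))
          * ((A 1 - B 1) * X + (A 2 - B 2) * Y + (A 4 - B 4))
      + z * ((A 1 - B 1) * X + (A 2 - B 2) * Y + (A 4 - B 4)) ^ 2)

/-- `L' = (1 - θ) L_A + θ L_B` and `g D Z = det (1 - L' Z) - D det Z`. -/
def gD (A B : Ph) (θ D x y z : ℝ) : ℝ :=
  1 - (((1 - θ) * A 0 + θ * B 0) * x + 2 * ((1 - θ) * A 1 + θ * B 1) * y
      + ((1 - θ) * A 2 + θ * B 2) * z)
    + (((1 - θ) * A 0 + θ * B 0) * ((1 - θ) * A 2 + θ * B 2)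
        - ((1 - θ) * A 1 + θ * B 1) ^ 2) * (x * z - y ^ 2) - D * (x * z - y ^ 2)

/-- existence of the layered material -/
theorem exists_lay (A B : Ph) (θ ξ η : ℝ) : ∃ M : Ph, Lay A B θ ξ η M := by
  refine ⟨![θ * A 0 + (1 - θ) * B 0 - θ * (1 - θ) * (ξ * (A 0 - B 0) + η * (A 1 - B 1)) ^ 2
      / ((1 - θ) * Q A ξ η + θ * Q B ξ η),
    θ * A 1 + (1 - θ) * B 1 - θ * (1 - θ) * ((ξ * (A 0 - B 0) + η * (A 1 - B 1))
      * (ξ * (A 1 - B 1) + η * (A 2 - B 2))) / ((1 - θ) * Q A ξ η + θ * Q B ξ η),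
    θ * A 2 + (1 - θ) * B 2 - θ * (1 - θ) * (ξ * (A 1 - B 1) + η * (A 2 - B 2)) ^ 2
      / ((1 - θ) * Q A ξ η + θ * Q B ξ η),
    θ * A 3 + (1 - θ) * B 3 - θ * (1 - θ) * ((ξ * (A 0 - B 0) + η * (A 1 - B 1))
      * (ξ * (A 3 - B 3) + η * (A 4 - B 4))) / ((1 - θ) * Q A ξ η + θ * Q B ξ η),
    θ * A 4 + (1 - θ) * B 4 - θ * (1 - θ) * ((ξ * (A 1 - B 1) + η * (A 2 - B 2))
      * (ξ * (A 3 - B 3) + η * (A 4 - B 4))) / ((1 - θ) * Q A ξ η + θ * Q B ξ η),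
    θ * A 5 + (1 - θ) * B 5 - θ * (1 - θ) * (ξ * (A 3 - B 3) + η * (A 4 - B 4)) ^ 2
      / ((1 - θ) * Q A ξ η + θ * Q B ξ η)], ?_⟩
  intro x y
  generalize (1 - θ) * Q A ξ η + θ * Q B ξ η = D
  simp only [W, Matrix.cons_val_zero, Matrix.cons_val_one, Matrix.cons_val]
  ring

/-- layering with a rank-one difference in the right direction is arithmetic averaging:
`A = B + μ β βᵀ`, `β = (β₁, β₂, β₃)`, normal `(ξ, η)` with `β₁ ξ + β₂ η = 0`. -/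
theorem lay_avg {A B M : Ph} {τ ξ η μ β₁ β₂ β₃ : ℝ} (hβ : β₁ * ξ + β₂ * η = 0)
    (hAB : ∀ X Y : ℝ, W A X Y = W B X Y + μ * (β₁ * X + β₂ * Y + β₃) ^ 2)
    (hM : ∀ X Y : ℝ, W M X Y = τ * W A X Y + (1 - τ) * W B X Y) : Lay A B τ ξ η M := by
  have e00 := hAB 0 0
  have e10 := hAB 1 0
  have e01 := hAB 0 1
  have e11 := hAB 1 1
  have em0 := hAB (-1) 0
  have e0m := hAB 0 (-1)
  simp only [W] at e00 e10 e01 e11 em0 e0m
  have h0 : A 0 - B 0 = μ * β₁ ^ 2 := by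
    linear_combination (1 / 2) * e10 + (1 / 2) * em0 - e00
  have h3 : A 3 - B 3 = μ * (β₁ * β₃) := by
    linear_combination (1 / 4) * e10 - (1 / 4) * em0
  have h2 : A 2 - B 2 = μ * β₂ ^ 2 := by
    linear_combination (1 / 2) * e01 + (1 / 2) * e0m - e00
  have h4 : A 4 - B 4 = μ * (β₂ * β₃) := by
    linear_combination (1 / 4) * e01 - (1 / 4) * e0m
  have h1 : A 1 - B 1 = μ * (β₁ * β₂) := by
    linear_combination (1 / 2) * e11 - (1 / 2) * e10 - (1 / 2) * e01 + (1 / 2) * e00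
  intro x y
  rw [hM x y, h0, h1, h2, h3, h4]
  have hz : ξ * (μ * β₁ ^ 2 * x + μ * (β₁ * β₂) * y + μ * (β₁ * β₃))
      + η * (μ * (β₁ * β₂) * x + μ * β₂ ^ 2 * y + μ * (β₂ * β₃)) = 0 := by
    linear_combination (μ * (β₁ * x + β₂ * y + β₃)) * hβ
  rw [hz]
  ring

theorem den_alg {qA qM κ₁ κ₂ r₂ v E : ℝ} (hc : 1 - κ₁ ≠ 0) (hv : v ≠ 0)
    (e1 : qM = qA - (1 - κ₁) * E) (hκ₂ : κ₂ = r₂ / v * qA) (hve : v = 1 + r₂ * E) :
    (1 - κ₂ / (1 - κ₁)) * qA + κ₂ / (1 - κ₁) * qM = qA / v := by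
  have e3 : (1 - κ₂ / (1 - κ₁)) * qA + κ₂ / (1 - κ₁) * qM = qA - κ₂ * E := by
    rw [e1]; field_simp; ring
  have e4 : κ₂ * E = qA / v * (r₂ * E) := by
    rw [hκ₂]; field_simp
  have e2 : r₂ * E = v - 1 := by linarith
  rw [e3, e4, e2]
  field_simp
  ring

theorem fin_alg {wA wB qA κ₁ κ₂ r r₂ v U V θ : ℝ} (hc : 1 - κ₁ ≠ 0) (hq : qA ≠ 0) (hv : v ≠ 0)
    (hκ₂ : κ₂ = r₂ / v * qA) (hκ : κ₁ + κ₂ = θ) :
    wA - (1 - θ) * (wA - wB + r * U ^ 2 + r₂ * V ^ 2)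
      = κ₂ / (1 - κ₁) * wA + (1 - κ₂ / (1 - κ₁)) * (wA - (1 - κ₁) * (wA - wB + r * U ^ 2))
        - κ₂ / (1 - κ₁) * (1 - κ₂ / (1 - κ₁)) * ((1 - κ₁) * V) ^ 2 / (qA / v) := by
  have hk : κ₂ / (1 - κ₁) / (qA / v) = r₂ / (1 - κ₁) := by
    rw [hκ₂]; field_simp
  have h1τ : (1 - κ₂ / (1 - κ₁)) * (1 - κ₁) = 1 - θ := by
    field_simp
    linarith
  have e : κ₂ / (1 - κ₁) * (1 - κ₂ / (1 - κ₁)) * ((1 - κ₁) * V) ^ 2 / (qA / v)
      = (1 - κ₂ / (1 - κ₁)) * (1 - κ₁) * V ^ 2 * (1 - κ₁)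
        * (κ₂ / (1 - κ₁) / (qA / v)) := by
    ring
  have e2 : (1 - κ₁) * (r₂ / (1 - κ₁)) = r₂ := by field_simp
  rw [e, hk, mul_assoc _ (1 - κ₁) (r₂ / (1 - κ₁)), e2, ← h1τ]
  ring

/-- the two successive layerings -/
theorem two_layer {k : ℕ} (K : Fin k → Ph) {A B : Ph} (hA : Lam K A) (hB : Lam K B)
    (hEA : Ell A) {θ r r₂ w v m : ℝ} (h1 : θ < 1)
    (hr : 0 < r) (hr₂ : 0 < r₂) (hw : 0 < w) (hv : 0 < v)
    (hwe : w = 1 + r * (A 0 - B 0))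
    (hve : v = 1 + r₂ * (((A 0 - B 0) * m ^ 2 + 2 * (A 1 - B 1) * m + (A 2 - B 2))
      + r * ((A 0 - B 0) * m + (A 1 - B 1)) ^ 2))
    (hκ : r / w * A 0 + r₂ / v * Q A m 1 = θ) {M : Ph}
    (hM : ∀ X Y : ℝ, W M X Y = W A X Y - (1 - θ) * (W A X Y - W B X Y
      + r * ((A 0 - B 0) * X + (A 1 - B 1) * Y + (A 3 - B 3)) ^ 2
      + r₂ * ((m + r * ((A 0 - B 0) * m + (A 1 - B 1)))
          * ((A 0 - B 0) * X + (A 1 - B 1) * Y + (A 3 - B 3))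
        + ((A 1 - B 1) * X + (A 2 - B 2) * Y + (A 4 - B 4))) ^ 2)) : Lam K M := by
  obtain ⟨hA0, hAD⟩ := hEA
  have hQm : 0 < Q A m 1 := by
    simp only [Q]
    simp only [Dt] at hAD
    have : 0 < A 0 * (A 0 * m ^ 2 + 2 * A 1 * m * 1 + A 2 * 1 ^ 2) := by
      nlinarith [sq_nonneg (A 0 * m + A 1)]
    exact (pos_iff_pos_of_mul_pos this).1 hA0
  obtain ⟨κ₁, hκ₁⟩ : ∃ κ₁ : ℝ, κ₁ = r / w * A 0 := ⟨_, rfl⟩
  obtain ⟨κ₂, hκ₂⟩ : ∃ κ₂ : ℝ, κ₂ = r₂ / v * Q A m 1 := ⟨_, rfl⟩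
  have hκ₁p : 0 < κ₁ := by rw [hκ₁]; positivity
  have hκ₂p : 0 < κ₂ := by rw [hκ₂]; positivity
  rw [← hκ₁, ← hκ₂] at hκ
  have hc : 0 < 1 - κ₁ := by linarith
  obtain ⟨M₁, hM₁⟩ : ∃ M₁ : Ph, M₁ = ![
      A 0 - (1 - κ₁) * ((A 0 - B 0) + r * (A 0 - B 0) ^ 2),
      A 1 - (1 - κ₁) * ((A 1 - B 1) + r * ((A 0 - B 0) * (A 1 - B 1))),
      A 2 - (1 - κ₁) * ((A 2 - B 2) + r * (A 1 - B 1) ^ 2),
      A 3 - (1 - κ₁) * ((A 3 - B 3) + r * ((A 0 - B 0) * (A 3 - B 3))),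
      A 4 - (1 - κ₁) * ((A 4 - B 4) + r * ((A 1 - B 1) * (A 3 - B 3))),
      A 5 - (1 - κ₁) * ((A 5 - B 5) + r * (A 3 - B 3) ^ 2)] := ⟨_, rfl⟩
  have g0 : M₁ 0 = A 0 - (1 - κ₁) * ((A 0 - B 0) + r * (A 0 - B 0) ^ 2) := by rw [hM₁]; rfl
  have g1 : M₁ 1 = A 1 - (1 - κ₁) * ((A 1 - B 1) + r * ((A 0 - B 0) * (A 1 - B 1))) := by
    rw [hM₁]; rfl
  have g2 : M₁ 2 = A 2 - (1 - κ₁) * ((A 2 - B 2) + r * (A 1 - B 1) ^ 2) := by rw [hM₁]; rfl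
  have g3 : M₁ 3 = A 3 - (1 - κ₁) * ((A 3 - B 3) + r * ((A 0 - B 0) * (A 3 - B 3))) := by
    rw [hM₁]; rfl
  have g4 : M₁ 4 = A 4 - (1 - κ₁) * ((A 4 - B 4) + r * ((A 1 - B 1) * (A 3 - B 3))) := by
    rw [hM₁]; rfl
  have g5 : M₁ 5 = A 5 - (1 - κ₁) * ((A 5 - B 5) + r * (A 3 - B 3) ^ 2) := by rw [hM₁]; rfl
  have hLay1 : Lay A B κ₁ 1 0 M₁ := by
    intro x y
    have hden : (1 - κ₁) * Q A 1 0 + κ₁ * Q B 1 0 = A 0 / w := by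
      simp only [Q]
      rw [hκ₁, eq_div_iff hw.ne']
      field_simp
      rw [hwe]
      ring
    rw [hden]
    have hk : κ₁ / (A 0 / w) = r := by
      rw [hκ₁]; field_simp
    have e : κ₁ * (1 - κ₁) * (1 * ((A 0 - B 0) * x + (A 1 - B 1) * y + (A 3 - B 3))
        + 0 * ((A 1 - B 1) * x + (A 2 - B 2) * y + (A 4 - B 4))) ^ 2 / (A 0 / w)
        = r * (1 - κ₁) * ((A 0 - B 0) * x + (A 1 - B 1) * y + (A 3 - B 3)) ^ 2 := by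
      rw [← hk]; ring
    rw [e]
    simp only [W]
    rw [g0, g1, g2, g3, g4, g5]
    ring
  have hLam1 : Lam K M₁ :=
    Lam.layer A B M₁ κ₁ 1 0 hA hB hκ₁p (by linarith) (Or.inl one_ne_zero) hLay1
  have hτp : 0 < κ₂ / (1 - κ₁) := by positivity
  have hτ1 : κ₂ / (1 - κ₁) < 1 := by
    rw [div_lt_one hc]; linarith
  refine Lam.layer A M₁ M (κ₂ / (1 - κ₁)) m 1 hA hLam1 hτp hτ1 (Or.inr one_ne_zero) ?_
  intro x y
  have hden : (1 - κ₂ / (1 - κ₁)) * Q A m 1 + κ₂ / (1 - κ₁) * Q M₁ m 1 = Q A m 1 / v := by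
    have e1 : Q M₁ m 1 = Q A m 1 - (1 - κ₁)
        * (((A 0 - B 0) * m ^ 2 + 2 * (A 1 - B 1) * m + (A 2 - B 2))
          + r * ((A 0 - B 0) * m + (A 1 - B 1)) ^ 2) := by
      simp only [Q]
      rw [g0, g1, g2]
      ring
    exact den_alg hc.ne' hv.ne' e1 hκ₂ hve
  rw [hden, hM x y]
  have hs : m * ((A 0 - M₁ 0) * x + (A 1 - M₁ 1) * y + (A 3 - M₁ 3))
      + 1 * ((A 1 - M₁ 1) * x + (A 2 - M₁ 2) * y + (A 4 - M₁ 4))
      = (1 - κ₁) * ((m + r * ((A 0 - B 0) * m + (A 1 - B 1)))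
          * ((A 0 - B 0) * x + (A 1 - B 1) * y + (A 3 - B 3))
        + ((A 1 - B 1) * x + (A 2 - B 2) * y + (A 4 - B 4))) := by
    rw [g0, g1, g2, g3, g4]
    ring
  rw [hs]
  have hWM : W M₁ x y = W A x y - (1 - κ₁) * (W A x y - W B x y
      + r * ((A 0 - B 0) * x + (A 1 - B 1) * y + (A 3 - B 3)) ^ 2) := by
    simp only [W]
    rw [g0, g1, g2, g3, g4, g5]
    ring
  rw [hWM]
  exact fin_alg hc.ne' hQm.ne' hv.ne' hκ₂ hκ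

/-- the algebra of the trace condition -/
theorem key_alg {a b c p q t r w v m s g θ : ℝ} (hw : 0 < w) (hwe : w = 1 + r * p)
    (hm : m * w = s - r * q)
    (hve : v = 1 + g * ((p * m ^ 2 + 2 * q * m + t) + r * (p * m + q) ^ 2))
    (hstar : θ - ((a - θ * p) * (r + s ^ 2 * g) + 2 * (b - θ * q) * s * g + (c - θ * t) * g)
      + (-(a * t + c * p - 2 * b * q) + θ * (p * t - q ^ 2)) * (r * g) = 0) :
    (θ * w - r * a) * v = g * w * (a * m ^ 2 + 2 * b * m * 1 + c * 1 ^ 2) := by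
  have hV : v * w = w + g * (p * s ^ 2 + 2 * q * s - r * q ^ 2 + t * w) := by
    refine mul_right_cancel₀ hw.ne' ?_
    have e : v * w * w = w ^ 2 + g * (p * (m * w) ^ 2 + 2 * q * (m * w) * w + t * w ^ 2
        + r * (p * (m * w) + q * w) ^ 2) := by
      rw [hve]; ring
    rw [e, hm, hwe]
    ring
  have hQw : w * w * (a * m ^ 2 + 2 * b * m * 1 + c * 1 ^ 2) = a * (s - r * q) ^ 2
      + 2 * b * (s - r * q) * w + c * w ^ 2 := by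
    rw [← hm]
    ring
  refine mul_right_cancel₀ hw.ne' ?_
  have e1 : (θ * w - r * a) * v * w = (θ * w - r * a) * (v * w) := by ring
  have e2 : g * w * (a * m ^ 2 + 2 * b * m * 1 + c * 1 ^ 2) * w
      = g * (w * w * (a * m ^ 2 + 2 * b * m * 1 + c * 1 ^ 2)) := by ring
  rw [e1, e2, hV, hQw, hwe]
  linear_combination (1 + r * p) * hstar

/-- MODULE A1 (matrix laminates). If `Z > 0`, `Y = Z⁻¹ - L' > 0` and `det Y = det L_A`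
(i.e. `gD (Dt A) = 0`) then `K(θ, Z)` is a laminate of rank at most 2 of the phases `A`, `B`
(phase `A` is the matrix). -/
theorem matrix_laminate {k : ℕ} (K : Fin k → Ph) {A B : Ph} (hA : Lam K A) (hB : Lam K B)
    (hEA : Ell A) (hEB : Ell B) {θ x y z : ℝ} (h0 : 0 < θ) (h1 : θ < 1)
    (hx : 0 < x) (hZ : 0 < x * z - y ^ 2)
    (hY : 0 < z / (x * z - y ^ 2) - ((1 - θ) * A 0 + θ * B 0))
    (hg : gD A B θ (Dt A) x y z = 0) {M : Ph} (hM : IsKZ A B θ x y z M) : Lam K M := by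
  have hA0 := hEA.1
  have hAD := hEA.2
  have hz : 0 < z := by
    have : 0 < x * z := by nlinarith [sq_nonneg y]
    exact (pos_iff_pos_of_mul_pos this).1 hx
  obtain ⟨s, hs⟩ : ∃ s : ℝ, y = s * z := ⟨y / z, by field_simp⟩
  obtain ⟨r, hr⟩ : ∃ r : ℝ, r = θ * (x * z - y ^ 2) / z := ⟨_, rfl⟩
  have hrp : 0 < r := by rw [hr]; positivity
  have hθx : θ * x = r + s ^ 2 * (θ * z) := by
    rw [hr, hs]; field_simp; ring
  have hzr : θ * (x * z - y ^ 2) = r * z := by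
    rw [hr]; field_simp
  have hwlt : r * A 0 < θ * (1 + r * (A 0 - B 0)) := by
    have e : r * (z / (x * z - y ^ 2)) = θ := by
      rw [hr]; field_simp
    have := mul_pos hrp hY
    rw [mul_sub, e] at this
    linarith
  obtain ⟨w, hwe⟩ : ∃ w : ℝ, w = 1 + r * (A 0 - B 0) := ⟨_, rfl⟩
  rw [← hwe] at hwlt
  have hw : 0 < w := by
    have h2 : 0 < r * A 0 := by positivity
    have h3 : 0 < θ * w := h2.trans hwlt
    exact (pos_iff_pos_of_mul_pos h3).1 h0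
  obtain ⟨m, hm⟩ : ∃ m : ℝ, m * w = s - r * (A 1 - B 1) :=
    ⟨(s - r * (A 1 - B 1)) / w, by field_simp⟩
  have hmδ : m + r * ((A 0 - B 0) * m + (A 1 - B 1)) = s := by
    rw [hwe] at hm; linarith
  obtain ⟨v, hve⟩ : ∃ v : ℝ, v = 1 + (θ * z) * (((A 0 - B 0) * m ^ 2
      + 2 * (A 1 - B 1) * m + (A 2 - B 2)) + r * ((A 0 - B 0) * m + (A 1 - B 1)) ^ 2) :=
    ⟨_, rfl⟩
  have hQm : 0 < Q A m 1 := by
    simp only [Q]
    simp only [Dt] at hAD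
    have : 0 < A 0 * (A 0 * m ^ 2 + 2 * A 1 * m * 1 + A 2 * 1 ^ 2) := by
      nlinarith [sq_nonneg (A 0 * m + A 1)]
    exact (pos_iff_pos_of_mul_pos this).1 hA0
  -- the trace condition
  have hstar : θ - ((A 0 - θ * (A 0 - B 0)) * (r + s ^ 2 * (θ * z))
      + 2 * (A 1 - θ * (A 1 - B 1)) * s * (θ * z) + (A 2 - θ * (A 2 - B 2)) * (θ * z))
      + (-(A 0 * (A 2 - B 2) + A 2 * (A 0 - B 0) - 2 * A 1 * (A 1 - B 1))
        + θ * ((A 0 - B 0) * (A 2 - B 2) - (A 1 - B 1) ^ 2)) * (r * (θ * z)) = 0 := by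
    simp only [gD, Dt] at hg
    linear_combination θ * hg + ((1 - θ) * A 0 + θ * B 0) * hθx
      + 2 * ((1 - θ) * A 1 + θ * B 1) * θ * hs
      - (((1 - θ) * A 0 + θ * B 0) * ((1 - θ) * A 2 + θ * B 2)
        - ((1 - θ) * A 1 + θ * B 1) ^ 2 - (A 0 * A 2 - A 1 ^ 2)) * hzr
  have hkey : (θ * w - r * A 0) * v = (θ * z) * w * Q A m 1 := by
    simp only [Q]
    exact key_alg hw hwe hm hve hstar
  have hv : 0 < v := by
    have h2 : 0 < (θ * w - r * A 0) * v := by rw [hkey]; positivity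
    exact (pos_iff_pos_of_mul_pos h2).1 (by linarith)
  refine two_layer K hA hB hEA (θ := θ) (r := r) (r₂ := θ * z) (w := w) (v := v) (m := m) h1
    hrp (by positivity) hw hv hwe hve ?_ ?_
  · rw [div_mul_eq_mul_div, div_mul_eq_mul_div, div_add_div _ _ hw.ne' hv.ne',
      div_eq_iff (by positivity)]
    linear_combination -hkey
  · intro X Y
    rw [hM X Y, hmδ]
    have e : θ * (x * ((A 0 - B 0) * X + (A 1 - B 1) * Y + (A 3 - B 3)) ^ 2)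
        = (r + s ^ 2 * (θ * z)) * ((A 0 - B 0) * X + (A 1 - B 1) * Y + (A 3 - B 3)) ^ 2 := by
      rw [← hθx]; ring
    rw [hs]
    linear_combination (-(1 - θ)) * e

end Pool.Agent.Lib.MP_2a9317_an.N1
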