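import Pool.Agent.Lib.MP_2a9317_an.N1.A1

set_option autoImplicit false

namespace Pool.Agent.Lib.MP_2a9317_an.N1

/-! ### Module A2 -/

/-- the composite `K(θ, Z)` exists -/
theorem a2_exists (A B : Ph) (θ x y z : ℝ) : ∃ M : Ph, IsKZ A B θ x y z M := by
  refine ⟨![θ * A 0 + (1 - θ) * B 0 - θ * (1 - θ) * (x * (A 0 - B 0) ^ 2 +
      2 * y * ((A 0 - B 0) * (A 1 - B 1)) + z * (A 1 - B 1) ^ 2),
    θ * A 1 + (1 - θ) * B 1 - θ * (1 - θ) * (x * ((A 0 - B 0) * (A 1 - B 1)) +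
      y * ((A 0 - B 0) * (A 2 - B 2) + (A 1 - B 1) ^ 2) + z * ((A 1 - B 1) * (A 2 - B 2))),
    θ * A 2 + (1 - θ) * B 2 - θ * (1 - θ) * (x * (A 1 - B 1) ^ 2 +
      2 * y * ((A 1 - B 1) * (A 2 - B 2)) + z * (A 2 - B 2) ^ 2),
    θ * A 3 + (1 - θ) * B 3 - θ * (1 - θ) * (x * ((A 0 - B 0) * (A 3 - B 3)) +
      y * ((A 0 - B 0) * (A 4 - B 4) + (A 1 - B 1) * (A 3 - B 3)) +
      z * ((A 1 - B 1) * (A 4 - B 4))),
    θ * A 4 + (1 - θ) * B 4 - θ * (1 - θ) * (x * ((A 1 - B 1) * (A 3 - B 3)) +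
      y * ((A 1 - B 1) * (A 4 - B 4) + (A 2 - B 2) * (A 3 - B 3)) +
      z * ((A 2 - B 2) * (A 4 - B 4))),
    θ * A 5 + (1 - θ) * B 5 - θ * (1 - θ) * (x * (A 3 - B 3) ^ 2 +
      2 * y * ((A 3 - B 3) * (A 4 - B 4)) + z * (A 4 - B 4) ^ 2)], ?_⟩
  intro X Y
  simp only [W, Matrix.cons_val]
  ring

theorem a2_swap {A B M : Ph} {θ x y z : ℝ} (h : IsKZ A B θ x y z M) :
    IsKZ B A (1 - θ) x y z M := by
  intro X Y
  rw [h X Y]
  ring

theorem a2_gD_swap (A B : Ph) (θ D x y z : ℝ) : gD B A (1 - θ) D x y z = gD A B θ D x y z := by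
  unfold gD
  ring

/-- both phases can be the matrix -/
theorem a2_matrix {k : ℕ} (K : Fin k → Ph) {A B : Ph} (hA : Lam K A) (hB : Lam K B)
    (hEA : Ell A) (hEB : Ell B) {θ x y z δ : ℝ} (h0 : 0 < θ) (h1 : θ < 1)
    (hx : 0 < x) (hZ : 0 < x * z - y ^ 2)
    (hY : 0 < z - ((1 - θ) * A 0 + θ * B 0) * (x * z - y ^ 2)) (hδ : δ = Dt A ∨ δ = Dt B)
    (hg : gD A B θ δ x y z = 0) {M : Ph} (hM : IsKZ A B θ x y z M) : Lam K M := by
  have hY' : 0 < z / (x * z - y ^ 2) - ((1 - θ) * A 0 + θ * B 0) := by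
    have e : z / (x * z - y ^ 2) - ((1 - θ) * A 0 + θ * B 0) =
        (z - ((1 - θ) * A 0 + θ * B 0) * (x * z - y ^ 2)) / (x * z - y ^ 2) := by
      rw [sub_div, mul_div_assoc ((1 - θ) * A 0 + θ * B 0), div_self hZ.ne', mul_one]
    rw [e]
    exact div_pos hY hZ
  rcases hδ with rfl | rfl
  · exact matrix_laminate K hA hB hEA hEB h0 h1 hx hZ hY' hg hM
  · refine matrix_laminate K hB hA hEB hEA (θ := 1 - θ) (by linarith) (by linarith) hx hZ ?_ ?_
      (a2_swap hM)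
    · have e : (1 - (1 - θ)) * B 0 + (1 - θ) * A 0 = (1 - θ) * A 0 + θ * B 0 := by ring
      rw [e]
      exact hY'
    · rw [a2_gD_swap]
      exact hg

set_option maxHeartbeats 4000000 in
theorem lam_of_bounds {A B : Ph} (hA : Ell A) (hB : Ell B) {k : ℕ} (K : Fin k → Ph)
    (hKA : Lam K A) (hKB : Lam K B) {θ x y z : ℝ} (h0 : 0 < θ) (h1 : θ < 1)
    (hP : ∀ s t : ℝ, (1 - θ) * Q A (x * s + y * t) (y * s + z * t)
        + θ * Q B (x * s + y * t) (y * s + z * t) ≤ x * s ^ 2 + 2 * y * s * t + z * t ^ 2)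
    (hlo : 0 ≤ gD A B θ (min (Dt A) (Dt B)) x y z)
    (hhi : gD A B θ (max (Dt A) (Dt B)) x y z ≤ 0)
    {M : Ph} (hM : IsKZ A B θ x y z M) : Lam K M := by
  obtain ⟨hA0, hAD⟩ := hA
  obtain ⟨hB0, hBD⟩ := hB
  have h1' : 0 < 1 - θ := by linarith
  -- the matrix `L'`
  obtain ⟨p, hp⟩ : ∃ p, p = (1 - θ) * A 0 + θ * B 0 := ⟨_, rfl⟩
  obtain ⟨q, hq⟩ : ∃ q, q = (1 - θ) * A 1 + θ * B 1 := ⟨_, rfl⟩
  obtain ⟨r, hr⟩ : ∃ r, r = (1 - θ) * A 2 + θ * B 2 := ⟨_, rfl⟩
  have hp0 : 0 < p := by rw [hp]; positivity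
  have hA2 : 0 < A 2 := by
    unfold Dt at hAD
    by_contra hcon
    push Not at hcon
    nlinarith [sq_nonneg (A 1)]
  have hB2 : 0 < B 2 := by
    unfold Dt at hBD
    by_contra hcon
    push Not at hcon
    nlinarith [sq_nonneg (B 1)]
  have hr0 : 0 < r := by rw [hr]; positivity
  -- `L'` is positive definite
  have hdet : 0 < p * r - q ^ 2 := by
    have hmix : 0 ≤ A 0 * B 2 + A 2 * B 0 - 2 * (A 1 * B 1) := by
      -- `(A 1 * B 1)^2 ≤ A0 A2 B0 B2`
      unfold Dt at hAD hBD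
      have e1 : (A 1 * B 1) ^ 2 ≤ (A 0 * B 2) * (A 2 * B 0) := by
        have f1 : A 1 ^ 2 ≤ A 0 * A 2 := by linarith
        have f2 : B 1 ^ 2 ≤ B 0 * B 2 := by linarith
        have := mul_le_mul f1 f2 (sq_nonneg _) (by positivity)
        nlinarith
      have e2 : 4 * ((A 0 * B 2) * (A 2 * B 0)) ≤ (A 0 * B 2 + A 2 * B 0) ^ 2 := by
        nlinarith [sq_nonneg (A 0 * B 2 - A 2 * B 0)]
      have e3 : (2 * (A 1 * B 1)) ^ 2 ≤ (A 0 * B 2 + A 2 * B 0) ^ 2 := by nlinarith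
      have e4 : 0 ≤ A 0 * B 2 + A 2 * B 0 := by positivity
      have := abs_le_of_sq_le_sq' e3 e4
      linarith [this.2]
    have e : p * r - q ^ 2 = (1 - θ) ^ 2 * Dt A + θ ^ 2 * Dt B +
        θ * (1 - θ) * (A 0 * B 2 + A 2 * B 0 - 2 * (A 1 * B 1)) := by
      rw [hp, hq, hr]; unfold Dt; ring
    rw [e]
    have t1 : 0 < (1 - θ) ^ 2 * Dt A := by positivity
    have t2 : 0 < θ ^ 2 * Dt B := by positivity
    have t3 : 0 ≤ θ * (1 - θ) * (A 0 * B 2 + A 2 * B 0 - 2 * (A 1 * B 1)) :=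
      mul_nonneg (by positivity) hmix
    linarith
  have hQ : ∀ u v : ℝ, (1 - θ) * Q A u v + θ * Q B u v = p * u ^ 2 + 2 * q * u * v + r * v ^ 2 := by
    intro u v
    rw [hp, hq, hr]; unfold Q; ring
  simp only [hQ] at hP
  have hgD : ∀ D x y z : ℝ, gD A B θ D x y z =
      1 - (p * x + 2 * q * y + r * z) + (p * r - q ^ 2) * (x * z - y ^ 2) - D * (x * z - y ^ 2) := by
    intro D x y z
    rw [hp, hq, hr]; unfold gD; ring
  have hQpos : ∀ u v : ℝ, 0 ≤ p * u ^ 2 + 2 * q * u * v + r * v ^ 2 := by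
    intro u v
    have e : p * (p * u ^ 2 + 2 * q * u * v + r * v ^ 2) =
        (p * u + q * v) ^ 2 + (p * r - q ^ 2) * v ^ 2 := by ring
    have : 0 ≤ p * (p * u ^ 2 + 2 * q * u * v + r * v ^ 2) := by rw [e]; positivity
    exact nonneg_of_mul_nonneg_right this hp0
  -- `Z ≥ 0`
  have hx0 : 0 ≤ x := by
    have := hP 1 0
    have h2 := hQpos (x * 1 + y * 0) (y * 1 + z * 0)
    nlinarith
  have hz0 : 0 ≤ z := by
    have := hP 0 1
    have h2 := hQpos (x * 0 + y * 1) (y * 0 + z * 1)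
    nlinarith
  have hD0 : 0 ≤ x * z - y ^ 2 := by
    have hpos : ∀ s t : ℝ, 0 ≤ x * s ^ 2 + 2 * y * s * t + z * t ^ 2 := fun s t =>
      (hQpos _ _).trans (hP s t)
    -- choose (s,t) = (y, -x) or (z, -y)
    have a1 := hpos y (-x)
    have a2 := hpos z (-y)
    have e1 : x * y ^ 2 + 2 * y * y * (-x) + z * (-x) ^ 2 = x * (x * z - y ^ 2) := by ring
    have e2 : x * z ^ 2 + 2 * y * z * (-y) + z * (-y) ^ 2 = z * (x * z - y ^ 2) := by ring
    rw [e1] at a1
    rw [e2] at a2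
    rcases hx0.lt_or_eq with hx | hx
    · exact nonneg_of_mul_nonneg_right a1 hx
    rcases hz0.lt_or_eq with hz | hz
    · exact nonneg_of_mul_nonneg_right a2 hz
    · -- x = z = 0
      have a3 := hpos 1 1
      have a4 := hpos 1 (-1)
      rw [← hx, ← hz] at a3 a4 ⊢
      have : y = 0 := by linarith
      rw [this]; norm_num
  set m := min (Dt A) (Dt B) with hm
  set m' := max (Dt A) (Dt B) with hm'
  have hm0 : 0 < m := lt_min hAD hBD
  have hmm : m ≤ m' := min_le_max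
  have hmδ : m = Dt A ∨ m = Dt B := by
    rcases min_choice (Dt A) (Dt B) with h | h
    · left; exact h
    · right; exact h
  have hmδ' : m' = Dt A ∨ m' = Dt B := by
    rcases max_choice (Dt A) (Dt B) with h | h
    · left; exact h
    · right; exact h
  rcases hD0.lt_or_eq with hD | hD
  swap
  · -- degenerate case: a simple laminate
    rw [hgD, ← hD] at hlo hhi
    have htr : p * x + 2 * q * y + r * z = 1 := by linarith
    rcases hx0.lt_or_eq with hx | hx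
    · -- normal `(x, y)`
      refine Lam.layer A B M θ x y hKA hKB h0 h1 (Or.inl hx.ne') ?_
      intro X Y
      rw [hM X Y]
      have e : (1 - θ) * Q A x y + θ * Q B x y = x := by
        rw [hQ]
        have e1 : p * x ^ 2 + 2 * q * x * y + r * y ^ 2 = x * (p * x + 2 * q * y + r * z) -
            r * (x * z - y ^ 2) := by ring
        rw [e1, htr, ← hD]; ring
      rw [e]
      have hy : y ^ 2 = x * z := by linarith
      field_simp
      linear_combination (θ * (1 - θ)) * ((A 1 - B 1) * X + (A 2 - B 2) * Y + (A 4 - B 4)) ^ 2 * hy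
    · -- `x = 0`, so `y = 0`
      have hy : y = 0 := by
        have : y ^ 2 = 0 := by rw [← hx] at hD; linarith
        exact pow_eq_zero_iff (two_ne_zero) |>.1 this
      have hz : 0 < z := by
        rcases hz0.lt_or_eq with hz | hz
        · exact hz
        · exfalso
          rw [← hx, ← hz, hy] at htr
          norm_num at htr
      refine Lam.layer A B M θ y z hKA hKB h0 h1 (Or.inr hz.ne') ?_
      intro X Y
      rw [hM X Y]
      have e : (1 - θ) * Q A y z + θ * Q B y z = z := by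
        rw [hQ, hy]
        rw [← hx, hy] at htr
        have e1 : p * (0 : ℝ) ^ 2 + 2 * q * 0 * z + r * z ^ 2 = z * (p * 0 + 2 * q * 0 + r * z) := by
          ring
        rw [e1, htr, mul_one]
      rw [e, ← hx, hy]
      field_simp
      ring
  -- nondegenerate case
  have hz : 0 < z := by
    rcases hz0.lt_or_eq with hz | hz
    · exact hz
    · exfalso; rw [← hz] at hD; nlinarith [sq_nonneg y]
  have hx : 0 < x := by
    rcases hx0.lt_or_eq with hx | hx
    · exact hx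
    · exfalso; rw [← hx] at hD; nlinarith [sq_nonneg y]
  -- `z det L' ≤ L'_{11}`
  have hzL : z * (p * r - q ^ 2) ≤ p := by
    have h2 := hP 0 1
    have e : p * (p * y ^ 2 + 2 * q * y * z + r * z ^ 2) =
        (p * y + q * z) ^ 2 + (p * r - q ^ 2) * z ^ 2 := by ring
    have h3 : p * (p * y ^ 2 + 2 * q * y * z + r * z ^ 2) ≤ p * z := by
      apply mul_le_mul_of_nonneg_left _ hp0.le
      have e5 : x * 0 + y * 1 = y := by ring
      have e6 : y * 0 + z * 1 = z := by ring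
      rw [e5, e6] at h2
      linarith
    rw [e] at h3
    have h4 : z * (z * (p * r - q ^ 2)) ≤ z * p := by nlinarith [sq_nonneg (p * y + q * z)]
    exact le_of_mul_le_mul_left h4 hz
  -- slopes
  have hslope : ∀ D, 0 < D → -p + (p * r - q ^ 2 - D) * z < 0 := by
    intro D hD'
    nlinarith
  have haff : ∀ D l : ℝ, gD A B θ D (x + l) y z =
      gD A B θ D x y z + l * (-p + (p * r - q ^ 2 - D) * z) := by
    intro D l
    rw [hgD, hgD]; ring
  have hident : ∀ l : ℝ, (z - p * ((x + l) * z - y ^ 2)) * ((x + l) - r * ((x + l) * z - y ^ 2)) -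
      (y + q * ((x + l) * z - y ^ 2)) ^ 2 =
      ((x + l) * z - y ^ 2) * (gD A B θ m (x + l) y z + m * ((x + l) * z - y ^ 2)) := by
    intro l
    rw [hgD]; ring
  -- `Y_11 > 0` at `Z`
  have ha0 : 0 < z - p * (x * z - y ^ 2) := by
    have h2 := hP z (-y)
    have e1 : x * z + y * (-y) = x * z - y ^ 2 := by ring
    have e2 : y * z + z * (-y) = 0 := by ring
    rw [e1, e2] at h2
    have h3 : (x * z - y ^ 2) * (p * (x * z - y ^ 2)) ≤ (x * z - y ^ 2) * z := by nlinarith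
    have h4 : p * (x * z - y ^ 2) ≤ z := le_of_mul_le_mul_left h3 hD
    have h5 : z - p * (x * z - y ^ 2) ≠ 0 := by
      intro h6
      have h7 := hident 0
      rw [add_zero, h6, zero_mul] at h7
      have : 0 < (x * z - y ^ 2) * (gD A B θ m x y z + m * (x * z - y ^ 2)) := by positivity
      have t6 := sq_nonneg (y + q * (x * z - y ^ 2))
      linarith
    exact lt_of_le_of_ne (by linarith) (Ne.symm h5)
  obtain ⟨σ, hσ⟩ : ∃ σ, σ = -p + (p * r - q ^ 2 - m) * z := ⟨_, rfl⟩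
  obtain ⟨σ', hσ'⟩ : ∃ σ', σ' = -p + (p * r - q ^ 2 - m') * z := ⟨_, rfl⟩
  have hσ0 : σ < 0 := by rw [hσ]; exact hslope m hm0
  have hσ0' : σ' < 0 := by rw [hσ']; exact hslope m' (lt_of_lt_of_le hm0 hmm)
  obtain ⟨l, hl⟩ : ∃ l, l = -(gD A B θ m x y z) / σ := ⟨_, rfl⟩
  obtain ⟨l', hl'⟩ : ∃ l', l' = -(gD A B θ m' x y z) / σ' := ⟨_, rfl⟩
  have hlσ : l * σ = -(gD A B θ m x y z) := by rw [hl]; exact div_mul_cancel₀ _ hσ0.ne
  have hlσ' : l' * σ' = -(gD A B θ m' x y z) := by rw [hl']; exact div_mul_cancel₀ _ hσ0'.ne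
  have hl0 : 0 ≤ l := by
    rw [hl]; exact div_nonneg_of_nonpos (by linarith) hσ0.le
  have hl0' : l' ≤ 0 := by
    rw [hl']; exact div_nonpos_of_nonneg_of_nonpos (by linarith) hσ0'.le
  have hg : gD A B θ m (x + l) y z = 0 := by rw [haff, ← hσ, hlσ]; ring
  have hg' : gD A B θ m' (x + l') y z = 0 := by rw [haff, ← hσ', hlσ']; ring
  -- the two extreme points
  have hlz : 0 ≤ l * z := mul_nonneg hl0 hz.le
  have hlz' : l' * z ≤ 0 := mul_nonpos_of_nonpos_of_nonneg hl0' hz.le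
  have hDl : 0 < (x + l) * z - y ^ 2 := by
    have e : (x + l) * z - y ^ 2 = (x * z - y ^ 2) + l * z := by ring
    rw [e]; linarith
  have hDl' : 0 < (x + l') * z - y ^ 2 := by
    by_contra hcon
    push Not at hcon
    have e1 : gD A B θ m' (x + l') y z = gD A B θ m (x + l') y z -
        (m' - m) * ((x + l') * z - y ^ 2) := by rw [hgD, hgD]; ring
    have e2 : gD A B θ m (x + l') y z = gD A B θ m x y z + l' * σ := by rw [haff, ← hσ]
    rw [hg', e2] at e1
    have t1 : 0 ≤ l' * σ := mul_nonneg_of_nonpos_of_nonpos hl0' hσ0.le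
    have t2 : 0 ≤ (m' - m) * -((x + l') * z - y ^ 2) := mul_nonneg (by linarith) (by linarith)
    have t3 : l' * σ = 0 := by
      have e3 : (m' - m) * ((x + l') * z - y ^ 2) =
          -((m' - m) * -((x + l') * z - y ^ 2)) := by ring
      rw [e3] at e1
      linarith
    have t4 : l' = 0 := by
      rcases mul_eq_zero.1 t3 with h | h
      · exact h
      · exact absurd h hσ0.ne
    rw [t4, add_zero] at hcon
    linarith
  have hal' : 0 < z - p * ((x + l') * z - y ^ 2) := by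
    have e : z - p * ((x + l') * z - y ^ 2) = (z - p * (x * z - y ^ 2)) + p * -(l' * z) := by ring
    have t : 0 ≤ p * -(l' * z) := mul_nonneg hp0.le (by linarith)
    rw [e]; linarith
  have hal : 0 < z - p * ((x + l) * z - y ^ 2) := by
    by_contra hcon
    push Not at hcon
    -- the zero of the affine function
    have hpz : 0 < p * z := by positivity
    obtain ⟨t, ht⟩ : ∃ t, t = (z - p * (x * z - y ^ 2)) / (p * z) := ⟨_, rfl⟩
    have ht1 : t * (p * z) = z - p * (x * z - y ^ 2) := by rw [ht]; field_simp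
    have ht0 : 0 ≤ t := by rw [ht]; positivity
    have htl : t ≤ l := by
      have : t * (p * z) ≤ l * (p * z) := by
        rw [ht1]
        have e : z - p * ((x + l) * z - y ^ 2) = (z - p * (x * z - y ^ 2)) - l * (p * z) := by ring
        rw [e] at hcon
        linarith
      exact le_of_mul_le_mul_right this hpz
    have hz0' : z - p * ((x + t) * z - y ^ 2) = 0 := by
      have e : z - p * ((x + t) * z - y ^ 2) = (z - p * (x * z - y ^ 2)) - t * (p * z) := by ring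
      rw [e, ht1]; ring
    have h7 := hident t
    rw [hz0', zero_mul] at h7
    have hDt : 0 < (x + t) * z - y ^ 2 := by
      have e : (x + t) * z - y ^ 2 = (x * z - y ^ 2) + t * z := by ring
      have t5 : 0 ≤ t * z := mul_nonneg ht0 hz.le
      rw [e]; linarith
    have hgt : 0 ≤ gD A B θ m (x + t) y z := by
      have e1 : gD A B θ m (x + t) y z = gD A B θ m (x + l) y z + (t - l) * σ := by
        rw [haff, haff, ← hσ]; ring
      rw [e1, hg, zero_add]
      exact mul_nonneg_of_nonpos_of_nonpos (by linarith) hσ0.le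
    have : 0 < ((x + t) * z - y ^ 2) * (gD A B θ m (x + t) y z + m * ((x + t) * z - y ^ 2)) := by
      positivity
    have t6 := sq_nonneg (y + q * ((x + t) * z - y ^ 2))
    linarith
  have hxl : 0 < x + l := by linarith
  have hxl' : 0 < x + l' := by
    have t7 : 0 < (x + l') * z := by linarith [sq_nonneg y]
    exact pos_of_mul_pos_left t7 hz.le
  rw [hp] at hal hal'
  rcases hl0.lt_or_eq with hlp | hlp
  swap
  · -- `M` itself
    have e : x + l = x := by rw [← hlp]; ring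
    rw [e] at hxl hDl hal hg
    exact a2_matrix K hKA hKB ⟨hA0, hAD⟩ ⟨hB0, hBD⟩ h0 h1 hxl hDl hal hmδ hg hM
  rcases hl0'.lt_or_eq with hlp' | hlp'
  swap
  · have e : x + l' = x := by rw [hlp']; ring
    rw [e] at hxl' hDl' hal' hg'
    exact a2_matrix K hKA hKB ⟨hA0, hAD⟩ ⟨hB0, hBD⟩ h0 h1 hxl' hDl' hal' hmδ' hg' hM
  obtain ⟨M₁, hM₁⟩ := a2_exists A B θ (x + l) y z
  obtain ⟨M₂, hM₂⟩ := a2_exists A B θ (x + l') y z
  have hL₁ := a2_matrix K hKA hKB ⟨hA0, hAD⟩ ⟨hB0, hBD⟩ h0 h1 hxl hDl hal hmδ hg hM₁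
  have hL₂ := a2_matrix K hKA hKB ⟨hA0, hAD⟩ ⟨hB0, hBD⟩ h0 h1 hxl' hDl' hal' hmδ' hg' hM₂
  have hll : 0 < l - l' := by linarith
  obtain ⟨τ, hτ⟩ : ∃ τ, τ = -l' / (l - l') := ⟨_, rfl⟩
  have hτ1 : τ * (l - l') = -l' := by rw [hτ]; field_simp
  have hτ0 : 0 < τ := by rw [hτ]; apply div_pos <;> linarith
  have hτ2 : τ < 1 := by
    rw [hτ, div_lt_one hll]; linarith
  have hdiff : ∀ X Y : ℝ, W M₁ X Y = W M₂ X Y + (-(θ * (1 - θ) * (l - l'))) *
      ((A 0 - B 0) * X + (A 1 - B 1) * Y + (A 3 - B 3)) ^ 2 := by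
    intro X Y
    rw [hM₁ X Y, hM₂ X Y]; ring
  have havg : ∀ X Y : ℝ, W M X Y = τ * W M₁ X Y + (1 - τ) * W M₂ X Y := by
    intro X Y
    rw [hM X Y, hM₁ X Y, hM₂ X Y]
    linear_combination (θ * (1 - θ)) * ((A 0 - B 0) * X + (A 1 - B 1) * Y + (A 3 - B 3)) ^ 2 * hτ1
  by_cases hne : A 0 - B 0 = 0 ∧ A 1 - B 1 = 0
  · have hlay := lay_avg (A := M₁) (B := M₂) (M := M) (τ := τ) (ξ := 1) (η := 0)
      (μ := -(θ * (1 - θ) * (l - l'))) (β₁ := A 0 - B 0) (β₂ := A 1 - B 1) (β₃ := A 3 - B 3)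
      (by rw [hne.1, hne.2]; ring) hdiff havg
    exact Lam.layer M₁ M₂ M τ 1 0 hL₁ hL₂ hτ0 hτ2 (Or.inl one_ne_zero) hlay
  · have hlay := lay_avg (A := M₁) (B := M₂) (M := M) (τ := τ) (ξ := -(A 1 - B 1)) (η := A 0 - B 0)
      (μ := -(θ * (1 - θ) * (l - l'))) (β₁ := A 0 - B 0) (β₂ := A 1 - B 1) (β₃ := A 3 - B 3)
      (by ring) hdiff havg
    refine Lam.layer M₁ M₂ M τ _ _ hL₁ hL₂ hτ0 hτ2 ?_ hlay
    by_contra hcon
    push Not at hcon
    exact hne ⟨hcon.2, by linarith [hcon.1]⟩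

end Pool.Agent.Lib.MP_2a9317_an.N1
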