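import Pool.Agent.Lib.MP_2a9317_an.N1.BD

set_option autoImplicit false

namespace Pool.Agent.Lib.MP_2a9317_an.N1

open MeasureTheory Matrix Filter Topology
open scoped ContDiff


/-!
Module B, job B1: `toPh_ofPh, ofPh_symm, ofPh_toPh, continuous_ofPh, continuous_toPh,
affW_eq, ell_of_posDef, isPotential_iff, grad_one, affEffective_iff`.
-/




theorem toPh_ofPh (K : Ph) : toPh (ofPh K) = K := by
  ext i
  fin_cases i <;> simp [toPh, ofPh]

theorem ofPh_symm (K : Ph) : (ofPh K).IsSymm := by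
  ext i j
  rw [Matrix.transpose_apply]
  rcases i with ⟨a, x⟩ | u <;> rcases j with ⟨b, y⟩ | v
  · show (if b = a then (if b = 0 then K 0 else K 2) else K 1)
      = (if a = b then (if a = 0 then K 0 else K 2) else K 1)
    by_cases h : a = b
    · subst h; rfl
    · rw [if_neg h, if_neg (Ne.symm h)]
  · rfl
  · rfl
  · rfl

theorem ofPh_toPh {M : Mt} (hM : M.IsSymm) : ofPh (toPh M) = M := by
  have hs : ∀ i j, M j i = M i j := fun i j => congrFun (congrFun hM i) j
  ext i j
  rcases i with ⟨a, x⟩ | u <;> rcases j with ⟨b, y⟩ | v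
  · have hx : x = 0 := Subsingleton.elim _ _
    have hy : y = 0 := Subsingleton.elim _ _
    subst hx hy
    fin_cases a <;> fin_cases b
    · rfl
    · rfl
    · exact hs _ _
    · rfl
  · have hx : x = 0 := Subsingleton.elim _ _
    subst hx
    fin_cases a <;> rfl
  · have hy : y = 0 := Subsingleton.elim _ _
    subst hy
    fin_cases b
    · exact hs _ _
    · exact hs _ _
  · rfl

theorem continuous_ofPh : Continuous ofPh := by
  refine continuous_matrix fun i j => ?_
  rcases i with ⟨a, x⟩ | u <;> rcases j with ⟨b, y⟩ | v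
  · show Continuous fun K : Ph => if a = b then (if a = 0 then K 0 else K 2) else K 1
    by_cases h : a = b
    · by_cases h' : a = 0
      · simp only [if_pos h, if_pos h']; exact continuous_apply 0
      · simp only [if_pos h, if_neg h']; exact continuous_apply 2
    · simp only [if_neg h]; exact continuous_apply 1
  · show Continuous fun K : Ph => if a = 0 then K 3 else K 4
    by_cases h' : a = 0
    · simp only [if_pos h']; exact continuous_apply 3
    · simp only [if_neg h']; exact continuous_apply 4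
  · show Continuous fun K : Ph => if b = 0 then K 3 else K 4
    by_cases h' : b = 0
    · simp only [if_pos h']; exact continuous_apply 3
    · simp only [if_neg h']; exact continuous_apply 4
  · show Continuous fun K : Ph => K 5
    exact continuous_apply 5

theorem continuous_toPh : Continuous toPh := by
  refine continuous_pi fun i => ?_
  have h : ∀ a b, Continuous fun M : Mt => M a b := fun a b => continuous_id.matrix_elem a b
  fin_cases i
  · exact h _ _
  · exact h _ _
  · exact h _ _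
  · exact h _ _
  · exact h _ _
  · exact h _ _

theorem affW_eq {M : Mt} (hM : M.IsSymm) (F : Ent 1 → ℝ) :
    affW M F = W (toPh M) (F (0, 0)) (F (1, 0)) := by
  have hs : ∀ i j, M j i = M i j := fun i j => congrFun (congrFun hM i) j
  have h1 := hs (Sum.inl (0, 0)) (Sum.inl (1, 0))
  have h2 := hs (Sum.inl (0, 0)) (Sum.inr ())
  have h3 := hs (Sum.inl (1, 0)) (Sum.inr ())
  have e0 : toPh M 0 = M (Sum.inl (0, 0)) (Sum.inl (0, 0)) := rfl
  have e1 : toPh M 1 = M (Sum.inl (0, 0)) (Sum.inl (1, 0)) := rfl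
  have e2 : toPh M 2 = M (Sum.inl (1, 0)) (Sum.inl (1, 0)) := rfl
  have e3 : toPh M 3 = M (Sum.inl (0, 0)) (Sum.inr ()) := rfl
  have e4 : toPh M 4 = M (Sum.inl (1, 0)) (Sum.inr ()) := rfl
  have e5 : toPh M 5 = M (Sum.inr ()) (Sum.inr ()) := rfl
  unfold W
  rw [e0, e1, e2, e3, e4, e5]
  simp only [affW, aff, dotProduct, mulVec, Fintype.sum_sum_type, Fintype.sum_prod_type,
    Fin.sum_univ_two, Finset.univ_unique, Finset.sum_singleton, Sum.elim_inl, Sum.elim_inr,
    Fin.default_eq_zero, Fin.isValue, PUnit.default_eq_unit]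
  rw [h1, h2, h3]
  ring

theorem ell_of_posDef {M : Mt} (hM : M.PosDef) : Ell (toPh M) := by
  have hsym : M.IsSymm := by
    have := hM.isHermitian
    rw [Matrix.IsHermitian, Matrix.conjTranspose_eq_transpose_of_trivial] at this
    exact this
  have hs : ∀ i j, M j i = M i j := fun i j => congrFun (congrFun hsym i) j
  have key : ∀ x y : ℝ, ¬ (x = 0 ∧ y = 0) → 0 < Q (toPh M) x y := by
    intro x y hxy
    have hne : (Sum.elim (fun q : Ent 1 => if q.1 = 0 then x else y) (fun _ => 0) :
        Ent 1 ⊕ Unit → ℝ) ≠ 0 := by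
      intro h
      apply hxy
      constructor
      · have := congrFun h (Sum.inl (0, 0))
        simpa using this
      · have := congrFun h (Sum.inl (1, 0))
        simpa using this
    have h1 := hM.dotProduct_mulVec_pos hne
    rw [star_trivial] at h1
    simp only [dotProduct, mulVec, Fintype.sum_sum_type, Fintype.sum_prod_type,
      Fin.sum_univ_two, Finset.univ_unique, Finset.sum_singleton, Sum.elim_inl, Sum.elim_inr,
      Fin.default_eq_zero, Fin.isValue, PUnit.default_eq_unit, if_true,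
      if_neg (show (1 : Fin 2) ≠ 0 from by decide)] at h1
    rw [hs (Sum.inl (0, 0)) (Sum.inl (1, 0))] at h1
    have e0 : toPh M 0 = M (Sum.inl (0, 0)) (Sum.inl (0, 0)) := rfl
    have e1 : toPh M 1 = M (Sum.inl (0, 0)) (Sum.inl (1, 0)) := rfl
    have e2 : toPh M 2 = M (Sum.inl (1, 0)) (Sum.inl (1, 0)) := rfl
    unfold Q
    rw [e0, e1, e2]
    nlinarith [h1]
  have h0 : 0 < toPh M 0 := by
    have := key 1 0 (by norm_num)
    unfold Q at this
    simpa using this
  refine ⟨h0, ?_⟩
  have h2 := key (-(toPh M 1)) (toPh M 0) (fun h => h0.ne' h.2)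
  have h3 : Q (toPh M) (-(toPh M 1)) (toPh M 0) = toPh M 0 * Dt (toPh M) := by
    unfold Q Dt; ring
  rw [h3] at h2
  exact (mul_pos_iff_of_pos_left h0).1 h2

theorem isPotential_iff (u : ℝ × ℝ → Fin 1 → ℝ) : IsPotential u ↔ IsPot (fun p => u p 0) := by
  constructor
  · rintro ⟨h1, h2⟩
    refine ⟨(contDiff_pi.1 h1) 0, fun x y => ⟨?_, ?_⟩⟩
    · show u (x + 1, y) 0 = u (x, y) 0
      rw [(h2 x y).1]
    · show u (x, y + 1) 0 = u (x, y) 0
      rw [(h2 x y).2]
  · rintro ⟨h1, h2⟩
    refine ⟨?_, fun x y => ⟨?_, ?_⟩⟩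
    · rw [contDiff_pi]
      intro i
      have hi : i = 0 := Subsingleton.elim _ _
      subst hi
      exact h1
    · ext i
      have hi : i = 0 := Subsingleton.elim _ _
      subst hi
      exact (h2 x y).1
    · ext i
      have hi : i = 0 := Subsingleton.elim _ _
      subst hi
      exact (h2 x y).2

theorem grad_one {u : ℝ × ℝ → Fin 1 → ℝ} (hu : IsPotential u) (p : ℝ × ℝ) :
    grad u p (0, 0) = dX (fun p => u p 0) p ∧ grad u p (1, 0) = dY (fun p => u p 0) p := by
  have hd : DifferentiableAt ℝ u p := (hu.1.differentiable (by simp)).differentiableAt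
  have h1 : ∀ v : ℝ × ℝ, fderiv ℝ (fun p => u p 0) p v = fderiv ℝ u p v 0 := by
    intro v
    have h2 : HasFDerivAt (fun p => u p 0)
        ((ContinuousLinearMap.proj (R := ℝ) (φ := fun _ : Fin 1 => ℝ) 0).comp (fderiv ℝ u p)) p :=
      (hasFDerivAt_pi'.1 hd.hasFDerivAt) 0
    rw [h2.fderiv]
    rfl
  constructor
  · show fderiv ℝ u p (dir 0) 0 = fderiv ℝ (fun p => u p 0) p (1, 0)
    rw [h1]
    rfl
  · show fderiv ℝ u p (dir 1) 0 = fderiv ℝ (fun p => u p 0) p (0, 1)
    rw [h1]
    rfl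

/-- the energy integrands agree -/
lemma aff_energy {k : ℕ} (K : Fin k → Mt) (hK : ∀ j, (K j).IsSymm) (χ : ℝ × ℝ → Fin k)
    (F : Ent 1 → ℝ) {u : ℝ × ℝ → Fin 1 → ℝ} (hu : IsPotential u) :
    (avg fun p => affW (K (χ p)) (F + grad u p))
      = En (fun j => toPh (K j)) χ (F (0, 0)) (F (1, 0)) (fun p => u p 0) := by
  unfold En
  congr 1
  ext p
  rw [affW_eq (hK _), Pi.add_apply, Pi.add_apply, (grad_one hu p).1, (grad_one hu p).2]

/-- the energies are bounded below -/
lemma En_lower {k : ℕ} (K : Fin k → Ph) (hK : ∀ j, Ell (K j)) {χ : ℝ × ℝ → Fin k}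
    (hχ : IsPartition χ) : ∃ C : ℝ, ∀ x y u, IsPot u → C ≤ En K χ x y u := by
  obtain ⟨m, C, hm, H⟩ := W_coercive K hK
  refine ⟨-C, fun x y u hu => ?_⟩
  have h1 : BM (fun p => W (K (χ p)) (x + dX u p) (y + dY u p)) :=
    BM.W K hχ.1 ((BM.const x).add (bm_dX hu)) ((BM.const y).add (bm_dY hu))
  have h2 := avg_mono' (BM.const (-C)) h1 (fun p => by
    have h3 := H (χ p) (x + dX u p) (y + dY u p)
    have h4 : 0 ≤ m * ((x + dX u p) ^ 2 + (y + dY u p) ^ 2) := by positivity
    linarith)
  rw [avg_const] at h2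
  exact h2

theorem affEffective_iff {k : ℕ} (K : Fin k → Mt) (hK : ∀ j, (K j).PosDef) {χ : ℝ × ℝ → Fin k}
    (hχ : IsPartition χ) (M : Mt) :
    AffEffective K χ M ↔ M.IsSymm ∧ Eff (fun j => toPh (K j)) χ (toPh M) := by
  have hsym : ∀ j, (K j).IsSymm := by
    intro j
    have := (hK j).isHermitian
    rw [Matrix.IsHermitian, Matrix.conjTranspose_eq_transpose_of_trivial] at this
    exact this
  obtain ⟨C, hC⟩ := En_lower (fun j => toPh (K j)) (fun j => ell_of_posDef (hK j)) hχ
  have hstar : ∀ F : Ent 1 → ℝ, affStar K χ F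
      = ⨅ u : {u : ℝ × ℝ → Fin 1 → ℝ // IsPotential u},
        En (fun j => toPh (K j)) χ (F (0, 0)) (F (1, 0)) (fun p => u.1 p 0) := by
    intro F
    unfold affStar
    congr 1
    ext u
    exact aff_energy K hsym χ F u.2
  have hne : Nonempty {u : ℝ × ℝ → Fin 1 → ℝ // IsPotential u} :=
    ⟨⟨fun _ _ => 0, (isPotential_iff _).2 (IsPot.const 0)⟩⟩
  have hbdd : ∀ F : Ent 1 → ℝ, BddBelow (Set.range fun u : {u : ℝ × ℝ → Fin 1 → ℝ // IsPotential u} =>
      En (fun j => toPh (K j)) χ (F (0, 0)) (F (1, 0)) (fun p => u.1 p 0)) := by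
    intro F
    refine ⟨C, ?_⟩
    rintro _ ⟨u, rfl⟩
    exact hC _ _ _ ((isPotential_iff _).1 u.2)
  constructor
  · rintro ⟨hM, h⟩
    refine ⟨hM, fun x y => ?_⟩
    let F : Ent 1 → ℝ := fun q => if q.1 = 0 then x else y
    have hF0 : F (0, 0) = x := rfl
    have hF1 : F (1, 0) = y := rfl
    have h1 := h F
    rw [hstar, affW_eq hM, hF0, hF1] at h1
    have hb := hbdd F
    rw [hF0, hF1] at hb
    constructor
    · intro u hu
      rw [← h1]
      have := ciInf_le hb ⟨fun p _ => u p, (isPotential_iff _).2 hu⟩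
      exact this
    · intro ε hε
      have h2 : (⨅ u : {u : ℝ × ℝ → Fin 1 → ℝ // IsPotential u},
        En (fun j => toPh (K j)) χ x y (fun p => u.1 p 0)) < W (toPh M) x y + ε := by
        rw [h1]; linarith
      obtain ⟨u, hu⟩ := exists_lt_of_ciInf_lt h2
      exact ⟨fun p => u.1 p 0, (isPotential_iff _).1 u.2, hu.le⟩
  · rintro ⟨hM, h⟩
    refine ⟨hM, fun F => ?_⟩
    rw [hstar, affW_eq hM]
    obtain ⟨h1, h2⟩ := h (F (0, 0)) (F (1, 0))
    apply le_antisymm
    · apply le_of_forall_pos_le_add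
      intro ε hε
      obtain ⟨u, hu, hle⟩ := h2 ε hε
      exact (ciInf_le (hbdd F) ⟨fun p _ => u p, (isPotential_iff _).2 hu⟩).trans hle
    · exact le_ciInf fun u => h1 _ ((isPotential_iff _).1 u.2)

end Pool.Agent.Lib.MP_2a9317_an.N1
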