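import Pool.Agent.Lib.MP_2a9317_an.N1.B1

set_option autoImplicit false

namespace Pool.Agent.Lib.MP_2a9317_an.N1

open MeasureTheory Matrix Filter Topology
open scoped ContDiff






/-- B5. layering: for positive definite quadratic parts, `AffLayer` is `Lay` -/
theorem affLayer_iff {A B M : Mt} (hAs : A.IsSymm) (hBs : B.IsSymm) (hA : Ell (toPh A))
    (hB : Ell (toPh B)) {θ : ℝ} (h0 : 0 < θ) (h1 : θ < 1) {ξ : Fin 2 → ℝ} (hξ : ξ ≠ 0) :
    AffLayer A B θ ξ M ↔ M.IsSymm ∧ Lay (toPh A) (toPh B) θ (ξ 0) (ξ 1) (toPh M) := by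
  have hξ' : ξ 0 ≠ 0 ∨ ξ 1 ≠ 0 := by
    by_contra hcon
    push Not at hcon
    apply hξ
    ext i
    fin_cases i
    · exact hcon.1
    · exact hcon.2
  set M0 : Ph := layM (toPh A) (toPh B) θ (ξ 0) (ξ 1) with hM0
  have hL0 : Lay (toPh A) (toPh B) θ (ξ 0) (ξ 1) M0 := (lay_iff _ _ _ _ _ _).2 rfl
  have key : ∀ F : Ent 1 → ℝ, (⨅ a : Fin 1 → ℝ, (θ * affW A (F + (1 - θ) • tens ξ a)
      + (1 - θ) * affW B (F - θ • tens ξ a))) = W M0 (F (0, 0)) (F (1, 0)) := by
    intro F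
    have hval : ∀ a : Fin 1 → ℝ, θ * affW A (F + (1 - θ) • tens ξ a)
        + (1 - θ) * affW B (F - θ • tens ξ a)
        = θ * W (toPh A) (F (0, 0) + (1 - θ) * a 0 * ξ 0) (F (1, 0) + (1 - θ) * a 0 * ξ 1)
          + (1 - θ) * W (toPh B) (F (0, 0) - θ * a 0 * ξ 0) (F (1, 0) - θ * a 0 * ξ 1) := by
      intro a
      rw [affW_eq hAs, affW_eq hBs]
      have e1 : (F + (1 - θ) • tens ξ a) (0, 0) = F (0, 0) + (1 - θ) * a 0 * ξ 0 := by
        simp [tens]; ring
      have e2 : (F + (1 - θ) • tens ξ a) (1, 0) = F (1, 0) + (1 - θ) * a 0 * ξ 1 := by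
        simp [tens]; ring
      have e3 : (F - θ • tens ξ a) (0, 0) = F (0, 0) - θ * a 0 * ξ 0 := by
        simp [tens]; ring
      have e4 : (F - θ • tens ξ a) (1, 0) = F (1, 0) - θ * a 0 * ξ 1 := by
        simp [tens]; ring
      rw [e1, e2, e3, e4]
    have hle : ∀ a : Fin 1 → ℝ, W M0 (F (0, 0)) (F (1, 0)) ≤
        θ * affW A (F + (1 - θ) • tens ξ a) + (1 - θ) * affW B (F - θ • tens ξ a) := by
      intro a
      rw [hval a]
      exact lay_le hA hB h0 h1 hξ' hL0 _ _ (a 0)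
    apply le_antisymm
    · obtain ⟨t, ht, -, -, -⟩ := lay_attain hA hB h0 h1 hξ' hL0 (F (0, 0)) (F (1, 0))
      rw [ht]
      have h3 := ciInf_le (f := fun a : Fin 1 → ℝ => θ * affW A (F + (1 - θ) • tens ξ a)
        + (1 - θ) * affW B (F - θ • tens ξ a))
        ⟨W M0 (F (0, 0)) (F (1, 0)), by rintro _ ⟨a, rfl⟩; exact hle a⟩ (fun _ => t)
      refine h3.trans (le_of_eq ?_)
      exact hval (fun _ => t)
    · exact le_ciInf hle
  constructor
  · rintro ⟨hMs, hF⟩
    refine ⟨hMs, ?_⟩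
    have e : toPh M = M0 := by
      apply ph_ext
      intro x y
      have h2 := hF (fun e => if e.1 = 0 then x else y)
      rw [key, affW_eq hMs] at h2
      simpa using h2
    rw [e]
    exact hL0
  · rintro ⟨hMs, hlay⟩
    refine ⟨hMs, fun F => ?_⟩
    have e : toPh M = M0 := (lay_iff _ _ _ _ _ _).1 hlay
    rw [key, affW_eq hMs, e]

/-- B6. -/
theorem lam_ell {k : ℕ} (K : Fin k → Ph) (hK : ∀ j, Ell (K j)) {M : Ph} (hM : Lam K M) :
    Ell M := by
  induction hM with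
  | phase j => exact hK j
  | layer A B M θ ξ η _ _ h0 h1 hξ hM ihA ihB => exact lay_ell ihA ihB h0 h1 hξ hM

theorem affLaminate_iff {k : ℕ} (K : Fin k → Mt) (hK : ∀ j, (K j).PosDef) (M : Mt) :
    AffLaminate K M ↔ M.IsSymm ∧ Lam (fun j => toPh (K j)) (toPh M) := by
  have hs : ∀ j, (K j).IsSymm := by
    intro j
    have := (hK j).1
    rwa [Matrix.IsHermitian, Matrix.conjTranspose_eq_transpose_of_trivial] at this
  have hE : ∀ j, Ell (toPh (K j)) := fun j => ell_of_posDef (hK j)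
  constructor
  · intro h
    induction h with
    | phase j => exact ⟨hs j, Lam.phase (K := fun j => toPh (K j)) j⟩
    | layer A B M θ ξ _ _ h0 h1 hξ hM ihA ihB =>
      have hEA := lam_ell _ hE ihA.2
      have hEB := lam_ell _ hE ihB.2
      obtain ⟨hMs, hlay⟩ := (affLayer_iff ihA.1 ihB.1 hEA hEB h0 h1 hξ).1 hM
      refine ⟨hMs, Lam.layer _ _ _ θ (ξ 0) (ξ 1) ihA.2 ihB.2 h0 h1 ?_ hlay⟩
      by_contra hcon
      push Not at hcon
      apply hξ
      ext i
      fin_cases i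
      · exact hcon.1
      · exact hcon.2
  · rintro ⟨hMs, hlam⟩
    have key : ∀ P : Ph, Lam (fun j => toPh (K j)) P → AffLaminate K (ofPh P) := by
      intro P hP
      induction hP with
      | phase j =>
        show AffLaminate K (ofPh (toPh (K j)))
        rw [ofPh_toPh (hs j)]
        exact AffLaminate.phase j
      | layer A B M θ ξ η hA hB h0 h1 hξ hM ihA ihB =>
        have hξ' : (![ξ, η] : Fin 2 → ℝ) ≠ 0 := by
          intro h
          rcases hξ with h' | h'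
          · exact h' (congrFun h 0)
          · exact h' (congrFun h 1)
        refine AffLaminate.layer (ofPh A) (ofPh B) (ofPh M) θ ![ξ, η] ihA ihB h0 h1 hξ' ?_
        rw [affLayer_iff (ofPh_symm A) (ofPh_symm B) (by rw [toPh_ofPh]; exact lam_ell _ hE hA)
          (by rw [toPh_ofPh]; exact lam_ell _ hE hB) h0 h1 hξ', toPh_ofPh, toPh_ofPh, toPh_ofPh]
        exact ⟨ofPh_symm M, hM⟩
    have h := key _ hlam
    rwa [ofPh_toPh hMs] at h

end Pool.Agent.Lib.MP_2a9317_an.N1
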