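import Pool.Agent.Lib.MP_2a9317_an.N1.B5

set_option autoImplicit false

namespace Pool.Agent.Lib.MP_2a9317_an.N1

open MeasureTheory Matrix Filter Topology
open scoped ContDiff






/-- B7. the closures coincide -/
theorem affG_one_two (K : Fin 2 → Mt) (hK : ∀ j, (K j).PosDef) : affG K = affGL K := by
  have hE : ∀ j, Ell (toPh (K j)) := fun j => ell_of_posDef (hK j)
  apply Set.Subset.antisymm
  · refine closure_mono ?_
    rintro M ⟨χ, hχ, hM⟩
    obtain ⟨hMs, hEff⟩ := (affEffective_iff K hK hχ M).1 hM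
    exact (affLaminate_iff K hK M).2 ⟨hMs, eff_lam _ hE hχ hEff⟩
  · refine closure_minimal ?_ isClosed_closure
    intro M hM
    obtain ⟨hMs, hlam⟩ := (affLaminate_iff K hK M).1 hM
    have h1 := lam_mem_GE _ hE hlam
    have h2 := image_closure_subset_closure_image continuous_ofPh (Set.mem_image_of_mem ofPh h1)
    rw [ofPh_toPh hMs] at h2
    refine closure_mono ?_ h2
    rintro _ ⟨P, ⟨χ, hχ, hP⟩, rfl⟩
    refine ⟨χ, hχ, (affEffective_iff K hK hχ _).2 ⟨ofPh_symm P, ?_⟩⟩
    rw [toPh_ofPh]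
    exact hP

end Pool.Agent.Lib.MP_2a9317_an.N1
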