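import Pool.Agent.Lib.MP_2a9317_an.N1.B1

set_option autoImplicit false

namespace Pool.Agent.Lib.MP_2a9317_an.N1

open MeasureTheory Matrix Filter Topology
open scoped ContDiff


/-!
Module B, job B4: `linW_eq, linEffective_iff, homog_eff`.
-/




theorem linW_eq {L : Matrix (Ent 1) (Ent 1) ℝ} (hL : L.IsSymm) (F : Ent 1 → ℝ) :
    linW L F = W (phL L) (F (0, 0)) (F (1, 0)) := by
  have hs : ∀ i j, L j i = L i j := fun i j => congrFun (congrFun hL i) j
  have h1 := hs (0, 0) (1, 0)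
  have e0 : phL L 0 = L (0, 0) (0, 0) := rfl
  have e1 : phL L 1 = L (0, 0) (1, 0) := rfl
  have e2 : phL L 2 = L (1, 0) (1, 0) := rfl
  have e3 : phL L 3 = 0 := rfl
  have e4 : phL L 4 = 0 := rfl
  have e5 : phL L 5 = 0 := rfl
  unfold W
  rw [e0, e1, e2, e3, e4, e5]
  simp only [linW, dotProduct, mulVec, Fintype.sum_prod_type,
    Fin.sum_univ_two, Finset.univ_unique, Finset.sum_singleton,
    Fin.default_eq_zero, Fin.isValue]
  rw [h1]
  ring

lemma phL_ell {L : Matrix (Ent 1) (Ent 1) ℝ} (hL : L.PosDef) : Ell (phL L) := by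
  have hsym : L.IsSymm := by
    have := hL.isHermitian
    rw [Matrix.IsHermitian, Matrix.conjTranspose_eq_transpose_of_trivial] at this
    exact this
  have key : ∀ x y : ℝ, ¬ (x = 0 ∧ y = 0) → 0 < Q (phL L) x y := by
    intro x y hxy
    have hne : (fun q : Ent 1 => if q.1 = 0 then x else y) ≠ 0 := by
      intro h
      apply hxy
      constructor
      · have := congrFun h (0, 0)
        simpa using this
      · have := congrFun h (1, 0)
        simpa using this
    have h1 := hL.dotProduct_mulVec_pos hne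
    rw [star_trivial] at h1
    have h2 := linW_eq hsym (fun q : Ent 1 => if q.1 = 0 then x else y)
    unfold linW at h2
    rw [h2] at h1
    have h3 : W (phL L) x y = Q (phL L) x y := by
      have e3 : phL L 3 = 0 := rfl
      have e4 : phL L 4 = 0 := rfl
      have e5 : phL L 5 = 0 := rfl
      unfold W Q
      rw [e3, e4, e5]
      ring
    rw [← h3]
    exact h1
  have h0 : 0 < phL L 0 := by
    have := key 1 0 (by norm_num)
    unfold Q at this
    simpa using this
  refine ⟨h0, ?_⟩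
  have h2 := key (-(phL L 1)) (phL L 0) (fun h => h0.ne' h.2)
  have h3 : Q (phL L) (-(phL L 1)) (phL L 0) = phL L 0 * Dt (phL L) := by
    unfold Q Dt; ring
  rw [h3] at h2
  exact (mul_pos_iff_of_pos_left h0).1 h2

/-- the energies are bounded below -/
lemma En_lower_lin {k : ℕ} (K : Fin k → Ph) (hK : ∀ j, Ell (K j)) {χ : ℝ × ℝ → Fin k}
    (hχ : IsPartition χ) : ∃ C : ℝ, ∀ x y u, IsPot u → C ≤ En K χ x y u := by
  obtain ⟨m, C, hm, H⟩ := W_coercive K hK
  refine ⟨-C, fun x y u hu => ?_⟩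
  have h1 : BM (fun p => W (K (χ p)) (x + dX u p) (y + dY u p)) :=
    BM.W K hχ.1 ((BM.const x).add (bm_dX hu)) ((BM.const y).add (bm_dY hu))
  have h2 := avg_mono' (BM.const (-C)) h1 (fun p => by
    have h3 := H (χ p) (x + dX u p) (y + dY u p)
    have h4 : 0 ≤ m * ((x + dX u p) ^ 2 + (y + dY u p) ^ 2) := by positivity
    linarith)
  rw [avg_const] at h2
  exact h2

/-- the energy integrands agree -/
lemma lin_energy {k : ℕ} (L : Fin k → Matrix (Ent 1) (Ent 1) ℝ) (hL : ∀ j, (L j).IsSymm)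
    (χ : ℝ × ℝ → Fin k) (F : Ent 1 → ℝ) {u : ℝ × ℝ → Fin 1 → ℝ} (hu : IsPotential u) :
    (avg fun p => linW (L (χ p)) (F + grad u p))
      = En (fun j => phL (L j)) χ (F (0, 0)) (F (1, 0)) (fun p => u p 0) := by
  unfold En
  congr 1
  ext p
  rw [linW_eq (hL _), Pi.add_apply, Pi.add_apply, (grad_one hu p).1, (grad_one hu p).2]

theorem linEffective_iff {k : ℕ} (L : Fin k → Matrix (Ent 1) (Ent 1) ℝ) (hL : ∀ j, (L j).PosDef)
    {χ : ℝ × ℝ → Fin k} (hχ : IsPartition χ) (M : Matrix (Ent 1) (Ent 1) ℝ) :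
    LinEffective L χ M ↔ M.IsSymm ∧ Eff (fun j => phL (L j)) χ (phL M) := by
  have hsym : ∀ j, (L j).IsSymm := by
    intro j
    have := (hL j).isHermitian
    rw [Matrix.IsHermitian, Matrix.conjTranspose_eq_transpose_of_trivial] at this
    exact this
  obtain ⟨C, hC⟩ := En_lower_lin (fun j => phL (L j)) (fun j => phL_ell (hL j)) hχ
  have hstar : ∀ F : Ent 1 → ℝ, linStar L χ F
      = ⨅ u : {u : ℝ × ℝ → Fin 1 → ℝ // IsPotential u},
        En (fun j => phL (L j)) χ (F (0, 0)) (F (1, 0)) (fun p => u.1 p 0) := by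
    intro F
    unfold linStar
    congr 1
    ext u
    exact lin_energy L hsym χ F u.2
  have hne : Nonempty {u : ℝ × ℝ → Fin 1 → ℝ // IsPotential u} :=
    ⟨⟨fun _ _ => 0, (isPotential_iff _).2 (IsPot.const 0)⟩⟩
  have hbdd : ∀ F : Ent 1 → ℝ, BddBelow (Set.range fun u : {u : ℝ × ℝ → Fin 1 → ℝ // IsPotential u} =>
      En (fun j => phL (L j)) χ (F (0, 0)) (F (1, 0)) (fun p => u.1 p 0)) := by
    intro F
    refine ⟨C, ?_⟩
    rintro _ ⟨u, rfl⟩
    exact hC _ _ _ ((isPotential_iff _).1 u.2)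
  constructor
  · rintro ⟨hM, h⟩
    refine ⟨hM, fun x y => ?_⟩
    let F : Ent 1 → ℝ := fun q => if q.1 = 0 then x else y
    have hF0 : F (0, 0) = x := rfl
    have hF1 : F (1, 0) = y := rfl
    have h1 := h F
    rw [hstar, linW_eq hM, hF0, hF1] at h1
    have hb := hbdd F
    rw [hF0, hF1] at hb
    constructor
    · intro u hu
      rw [← h1]
      have := ciInf_le hb ⟨fun p _ => u p, (isPotential_iff _).2 hu⟩
      exact this
    · intro ε hε
      have h2 : (⨅ u : {u : ℝ × ℝ → Fin 1 → ℝ // IsPotential u},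
        En (fun j => phL (L j)) χ x y (fun p => u.1 p 0)) < W (phL M) x y + ε := by
        rw [h1]; linarith
      obtain ⟨u, hu⟩ := exists_lt_of_ciInf_lt h2
      exact ⟨fun p => u.1 p 0, (isPotential_iff _).1 u.2, hu.le⟩
  · rintro ⟨hM, h⟩
    refine ⟨hM, fun F => ?_⟩
    rw [hstar, linW_eq hM]
    obtain ⟨h1, h2⟩ := h (F (0, 0)) (F (1, 0))
    apply le_antisymm
    · apply le_of_forall_pos_le_add
      intro ε hε
      obtain ⟨u, hu, hle⟩ := h2 ε hε
      exact (ciInf_le (hbdd F) ⟨fun p _ => u p, (isPotential_iff _).2 hu⟩).trans hle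
    · exact le_ciInf fun u => h1 _ ((isPotential_iff _).1 u.2)

theorem homog_eff {k : ℕ} (K : Fin k → Ph) (hK : ∀ j, Ell (K j))
    (hz : ∀ j, K j 3 = 0 ∧ K j 4 = 0 ∧ K j 5 = 0) {χ : ℝ × ℝ → Fin k} {M : Ph}
    (hM : Eff K χ M) : M 3 = 0 ∧ M 4 = 0 ∧ M 5 = 0 := by
  have hW : ∀ j x y, W (K j) x y = Q (K j) x y := by
    intro j x y
    obtain ⟨h3, h4, h5⟩ := hz j
    unfold W Q
    rw [h3, h4, h5]
    ring
  have hsymm : ∀ x y u, IsPot u → En K χ (-x) (-y) (fun p => -u p) = En K χ x y u := by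
    intro x y u hu
    unfold En
    congr 1
    ext p
    have e1 : dX (fun p => -u p) p = - dX u p := by
      have := dX_smul (-1) hu p
      simpa using this
    have e2 : dY (fun p => -u p) p = - dY u p := by
      have := dY_smul (-1) hu p
      simpa using this
    rw [e1, e2, hW, hW]
    unfold Q
    ring
  have hle : ∀ x y, W M (-x) (-y) ≤ W M x y := by
    intro x y
    apply le_of_forall_pos_le_add
    intro ε hε
    obtain ⟨u, hu, h⟩ := (hM x y).2 ε hε
    have h1 := (hM (-x) (-y)).1 _ hu.neg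
    rw [hsymm x y u hu] at h1
    exact h1.trans h
  have h5a : W M 0 0 ≤ 0 := by
    have h1 := (hM 0 0).1 _ (IsPot.const 0)
    have h2 : En K χ 0 0 (fun _ => 0) = 0 := by
      unfold En
      have : (fun p => W (K (χ p)) (0 + dX (fun _ => (0 : ℝ)) p) (0 + dY (fun _ => (0 : ℝ)) p))
          = fun _ => (0 : ℝ) := by
        ext p
        rw [dX_const, dY_const, hW]
        unfold Q
        ring
      rw [this, avg_const]
    rw [h2] at h1
    exact h1
  have h5b : 0 ≤ W M 0 0 := by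
    apply le_of_forall_pos_le_add
    intro ε hε
    obtain ⟨u, hu, h⟩ := (hM 0 0).2 ε hε
    refine le_trans ?_ h
    unfold En
    apply avg_nonneg
    intro p
    rw [hW]
    exact Q_nonneg (hK _) _ _
  have a1 := hle 1 0
  have a2 := hle (-1) 0
  have a3 := hle 0 1
  have a4 := hle 0 (-1)
  unfold W at a1 a2 a3 a4 h5a h5b
  refine ⟨?_, ?_, ?_⟩
  · nlinarith
  · nlinarith
  · nlinarith

end Pool.Agent.Lib.MP_2a9317_an.N1
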