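import Pool.Agent.Lib.MP_2a9317_an.N1.B2
import Pool.Agent.Lib.MP_2a9317_an.N1.B4

set_option autoImplicit false

namespace Pool.Agent.Lib.MP_2a9317_an.N1

open MeasureTheory Matrix Filter Topology
open scoped ContDiff






/-- the conductivity tensor with given coefficients -/
def ofL (P : Ph) : Matrix (Ent 1) (Ent 1) ℝ := Matrix.of fun i j =>
  if i.1 = j.1 then (if i.1 = 0 then P 0 else P 2) else P 1

lemma ent_ext {α : Sort*} {f g : Ent 1 → α} (h0 : f (0, 0) = g (0, 0)) (h1 : f (1, 0) = g (1, 0)) :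
    f = g := by
  ext ⟨i, j⟩
  have hj : j = 0 := Subsingleton.elim _ _
  subst hj
  fin_cases i
  · exact h0
  · exact h1

lemma ofL_symm (P : Ph) : (ofL P).IsSymm := by
  apply Matrix.IsSymm.ext
  rintro ⟨i, j⟩ ⟨i', j'⟩
  fin_cases i <;> fin_cases i' <;> rfl

lemma ofL_phL {M : Matrix (Ent 1) (Ent 1) ℝ} (hM : M.IsSymm) : ofL (phL M) = M := by
  have hs : M (1, 0) (0, 0) = M (0, 0) (1, 0) := hM.apply _ _
  ext i j
  obtain ⟨i, i'⟩ := i
  obtain ⟨j, j'⟩ := j
  have hi : i' = 0 := Subsingleton.elim _ _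
  have hj : j' = 0 := Subsingleton.elim _ _
  subst hi hj
  fin_cases i <;> fin_cases j
  · rfl
  · rfl
  · exact hs.symm
  · rfl

lemma phL_ofL {P : Ph} (h : P 3 = 0 ∧ P 4 = 0 ∧ P 5 = 0) : phL (ofL P) = P := by
  obtain ⟨h3, h4, h5⟩ := h
  ext i
  fin_cases i
  · rfl
  · rfl
  · rfl
  · exact h3.symm
  · exact h4.symm
  · exact h5.symm

lemma continuous_ofL : Continuous ofL := by
  refine continuous_matrix fun i j => ?_
  show Continuous fun P : Ph => if i.1 = j.1 then (if i.1 = 0 then P 0 else P 2) else P 1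
  split_ifs
  · exact continuous_apply _
  · exact continuous_apply _
  · exact continuous_apply _

/-- the energy through the coefficients -/
lemma linW_W {L : Matrix (Ent 1) (Ent 1) ℝ} (hL : L.IsSymm) (F : Ent 1 → ℝ) :
    linW L F = W (phL L) (F (0, 0)) (F (1, 0)) := linW_eq hL F

lemma ell_phL {L : Matrix (Ent 1) (Ent 1) ℝ} (hL : L.PosDef) : Ell (phL L) := by
  have hs : L.IsSymm := by
    have := hL.1
    rwa [Matrix.IsHermitian, Matrix.conjTranspose_eq_transpose_of_trivial] at this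
  have key : ∀ x y : ℝ, (x ≠ 0 ∨ y ≠ 0) → 0 < W (phL L) x y := by
    intro x y hxy
    have h1 := hL.dotProduct_mulVec_pos (x := fun e : Ent 1 => if e.1 = 0 then x else y) (by
      intro h0
      rcases hxy with h | h
      · exact h (congrFun h0 (0, 0))
      · exact h (congrFun h0 (1, 0)))
    have h2 : (fun e : Ent 1 => if e.1 = 0 then x else y) ⬝ᵥ
        (L *ᵥ (fun e : Ent 1 => if e.1 = 0 then x else y)) = W (phL L) x y := by
      have := linW_W hs (fun e : Ent 1 => if e.1 = 0 then x else y)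
      simpa [linW] using this
    have h3 : star (fun e : Ent 1 => if e.1 = 0 then x else y)
        = (fun e : Ent 1 => if e.1 = 0 then x else y) := star_trivial _
    rw [h3, h2] at h1
    exact h1
  have e3 : phL L 3 = 0 := rfl
  have e4 : phL L 4 = 0 := rfl
  have e5 : phL L 5 = 0 := rfl
  have h0 : 0 < phL L 0 := by
    have := key 1 0 (Or.inl one_ne_zero)
    unfold W at this
    rw [e3, e4, e5] at this
    linarith
  refine ⟨h0, ?_⟩
  have h1 := key (-(phL L 1)) (phL L 0) (Or.inr h0.ne')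
  have h2 : W (phL L) (-(phL L 1)) (phL L 0) = phL L 0 * Dt (phL L) := by
    unfold W Dt
    rw [e3, e4, e5]
    ring
  rw [h2] at h1
  exact (mul_pos_iff_of_pos_left h0).1 h1

lemma linLayer_iff {A B M : Matrix (Ent 1) (Ent 1) ℝ} (hAs : A.IsSymm) (hBs : B.IsSymm)
    (hA : Ell (phL A)) (hB : Ell (phL B)) {θ : ℝ} (h0 : 0 < θ) (h1 : θ < 1) {ξ : Fin 2 → ℝ}
    (hξ : ξ ≠ 0) :
    LinLayer A B θ ξ M ↔ M.IsSymm ∧ Lay (phL A) (phL B) θ (ξ 0) (ξ 1) (phL M) := by
  have hξ' : ξ 0 ≠ 0 ∨ ξ 1 ≠ 0 := by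
    by_contra hcon
    push Not at hcon
    apply hξ
    ext i
    fin_cases i
    · exact hcon.1
    · exact hcon.2
  set M0 : Ph := layM (phL A) (phL B) θ (ξ 0) (ξ 1) with hM0
  have hL0 : Lay (phL A) (phL B) θ (ξ 0) (ξ 1) M0 := (lay_iff _ _ _ _ _ _).2 rfl
  have key : ∀ F : Ent 1 → ℝ, (⨅ a : Fin 1 → ℝ, (θ * linW A (F + (1 - θ) • tens ξ a)
      + (1 - θ) * linW B (F - θ • tens ξ a))) = W M0 (F (0, 0)) (F (1, 0)) := by
    intro F
    have hval : ∀ a : Fin 1 → ℝ, θ * linW A (F + (1 - θ) • tens ξ a)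
        + (1 - θ) * linW B (F - θ • tens ξ a)
        = θ * W (phL A) (F (0, 0) + (1 - θ) * a 0 * ξ 0) (F (1, 0) + (1 - θ) * a 0 * ξ 1)
          + (1 - θ) * W (phL B) (F (0, 0) - θ * a 0 * ξ 0) (F (1, 0) - θ * a 0 * ξ 1) := by
      intro a
      rw [linW_W hAs, linW_W hBs]
      have e1 : (F + (1 - θ) • tens ξ a) (0, 0) = F (0, 0) + (1 - θ) * a 0 * ξ 0 := by
        simp [tens]; ring
      have e2 : (F + (1 - θ) • tens ξ a) (1, 0) = F (1, 0) + (1 - θ) * a 0 * ξ 1 := by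
        simp [tens]; ring
      have e3 : (F - θ • tens ξ a) (0, 0) = F (0, 0) - θ * a 0 * ξ 0 := by
        simp [tens]; ring
      have e4 : (F - θ • tens ξ a) (1, 0) = F (1, 0) - θ * a 0 * ξ 1 := by
        simp [tens]; ring
      rw [e1, e2, e3, e4]
    have hle : ∀ a : Fin 1 → ℝ, W M0 (F (0, 0)) (F (1, 0)) ≤
        θ * linW A (F + (1 - θ) • tens ξ a) + (1 - θ) * linW B (F - θ • tens ξ a) := by
      intro a
      rw [hval a]
      exact lay_le hA hB h0 h1 hξ' hL0 _ _ (a 0)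
    apply le_antisymm
    · obtain ⟨t, ht, -, -, -⟩ := lay_attain hA hB h0 h1 hξ' hL0 (F (0, 0)) (F (1, 0))
      rw [ht]
      have h3 := ciInf_le (f := fun a : Fin 1 → ℝ => θ * linW A (F + (1 - θ) • tens ξ a)
        + (1 - θ) * linW B (F - θ • tens ξ a))
        ⟨W M0 (F (0, 0)) (F (1, 0)), by rintro _ ⟨a, rfl⟩; exact hle a⟩ (fun _ => t)
      refine h3.trans (le_of_eq ?_)
      exact hval (fun _ => t)
    · exact le_ciInf hle
  constructor
  · rintro ⟨hMs, hF⟩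
    refine ⟨hMs, ?_⟩
    have e : phL M = M0 := by
      apply ph_ext
      intro x y
      have h2 := hF (fun e => if e.1 = 0 then x else y)
      rw [key, linW_W hMs] at h2
      simpa using h2
    rw [e]
    exact hL0
  · rintro ⟨hMs, hlay⟩
    refine ⟨hMs, fun F => ?_⟩
    have e : phL M = M0 := (lay_iff _ _ _ _ _ _).1 hlay
    rw [key, linW_W hMs, e]

lemma lay_homog {A B M : Ph} {θ ξ η : ℝ} (hA : A 3 = 0 ∧ A 4 = 0 ∧ A 5 = 0)
    (hB : B 3 = 0 ∧ B 4 = 0 ∧ B 5 = 0) (hM : Lay A B θ ξ η M) : M 3 = 0 ∧ M 4 = 0 ∧ M 5 = 0 := by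
  have e := (lay_iff _ _ _ _ _ _).1 hM
  obtain ⟨a3, a4, a5⟩ := hA
  obtain ⟨b3, b4, b5⟩ := hB
  rw [e]
  refine ⟨?_, ?_, ?_⟩
  · show θ * A 3 + (1 - θ) * B 3 - θ * (1 - θ) * ((ξ * (A 0 - B 0) + η * (A 1 - B 1)) *
      (ξ * (A 3 - B 3) + η * (A 4 - B 4))) / _ = 0
    rw [a3, a4, b3, b4]; simp
  · show θ * A 4 + (1 - θ) * B 4 - θ * (1 - θ) * ((ξ * (A 1 - B 1) + η * (A 2 - B 2)) *
      (ξ * (A 3 - B 3) + η * (A 4 - B 4))) / _ = 0
    rw [a3, a4, b3, b4]; simp
  · show θ * A 5 + (1 - θ) * B 5 - θ * (1 - θ) * ((ξ * (A 3 - B 3) + η * (A 4 - B 4)) *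
      (ξ * (A 3 - B 3) + η * (A 4 - B 4))) / _ = 0
    rw [a3, a4, b3, b4, a5, b5]; simp

theorem linLaminate_iff {k : ℕ} (L : Fin k → Matrix (Ent 1) (Ent 1) ℝ) (hL : ∀ j, (L j).PosDef)
    (M : Matrix (Ent 1) (Ent 1) ℝ) :
    LinLaminate L M ↔ M.IsSymm ∧ Lam (fun j => phL (L j)) (phL M) := by
  have hs : ∀ j, (L j).IsSymm := by
    intro j
    have := (hL j).1
    rwa [Matrix.IsHermitian, Matrix.conjTranspose_eq_transpose_of_trivial] at this
  have hE : ∀ j, Ell (phL (L j)) := fun j => ell_phL (hL j)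
  constructor
  · intro h
    induction h with
    | phase j => exact ⟨hs j, Lam.phase (K := fun j => phL (L j)) j⟩
    | layer A B M θ ξ _ _ h0 h1 hξ hM ihA ihB =>
      have hEA := lam_ell _ hE ihA.2
      have hEB := lam_ell _ hE ihB.2
      obtain ⟨hMs, hlay⟩ := (linLayer_iff ihA.1 ihB.1 hEA hEB h0 h1 hξ).1 hM
      refine ⟨hMs, Lam.layer _ _ _ θ (ξ 0) (ξ 1) ihA.2 ihB.2 h0 h1 ?_ hlay⟩
      by_contra hcon
      push Not at hcon
      apply hξ
      ext i
      fin_cases i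
      · exact hcon.1
      · exact hcon.2
  · rintro ⟨hMs, hlam⟩
    have key : ∀ P : Ph, Lam (fun j => phL (L j)) P →
        (P 3 = 0 ∧ P 4 = 0 ∧ P 5 = 0) ∧ LinLaminate L (ofL P) := by
      intro P hP
      induction hP with
      | phase j =>
        refine ⟨⟨rfl, rfl, rfl⟩, ?_⟩
        show LinLaminate L (ofL (phL (L j)))
        rw [ofL_phL (hs j)]
        exact LinLaminate.phase j
      | layer A B M θ ξ η hA hB h0 h1 hξ hM ihA ihB =>
        have hz := lay_homog ihA.1 ihB.1 hM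
        refine ⟨hz, ?_⟩
        have hξ' : (![ξ, η] : Fin 2 → ℝ) ≠ 0 := by
          intro h
          rcases hξ with h' | h'
          · exact h' (congrFun h 0)
          · exact h' (congrFun h 1)
        refine LinLaminate.layer (ofL A) (ofL B) (ofL M) θ ![ξ, η] ihA.2 ihB.2 h0 h1 hξ' ?_
        rw [linLayer_iff (ofL_symm A) (ofL_symm B) (by rw [phL_ofL ihA.1]; exact lam_ell _ hE hA)
          (by rw [phL_ofL ihB.1]; exact lam_ell _ hE hB) h0 h1 hξ', phL_ofL ihA.1, phL_ofL ihB.1,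
          phL_ofL hz]
        exact ⟨ofL_symm M, hM⟩
    have h := (key _ hlam).2
    rwa [ofL_phL hMs] at h

theorem linG_one_two (L : Fin 2 → Matrix (Ent 1) (Ent 1) ℝ) (hL : ∀ j, (L j).PosDef) :
    linG L = linGL L := by
  have hE : ∀ j, Ell (phL (L j)) := fun j => ell_phL (hL j)
  apply Set.Subset.antisymm
  · refine closure_mono ?_
    rintro M ⟨χ, hχ, hM⟩
    obtain ⟨hMs, hEff⟩ := (linEffective_iff L hL hχ M).1 hM
    exact (linLaminate_iff L hL M).2 ⟨hMs, eff_lam _ hE hχ hEff⟩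
  · refine closure_minimal ?_ isClosed_closure
    intro M hM
    obtain ⟨hMs, hlam⟩ := (linLaminate_iff L hL M).1 hM
    have h1 := lam_mem_GE _ hE hlam
    have h2 := image_closure_subset_closure_image continuous_ofL (Set.mem_image_of_mem ofL h1)
    rw [ofL_phL hMs] at h2
    refine closure_mono ?_ h2
    rintro _ ⟨P, ⟨χ, hχ, hP⟩, rfl⟩
    refine ⟨χ, hχ, (linEffective_iff L hL hχ _).2 ⟨ofL_symm P, ?_⟩⟩
    rw [phL_ofL (homog_eff _ hE (fun j => ⟨rfl, rfl, rfl⟩) hP)]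
    exact hP

end Pool.Agent.Lib.MP_2a9317_an.N1
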