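import Pool.Agent.Lib.MP_2a9317_an.N1.C5

set_option autoImplicit false

namespace Pool.Agent.Lib.MP_2a9317_an.N1

open MeasureTheory Filter Topology
open scoped ContDiff
/-- C6. -/
theorem lam_mem_GE {k : ℕ} (K : Fin k → Ph) (hK : ∀ j, Ell (K j)) {M : Ph} (hM : Lam K M) :
    M ∈ GE K := by
  induction hM with
  | phase j =>
    apply subset_closure
    refine ⟨fun _ => j, ⟨measurable_const, fun _ _ => ⟨rfl, rfl⟩⟩, ?_⟩
    exact eff_homog K hK j
  | layer A B M θ ξ η _ _ h0 h1 hξ hM ihA ihB => exact lay_mem_GE K hK ihA ihB h0 h1 hξ hM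

end Pool.Agent.Lib.MP_2a9317_an.N1
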