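import Pool.Agent.Lib.MP_2a9317_an.N1.Z
import Pool.Agent.Lib.MP_2a9317_an.N1.C

set_option autoImplicit false

namespace Pool.Agent.Lib.MP_2a9317_an.N1

open MeasureTheory Matrix Filter Topology
open scoped ContDiff
abbrev Mt : Type := Matrix (Ent 1 ⊕ Unit) (Ent 1 ⊕ Unit) ℝ

/-- the six coefficients of a matrix -/
def toPh (M : Mt) : Ph :=
  ![M (Sum.inl (0, 0)) (Sum.inl (0, 0)), M (Sum.inl (0, 0)) (Sum.inl (1, 0)),
    M (Sum.inl (1, 0)) (Sum.inl (1, 0)), M (Sum.inl (0, 0)) (Sum.inr ()),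
    M (Sum.inl (1, 0)) (Sum.inr ()), M (Sum.inr ()) (Sum.inr ())]

/-- the symmetric matrix with given coefficients (any convenient definition is fine) -/
def ofPh (K : Ph) : Mt := Matrix.of fun i j =>
  match i, j with
  | Sum.inl (a, _), Sum.inl (b, _) => if a = b then (if a = 0 then K 0 else K 2) else K 1
  | Sum.inl (a, _), Sum.inr _ => if a = 0 then K 3 else K 4
  | Sum.inr _, Sum.inl (a, _) => if a = 0 then K 3 else K 4
  | Sum.inr _, Sum.inr _ => K 5

/-- the coefficients of a conductivity tensor -/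
def phL (L : Matrix (Ent 1) (Ent 1) ℝ) : Ph :=
  ![L (0, 0) (0, 0), L (0, 0) (1, 0), L (1, 0) (1, 0), 0, 0, 0]

end Pool.Agent.Lib.MP_2a9317_an.N1
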