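import Pool.Agent.Lib.MP_2a9317_an.Eff

set_option autoImplicit false

/-!
# One potential (n = 1): basic notions

A phase for one potential is a six-tuple `K = ![a, b, c, v, w, e]`, with energy
`W(x, y) = a x² + 2 b x y + c y² + 2 v x + 2 w y + e`.
-/

namespace Pool.Agent.Lib.MP_2a9317_an.N1

open MeasureTheory Filter Topology
open scoped ContDiff

/-- six coefficients `a b c v w e` -/
abbrev Ph : Type := Fin 6 → ℝ

/-- the energy -/
def W (K : Ph) (x y : ℝ) : ℝ :=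
  K 0 * x ^ 2 + 2 * K 1 * x * y + K 2 * y ^ 2 + 2 * K 3 * x + 2 * K 4 * y + K 5

/-- the quadratic part of the energy -/
def Q (K : Ph) (x y : ℝ) : ℝ := K 0 * x ^ 2 + 2 * K 1 * x * y + K 2 * y ^ 2

/-- the determinant of the quadratic part -/
def Dt (K : Ph) : ℝ := K 0 * K 2 - K 1 ^ 2

/-- positive definite quadratic part -/
def Ell (K : Ph) : Prop := 0 < K 0 ∧ 0 < Dt K

/-- smooth periodic functions -/
def IsPot (u : ℝ × ℝ → ℝ) : Prop :=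
  ContDiff ℝ ∞ u ∧ ∀ x y : ℝ, u (x + 1, y) = u (x, y) ∧ u (x, y + 1) = u (x, y)

/-- periodic functions -/
def Per {α : Type} (f : ℝ × ℝ → α) : Prop :=
  ∀ x y : ℝ, f (x + 1, y) = f (x, y) ∧ f (x, y + 1) = f (x, y)

/-- bounded measurable periodic functions -/
def BMP (f : ℝ × ℝ → ℝ) : Prop := Measurable f ∧ (∃ C, ∀ p, |f p| ≤ C) ∧ Per f

noncomputable def dX (u : ℝ × ℝ → ℝ) (p : ℝ × ℝ) : ℝ := fderiv ℝ u p (1, 0)
noncomputable def dY (u : ℝ × ℝ → ℝ) (p : ℝ × ℝ) : ℝ := fderiv ℝ u p (0, 1)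

/-- the energy of the potential `u` with the applied field `(x, y)` -/
noncomputable def En {k : ℕ} (K : Fin k → Ph) (χ : ℝ × ℝ → Fin k) (x y : ℝ) (u : ℝ × ℝ → ℝ) : ℝ :=
  avg fun p => W (K (χ p)) (x + dX u p) (y + dY u p)

/-- `M` is effective: `W_M(x, y)` is the infimum of the energies -/
def Eff {k : ℕ} (K : Fin k → Ph) (χ : ℝ × ℝ → Fin k) (M : Ph) : Prop :=
  ∀ x y : ℝ, (∀ u, IsPot u → W M x y ≤ En K χ x y u) ∧
    ∀ ε : ℝ, 0 < ε → ∃ u, IsPot u ∧ En K χ x y u ≤ W M x y + ε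

/-- the dual phase: `W (dual K) (g, h) = sup_{x, y} (2 (g y - h x) - W K (x, y))` -/
noncomputable def dual (K : Ph) : Ph :=
  ![K 0 / Dt K, K 1 / Dt K, K 2 / Dt K, (K 1 * K 3 - K 0 * K 4) / Dt K,
    (K 2 * K 3 - K 1 * K 4) / Dt K,
    (K 2 * K 3 ^ 2 - 2 * K 1 * K 3 * K 4 + K 0 * K 4 ^ 2) / Dt K - K 5]

/-- the simple layering of `A` (fraction `θ`) and `B` with normal `(ξ, η)` -/
def Lay (A B : Ph) (θ ξ η : ℝ) (M : Ph) : Prop :=
  ∀ x y : ℝ, W M x y = θ * W A x y + (1 - θ) * W B x y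
    - θ * (1 - θ) * (ξ * ((A 0 - B 0) * x + (A 1 - B 1) * y + (A 3 - B 3))
        + η * ((A 1 - B 1) * x + (A 2 - B 2) * y + (A 4 - B 4))) ^ 2
      / ((1 - θ) * Q A ξ η + θ * Q B ξ η)

/-- laminates of the phases -/
inductive Lam {k : ℕ} (K : Fin k → Ph) : Ph → Prop
  | phase (j : Fin k) : Lam K (K j)
  | layer (A B M : Ph) (θ ξ η : ℝ) : Lam K A → Lam K B → 0 < θ → θ < 1 → (ξ ≠ 0 ∨ η ≠ 0) →
      Lay A B θ ξ η M → Lam K M

end Pool.Agent.Lib.MP_2a9317_an.N1
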