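import Pool.Agent.Lib.MP_2a9317_an.N1.Base

set_option autoImplicit false

namespace Pool.Agent.Lib.MP_2a9317_an.N1

open MeasureTheory Filter Topology
open scoped ContDiff

/-! ### Calculus of bounded measurable functions -/

/-- bounded measurable functions -/
def BM (f : ℝ × ℝ → ℝ) : Prop := Measurable f ∧ ∃ C, ∀ p, |f p| ≤ C

lemma BMP.bm {f : ℝ × ℝ → ℝ} (h : BMP f) : BM f := ⟨h.1, h.2.1⟩

lemma BM.const (c : ℝ) : BM (fun _ => c) := ⟨measurable_const, |c|, fun _ => le_rfl⟩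

lemma BM.add {f g : ℝ × ℝ → ℝ} (hf : BM f) (hg : BM g) : BM (fun p => f p + g p) := by
  obtain ⟨hf1, C, hC⟩ := hf
  obtain ⟨hg1, D, hD⟩ := hg
  exact ⟨hf1.add hg1, C + D, fun p => (abs_add_le _ _).trans (add_le_add (hC p) (hD p))⟩

lemma BM.neg {f : ℝ × ℝ → ℝ} (hf : BM f) : BM (fun p => - f p) := by
  obtain ⟨hf1, C, hC⟩ := hf
  exact ⟨hf1.neg, C, fun p => by rw [abs_neg]; exact hC p⟩

lemma BM.sub {f g : ℝ × ℝ → ℝ} (hf : BM f) (hg : BM g) : BM (fun p => f p - g p) := by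
  simpa [sub_eq_add_neg] using hf.add hg.neg

lemma BM.mul {f g : ℝ × ℝ → ℝ} (hf : BM f) (hg : BM g) : BM (fun p => f p * g p) := by
  obtain ⟨hf1, C, hC⟩ := hf
  obtain ⟨hg1, D, hD⟩ := hg
  refine ⟨hf1.mul hg1, C * D, fun p => ?_⟩
  rw [abs_mul]
  exact mul_le_mul (hC p) (hD p) (abs_nonneg _) ((abs_nonneg _).trans (hC p))

lemma BM.const_mul {f : ℝ × ℝ → ℝ} (c : ℝ) (hf : BM f) : BM (fun p => c * f p) :=
  (BM.const c).mul hf

lemma BM.mul_const {f : ℝ × ℝ → ℝ} (c : ℝ) (hf : BM f) : BM (fun p => f p * c) :=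
  hf.mul (BM.const c)

lemma BM.pow {f : ℝ × ℝ → ℝ} (hf : BM f) (n : ℕ) : BM (fun p => f p ^ n) := by
  induction n with
  | zero => simpa using BM.const 1
  | succ n ih => simpa [pow_succ] using ih.mul hf

lemma BM.sq {f : ℝ × ℝ → ℝ} (hf : BM f) : BM (fun p => f p ^ 2) := hf.pow 2

lemma BM.sum {ι : Type} (s : Finset ι) {f : ι → ℝ × ℝ → ℝ} (hf : ∀ i ∈ s, BM (f i)) :
    BM (fun p => ∑ i ∈ s, f i p) := by
  classical
  induction s using Finset.induction_on with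
  | empty => simpa using BM.const 0
  | insert a s ha ih =>
    simp only [Finset.sum_insert ha]
    exact (hf a (Finset.mem_insert_self _ _)).add
      (ih fun i hi => hf i (Finset.mem_insert_of_mem hi))

/-- functions of the phase are bounded and measurable -/
lemma BM.phase {k : ℕ} (c : Fin k → ℝ) {χ : ℝ × ℝ → Fin k} (hχ : Measurable χ) :
    BM (fun p => c (χ p)) := by
  refine ⟨(measurable_from_top (f := c)).comp hχ, ∑ j, |c j|, fun p => ?_⟩
  exact Finset.single_le_sum (f := fun j : Fin k => |c j|) (fun _ _ => abs_nonneg _)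
    (Finset.mem_univ (χ p))

lemma BM.integrableOn {f : ℝ × ℝ → ℝ} (hf : BM f) : IntegrableOn f cell := by
  obtain ⟨hf1, C, hC⟩ := hf
  refine Measure.integrableOn_of_bounded (M := C) ?_ hf1.aestronglyMeasurable ?_
  · rw [volume_cell]; exact ENNReal.one_ne_top
  · exact Filter.Eventually.of_forall fun p => by rw [Real.norm_eq_abs]; exact hC p

lemma avg_add' {f g : ℝ × ℝ → ℝ} (hf : BM f) (hg : BM g) :
    avg (fun p => f p + g p) = avg f + avg g := avg_add hf.integrableOn hg.integrableOn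

lemma avg_neg' (f : ℝ × ℝ → ℝ) : avg (fun p => - f p) = - avg f := integral_neg f

lemma avg_sub' {f g : ℝ × ℝ → ℝ} (hf : BM f) (hg : BM g) :
    avg (fun p => f p - g p) = avg f - avg g := integral_sub hf.integrableOn hg.integrableOn

lemma avg_mul' (c : ℝ) (f : ℝ × ℝ → ℝ) : avg (fun p => c * f p) = c * avg f := avg_mul c f

lemma avg_mul_const' (c : ℝ) (f : ℝ × ℝ → ℝ) : avg (fun p => f p * c) = avg f * c :=
  integral_mul_const c f

lemma avg_mono' {f g : ℝ × ℝ → ℝ} (hf : BM f) (hg : BM g) (h : ∀ p, f p ≤ g p) :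
    avg f ≤ avg g := avg_mono hf.integrableOn hg.integrableOn h

lemma avg_sum' {ι : Type} (s : Finset ι) {f : ι → ℝ × ℝ → ℝ} (hf : ∀ i ∈ s, BM (f i)) :
    avg (fun p => ∑ i ∈ s, f i p) = ∑ i ∈ s, avg (f i) :=
  integral_finsetSum s fun i hi => (hf i hi).integrableOn

/-- finite linear combinations -/
lemma avg_lin {n : ℕ} (c : Fin n → ℝ) {f : Fin n → ℝ × ℝ → ℝ} (hf : ∀ i, BM (f i)) :
    avg (fun p => ∑ i, c i * f i p) = ∑ i, c i * avg (f i) := by
  rw [avg_sum' Finset.univ (f := fun i p => c i * f i p) fun i _ => (hf i).const_mul (c i)]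
  simp only [avg_mul']

/-- a quadratic `a + 2 b t + c t²` that is nonnegative for all `t` has `b² ≤ a c` -/
lemma sq_le_of_quad {a b c : ℝ} (h : ∀ t : ℝ, 0 ≤ a + 2 * b * t + c * t ^ 2) : b ^ 2 ≤ a * c := by
  have h1 := discrim_le_zero (a := c) (b := 2 * b) (c := a) (fun t => by have := h t; nlinarith)
  unfold discrim at h1
  nlinarith

/-- Cauchy-Schwarz -/
lemma avg_cs {f g : ℝ × ℝ → ℝ} (hf : BM f) (hg : BM g) :
    avg (fun p => f p * g p) ^ 2 ≤ avg (fun p => f p ^ 2) * avg (fun p => g p ^ 2) := by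
  apply sq_le_of_quad
  intro t
  have e : avg (fun p => (f p + t * g p) ^ 2)
      = avg (fun p => f p ^ 2) + 2 * avg (fun p => f p * g p) * t
        + avg (fun p => g p ^ 2) * t ^ 2 := by
    have h1 : (fun p => (f p + t * g p) ^ 2)
        = fun p => (f p ^ 2 + (2 * t) * (f p * g p)) + t ^ 2 * g p ^ 2 := by ext p; ring
    rw [h1, avg_add' (hf.sq.add ((hf.mul hg).const_mul _)) (hg.sq.const_mul _),
      avg_add' hf.sq ((hf.mul hg).const_mul _), avg_mul', avg_mul']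
    ring
  rw [← e]
  exact avg_nonneg fun p => sq_nonneg _

/-- Cauchy-Schwarz for vector fields -/
lemma avg_cs2 {f₁ f₂ g₁ g₂ : ℝ × ℝ → ℝ} (hf₁ : BM f₁) (hf₂ : BM f₂) (hg₁ : BM g₁) (hg₂ : BM g₂) :
    avg (fun p => f₁ p * g₁ p + f₂ p * g₂ p) ^ 2
      ≤ avg (fun p => f₁ p ^ 2 + f₂ p ^ 2) * avg (fun p => g₁ p ^ 2 + g₂ p ^ 2) := by
  apply sq_le_of_quad
  intro t
  have e : avg (fun p => (f₁ p + t * g₁ p) ^ 2 + (f₂ p + t * g₂ p) ^ 2)
      = avg (fun p => f₁ p ^ 2 + f₂ p ^ 2) + 2 * avg (fun p => f₁ p * g₁ p + f₂ p * g₂ p) * t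
        + avg (fun p => g₁ p ^ 2 + g₂ p ^ 2) * t ^ 2 := by
    have h1 : (fun p => (f₁ p + t * g₁ p) ^ 2 + (f₂ p + t * g₂ p) ^ 2)
        = fun p => ((f₁ p ^ 2 + f₂ p ^ 2) + (2 * t) * (f₁ p * g₁ p + f₂ p * g₂ p))
          + t ^ 2 * (g₁ p ^ 2 + g₂ p ^ 2) := by ext p; ring
    have b1 : BM (fun p => f₁ p ^ 2 + f₂ p ^ 2) := hf₁.sq.add hf₂.sq
    have b2 : BM (fun p => f₁ p * g₁ p + f₂ p * g₂ p) := (hf₁.mul hg₁).add (hf₂.mul hg₂)
    have b3 : BM (fun p => g₁ p ^ 2 + g₂ p ^ 2) := hg₁.sq.add hg₂.sq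
    rw [h1, avg_add' (b1.add (b2.const_mul _)) (b3.const_mul _),
      avg_add' b1 (b2.const_mul _), avg_mul', avg_mul']
    ring
  rw [← e]
  exact avg_nonneg fun p => by positivity

/-! ### Smooth periodic functions -/

lemma IsPot.differentiableAt {u : ℝ × ℝ → ℝ} (hu : IsPot u) (p : ℝ × ℝ) :
    DifferentiableAt ℝ u p := (hu.1.differentiable (by simp)).differentiableAt

lemma IsPot.const (c : ℝ) : IsPot (fun _ => c) := ⟨contDiff_const, fun _ _ => ⟨rfl, rfl⟩⟩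

lemma IsPot.add {u v : ℝ × ℝ → ℝ} (hu : IsPot u) (hv : IsPot v) : IsPot (fun p => u p + v p) :=
  ⟨hu.1.add hv.1, fun x y => ⟨by simp only [(hu.2 x y).1, (hv.2 x y).1],
    by simp only [(hu.2 x y).2, (hv.2 x y).2]⟩⟩

lemma IsPot.smul {u : ℝ × ℝ → ℝ} (c : ℝ) (hu : IsPot u) : IsPot (fun p => c * u p) :=
  ⟨contDiff_const.mul hu.1, fun x y => ⟨by simp only [(hu.2 x y).1],
    by simp only [(hu.2 x y).2]⟩⟩

lemma IsPot.neg {u : ℝ × ℝ → ℝ} (hu : IsPot u) : IsPot (fun p => - u p) := by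
  simpa using hu.smul (-1)

lemma IsPot.sub {u v : ℝ × ℝ → ℝ} (hu : IsPot u) (hv : IsPot v) : IsPot (fun p => u p - v p) := by
  simpa [sub_eq_add_neg] using hu.add hv.neg

lemma dX_const (c : ℝ) (p : ℝ × ℝ) : dX (fun _ => c) p = 0 := by simp [dX]

lemma dY_const (c : ℝ) (p : ℝ × ℝ) : dY (fun _ => c) p = 0 := by simp [dY]

lemma dX_add {u v : ℝ × ℝ → ℝ} (hu : IsPot u) (hv : IsPot v) (p : ℝ × ℝ) :
    dX (fun p => u p + v p) p = dX u p + dX v p := by
  unfold dX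
  rw [fderiv_fun_add (hu.differentiableAt p) (hv.differentiableAt p)]; rfl

lemma dY_add {u v : ℝ × ℝ → ℝ} (hu : IsPot u) (hv : IsPot v) (p : ℝ × ℝ) :
    dY (fun p => u p + v p) p = dY u p + dY v p := by
  unfold dY
  rw [fderiv_fun_add (hu.differentiableAt p) (hv.differentiableAt p)]; rfl

lemma dX_smul {u : ℝ × ℝ → ℝ} (c : ℝ) (hu : IsPot u) (p : ℝ × ℝ) :
    dX (fun p => c * u p) p = c * dX u p := by
  unfold dX
  rw [fderiv_const_mul (hu.differentiableAt p)]; rfl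

lemma dY_smul {u : ℝ × ℝ → ℝ} (c : ℝ) (hu : IsPot u) (p : ℝ × ℝ) :
    dY (fun p => c * u p) p = c * dY u p := by
  unfold dY
  rw [fderiv_const_mul (hu.differentiableAt p)]; rfl

lemma dX_per {u : ℝ × ℝ → ℝ} (hu : IsPot u) : Per (dX u) := by
  intro x y
  have key : ∀ a b : ℝ, (∀ p : ℝ × ℝ, u (p + (a, b)) = u p) →
      ∀ p : ℝ × ℝ, dX u (p + (a, b)) = dX u p := by
    intro a b h p
    unfold dX
    have h1 : fderiv ℝ (fun q => u (q + (a, b))) p = fderiv ℝ u (p + (a, b)) :=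
      fderiv_comp_add_right (a, b)
    rw [← h1, show (fun q => u (q + (a, b))) = u from funext h]
  constructor
  · have := key 1 0 (fun p => by
      have := (hu.2 p.1 p.2).1
      simpa [Prod.add_def] using this) (x, y)
    simpa using this
  · have := key 0 1 (fun p => by
      have := (hu.2 p.1 p.2).2
      simpa [Prod.add_def] using this) (x, y)
    simpa using this

lemma dY_per {u : ℝ × ℝ → ℝ} (hu : IsPot u) : Per (dY u) := by
  intro x y
  have key : ∀ a b : ℝ, (∀ p : ℝ × ℝ, u (p + (a, b)) = u p) →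
      ∀ p : ℝ × ℝ, dY u (p + (a, b)) = dY u p := by
    intro a b h p
    unfold dY
    have h1 : fderiv ℝ (fun q => u (q + (a, b))) p = fderiv ℝ u (p + (a, b)) :=
      fderiv_comp_add_right (a, b)
    rw [← h1, show (fun q => u (q + (a, b))) = u from funext h]
  constructor
  · have := key 1 0 (fun p => by
      have := (hu.2 p.1 p.2).1
      simpa [Prod.add_def] using this) (x, y)
    simpa using this
  · have := key 0 1 (fun p => by
      have := (hu.2 p.1 p.2).2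
      simpa [Prod.add_def] using this) (x, y)
    simpa using this

lemma continuous_dX {u : ℝ × ℝ → ℝ} (hu : IsPot u) : Continuous (dX u) :=
  (hu.1.continuous_fderiv (by simp)).clm_apply continuous_const

lemma continuous_dY {u : ℝ × ℝ → ℝ} (hu : IsPot u) : Continuous (dY u) :=
  (hu.1.continuous_fderiv (by simp)).clm_apply continuous_const

/-- continuous periodic functions are bounded -/
lemma bm_of_continuous {f : ℝ × ℝ → ℝ} (hf : Continuous f) (hp : Per f) : BM f := by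
  refine ⟨hf.measurable, ?_⟩
  obtain ⟨C, hC⟩ := (isCompact_cell.image hf.abs).bddAbove
  refine ⟨C, fun p => ?_⟩
  have hint : ∀ (m n : ℤ) (x y : ℝ), f (x + m, y + n) = f (x, y) := by
    intro m n x y
    have h1 : Function.Periodic (fun x => f (x, y + n)) 1 := fun x => (hp x (y + n)).1
    have h2 : Function.Periodic (fun y => f (x, y)) 1 := fun y => (hp x y).2
    have h3 := h1.int_mul m x
    have h4 := h2.int_mul n y
    simp only [mul_one] at h3 h4
    rw [h3, h4]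
  have h5 : f p = f (Int.fract p.1, Int.fract p.2) := by
    have := hint (⌊p.1⌋) (⌊p.2⌋) (Int.fract p.1) (Int.fract p.2)
    rw [Int.fract_add_floor, Int.fract_add_floor] at this
    exact this
  rw [h5]
  apply hC
  refine ⟨(Int.fract p.1, Int.fract p.2), ?_, rfl⟩
  exact ⟨⟨Int.fract_nonneg _, (Int.fract_lt_one _).le⟩, ⟨Int.fract_nonneg _, (Int.fract_lt_one _).le⟩⟩

lemma bm_dX {u : ℝ × ℝ → ℝ} (hu : IsPot u) : BM (dX u) := bm_of_continuous (continuous_dX hu) (dX_per hu)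

lemma bm_dY {u : ℝ × ℝ → ℝ} (hu : IsPot u) : BM (dY u) := bm_of_continuous (continuous_dY hu) (dY_per hu)

/-! ### Algebra of phases -/

/-- the current `L E + V`, first component -/
def FX (K : Ph) (x y : ℝ) : ℝ := K 0 * x + K 1 * y + K 3
/-- the current `L E + V`, second component -/
def FY (K : Ph) (x y : ℝ) : ℝ := K 1 * x + K 2 * y + K 4

lemma W_add (K : Ph) (x y s t : ℝ) :
    W K (x + s) (y + t) = W K x y + 2 * (FX K x y * s + FY K x y * t) + Q K s t := by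
  unfold W FX FY Q; ring

lemma Q_smul (K : Ph) (t x y : ℝ) : Q K (t * x) (t * y) = t ^ 2 * Q K x y := by
  unfold Q; ring

lemma Q_pos {K : Ph} (hK : Ell K) {x y : ℝ} (h : x ≠ 0 ∨ y ≠ 0) : 0 < Q K x y := by
  obtain ⟨ha, hd⟩ := hK
  unfold Dt at hd
  have h1 : K 0 * Q K x y = (K 0 * x + K 1 * y) ^ 2 + (K 0 * K 2 - K 1 ^ 2) * y ^ 2 := by
    unfold Q; ring
  by_contra hcon
  push Not at hcon
  have h2 : K 0 * Q K x y ≤ 0 := mul_nonpos_of_nonneg_of_nonpos ha.le hcon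
  rw [h1] at h2
  have h3 : y ^ 2 ≤ 0 := by nlinarith [sq_nonneg (K 0 * x + K 1 * y), sq_nonneg y]
  have h4 : y = 0 := by nlinarith [sq_nonneg y]
  rw [h4] at h2
  have h5 : (K 0 * x) ^ 2 ≤ 0 := by nlinarith
  have h6 : K 0 * x = 0 := by nlinarith [sq_nonneg (K 0 * x)]
  have h7 : x = 0 := by
    rcases mul_eq_zero.1 h6 with h | h
    · exact absurd h ha.ne'
    · exact h
  rcases h with h | h
  · exact h h7
  · exact h h4

lemma Q_nonneg {K : Ph} (hK : Ell K) (x y : ℝ) : 0 ≤ Q K x y := by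
  by_cases h : x ≠ 0 ∨ y ≠ 0
  · exact (Q_pos hK h).le
  · push Not at h
    rw [h.1, h.2]; unfold Q; simp

/-- coefficients are determined by the energy -/
lemma ph_ext {A B : Ph} (h : ∀ x y, W A x y = W B x y) : A = B := by
  have h00 := h 0 0
  have h10 := h 1 0
  have hm0 := h (-1) 0
  have h01 := h 0 1
  have h0m := h 0 (-1)
  have h11 := h 1 1
  unfold W at h00 h10 hm0 h01 h0m h11
  ext i
  fin_cases i
  · show A 0 = B 0; linarith
  · show A 1 = B 1; linarith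
  · show A 2 = B 2; linarith
  · show A 3 = B 3; linarith
  · show A 4 = B 4; linarith
  · show A 5 = B 5; linarith

/-- uniform ellipticity of finitely many phases -/
lemma unif_ell {k : ℕ} (K : Fin k → Ph) (hK : ∀ j, Ell (K j)) :
    ∃ m C : ℝ, 0 < m ∧ 0 < C ∧ ∀ j x y, m * (x ^ 2 + y ^ 2) ≤ Q (K j) x y ∧
      Q (K j) x y ≤ C * (x ^ 2 + y ^ 2) := by
  have h1 : ∀ j, ∃ m, 0 < m ∧ ∀ x y, m * (x ^ 2 + y ^ 2) ≤ Q (K j) x y := by
    intro j
    obtain ⟨ha, hd⟩ := hK j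
    unfold Dt at hd
    have hc : 0 < K j 2 := by nlinarith [sq_nonneg (K j 1)]
    refine ⟨(K j 0 * K j 2 - K j 1 ^ 2) / (K j 0 + K j 2), by positivity, fun x y => ?_⟩
    rw [div_mul_eq_mul_div, div_le_iff₀ (by linarith)]
    unfold Q
    nlinarith [sq_nonneg (K j 0 * x + K j 1 * y), sq_nonneg (K j 1 * x + K j 2 * y)]
  choose m hm0 hm using h1
  have hC : ∀ j x y, Q (K j) x y ≤ (|K j 0| + 2 * |K j 1| + |K j 2|) * (x ^ 2 + y ^ 2) := by
    intro j x y
    unfold Q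
    have a0 := le_abs_self (K j 0)
    have a2 := le_abs_self (K j 2)
    have h1 : K j 0 * x ^ 2 ≤ |K j 0| * x ^ 2 := mul_le_mul_of_nonneg_right a0 (sq_nonneg _)
    have h2 : K j 2 * y ^ 2 ≤ |K j 2| * y ^ 2 := mul_le_mul_of_nonneg_right a2 (sq_nonneg _)
    have h3 : 2 * K j 1 * x * y ≤ |K j 1| * (x ^ 2 + y ^ 2) := by
      have := le_abs_self (K j 1 * (2 * x * y))
      rw [abs_mul] at this
      have h4 : |2 * x * y| ≤ x ^ 2 + y ^ 2 := by
        rw [abs_le]; constructor <;> nlinarith [sq_nonneg (x + y), sq_nonneg (x - y)]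
      have h5 := mul_le_mul_of_nonneg_left h4 (abs_nonneg (K j 1))
      nlinarith
    have b0 := abs_nonneg (K j 0)
    have b1 := abs_nonneg (K j 1)
    have b2 := abs_nonneg (K j 2)
    nlinarith [sq_nonneg x, sq_nonneg y, mul_nonneg b0 (sq_nonneg y), mul_nonneg b2 (sq_nonneg x),
      mul_nonneg b1 (sq_nonneg x), mul_nonneg b1 (sq_nonneg y)]
  rcases Nat.eq_zero_or_pos k with hk | hk
  · subst hk
    exact ⟨1, 1, one_pos, one_pos, fun j => j.elim0⟩
  · have : Nonempty (Fin k) := ⟨⟨0, hk⟩⟩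
    refine ⟨Finset.univ.inf' Finset.univ_nonempty m,
      1 + ∑ j, (|K j 0| + 2 * |K j 1| + |K j 2|), ?_, ?_, fun j x y => ⟨?_, ?_⟩⟩
    · rw [Finset.lt_inf'_iff]; exact fun j _ => hm0 j
    · positivity
    · refine le_trans ?_ (hm j x y)
      exact mul_le_mul_of_nonneg_right (Finset.inf'_le _ (Finset.mem_univ j)) (by positivity)
    · refine (hC j x y).trans (mul_le_mul_of_nonneg_right ?_ (by positivity))
      have := Finset.single_le_sum (f := fun j : Fin k => |K j 0| + 2 * |K j 1| + |K j 2|)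
        (fun j _ => by positivity) (Finset.mem_univ j)
      linarith

/-- coercivity of the energies -/
lemma W_coercive {k : ℕ} (K : Fin k → Ph) (hK : ∀ j, Ell (K j)) :
    ∃ m C : ℝ, 0 < m ∧ ∀ j x y, m * (x ^ 2 + y ^ 2) - C ≤ W (K j) x y := by
  obtain ⟨m, C, hm, _, H⟩ := unif_ell K hK
  refine ⟨m / 2, ∑ j, (|K j 5| + (2 / m) * (K j 3 ^ 2 + K j 4 ^ 2)), by positivity,
    fun j x y => ?_⟩
  have h1 := (H j x y).1
  have h2 : |K j 5| + (2 / m) * (K j 3 ^ 2 + K j 4 ^ 2)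
      ≤ ∑ j, (|K j 5| + (2 / m) * (K j 3 ^ 2 + K j 4 ^ 2)) :=
    Finset.single_le_sum (f := fun j => |K j 5| + (2 / m) * (K j 3 ^ 2 + K j 4 ^ 2))
      (fun j _ => by positivity) (Finset.mem_univ j)
  have h3 : W (K j) x y = Q (K j) x y + 2 * K j 3 * x + 2 * K j 4 * y + K j 5 := by
    unfold W Q; ring
  have h4 := neg_abs_le (K j 5)
  have h5 : 0 ≤ (m / 2) * (x ^ 2 + y ^ 2) + 2 * K j 3 * x + 2 * K j 4 * y
      + (2 / m) * (K j 3 ^ 2 + K j 4 ^ 2) := by
    have : (m / 2) * (x ^ 2 + y ^ 2) + 2 * K j 3 * x + 2 * K j 4 * y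
      + (2 / m) * (K j 3 ^ 2 + K j 4 ^ 2)
      = (m / 2) * ((x + 2 / m * K j 3) ^ 2 + (y + 2 / m * K j 4) ^ 2) := by
      field_simp; ring
    rw [this]; positivity
  rw [h3]
  linarith

/-- functions `W (K (χ p)) (f p) (g p)` of bounded measurable fields -/
lemma BM.W {k : ℕ} (K : Fin k → Ph) {χ : ℝ × ℝ → Fin k} (hχ : Measurable χ) {f g : ℝ × ℝ → ℝ}
    (hf : BM f) (hg : BM g) : BM (fun p => W (K (χ p)) (f p) (g p)) := by
  have hc : ∀ i : Fin 6, BM (fun p => K (χ p) i) := fun i => BM.phase (fun j => K j i) hχ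
  unfold N1.W
  exact ((((((hc 0).mul hf.sq).add ((((hc 1).const_mul 2).mul hf).mul hg)).add
    ((hc 2).mul hg.sq)).add (((hc 3).const_mul 2).mul hf)).add
    (((hc 4).const_mul 2).mul hg)).add (hc 5)

lemma BM.Q {k : ℕ} (K : Fin k → Ph) {χ : ℝ × ℝ → Fin k} (hχ : Measurable χ) {f g : ℝ × ℝ → ℝ}
    (hf : BM f) (hg : BM g) : BM (fun p => Q (K (χ p)) (f p) (g p)) := by
  have hc : ∀ i : Fin 6, BM (fun p => K (χ p) i) := fun i => BM.phase (fun j => K j i) hχ
  unfold N1.Q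
  exact (((hc 0).mul hf.sq).add ((((hc 1).const_mul 2).mul hf).mul hg)).add ((hc 2).mul hg.sq)

lemma BM.FX {k : ℕ} (K : Fin k → Ph) {χ : ℝ × ℝ → Fin k} (hχ : Measurable χ) {f g : ℝ × ℝ → ℝ}
    (hf : BM f) (hg : BM g) : BM (fun p => FX (K (χ p)) (f p) (g p)) := by
  have hc : ∀ i : Fin 6, BM (fun p => K (χ p) i) := fun i => BM.phase (fun j => K j i) hχ
  unfold N1.FX
  exact (((hc 0).mul hf).add ((hc 1).mul hg)).add (hc 3)

lemma BM.FY {k : ℕ} (K : Fin k → Ph) {χ : ℝ × ℝ → Fin k} (hχ : Measurable χ) {f g : ℝ × ℝ → ℝ}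
    (hf : BM f) (hg : BM g) : BM (fun p => FY (K (χ p)) (f p) (g p)) := by
  have hc : ∀ i : Fin 6, BM (fun p => K (χ p) i) := fun i => BM.phase (fun j => K j i) hχ
  unfold N1.FY
  exact (((hc 1).mul hf).add ((hc 2).mul hg)).add (hc 4)

end Pool.Agent.Lib.MP_2a9317_an.N1
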