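import Pool.Agent.Lib.MP_2a9317_an.N1.CD

set_option autoImplicit false

namespace Pool.Agent.Lib.MP_2a9317_an.N1

open MeasureTheory Filter Topology
open scoped ContDiff




/-- the energy of the explicit layered material -/
lemma W_layM (A B : Ph) (θ ξ η x y : ℝ) :
    W (layM A B θ ξ η) x y = θ * W A x y + (1 - θ) * W B x y
    - θ * (1 - θ) * (ξ * ((A 0 - B 0) * x + (A 1 - B 1) * y + (A 3 - B 3))
        + η * ((A 1 - B 1) * x + (A 2 - B 2) * y + (A 4 - B 4))) ^ 2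
      / ((1 - θ) * Q A ξ η + θ * Q B ξ η) := by
  have e : ∀ M : Ph, W M x y = M 0 * x ^ 2 + 2 * M 1 * x * y + M 2 * y ^ 2 + 2 * M 3 * x
      + 2 * M 4 * y + M 5 := fun M => rfl
  rw [e (layM A B θ ξ η), e A, e B]
  simp only [layM, Matrix.cons_val]
  ring

/-- C1a. -/
theorem lay_iff (A B M : Ph) (θ ξ η : ℝ) : Lay A B θ ξ η M ↔ M = layM A B θ ξ η := by
  constructor
  · intro h
    apply ph_ext
    intro x y
    rw [h x y, W_layM]
  · rintro rfl x y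
    exact W_layM A B θ ξ η x y

lemma lay_den_pos {A B : Ph} {θ ξ η : ℝ} (hA : Ell A) (hB : Ell B) (h0 : 0 < θ) (h1 : θ < 1)
    (hξ : ξ ≠ 0 ∨ η ≠ 0) : 0 < (1 - θ) * Q A ξ η + θ * Q B ξ η := by
  have h2 := mul_pos (by linarith : (0 : ℝ) < 1 - θ) (Q_pos hA hξ)
  have h3 := mul_pos h0 (Q_pos hB hξ)
  linarith

/-- expansion of the energy of a two-layer field -/
lemma lay_expand (A B : Ph) (θ ξ η x y t : ℝ) :
    θ * W A (x + (1 - θ) * t * ξ) (y + (1 - θ) * t * η)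
      + (1 - θ) * W B (x - θ * t * ξ) (y - θ * t * η)
    = θ * W A x y + (1 - θ) * W B x y
      + θ * (1 - θ) * (2 * t * (ξ * ((A 0 - B 0) * x + (A 1 - B 1) * y + (A 3 - B 3))
        + η * ((A 1 - B 1) * x + (A 2 - B 2) * y + (A 4 - B 4)))
        + t ^ 2 * ((1 - θ) * Q A ξ η + θ * Q B ξ η)) := by
  unfold W Q; ring

/-- C1b. -/
theorem lay_le {A B M : Ph} {θ ξ η : ℝ} (hA : Ell A) (hB : Ell B) (h0 : 0 < θ) (h1 : θ < 1)
    (hξ : ξ ≠ 0 ∨ η ≠ 0) (hM : Lay A B θ ξ η M) (x y t : ℝ) :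
    W M x y ≤ θ * W A (x + (1 - θ) * t * ξ) (y + (1 - θ) * t * η)
      + (1 - θ) * W B (x - θ * t * ξ) (y - θ * t * η) := by
  have hD := lay_den_pos hA hB h0 h1 hξ
  rw [lay_expand, hM x y]
  set D := (1 - θ) * Q A ξ η + θ * Q B ξ η
  set σ := ξ * ((A 0 - B 0) * x + (A 1 - B 1) * y + (A 3 - B 3))
        + η * ((A 1 - B 1) * x + (A 2 - B 2) * y + (A 4 - B 4))
  have hκ : 0 < θ * (1 - θ) := mul_pos h0 (by linarith)
  have h2 : 0 ≤ θ * (1 - θ) * (2 * t * σ + t ^ 2 * D) + θ * (1 - θ) * σ ^ 2 / D := by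
    have e : θ * (1 - θ) * (2 * t * σ + t ^ 2 * D) + θ * (1 - θ) * σ ^ 2 / D
        = θ * (1 - θ) * (t * D + σ) ^ 2 / D := by field_simp; ring
    rw [e]; positivity
  linarith

lemma FX_layM (A B : Ph) (θ ξ η x y : ℝ) :
    FX (layM A B θ ξ η) x y = θ * FX A x y + (1 - θ) * FX B x y
    - θ * (1 - θ) * (ξ * (A 0 - B 0) + η * (A 1 - B 1))
      * ((ξ * ((A 0 - B 0) * x + (A 1 - B 1) * y + (A 3 - B 3))
        + η * ((A 1 - B 1) * x + (A 2 - B 2) * y + (A 4 - B 4)))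
      / ((1 - θ) * Q A ξ η + θ * Q B ξ η)) := by
  have e : ∀ M : Ph, FX M x y = M 0 * x + M 1 * y + M 3 := fun M => rfl
  rw [e (layM A B θ ξ η), e A, e B]
  simp only [layM, Matrix.cons_val]
  ring

lemma FY_layM (A B : Ph) (θ ξ η x y : ℝ) :
    FY (layM A B θ ξ η) x y = θ * FY A x y + (1 - θ) * FY B x y
    - θ * (1 - θ) * (ξ * (A 1 - B 1) + η * (A 2 - B 2))
      * ((ξ * ((A 0 - B 0) * x + (A 1 - B 1) * y + (A 3 - B 3))
        + η * ((A 1 - B 1) * x + (A 2 - B 2) * y + (A 4 - B 4)))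
      / ((1 - θ) * Q A ξ η + θ * Q B ξ η)) := by
  have e : ∀ M : Ph, FY M x y = M 1 * x + M 2 * y + M 4 := fun M => rfl
  rw [e (layM A B θ ξ η), e A, e B]
  simp only [layM, Matrix.cons_val]
  ring

lemma Q_layM (A B : Ph) (θ ξ η x y : ℝ) :
    Q (layM A B θ ξ η) x y = θ * Q A x y + (1 - θ) * Q B x y
    - θ * (1 - θ) * (ξ * ((A 0 - B 0) * x + (A 1 - B 1) * y)
        + η * ((A 1 - B 1) * x + (A 2 - B 2) * y)) ^ 2
      / ((1 - θ) * Q A ξ η + θ * Q B ξ η) := by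
  have e : ∀ M : Ph, Q M x y = M 0 * x ^ 2 + 2 * M 1 * x * y + M 2 * y ^ 2 := fun M => rfl
  rw [e (layM A B θ ξ η), e A, e B]
  simp only [layM, Matrix.cons_val]
  ring

/-- C1c. -/
theorem lay_attain {A B M : Ph} {θ ξ η : ℝ} (hA : Ell A) (hB : Ell B) (h0 : 0 < θ) (h1 : θ < 1)
    (hξ : ξ ≠ 0 ∨ η ≠ 0) (hM : Lay A B θ ξ η M) (x y : ℝ) :
    ∃ t : ℝ, W M x y = θ * W A (x + (1 - θ) * t * ξ) (y + (1 - θ) * t * η)
      + (1 - θ) * W B (x - θ * t * ξ) (y - θ * t * η) ∧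
      ξ * (FX A (x + (1 - θ) * t * ξ) (y + (1 - θ) * t * η)
          - FX B (x - θ * t * ξ) (y - θ * t * η))
        + η * (FY A (x + (1 - θ) * t * ξ) (y + (1 - θ) * t * η)
          - FY B (x - θ * t * ξ) (y - θ * t * η)) = 0 ∧
      FX M x y = θ * FX A (x + (1 - θ) * t * ξ) (y + (1 - θ) * t * η)
        + (1 - θ) * FX B (x - θ * t * ξ) (y - θ * t * η) ∧
      FY M x y = θ * FY A (x + (1 - θ) * t * ξ) (y + (1 - θ) * t * η)
        + (1 - θ) * FY B (x - θ * t * ξ) (y - θ * t * η) := by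
  have hD := lay_den_pos hA hB h0 h1 hξ
  have hFX := FX_layM A B θ ξ η x y
  have hFY := FY_layM A B θ ξ η x y
  rw [← (lay_iff A B M θ ξ η).1 hM] at hFX hFY
  have hWM := hM x y
  have hexp := lay_expand A B θ ξ η x y
  have hjump : ∀ t : ℝ, ξ * (FX A (x + (1 - θ) * t * ξ) (y + (1 - θ) * t * η)
          - FX B (x - θ * t * ξ) (y - θ * t * η))
        + η * (FY A (x + (1 - θ) * t * ξ) (y + (1 - θ) * t * η)
          - FY B (x - θ * t * ξ) (y - θ * t * η))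
      = (ξ * ((A 0 - B 0) * x + (A 1 - B 1) * y + (A 3 - B 3))
        + η * ((A 1 - B 1) * x + (A 2 - B 2) * y + (A 4 - B 4)))
        + t * ((1 - θ) * Q A ξ η + θ * Q B ξ η) := by
    intro t
    unfold FX FY Q; ring
  generalize (1 - θ) * Q A ξ η + θ * Q B ξ η = D at *
  generalize ξ * ((A 0 - B 0) * x + (A 1 - B 1) * y + (A 3 - B 3))
        + η * ((A 1 - B 1) * x + (A 2 - B 2) * y + (A 4 - B 4)) = σ at *
  obtain ⟨t, ht, ht2⟩ : ∃ t : ℝ, t * D = -σ ∧ σ / D = -t :=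
    ⟨-σ / D, by field_simp, by ring⟩
  have ht3 : σ ^ 2 / D = t ^ 2 * D := by
    have : σ = -(t * D) := by linarith
    rw [this]; field_simp
  refine ⟨t, ?_, ?_, ?_, ?_⟩
  · rw [hexp t, hWM, mul_div_assoc, ht3]
    linear_combination (-2 * θ * (1 - θ) * t) * ht
  · rw [hjump t, ht]; ring
  · rw [hFX, ht2]; unfold FX; ring
  · rw [hFY, ht2]; unfold FY; ring

/-- positivity of the quadratic form gives ellipticity -/
lemma ell_of_Q_pos {M : Ph} (h : ∀ x y : ℝ, (x ≠ 0 ∨ y ≠ 0) → 0 < Q M x y) : Ell M := by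
  have h0 : 0 < M 0 := by
    have := h 1 0 (Or.inl one_ne_zero)
    unfold Q at this
    linarith
  refine ⟨h0, ?_⟩
  have h1 := h (-M 1) (M 0) (Or.inr h0.ne')
  have e : Q M (-M 1) (M 0) = M 0 * Dt M := by unfold Q Dt; ring
  rw [e] at h1
  exact (mul_pos_iff_of_pos_left h0).1 h1

/-- C2. Layered materials are elliptic. -/
theorem lay_ell {A B M : Ph} {θ ξ η : ℝ} (hA : Ell A) (hB : Ell B) (h0 : 0 < θ) (h1 : θ < 1)
    (hξ : ξ ≠ 0 ∨ η ≠ 0) (hM : Lay A B θ ξ η M) : Ell M := by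
  have hD := lay_den_pos hA hB h0 h1 hξ
  apply ell_of_Q_pos
  intro x y hxy
  obtain ⟨t, ht⟩ : ∃ t : ℝ, Q M x y = θ * Q A (x + (1 - θ) * t * ξ) (y + (1 - θ) * t * η)
      + (1 - θ) * Q B (x - θ * t * ξ) (y - θ * t * η) := by
    have hQM := Q_layM A B θ ξ η x y
    rw [← (lay_iff A B M θ ξ η).1 hM] at hQM
    have hexp : ∀ t : ℝ, θ * Q A (x + (1 - θ) * t * ξ) (y + (1 - θ) * t * η)
      + (1 - θ) * Q B (x - θ * t * ξ) (y - θ * t * η)
      = θ * Q A x y + (1 - θ) * Q B x y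
      + θ * (1 - θ) * (2 * t * (ξ * ((A 0 - B 0) * x + (A 1 - B 1) * y)
        + η * ((A 1 - B 1) * x + (A 2 - B 2) * y))
        + t ^ 2 * ((1 - θ) * Q A ξ η + θ * Q B ξ η)) := by
      intro t
      unfold Q; ring
    generalize (1 - θ) * Q A ξ η + θ * Q B ξ η = D at *
    generalize ξ * ((A 0 - B 0) * x + (A 1 - B 1) * y)
        + η * ((A 1 - B 1) * x + (A 2 - B 2) * y) = σ at *
    obtain ⟨t, ht, ht2⟩ : ∃ t : ℝ, t * D = -σ ∧ σ / D = -t :=
      ⟨-σ / D, by field_simp, by ring⟩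
    have ht3 : σ ^ 2 / D = t ^ 2 * D := by
      have : σ = -(t * D) := by linarith
      rw [this]; field_simp
    refine ⟨t, ?_⟩
    rw [hexp t, hQM, mul_div_assoc, ht3]
    linear_combination (-2 * θ * (1 - θ) * t) * ht
  rw [ht]
  have hQA := Q_nonneg hA (x + (1 - θ) * t * ξ) (y + (1 - θ) * t * η)
  have hQB := Q_nonneg hB (x - θ * t * ξ) (y - θ * t * η)
  have h1' : 0 < 1 - θ := by linarith
  by_cases hc : (x + (1 - θ) * t * ξ ≠ 0 ∨ y + (1 - θ) * t * η ≠ 0)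
  · have := mul_pos h0 (Q_pos hA hc)
    have := mul_nonneg h1'.le hQB
    linarith
  · push Not at hc
    have hc2 : (x - θ * t * ξ ≠ 0 ∨ y - θ * t * η ≠ 0) := by
      by_contra hc2
      push Not at hc2
      have hx : t * ξ = 0 := by linarith [hc.1, hc2.1]
      have hy : t * η = 0 := by linarith [hc.2, hc2.2]
      have hx0 : x = 0 := by have := hc2.1; rw [mul_assoc, hx] at this; linarith
      have hy0 : y = 0 := by have := hc2.2; rw [mul_assoc, hy] at this; linarith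
      rcases hxy with h | h
      · exact h hx0
      · exact h hy0
    have := mul_pos h1' (Q_pos hB hc2)
    have := mul_nonneg h0.le hQA
    linarith

/-- C3. Layering and duality. -/
theorem lay_dual {A B M M' : Ph} {θ ξ η : ℝ} (hA : Ell A) (hB : Ell B) (h0 : 0 < θ) (h1 : θ < 1)
    (hξ : ξ ≠ 0 ∨ η ≠ 0) (hM : Lay A B θ ξ η M) (hM' : Lay (dual A) (dual B) θ ξ η M') (g h : ℝ) :
    W M' g h ≤ W (dual M) g h := by
  have hEM := lay_ell hA hB h0 h1 hξ hM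
  -- the field `F` with `L_M F + V_M = (-h, g)`
  obtain ⟨x, y, hX, hY⟩ : ∃ x y : ℝ, FX M x y = -h ∧ FY M x y = g := by
    have hd : 0 < Dt M := hEM.2
    obtain ⟨d, hd', hd2⟩ : ∃ d : ℝ, d * (M 0 * M 2 - M 1 ^ 2) = 1 ∧ d = d :=
      ⟨(Dt M)⁻¹, by have : M 0 * M 2 - M 1 ^ 2 = Dt M := rfl; rw [this]; exact inv_mul_cancel₀ hd.ne', rfl⟩
    refine ⟨(M 2 * (-h - M 3) - M 1 * (g - M 4)) * d,
      (M 0 * (g - M 4) - M 1 * (-h - M 3)) * d, ?_, ?_⟩
    · unfold FX; linear_combination (-h - M 3) * hd'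
    · unfold FY; linear_combination (g - M 4) * hd'
  obtain ⟨t, hW, hn, hFX, hFY⟩ := lay_attain hA hB h0 h1 hξ hM x y
  set xA := x + (1 - θ) * t * ξ with hxA
  set yA := y + (1 - θ) * t * η with hyA
  set xB := x - θ * t * ξ with hxB
  set yB := y - θ * t * η with hyB
  rw [hX] at hFX
  rw [hY] at hFY
  -- the jump of the dual field
  obtain ⟨τ, hτ1, hτ2⟩ : ∃ τ : ℝ, FY A xA yA - FY B xB yB = τ * ξ ∧
      -(FX A xA yA - FX B xB yB) = τ * η := by
    rcases hξ with hξ0 | hη0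
    · refine ⟨(FY A xA yA - FY B xB yB) / ξ, by field_simp, ?_⟩
      field_simp
      linarith
    · refine ⟨-(FX A xA yA - FX B xB yB) / η, ?_, by field_simp⟩
      field_simp
      linarith
  have hle := lay_le (dual_ell hA) (dual_ell hB) h0 h1 hξ hM' g h τ
  have eA1 : g + (1 - θ) * τ * ξ = FY A xA yA := by
    rw [mul_assoc, ← hτ1, hFY]; ring
  have eA2 : h + (1 - θ) * τ * η = - FX A xA yA := by
    rw [mul_assoc, ← hτ2]; linarith [hFX]
  have eB1 : g - θ * τ * ξ = FY B xB yB := by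
    rw [mul_assoc, ← hτ1, hFY]; ring
  have eB2 : h - θ * τ * η = - FX B xB yB := by
    rw [mul_assoc, ← hτ2]; linarith [hFX]
  rw [eA1, eA2, eB1, eB2] at hle
  have fA := fenchel hA xA yA (FY A xA yA) (-FX A xA yA)
  have fB := fenchel hB xB yB (FY B xB yB) (-FX B xB yB)
  have fM := fenchel hEM x y g h
  rw [hX, hY] at fM
  have z1 : ∀ (K : Ph) (u v : ℝ), (K 2 * (- -u - u) ^ 2 - 2 * K 1 * (- -u - u) * (v - v)
        + K 0 * (v - v) ^ 2) / Dt K = 0 := by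
    intro K u v
    have : - -u - u = 0 := by ring
    rw [this]; simp
  rw [z1] at fA fB
  have z2 : (M 2 * (-h - -h) ^ 2 - 2 * M 1 * (-h - -h) * (g - g) + M 0 * (g - g) ^ 2) / Dt M = 0 := by
    simp
  rw [z2] at fM
  have key : θ * (2 * (FY A xA yA * yA - -FX A xA yA * xA))
      + (1 - θ) * (2 * (FY B xB yB * yB - -FX B xB yB * xB)) = 2 * (g * y - h * x) := by
    have hn' : t * (ξ * (FX A xA yA - FX B xB yB) + η * (FY A xA yA - FY B xB yB)) = 0 := by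
      rw [hn, mul_zero]
    have e1 : h = -(θ * FX A xA yA + (1 - θ) * FX B xB yB) := by linarith [hFX]
    rw [e1, hFY, hxA, hyA, hxB, hyB] 
    rw [← hxA, ← hyA, ← hxB, ← hyB]
    have e2 : θ * (2 * (FY A xA yA * (y + (1 - θ) * t * η) - -FX A xA yA * (x + (1 - θ) * t * ξ)))
      + (1 - θ) * (2 * (FY B xB yB * (y - θ * t * η) - -FX B xB yB * (x - θ * t * ξ)))
      - 2 * ((θ * FY A xA yA + (1 - θ) * FY B xB yB) * y
        - -(θ * FX A xA yA + (1 - θ) * FX B xB yB) * x)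
      = 2 * θ * (1 - θ) * (t * (ξ * (FX A xA yA - FX B xB yB) + η * (FY A xA yA - FY B xB yB))) := by
      ring
    rw [hn', mul_zero] at e2
    rw [← hxA, ← hyA, ← hxB, ← hyB] at e2
    linarith
  have s1 := congrArg (fun r => θ * r) fA
  have s2 := congrArg (fun r => (1 - θ) * r) fB
  simp only [mul_zero] at s1 s2
  linarith [s1, s2, key, hle, hW, fM]

end Pool.Agent.Lib.MP_2a9317_an.N1
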