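import Pool.Agent.Lib.MP_2a9317_an.N1.C1

set_option autoImplicit false

namespace Pool.Agent.Lib.MP_2a9317_an.N1

open MeasureTheory Filter Topology
open scoped ContDiff






/-- C4a. Upper bound in the limit: from `layer_upper` with near minimizers of `A`, `B` and `lay_attain`. -/
theorem layer_limsup {k : ℕ} (K : Fin k → Ph) {χ₁ χ₂ : ℝ × ℝ → Fin k} (h₁ : IsPartition χ₁)
    (h₂ : IsPartition χ₂) {A B M : Ph} (hEA : Ell A) (hEB : Ell B) (hA : Eff K χ₁ A)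
    (hB : Eff K χ₂ B) (p q : ℤ) (hp : 0 < p) {s : ℝ} (hs0 : 0 < s) (hs1 : s < 1 / 2)
    (hM : Lay A B (2 * s) p q M) {N : ℕ → Ph}
    (hN : ∀ n, Eff K (layP p q s (n * p.toNat + 1) χ₁ χ₂) (N n)) (x y : ℝ) {ε : ℝ} (hε : 0 < ε) :
    ∀ᶠ n in atTop, W (N n) x y ≤ W M x y + ε := by
  have hp' : (p : ℝ) ≠ 0 := by exact_mod_cast hp.ne'
  obtain ⟨t, ht, -, -, -⟩ := lay_attain hEA hEB (θ := 2 * s) (by linarith) (by linarith)
    (Or.inl hp') hM x y
  obtain ⟨u₁, hu₁, hE₁⟩ := (hA (x + (1 - 2 * s) * t * p) (y + (1 - 2 * s) * t * q)).2 (ε / 4)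
    (by linarith)
  obtain ⟨u₂, hu₂, hE₂⟩ := (hB (x - 2 * s * t * p) (y - 2 * s * t * q)).2 (ε / 4)
    (by linarith)
  obtain ⟨n₀, hn₀⟩ := layer_upper K h₁ h₂ hu₁ hu₂ p q hp hs0 hs1 x y t (ε := ε / 4) (by linarith)
  filter_upwards [eventually_ge_atTop n₀] with n hn
  obtain ⟨u, hu, hle⟩ := hn₀ n hn
  have h1 := (hN n x y).1 u hu
  have h2 : 2 * s * En K χ₁ (x + (1 - 2 * s) * t * p) (y + (1 - 2 * s) * t * q) u₁
      ≤ 2 * s * (W A (x + (1 - 2 * s) * t * p) (y + (1 - 2 * s) * t * q) + ε / 4) :=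
    mul_le_mul_of_nonneg_left hE₁ (by linarith)
  have h3 : (1 - 2 * s) * En K χ₂ (x - 2 * s * t * p) (y - 2 * s * t * q) u₂
      ≤ (1 - 2 * s) * (W B (x - 2 * s * t * p) (y - 2 * s * t * q) + ε / 4) :=
    mul_le_mul_of_nonneg_left hE₂ (by linarith)
  rw [ht]
  linarith

lemma tendsto_of_W {N : ℕ → Ph} {M : Ph}
    (h : ∀ x y : ℝ, Tendsto (fun n => W (N n) x y) atTop (𝓝 (W M x y))) :
    Tendsto N atTop (𝓝 M) := by
  have w00 : ∀ K : Ph, W K 0 0 = K 5 := fun K => by unfold W; ring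
  have w10 : ∀ K : Ph, W K 1 0 = K 0 + 2 * K 3 + K 5 := fun K => by unfold W; ring
  have wm0 : ∀ K : Ph, W K (-1) 0 = K 0 - 2 * K 3 + K 5 := fun K => by unfold W; ring
  have w01 : ∀ K : Ph, W K 0 1 = K 2 + 2 * K 4 + K 5 := fun K => by unfold W; ring
  have w0m : ∀ K : Ph, W K 0 (-1) = K 2 - 2 * K 4 + K 5 := fun K => by unfold W; ring
  have w11 : ∀ K : Ph, W K 1 1 = K 0 + 2 * K 1 + K 2 + 2 * K 3 + 2 * K 4 + K 5 :=
    fun K => by unfold W; ring
  have h00 := h 0 0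
  have h10 := h 1 0
  have hm0 := h (-1) 0
  have h01 := h 0 1
  have h0m := h 0 (-1)
  have h11 := h 1 1
  rw [tendsto_pi_nhds]
  intro i
  fin_cases i
  · have := ((h10.add hm0).div_const 2).sub h00
    refine (this.congr fun n => ?_).trans (le_of_eq (congrArg 𝓝 ?_))
    · rw [w10, wm0, w00]; show _ = N n 0; ring
    · rw [w10, wm0, w00]; show _ = M 0; ring
  · have := (((h11.sub h10).sub h01).add h00).div_const 2
    refine (this.congr fun n => ?_).trans (le_of_eq (congrArg 𝓝 ?_))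
    · rw [w11, w10, w01, w00]; show _ = N n 1; ring
    · rw [w11, w10, w01, w00]; show _ = M 1; ring
  · have := ((h01.add h0m).div_const 2).sub h00
    refine (this.congr fun n => ?_).trans (le_of_eq (congrArg 𝓝 ?_))
    · rw [w01, w0m, w00]; show _ = N n 2; ring
    · rw [w01, w0m, w00]; show _ = M 2; ring
  · have := (h10.sub hm0).div_const 4
    refine (this.congr fun n => ?_).trans (le_of_eq (congrArg 𝓝 ?_))
    · rw [w10, wm0]; show _ = N n 3; ring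
    · rw [w10, wm0]; show _ = M 3; ring
  · have := (h01.sub h0m).div_const 4
    refine (this.congr fun n => ?_).trans (le_of_eq (congrArg 𝓝 ?_))
    · rw [w01, w0m]; show _ = N n 4; ring
    · rw [w01, w0m]; show _ = M 4; ring
  · refine (h00.congr fun n => ?_).trans (le_of_eq (congrArg 𝓝 ?_))
    · rw [w00]; rfl
    · rw [w00]; rfl

lemma gap_nonneg {K : Ph} (hK : Ell K) (P R : ℝ) :
    0 ≤ (K 2 * P ^ 2 - 2 * K 1 * P * R + K 0 * R ^ 2) / Dt K := by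
  obtain ⟨ha, hd⟩ := hK
  refine div_nonneg ?_ hd.le
  unfold Dt at hd
  have h1 : K 0 * (K 2 * P ^ 2 - 2 * K 1 * P * R + K 0 * R ^ 2)
      = (K 0 * R - K 1 * P) ^ 2 + (K 0 * K 2 - K 1 ^ 2) * P ^ 2 := by ring
  have h2 : 0 ≤ K 0 * (K 2 * P ^ 2 - 2 * K 1 * P * R + K 0 * R ^ 2) := by
    rw [h1]
    have := mul_nonneg hd.le (sq_nonneg P)
    positivity
  exact nonneg_of_mul_nonneg_right h2 ha

/-- C4b. -/
theorem layer_tendsto {k : ℕ} (K : Fin k → Ph) (hK : ∀ j, Ell (K j)) {χ₁ χ₂ : ℝ × ℝ → Fin k}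
    (h₁ : IsPartition χ₁) (h₂ : IsPartition χ₂) {A B M : Ph} (hA : Eff K χ₁ A)
    (hB : Eff K χ₂ B) (p q : ℤ) (hp : 0 < p) {s : ℝ} (hs0 : 0 < s) (hs1 : s < 1 / 2)
    (hM : Lay A B (2 * s) p q M) {N : ℕ → Ph}
    (hN : ∀ n, Eff K (layP p q s (n * p.toNat + 1) χ₁ χ₂) (N n)) :
    Tendsto N atTop (𝓝 M) := by
  have hEA : Ell A := ell_of_eff K hK h₁ hA
  have hEB : Ell B := ell_of_eff K hK h₂ hB
  have hp' : (p : ℝ) ≠ 0 := by exact_mod_cast hp.ne'
  have hEM : Ell M := lay_ell hEA hEB (θ := 2 * s) (by linarith) (by linarith) (Or.inl hp') hM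
  have hP : ∀ n, IsPartition (layP p q s (n * p.toNat + 1) χ₁ χ₂) :=
    fun n => layP_partition p q s _ h₁ h₂
  have hEN : ∀ n, Ell (N n) := fun n => ell_of_eff K hK (hP n) (hN n)
  have hM' : Lay (dual A) (dual B) (2 * s) p q (layM (dual A) (dual B) (2 * s) p q) :=
    (lay_iff _ _ _ _ _ _).2 rfl
  have hN' : ∀ n, Eff (fun j => dual (K j)) (layP p q s (n * p.toNat + 1) χ₁ χ₂) (dual (N n)) :=
    fun n => eff_dual K hK (hP n) (hN n)
  apply tendsto_of_W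
  intro x y
  rw [Metric.tendsto_atTop']
  intro ε hε
  have hup := layer_limsup K h₁ h₂ hEA hEB hA hB p q hp hs0 hs1 hM hN x y (ε := ε / 2)
    (by linarith)
  have hlo := layer_limsup (fun j => dual (K j)) h₁ h₂ (dual_ell hEA) (dual_ell hEB)
    (eff_dual K hK h₁ hA) (eff_dual K hK h₂ hB) p q hp hs0 hs1 hM' hN' (FY M x y) (-FX M x y)
    (ε := ε / 2) (by linarith)
  have hd := lay_dual hEA hEB (θ := 2 * s) (by linarith) (by linarith) (Or.inl hp') hM hM'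
    (FY M x y) (-FX M x y)
  have hf := fenchel hEM x y (FY M x y) (-FX M x y)
  have hf0 : (M 2 * (- -FX M x y - FX M x y) ^ 2
      - 2 * M 1 * (- -FX M x y - FX M x y) * (FY M x y - FY M x y)
      + M 0 * (FY M x y - FY M x y) ^ 2) / Dt M = 0 := by
    simp
  rw [hf0] at hf
  obtain ⟨n₀, hn₀⟩ := eventually_atTop.1 (hup.and hlo)
  refine ⟨n₀, fun n hn => ?_⟩
  obtain ⟨h5, h6⟩ := hn₀ n hn.le
  have h7 := fenchel (hEN n) x y (FY M x y) (-FX M x y)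
  have h8 := gap_nonneg (hEN n) (- -FX M x y - FX (N n) x y) (FY M x y - FY (N n) x y)
  rw [← h7] at h8
  rw [Real.dist_eq, abs_lt]
  constructor <;> linarith

end Pool.Agent.Lib.MP_2a9317_an.N1
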