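import Pool.Agent.Lib.MP_2a9317_an.N1.C4

set_option autoImplicit false

namespace Pool.Agent.Lib.MP_2a9317_an.N1

open MeasureTheory Filter Topology
open scoped ContDiff




lemma c5_D_pos {A B : Ph} (hA : Ell A) (hB : Ell B) {θ ξ η : ℝ} (h0 : 0 < θ) (h1 : θ < 1)
    (hξ : ξ ≠ 0 ∨ η ≠ 0) : 0 < (1 - θ) * Q A ξ η + θ * Q B ξ η := by
  have h1' : 0 < 1 - θ := by linarith
  have hqA := Q_pos hA hξ
  have hqB := Q_pos hB hξ
  positivity

/-- C5b. continuity of the layering formula -/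
theorem layM_tendsto {A B : Ph} (hA : Ell A) (hB : Ell B) {θ ξ η : ℝ} (h0 : 0 < θ) (h1 : θ < 1)
    (hξ : ξ ≠ 0 ∨ η ≠ 0) {a b : ℕ → Ph} {x y t : ℕ → ℝ} (ha : Tendsto a atTop (𝓝 A))
    (hb : Tendsto b atTop (𝓝 B)) (hx : Tendsto x atTop (𝓝 ξ)) (hy : Tendsto y atTop (𝓝 η))
    (ht : Tendsto t atTop (𝓝 θ)) :
    Tendsto (fun n => layM (a n) (b n) (t n) (x n) (y n)) atTop (𝓝 (layM A B θ ξ η)) := by
  have hD := (c5_D_pos hA hB h0 h1 hξ).ne'
  have hai := fun i => (tendsto_pi_nhds.1 ha) i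
  have hbi := fun i => (tendsto_pi_nhds.1 hb) i
  have hd := fun i => (hai i).sub (hbi i)
  have h1t : Tendsto (fun n => 1 - t n) atTop (𝓝 (1 - θ)) := ht.const_sub 1
  have hQ : ∀ {c : ℕ → Ph} {C : Ph}, (∀ i, Tendsto (fun n => c n i) atTop (𝓝 (C i))) →
      Tendsto (fun n => Q (c n) (x n) (y n)) atTop (𝓝 (Q C ξ η)) := by
    intro c C hc
    unfold Q
    exact (((hc 0).mul (hx.pow 2)).add ((((hc 1).const_mul 2).mul hx).mul hy)).add
      ((hc 2).mul (hy.pow 2))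
  have hDn : Tendsto (fun n => (1 - t n) * Q (a n) (x n) (y n) + t n * Q (b n) (x n) (y n)) atTop
      (𝓝 ((1 - θ) * Q A ξ η + θ * Q B ξ η)) := (h1t.mul (hQ hai)).add (ht.mul (hQ hbi))
  have hta : Tendsto (fun n => x n * (a n 0 - b n 0) + y n * (a n 1 - b n 1)) atTop
      (𝓝 (ξ * (A 0 - B 0) + η * (A 1 - B 1))) := (hx.mul (hd 0)).add (hy.mul (hd 1))
  have htb : Tendsto (fun n => x n * (a n 1 - b n 1) + y n * (a n 2 - b n 2)) atTop
      (𝓝 (ξ * (A 1 - B 1) + η * (A 2 - B 2))) := (hx.mul (hd 1)).add (hy.mul (hd 2))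
  have htv : Tendsto (fun n => x n * (a n 3 - b n 3) + y n * (a n 4 - b n 4)) atTop
      (𝓝 (ξ * (A 3 - B 3) + η * (A 4 - B 4))) := (hx.mul (hd 3)).add (hy.mul (hd 4))
  have gen : ∀ (i : Fin 6) {f g : ℕ → ℝ} {F G : ℝ}, Tendsto f atTop (𝓝 F) →
      Tendsto g atTop (𝓝 G) → Tendsto (fun n => t n * a n i + (1 - t n) * b n i
        - t n * (1 - t n) * (f n * g n) / ((1 - t n) * Q (a n) (x n) (y n)
          + t n * Q (b n) (x n) (y n))) atTop (𝓝 (θ * A i + (1 - θ) * B i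
        - θ * (1 - θ) * (F * G) / ((1 - θ) * Q A ξ η + θ * Q B ξ η))) := by
    intro i f g F G hf hg
    exact ((ht.mul (hai i)).add (h1t.mul (hbi i))).sub
      (((ht.mul h1t).mul (hf.mul hg)).div hDn hD)
  rw [tendsto_pi_nhds]
  intro i
  fin_cases i
  · exact gen 0 hta hta
  · exact gen 1 hta htb
  · exact gen 2 htb htb
  · exact gen 3 hta htv
  · exact gen 4 htb htv
  · exact gen 5 htv htv

lemma c5_layM_smul (A B : Ph) (θ ξ η : ℝ) {c : ℝ} (hc : c ≠ 0) :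
    layM A B θ (c * ξ) (c * η) = layM A B θ ξ η := by
  have hQ : ∀ C : Ph, Q C (c * ξ) (c * η) = c ^ 2 * Q C ξ η := fun C => Q_smul C c ξ η
  have e : ∀ (u v : ℝ) (f g F G : ℝ), F = c * f → G = c * g →
      u * (F * G) / (v * Q A (c * ξ) (c * η) + θ * Q B (c * ξ) (c * η))
      = u * (f * g) / (v * Q A ξ η + θ * Q B ξ η) := by
    intro u v f g F G hF hG
    rw [hQ, hQ, hF, hG]
    have h1 : u * (c * f * (c * g)) = c ^ 2 * (u * (f * g)) := by ring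
    have h2 : v * (c ^ 2 * Q A ξ η) + θ * (c ^ 2 * Q B ξ η)
      = c ^ 2 * (v * Q A ξ η + θ * Q B ξ η) := by ring
    rw [h1, h2, mul_div_mul_left _ _ (pow_ne_zero 2 hc)]
  have ea : c * ξ * (A 0 - B 0) + c * η * (A 1 - B 1)
      = c * (ξ * (A 0 - B 0) + η * (A 1 - B 1)) := by ring
  have eb : c * ξ * (A 1 - B 1) + c * η * (A 2 - B 2)
      = c * (ξ * (A 1 - B 1) + η * (A 2 - B 2)) := by ring
  have ev : c * ξ * (A 3 - B 3) + c * η * (A 4 - B 4)
      = c * (ξ * (A 3 - B 3) + η * (A 4 - B 4)) := by ring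
  unfold layM
  simp only []
  rw [e _ _ _ _ _ _ ea ea, e _ _ _ _ _ _ ea eb, e _ _ _ _ _ _ eb eb, e _ _ _ _ _ _ ea ev,
    e _ _ _ _ _ _ eb ev, e _ _ _ _ _ _ ev ev]

/-- C5c. directions `(p, q)` with integers `p > 0` are dense -/
theorem dense_dir {A B : Ph} (hA : Ell A) (hB : Ell B) {θ ξ η : ℝ} (h0 : 0 < θ) (h1 : θ < 1)
    (hξ : ξ ≠ 0 ∨ η ≠ 0) : ∃ (p q : ℕ → ℤ), (∀ n, 0 < p n) ∧
      Tendsto (fun n => layM A B θ (p n) (q n)) atTop (𝓝 (layM A B θ ξ η)) := by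
  by_cases hx : ξ = 0
  · have hη : η ≠ 0 := by
      rcases hξ with h | h
      · exact absurd hx h
      · exact h
    refine ⟨fun _ => 1, fun n => (n : ℤ) + 1, fun _ => one_pos, ?_⟩
    have e1 : layM A B θ ξ η = layM A B θ 0 1 := by
      rw [hx]
      have := c5_layM_smul A B θ 0 1 hη
      rwa [mul_zero, mul_one] at this
    have e2 : ∀ n : ℕ, layM A B θ ((1 : ℤ) : ℝ) (((n : ℤ) + 1 : ℤ) : ℝ)
        = layM A B θ (1 / ((n : ℝ) + 1)) 1 := by
      intro n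
      have hn : ((n : ℝ) + 1) ≠ 0 := by positivity
      have := c5_layM_smul A B θ (1 / ((n : ℝ) + 1)) 1 hn
      rw [← this]
      congr 1
      · field_simp
        simp
      · push_cast
        ring
    rw [e1]
    simp only [e2]
    exact layM_tendsto hA hB h0 h1 (Or.inr one_ne_zero) tendsto_const_nhds tendsto_const_nhds
      tendsto_one_div_add_atTop_nhds_zero_nat tendsto_const_nhds tendsto_const_nhds
  · refine ⟨fun n => (n : ℤ) + 1, fun n => ⌊((n : ℝ) + 1) * (η / ξ)⌋, fun n => by positivity, ?_⟩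
    have e1 : layM A B θ ξ η = layM A B θ 1 (η / ξ) := by
      have := c5_layM_smul A B θ 1 (η / ξ) hx
      rw [← this, mul_one, mul_div_cancel₀ _ hx]
    have e2 : ∀ n : ℕ, layM A B θ (((n : ℤ) + 1 : ℤ) : ℝ)
        ((⌊((n : ℝ) + 1) * (η / ξ)⌋ : ℤ) : ℝ)
        = layM A B θ 1 (((⌊((n : ℝ) + 1) * (η / ξ)⌋ : ℤ) : ℝ) / ((n : ℝ) + 1)) := by
      intro n
      have hn : ((n : ℝ) + 1) ≠ 0 := by positivity
      have := c5_layM_smul A B θ 1 (((⌊((n : ℝ) + 1) * (η / ξ)⌋ : ℤ) : ℝ) / ((n : ℝ) + 1)) hn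
      rw [← this, mul_one, mul_div_cancel₀ _ hn]
      push_cast
      rfl
    rw [e1]
    simp only [e2]
    have hlim : Tendsto (fun n : ℕ => ((⌊((n : ℝ) + 1) * (η / ξ)⌋ : ℤ) : ℝ) / ((n : ℝ) + 1))
        atTop (𝓝 (η / ξ)) := by
      have h2 : Tendsto (fun n : ℕ => η / ξ - 1 / ((n : ℝ) + 1)) atTop (𝓝 (η / ξ - 0)) :=
        tendsto_one_div_add_atTop_nhds_zero_nat.const_sub _
      rw [sub_zero] at h2
      refine tendsto_of_tendsto_of_tendsto_of_le_of_le h2 tendsto_const_nhds ?_ ?_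
      · intro n
        have hn : 0 < ((n : ℝ) + 1) := by positivity
        show η / ξ - 1 / ((n : ℝ) + 1) ≤ _
        rw [le_div_iff₀ hn, sub_mul, div_mul_cancel₀ _ hn.ne']
        have := (Int.sub_one_lt_floor (((n : ℝ) + 1) * (η / ξ))).le
        linarith
      · intro n
        have hn : 0 < ((n : ℝ) + 1) := by positivity
        show _ ≤ η / ξ
        rw [div_le_iff₀ hn]
        have := Int.floor_le (((n : ℝ) + 1) * (η / ξ))
        linarith
    exact layM_tendsto hA hB h0 h1 (Or.inl one_ne_zero) tendsto_const_nhds tendsto_const_nhds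
      tendsto_const_nhds hlim tendsto_const_nhds

lemma c5_isClosed_GE {k : ℕ} (K : Fin k → Ph) : IsClosed (GE K) := isClosed_closure

/-- C5d. the G-closure is stable under layering. -/
theorem lay_mem_GE {k : ℕ} (K : Fin k → Ph) (hK : ∀ j, Ell (K j)) {A B M : Ph} (hA : A ∈ GE K)
    (hB : B ∈ GE K) {θ ξ η : ℝ} (h0 : 0 < θ) (h1 : θ < 1) (hξ : ξ ≠ 0 ∨ η ≠ 0)
    (hM : Lay A B θ ξ η M) : M ∈ GE K := by
  have hEA := ell_of_mem_GE K hK hA
  have hEB := ell_of_mem_GE K hK hB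
  have s0 : 0 < θ / 2 := by linarith
  have s1 : θ / 2 < 1 / 2 := by linarith
  have e2 : 2 * (θ / 2) = θ := by ring
  -- effective tensors, rational directions
  have step1 : ∀ (A B : Ph), (∃ χ, IsPartition χ ∧ Eff K χ A) → (∃ χ, IsPartition χ ∧ Eff K χ B) →
      ∀ p q : ℤ, 0 < p → layM A B θ p q ∈ GE K := by
    rintro A B ⟨χ₁, hχ₁, hA⟩ ⟨χ₂, hχ₂, hB⟩ p q hp
    have hex : ∀ n : ℕ, ∃ N, Eff K (layP p q (θ / 2) (n * p.toNat + 1) χ₁ χ₂) N := fun n =>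
      exists_eff K hK (layP_partition p q (θ / 2) _ hχ₁ hχ₂)
    choose N hN using hex
    have hL : Lay A B (2 * (θ / 2)) p q (layM A B θ p q) := by
      rw [e2]
      exact (lay_iff _ _ _ _ _ _).2 rfl
    have ht := layer_tendsto K hK hχ₁ hχ₂ hA hB p q hp s0 s1 hL hN
    exact mem_closure_of_tendsto ht (Eventually.of_forall fun n =>
      ⟨_, layP_partition p q (θ / 2) _ hχ₁ hχ₂, hN n⟩)
  -- closure, rational directions
  have step2 : ∀ p q : ℤ, 0 < p → layM A B θ p q ∈ GE K := by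
    intro p q hp
    obtain ⟨a, ha, hal⟩ := mem_closure_iff_seq_limit.1 hA
    obtain ⟨b, hb, hbl⟩ := mem_closure_iff_seq_limit.1 hB
    have hp' : ((p : ℤ) : ℝ) ≠ 0 ∨ ((q : ℤ) : ℝ) ≠ 0 := Or.inl (by exact_mod_cast hp.ne')
    have ht := layM_tendsto hEA hEB h0 h1 hp' hal hbl (tendsto_const_nhds (x := (p : ℝ)))
      (tendsto_const_nhds (x := (q : ℝ))) (tendsto_const_nhds (x := θ))
    exact (c5_isClosed_GE K).mem_of_tendsto ht (Eventually.of_forall fun n =>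
      step1 (a n) (b n) (ha n) (hb n) p q hp)
  obtain ⟨p, q, hp, ht⟩ := dense_dir hEA hEB h0 h1 hξ
  rw [(lay_iff _ _ _ _ _ _).1 hM]
  exact (c5_isClosed_GE K).mem_of_tendsto ht (Eventually.of_forall fun n => step2 (p n) (q n) (hp n))

end Pool.Agent.Lib.MP_2a9317_an.N1
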