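import Pool.Agent.Lib.MP_2a9317_an.N1.Base

set_option autoImplicit false

namespace Pool.Agent.Lib.MP_2a9317_an.N1

open MeasureTheory Filter Topology
open scoped ContDiff

lemma IsPot.differentiable {u : ℝ × ℝ → ℝ} (hu : IsPot u) : Differentiable ℝ u :=
  hu.1.differentiable (by simp)

lemma IsPot.contDiff_fderiv_apply {u : ℝ × ℝ → ℝ} (hu : IsPot u) (e : ℝ × ℝ) :
    ContDiff ℝ ∞ (fun p => fderiv ℝ u p e) :=
  (hu.1.fderiv_right (m := ∞) (by simp)).clm_apply contDiff_const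

lemma IsPot.fderiv_per {u : ℝ × ℝ → ℝ} (hu : IsPot u) (x y : ℝ) :
    fderiv ℝ u (x + 1, y) = fderiv ℝ u (x, y) ∧ fderiv ℝ u (x, y + 1) = fderiv ℝ u (x, y) := by
  constructor
  · have h : (fun p : ℝ × ℝ => u (p + (1, 0))) = u := by
      funext p
      obtain ⟨a, b⟩ := p
      have := (hu.2 a b).1
      simpa using this
    have h2 := fderiv_comp_add_right (𝕜 := ℝ) (f := u) (x := (x, y)) ((1 : ℝ), (0 : ℝ))
    rw [h] at h2
    rw [h2]
    simp
  · have h : (fun p : ℝ × ℝ => u (p + (0, 1))) = u := by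
      funext p
      obtain ⟨a, b⟩ := p
      have := (hu.2 a b).2
      simpa using this
    have h2 := fderiv_comp_add_right (𝕜 := ℝ) (f := u) (x := (x, y)) ((0 : ℝ), (1 : ℝ))
    rw [h] at h2
    rw [h2]
    simp

lemma IsPot.dX {u : ℝ × ℝ → ℝ} (hu : IsPot u) : IsPot (dX u) := by
  refine ⟨hu.contDiff_fderiv_apply _, fun x y => ⟨?_, ?_⟩⟩
  · simp only [N1.dX, (hu.fderiv_per x y).1]
  · simp only [N1.dX, (hu.fderiv_per x y).2]

lemma IsPot.dY {u : ℝ × ℝ → ℝ} (hu : IsPot u) : IsPot (dY u) := by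
  refine ⟨hu.contDiff_fderiv_apply _, fun x y => ⟨?_, ?_⟩⟩
  · simp only [N1.dY, (hu.fderiv_per x y).1]
  · simp only [N1.dY, (hu.fderiv_per x y).2]

lemma IsPot.mul {u v : ℝ × ℝ → ℝ} (hu : IsPot u) (hv : IsPot v) :
    IsPot (fun p => u p * v p) := by
  refine ⟨hu.1.mul hv.1, fun x y => ⟨?_, ?_⟩⟩
  · simp only [(hu.2 x y).1, (hv.2 x y).1]
  · simp only [(hu.2 x y).2, (hv.2 x y).2]

lemma IsPot.continuous {u : ℝ × ℝ → ℝ} (hu : IsPot u) : Continuous u := hu.1.continuous

lemma IsPot.integrableOn {u : ℝ × ℝ → ℝ} (hu : IsPot u) : IntegrableOn u cell :=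
  hu.continuous.continuousOn.integrableOn_compact isCompact_cell

lemma hasDerivAt_fst {u : ℝ × ℝ → ℝ} (hu : IsPot u) (x y : ℝ) :
    HasDerivAt (fun s => u (s, y)) (dX u (x, y)) x := by
  have h1 : HasFDerivAt u (fderiv ℝ u (x, y)) (x, y) := (hu.differentiable (x, y)).hasFDerivAt
  have h2 : HasDerivAt (fun s : ℝ => (s, y)) ((1 : ℝ), (0 : ℝ)) x :=
    (hasDerivAt_id x).prodMk (hasDerivAt_const x y)
  exact h1.comp_hasDerivAt x h2

lemma hasDerivAt_snd {u : ℝ × ℝ → ℝ} (hu : IsPot u) (x y : ℝ) :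
    HasDerivAt (fun s => u (x, s)) (dY u (x, y)) y := by
  have h1 : HasFDerivAt u (fderiv ℝ u (x, y)) (x, y) := (hu.differentiable (x, y)).hasFDerivAt
  have h2 : HasDerivAt (fun s : ℝ => (x, s)) ((0 : ℝ), (1 : ℝ)) y :=
    (hasDerivAt_const y x).prodMk (hasDerivAt_id y)
  exact h1.comp_hasDerivAt y h2

lemma int_dX {u : ℝ × ℝ → ℝ} (hu : IsPot u) (y : ℝ) :
    ∫ x in Set.Icc (0 : ℝ) 1, dX u (x, y) = 0 := by
  rw [integral_Icc_eq_integral_Ioc, ← intervalIntegral.integral_of_le zero_le_one,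
    intervalIntegral.integral_eq_sub_of_hasDerivAt (fun x _ => hasDerivAt_fst hu x y)]
  · have := (hu.2 0 y).1
    simp only [zero_add] at this
    rw [this, sub_self]
  · exact (hu.dX.continuous.comp (by fun_prop : Continuous fun x : ℝ => (x, y))).intervalIntegrable _ _

lemma int_dY {u : ℝ × ℝ → ℝ} (hu : IsPot u) (x : ℝ) :
    ∫ y in Set.Icc (0 : ℝ) 1, dY u (x, y) = 0 := by
  rw [integral_Icc_eq_integral_Ioc, ← intervalIntegral.integral_of_le zero_le_one,
    intervalIntegral.integral_eq_sub_of_hasDerivAt (fun y _ => hasDerivAt_snd hu x y)]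
  · have := (hu.2 x 0).2
    simp only [zero_add] at this
    rw [this, sub_self]
  · exact (hu.dY.continuous.comp (by fun_prop : Continuous fun y : ℝ => (x, y))).intervalIntegrable _ _

/-- integral of a derivative of a smooth periodic function -/
theorem avg_dX {u : ℝ × ℝ → ℝ} (hu : IsPot u) : avg (dX u) = 0 := by
  have hi : IntegrableOn (dX u) cell := hu.dX.integrableOn
  rw [avg_eq, cell, Measure.volume_eq_prod, ← Measure.prod_restrict]
  rw [cell, IntegrableOn, Measure.volume_eq_prod, ← Measure.prod_restrict] at hi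
  rw [integral_prod_symm _ hi]
  simp only [int_dX hu, integral_zero]

theorem avg_dY {u : ℝ × ℝ → ℝ} (hu : IsPot u) : avg (dY u) = 0 := by
  have hi : IntegrableOn (dY u) cell := hu.dY.integrableOn
  rw [avg_eq, cell, Measure.volume_eq_prod, ← Measure.prod_restrict]
  rw [cell, IntegrableOn, Measure.volume_eq_prod, ← Measure.prod_restrict] at hi
  rw [integral_prod _ hi]
  simp only [int_dY hu, integral_zero]

lemma dX_mul {u v : ℝ × ℝ → ℝ} (hu : IsPot u) (hv : IsPot v) (p : ℝ × ℝ) :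
    dX (fun p => u p * v p) p = dX u p * v p + u p * dX v p := by
  simp only [dX]
  rw [fderiv_fun_mul (hu.differentiable p) (hv.differentiable p)]
  simp
  ring

lemma dY_mul {u v : ℝ × ℝ → ℝ} (hu : IsPot u) (hv : IsPot v) (p : ℝ × ℝ) :
    dY (fun p => u p * v p) p = dY u p * v p + u p * dY v p := by
  simp only [dY]
  rw [fderiv_fun_mul (hu.differentiable p) (hv.differentiable p)]
  simp
  ring

lemma dX_dY {v : ℝ × ℝ → ℝ} (hv : IsPot v) (p : ℝ × ℝ) : dX (dY v) p = dY (dX v) p := by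
  have hd : DifferentiableAt ℝ (fderiv ℝ v) p :=
    (hv.1.fderiv_right (m := ∞) (by simp)).differentiable (by simp) p
  have h1 : dX (dY v) p = fderiv ℝ (fderiv ℝ v) p (1, 0) (0, 1) := by
    change fderiv ℝ (fun q => fderiv ℝ v q (0, 1)) p (1, 0) = _
    rw [fderiv_clm_apply hd (differentiableAt_const _)]
    simp
  have h2 : dY (dX v) p = fderiv ℝ (fderiv ℝ v) p (0, 1) (1, 0) := by
    change fderiv ℝ (fun q => fderiv ℝ v q (1, 0)) p (0, 1) = _
    rw [fderiv_clm_apply hd (differentiableAt_const _)]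
    simp
  rw [h1, h2]
  refine (hv.1.contDiffAt.isSymmSndFDerivAt ?_) _ _
  simp only [minSmoothness_of_isRCLikeNormedField]
  exact WithTop.coe_le_coe.2 (le_top : (2 : ℕ∞) ≤ ⊤)

/-- the Jacobian of two smooth periodic functions has mean zero -/
theorem avg_jac {u v : ℝ × ℝ → ℝ} (hu : IsPot u) (hv : IsPot v) :
    avg (fun p => dX u p * dY v p - dY u p * dX v p) = 0 := by
  have h : (fun p => dX u p * dY v p - dY u p * dX v p)
      = fun p => dX (fun p => u p * dY v p) p + (-1) * dY (fun p => u p * dX v p) p := by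
    funext p
    rw [dX_mul hu hv.dY, dY_mul hu hv.dX, dX_dY hv]
    ring
  rw [h, avg_add (hu.mul hv.dY).dX.integrableOn
    ((hu.mul hv.dX).dY.integrableOn.const_mul (-1)), avg_mul, avg_dX (hu.mul hv.dY),
    avg_dY (hu.mul hv.dX)]
  simp

end Pool.Agent.Lib.MP_2a9317_an.N1
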