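import Pool.Agent.Lib.MP_2a9317_an.N1.Bm
import Pool.Agent.Lib.MP_2a9317_an.N1.F1

set_option autoImplicit false

namespace Pool.Agent.Lib.MP_2a9317_an.N1

open MeasureTheory Filter Topology Matrix
open scoped ContDiff


/-!
Module S6: existence of effective tensors, and homogeneous materials.
Uses `avg_dX`, `avg_dY` of F1 and `exists_matrix_of_iInf` of Quad.
-/



/-- the smooth periodic functions form a vector space -/
def potSub1 : Submodule ℝ (ℝ × ℝ → ℝ) where
  carrier := {u | IsPot u}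
  zero_mem' := IsPot.const 0
  add_mem' := fun hu hv => hu.add hv
  smul_mem' := fun c _ hu => hu.smul c

/-- the homogenised energy, with an additional constant `S` -/
def WH (S : ℝ) (K : Ph) (x y z : ℝ) : ℝ :=
  K 0 * x ^ 2 + 2 * K 1 * x * y + K 2 * y ^ 2 + 2 * K 3 * x * z + 2 * K 4 * y * z
    + (K 5 + S) * z ^ 2

lemma WH_one (S : ℝ) (K : Ph) (x y : ℝ) : WH S K x y 1 = W K x y + S := by
  unfold WH W; ring

lemma WH_par (S : ℝ) (K : Ph) (x y z x' y' z' : ℝ) :
    WH S K (x + x') (y + y') (z + z') + WH S K (x - x') (y - y') (z - z')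
      = 2 * WH S K x y z + 2 * WH S K x' y' z' := by
  unfold WH; ring

lemma WH_nonneg {K : Ph} (hK : Ell K) {S : ℝ} (hS : ∀ x y, 0 ≤ W K x y + S) (x y z : ℝ) :
    0 ≤ WH S K x y z := by
  rcases eq_or_ne z 0 with hz | hz
  · have e : WH S K x y z = Q K x y := by unfold WH Q; rw [hz]; ring
    rw [e]; exact Q_nonneg hK x y
  · have e : WH S K x y z = z ^ 2 * (W K (x / z) (y / z) + S) := by
      unfold WH W; field_simp; ring
    rw [e]; exact mul_nonneg (sq_nonneg _) (hS _ _)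

lemma WH_le (S : ℝ) (K : Ph) (x y z : ℝ) :
    WH S K x y z ≤ (|K 0| + |K 1| + |K 2| + |K 3| + |K 4| + |K 5 + S|)
      * (x ^ 2 + y ^ 2 + z ^ 2) := by
  have hp : ∀ a s t r : ℝ, s ^ 2 + t ^ 2 ≤ r → 2 * a * s * t ≤ |a| * r := by
    intro a s t r hr
    have h1 : |2 * s * t| ≤ r := by
      rw [abs_le]; constructor <;> nlinarith [sq_nonneg (s + t), sq_nonneg (s - t)]
    calc 2 * a * s * t = a * (2 * s * t) := by ring
      _ ≤ |a * (2 * s * t)| := le_abs_self _
      _ = |a| * |2 * s * t| := abs_mul _ _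
      _ ≤ |a| * r := mul_le_mul_of_nonneg_left h1 (abs_nonneg _)
  have hd : ∀ a s r : ℝ, s ^ 2 ≤ r → a * s ^ 2 ≤ |a| * r := by
    intro a s r hr
    exact (mul_le_mul_of_nonneg_right (le_abs_self a) (sq_nonneg s)).trans
      (mul_le_mul_of_nonneg_left hr (abs_nonneg a))
  have hx := sq_nonneg x
  have hy := sq_nonneg y
  have hz := sq_nonneg z
  have h0 := hd (K 0) x (x ^ 2 + y ^ 2 + z ^ 2) (by linarith)
  have h2 := hd (K 2) y (x ^ 2 + y ^ 2 + z ^ 2) (by linarith)
  have h5 := hd (K 5 + S) z (x ^ 2 + y ^ 2 + z ^ 2) (by linarith)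
  have h1 := hp (K 1) x y (x ^ 2 + y ^ 2 + z ^ 2) (by linarith)
  have h3 := hp (K 3) x z (x ^ 2 + y ^ 2 + z ^ 2) (by linarith)
  have h4 := hp (K 4) y z (x ^ 2 + y ^ 2 + z ^ 2) (by linarith)
  unfold WH
  linarith

lemma BM.WH (S : ℝ) {k : ℕ} (K : Fin k → Ph) {χ : ℝ × ℝ → Fin k} (hχ : Measurable χ)
    {f g : ℝ × ℝ → ℝ} (hf : BM f) (hg : BM g) (z : ℝ) :
    BM (fun p => WH S (K (χ p)) (f p) (g p) z) := by
  have hc : ∀ i : Fin 6, BM (fun p => K (χ p) i) := fun i => BM.phase (fun j => K j i) hχ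
  unfold N1.WH
  exact ((((((hc 0).mul hf.sq).add ((((hc 1).const_mul 2).mul hf).mul hg)).add
    ((hc 2).mul hg.sq)).add ((((hc 3).const_mul 2).mul hf).mul_const z)).add
    ((((hc 4).const_mul 2).mul hg).mul_const z)).add (((hc 5).add (BM.const S)).mul_const (z ^ 2))

/-- S6. Existence of effective tensors. -/
theorem exists_eff {k : ℕ} (K : Fin k → Ph) (hK : ∀ j, Ell (K j)) {χ : ℝ × ℝ → Fin k}
    (hχ : IsPartition χ) : ∃ M : Ph, Eff K χ M := by
  obtain ⟨m, S, hm, H⟩ := W_coercive K hK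
  have hS : ∀ j x y, 0 ≤ W (K j) x y + S := by
    intro j x y
    have := H j x y
    have h2 : 0 ≤ m * (x ^ 2 + y ^ 2) := by positivity
    linarith
  have bx : ∀ (x : ℝ) (u : potSub1), BM (fun p => x + dX u.1 p) := fun x u =>
    (BM.const x).add (bm_dX u.2)
  have bY : ∀ (y : ℝ) (u : potSub1), BM (fun p => y + dY u.1 p) := fun y u =>
    (BM.const y).add (bm_dY u.2)
  let E : (Fin 3 → ℝ) → potSub1 → ℝ := fun v u =>
    avg fun p => WH S (K (χ p)) (v 0 + dX u.1 p) (v 1 + dY u.1 p) (v 2)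
  have bE : ∀ (v : Fin 3 → ℝ) (u : potSub1),
      BM (fun p => WH S (K (χ p)) (v 0 + dX u.1 p) (v 1 + dY u.1 p) (v 2)) := fun v u =>
    BM.WH S K hχ.1 (bx _ u) (bY _ u) _
  have dXa : ∀ (u v : potSub1) (p : ℝ × ℝ), dX (u + v).1 p = dX u.1 p + dX v.1 p :=
    fun u v p => dX_add u.2 v.2 p
  have dYa : ∀ (u v : potSub1) (p : ℝ × ℝ), dY (u + v).1 p = dY u.1 p + dY v.1 p :=
    fun u v p => dY_add u.2 v.2 p
  have dXn : ∀ (u : potSub1) (p : ℝ × ℝ), dX (-u).1 p = - dX u.1 p := by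
    intro u p
    have h1 := dXa u (-u) p
    have h2 : dX (u + -u).1 p = 0 := by
      rw [add_neg_cancel]
      exact dX_const 0 p
    linarith
  have dYn : ∀ (u : potSub1) (p : ℝ × ℝ), dY (-u).1 p = - dY u.1 p := by
    intro u p
    have h1 := dYa u (-u) p
    have h2 : dY (u + -u).1 p = 0 := by
      rw [add_neg_cancel]
      exact dY_const 0 p
    linarith
  obtain ⟨M, hMs, hM⟩ := exists_matrix_of_iInf (U := potSub1) E
    (fun v w u u' => by
      simp only [E]
      rw [← avg_add' (bE (v + w) (u + u')) (bE (v - w) (u - u')), ← avg_mul', ← avg_mul',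
        ← avg_add' ((bE v u).const_mul 2) ((bE w u').const_mul 2)]
      congr 1
      ext p
      rw [← WH_par, sub_eq_add_neg u u', dXa, dYa, dXa, dYa, dXn, dYn]
      simp only [Pi.add_apply, Pi.sub_apply]
      congr 2 <;> ring)
    (fun v u => avg_nonneg fun p => WH_nonneg (hK _) (hS _) _ _ _)
    (∑ j, (|K j 0| + |K j 1| + |K j 2| + |K j 3| + |K j 4| + |K j 5 + S|))
    (fun v => by
      have hb := bE v 0
      rw [← avg_const ((∑ j, (|K j 0| + |K j 1| + |K j 2| + |K j 3| + |K j 4| + |K j 5 + S|))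
        * ∑ i, v i ^ 2)]
      refine avg_mono' hb (BM.const _) fun p => ?_
      have e1 : dX (0 : potSub1).1 p = 0 := dX_const 0 p
      have e2 : dY (0 : potSub1).1 p = 0 := dY_const 0 p
      rw [e1, e2, add_zero, add_zero, Fin.sum_univ_three]
      refine (WH_le S (K (χ p)) (v 0) (v 1) (v 2)).trans ?_
      refine mul_le_mul_of_nonneg_right ?_ (by positivity)
      exact Finset.single_le_sum
        (f := fun j => |K j 0| + |K j 1| + |K j 2| + |K j 3| + |K j 4| + |K j 5 + S|)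
        (fun j _ => by positivity) (Finset.mem_univ (χ p)))
  refine ⟨![M 0 0, M 0 1, M 1 1, M 0 2, M 1 2, M 2 2 - S], fun x y => ?_⟩
  have s10 : M 1 0 = M 0 1 := hMs.apply 0 1
  have s20 : M 2 0 = M 0 2 := hMs.apply 0 2
  have s21 : M 2 1 = M 1 2 := hMs.apply 1 2
  have eW : W ![M 0 0, M 0 1, M 1 1, M 0 2, M 1 2, M 2 2 - S] x y
      = (⨅ u, E ![x, y, 1] u) - S := by
    rw [hM]
    have e : W ![M 0 0, M 0 1, M 1 1, M 0 2, M 1 2, M 2 2 - S] x y
      = M 0 0 * x ^ 2 + 2 * M 0 1 * x * y + M 1 1 * y ^ 2 + 2 * M 0 2 * x + 2 * M 1 2 * y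
        + (M 2 2 - S) := rfl
    rw [e]
    simp only [dotProduct, mulVec, Fin.sum_univ_three, s10, s20, s21]
    simp
    ring
  have eE : ∀ u : potSub1, E ![x, y, 1] u = En K χ x y u.1 + S := by
    intro u
    have h1 : E ![x, y, 1] u
        = avg fun p => W (K (χ p)) (x + dX u.1 p) (y + dY u.1 p) + S := by
      simp only [E]
      congr 1
      ext p
      exact WH_one S (K (χ p)) (x + dX u.1 p) (y + dY u.1 p)
    rw [h1, avg_add' (BM.W K hχ.1 (bx _ u) (bY _ u)) (BM.const S), avg_const]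
    rfl
  have hbd : BddBelow (Set.range (E ![x, y, 1])) := by
    refine ⟨0, ?_⟩
    rintro _ ⟨u, rfl⟩
    exact avg_nonneg fun p => WH_nonneg (hK _) (hS _) _ _ _
  rw [eW]
  constructor
  · intro u hu
    have h1 := ciInf_le hbd ⟨u, hu⟩
    rw [eE ⟨u, hu⟩] at h1
    simp only at h1
    linarith
  · intro ε hε
    obtain ⟨u, hu⟩ := exists_lt_of_ciInf_lt (lt_add_of_pos_right (⨅ u, E ![x, y, 1] u) hε)
    refine ⟨u.1, u.2, ?_⟩
    rw [eE u] at hu
    linarith

/-- A homogeneous material is effective (this is the missing step of `lam_mem_GE`). -/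
theorem eff_homog {k : ℕ} (K : Fin k → Ph) (hK : ∀ j, Ell (K j)) (j : Fin k) :
    Eff K (fun _ => j) (K j) := by
  intro x y
  constructor
  · intro u hu
    unfold En
    have e : (fun p : ℝ × ℝ => W (K j) (x + dX u p) (y + dY u p))
        = fun p => (W (K j) x y + ((2 * FX (K j) x y) * dX u p + (2 * FY (K j) x y) * dY u p))
          + Q (K j) (dX u p) (dY u p) := by
      ext p
      rw [W_add]; ring
    have bX := bm_dX hu
    have bY := bm_dY hu
    have b1 : BM (fun p => (2 * FX (K j) x y) * dX u p + (2 * FY (K j) x y) * dY u p) :=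
      (bX.const_mul _).add (bY.const_mul _)
    have b2 : BM (fun p => Q (K j) (dX u p) (dY u p)) :=
      BM.Q K (χ := fun _ => j) measurable_const bX bY
    rw [e, avg_add' ((BM.const _).add b1) b2, avg_add' (BM.const _) b1,
      avg_add' (bX.const_mul _) (bY.const_mul _), avg_mul', avg_mul', avg_dX hu, avg_dY hu,
      avg_const]
    have := avg_nonneg (f := fun p => Q (K j) (dX u p) (dY u p)) fun p => Q_nonneg (hK j) _ _
    linarith
  · intro ε hε
    refine ⟨fun _ => 0, IsPot.const 0, ?_⟩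
    unfold En
    simp only [dX_const, dY_const, add_zero]
    rw [avg_const]
    linarith

end Pool.Agent.Lib.MP_2a9317_an.N1
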