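import Pool.Agent.Lib.MP_2a9317_an.N1.U1

set_option autoImplicit false

namespace Pool.Agent.Lib.MP_2a9317_an.N1

open MeasureTheory Filter Topology
open scoped ContDiff

/-! ### Bounded periodic functions -/

lemma u2_per_bdd {f : ℝ × ℝ → ℝ} (hf : Continuous f) (hp : Per f) :
    ∃ C, 0 ≤ C ∧ ∀ z, |f z| ≤ C := by
  obtain ⟨C, hC⟩ := isCompact_cell.exists_bound_of_continuousOn hf.continuousOn
  refine ⟨max C 0, le_max_right _ _, fun z => ?_⟩
  have h1 : Function.Periodic (fun x => f (x, z.2)) 1 := fun x => (hp x z.2).1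
  have h2 : Function.Periodic (fun y => f (Int.fract z.1, y)) 1 := fun y => (hp _ y).2
  have e1 := h1.sub_zsmul_eq (x := z.1) ⌊z.1⌋
  have e2 := h2.sub_zsmul_eq (x := z.2) ⌊z.2⌋
  simp only [zsmul_eq_mul, mul_one, Int.self_sub_floor] at e1 e2
  have e : f z = f (Int.fract z.1, Int.fract z.2) := by rw [e2, e1]
  have hm : (Int.fract z.1, Int.fract z.2) ∈ cell :=
    ⟨⟨Int.fract_nonneg _, (Int.fract_lt_one _).le⟩, ⟨Int.fract_nonneg _, (Int.fract_lt_one _).le⟩⟩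
  rw [e]
  exact (hC _ hm).trans (le_max_left _ _)

lemma u2_per1_bdd {f : ℝ → ℝ} (hf : Continuous f) (hp : ∀ x, f (x + 1) = f x) :
    ∃ C, 0 ≤ C ∧ ∀ x, |f x| ≤ C := by
  obtain ⟨C, hC⟩ := (isCompact_Icc (a := (0 : ℝ)) (b := 1)).exists_bound_of_continuousOn
    hf.continuousOn
  refine ⟨max C 0, le_max_right _ _, fun z => ?_⟩
  have h1 : Function.Periodic f 1 := hp
  have e1 := h1.sub_zsmul_eq (x := z) ⌊z⌋
  simp only [zsmul_eq_mul, mul_one, Int.self_sub_floor] at e1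
  rw [← e1]
  exact (hC _ ⟨Int.fract_nonneg _, (Int.fract_lt_one _).le⟩).trans (le_max_left _ _)

lemma u2_cont_dX {u : ℝ × ℝ → ℝ} (hu : IsPot u) : Continuous (dX u) := by
  have h : Continuous (fderiv ℝ u) := hu.1.continuous_fderiv (by simp)
  exact h.clm_apply continuous_const

lemma u2_cont_dY {u : ℝ × ℝ → ℝ} (hu : IsPot u) : Continuous (dY u) := by
  have h : Continuous (fderiv ℝ u) := hu.1.continuous_fderiv (by simp)
  exact h.clm_apply continuous_const

lemma u2_fderiv_per {u : ℝ × ℝ → ℝ} (hu : IsPot u) (x y : ℝ) :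
    fderiv ℝ u (x + 1, y) = fderiv ℝ u (x, y) ∧ fderiv ℝ u (x, y + 1) = fderiv ℝ u (x, y) := by
  constructor
  · have h : (fun z : ℝ × ℝ => u (z + (1, 0))) = u := by
      ext z
      have := (hu.2 z.1 z.2).1
      rw [← this]
      congr 1
      ext <;> simp
    have h2 := fderiv_comp_add_right (𝕜 := ℝ) (f := u) (x := (x, y)) (1, 0)
    rw [h] at h2
    rw [h2]
    congr 1
    ext <;> simp
  · have h : (fun z : ℝ × ℝ => u (z + (0, 1))) = u := by
      ext z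
      have := (hu.2 z.1 z.2).2
      rw [← this]
      congr 1
      ext <;> simp
    have h2 := fderiv_comp_add_right (𝕜 := ℝ) (f := u) (x := (x, y)) (0, 1)
    rw [h] at h2
    rw [h2]
    congr 1
    ext <;> simp

lemma u2_per_dX {u : ℝ × ℝ → ℝ} (hu : IsPot u) : Per (dX u) := fun x y => by
  unfold dX
  rw [(u2_fderiv_per hu x y).1, (u2_fderiv_per hu x y).2]
  exact ⟨rfl, rfl⟩

lemma u2_per_dY {u : ℝ × ℝ → ℝ} (hu : IsPot u) : Per (dY u) := fun x y => by
  unfold dY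
  rw [(u2_fderiv_per hu x y).1, (u2_fderiv_per hu x y).2]
  exact ⟨rfl, rfl⟩

lemma u2_pot_bdd {u : ℝ × ℝ → ℝ} (hu : IsPot u) :
    ∃ D, 0 ≤ D ∧ ∀ z, |u z| ≤ D ∧ |dX u z| ≤ D ∧ |dY u z| ≤ D := by
  obtain ⟨C0, h0, hC0⟩ := u2_per_bdd hu.1.continuous hu.2
  obtain ⟨C1, h1, hC1⟩ := u2_per_bdd (u2_cont_dX hu) (u2_per_dX hu)
  obtain ⟨C2, h2, hC2⟩ := u2_per_bdd (u2_cont_dY hu) (u2_per_dY hu)
  refine ⟨C0 + C1 + C2, by positivity, fun z => ⟨?_, ?_, ?_⟩⟩
  · linarith [hC0 z]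
  · linarith [hC1 z]
  · linarith [hC2 z]

/-! ### Averages of profiles -/

lemma u2_intOn {f : ℝ × ℝ → ℝ} (hf : Measurable f) {C : ℝ} (hC : ∀ z, |f z| ≤ C) :
    IntegrableOn f cell := by
  apply Measure.integrableOn_of_bounded (M := C)
  · rw [volume_cell]; simp
  · exact hf.aestronglyMeasurable
  · exact Eventually.of_forall fun x => by rw [Real.norm_eq_abs]; exact hC x

lemma u2_avg_profile {g : ℝ → ℝ} (hg : Measurable g) {C : ℝ} (hC : ∀ x, |g x| ≤ C)
    (hper : ∀ x, g (x + 1) = g x) (p q : ℤ) (hp : 0 < p) :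
    avg (fun z => g (p * z.1 + q * z.2)) = ∫ x in Set.Icc (0 : ℝ) 1, g x := by
  have hgint : ∀ a b : ℝ, IntervalIntegrable g volume a b := by
    intro a b
    rw [intervalIntegrable_iff]
    apply Measure.integrableOn_of_bounded (M := C)
    · simp [Set.uIoc]
    · exact hg.aestronglyMeasurable
    · exact Eventually.of_forall fun x => by rw [Real.norm_eq_abs]; exact hC x
  have hm : Measurable (fun z : ℝ × ℝ => g (p * z.1 + q * z.2)) := hg.comp (by fun_prop)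
  have hI := u2_intOn hm (fun z => hC _)
  have hp' : (0 : ℝ) < p := by exact_mod_cast hp
  have inner : ∀ y : ℝ, ∫ x in Set.Icc (0 : ℝ) 1, g (p * x + q * y)
      = ∫ x in Set.Icc (0 : ℝ) 1, g x := by
    intro y
    rw [integral_Icc_eq_integral_Ioc, ← intervalIntegral.integral_of_le zero_le_one,
      integral_Icc_eq_integral_Ioc, ← intervalIntegral.integral_of_le zero_le_one,
      intervalIntegral.integral_comp_mul_add g hp'.ne' (q * y)]
    have hP : Function.Periodic g 1 := hper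
    have h1 := hP.intervalIntegral_add_zsmul_eq p (q * y) hgint
    have h2 := hP.intervalIntegral_add_eq (q * y) 0
    simp only [zsmul_eq_mul, mul_one, zero_add] at h1 h2
    rw [mul_zero, zero_add, mul_one, add_comm ((p : ℝ)) (q * y), h1, h2, smul_eq_mul]
    field_simp
  have hsw : avg (fun z => g (p * z.1 + q * z.2))
      = ∫ w in Set.Icc (0 : ℝ) 1 ×ˢ Set.Icc (0 : ℝ) 1, g (p * w.2 + q * w.1) := by
    rw [avg_eq, cell, Measure.volume_eq_prod, ← setIntegral_prod_swap]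
    rfl
  have hI2 : IntegrableOn (fun w : ℝ × ℝ => g (p * w.2 + q * w.1))
      (Set.Icc (0 : ℝ) 1 ×ˢ Set.Icc (0 : ℝ) 1) :=
    u2_intOn (hg.comp (by fun_prop)) (fun z => hC _)
  rw [hsw]
  rw [Measure.volume_eq_prod] at hI2 ⊢
  rw [setIntegral_prod _ hI2]
  simp only [inner]
  simp

/-! ### Bounds for the energy density -/

lemma u2_exists_sum {k : ℕ} (K : Fin k → Ph) : ∃ S : ℝ, 0 ≤ S ∧ ∀ j i, |K j i| ≤ S := by
  refine ⟨∑ j, ∑ i, |K j i|, Finset.sum_nonneg fun _ _ => Finset.sum_nonneg fun _ _ =>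
    abs_nonneg _, fun j i => ?_⟩
  calc |K j i| ≤ ∑ i, |K j i| :=
        Finset.single_le_sum (f := fun i => |K j i|) (fun _ _ => abs_nonneg _) (Finset.mem_univ i)
    _ ≤ _ := Finset.single_le_sum (f := fun j => ∑ i, |K j i|)
        (fun _ _ => Finset.sum_nonneg fun _ _ => abs_nonneg _) (Finset.mem_univ j)

lemma u2_mul_le {a b A B : ℝ} (ha : |a| ≤ A) (hb : |b| ≤ B) : a * b ≤ A * B := by
  have hA : 0 ≤ A := (abs_nonneg a).trans ha
  calc a * b ≤ |a * b| := le_abs_self _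
    _ = |a| * |b| := abs_mul _ _
    _ ≤ A * B := mul_le_mul ha hb (abs_nonneg _) hA

lemma u2_abs_mul_le {a b A B : ℝ} (ha : |a| ≤ A) (hb : |b| ≤ B) : |a * b| ≤ A * B := by
  have hA : 0 ≤ A := (abs_nonneg a).trans ha
  rw [abs_mul]
  exact mul_le_mul ha hb (abs_nonneg _) hA

/-- Lipschitz bound on balls -/
lemma u2_W_lip {K : Ph} {S R : ℝ} (hS : ∀ i, |K i| ≤ S) {a b a' b' : ℝ}
    (ha : |a| ≤ R) (hb : |b| ≤ R) (ha' : |a'| ≤ R) (hb' : |b'| ≤ R) :
    W K a b - W K a' b' ≤ S * (4 * R + 2) * (|a - a'| + |b - b'|) := by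
  have e : W K a b - W K a' b'
      = K 0 * ((a + a') * (a - a')) + K 1 * ((2 * b) * (a - a')) + K 1 * ((2 * a') * (b - b'))
        + K 2 * ((b + b') * (b - b')) + K 3 * (2 * (a - a')) + K 4 * (2 * (b - b')) := by
    unfold W; ring
  have h1 : |a + a'| ≤ 2 * R := (abs_add_le _ _).trans (by linarith)
  have h2 : |b + b'| ≤ 2 * R := (abs_add_le _ _).trans (by linarith)
  have h3 : |2 * b| ≤ 2 * R := by rw [abs_mul]; norm_num; linarith
  have h4 : |2 * a'| ≤ 2 * R := by rw [abs_mul]; norm_num; linarith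
  have hda := abs_nonneg (a - a')
  have hdb := abs_nonneg (b - b')
  have t0 := u2_mul_le (hS 0) (u2_abs_mul_le h1 (le_refl |a - a'|))
  have t1 := u2_mul_le (hS 1) (u2_abs_mul_le h3 (le_refl |a - a'|))
  have t2 := u2_mul_le (hS 1) (u2_abs_mul_le h4 (le_refl |b - b'|))
  have t3 := u2_mul_le (hS 2) (u2_abs_mul_le h2 (le_refl |b - b'|))
  have t4 := u2_mul_le (hS 3) (u2_abs_mul_le (a := 2) (A := 2) (by norm_num)
    (le_refl |a - a'|))
  have t5 := u2_mul_le (hS 4) (u2_abs_mul_le (a := 2) (A := 2) (by norm_num)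
    (le_refl |b - b'|))
  rw [e]
  nlinarith

/-- bound on balls -/
lemma u2_W_bdd {K : Ph} {S R : ℝ} (hS : ∀ i, |K i| ≤ S) (hR : 0 ≤ R) {a b : ℝ}
    (ha : |a| ≤ R) (hb : |b| ≤ R) : |W K a b| ≤ S * (4 * (1 + R) ^ 2) := by
  have hS0 : 0 ≤ S := (abs_nonneg _).trans (hS 0)
  have e : W K a b
      = K 0 * (a * a) + K 1 * ((2 * a) * b) + K 2 * (b * b) + K 3 * (2 * a) + K 4 * (2 * b)
        + K 5 * 1 := by
    unfold W; ring
  have h3 : |2 * b| ≤ 2 * R := by rw [abs_mul]; norm_num; linarith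
  have h4 : |2 * a| ≤ 2 * R := by rw [abs_mul]; norm_num; linarith
  have t0 := u2_abs_mul_le (hS 0) (u2_abs_mul_le ha ha)
  have t1 := u2_abs_mul_le (hS 1) (u2_abs_mul_le h4 hb)
  have t2 := u2_abs_mul_le (hS 2) (u2_abs_mul_le hb hb)
  have t3 := u2_abs_mul_le (hS 3) h4
  have t4 := u2_abs_mul_le (hS 4) h3
  have t5 := u2_abs_mul_le (hS 5) (show |(1 : ℝ)| ≤ 1 by norm_num)
  rw [e]
  have : |K 0 * (a * a) + K 1 * ((2 * a) * b) + K 2 * (b * b) + K 3 * (2 * a) + K 4 * (2 * b)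
      + K 5 * 1| ≤ |K 0 * (a * a)| + |K 1 * ((2 * a) * b)| + |K 2 * (b * b)| + |K 3 * (2 * a)|
        + |K 4 * (2 * b)| + |K 5 * 1| := by
    refine (abs_add_le _ _).trans (add_le_add ?_ le_rfl)
    refine (abs_add_le _ _).trans (add_le_add ?_ le_rfl)
    refine (abs_add_le _ _).trans (add_le_add ?_ le_rfl)
    refine (abs_add_le _ _).trans (add_le_add ?_ le_rfl)
    exact abs_add_le _ _
  nlinarith

/-- measurability of energy densities -/
lemma u2_meas_W {k : ℕ} (K : Fin k → Ph) {χ : ℝ × ℝ → Fin k} (hχ : Measurable χ)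
    {a b : ℝ × ℝ → ℝ} (ha : Measurable a) (hb : Measurable b) :
    Measurable fun z => W (K (χ z)) (a z) (b z) := by
  have hm : ∀ i, Measurable fun z => K (χ z) i := fun i =>
    (measurable_from_top (f := fun c : Fin k => K c i)).comp hχ
  unfold W
  have h0 := hm 0
  have h1 := hm 1
  have h2 := hm 2
  have h3 := hm 3
  have h4 := hm 4
  have h5 := hm 5
  fun_prop

/-! ### Derivatives of the trial potential -/

lemma u2_fd_fine {v : ℝ × ℝ → ℝ} (hv : ContDiff ℝ ∞ v) (M : ℝ) (z : ℝ × ℝ) :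
    HasFDerivAt (fun z : ℝ × ℝ => v (M * z.1, M * z.2))
      (M • fderiv ℝ v (M * z.1, M * z.2)) z := by
  have h1 : HasFDerivAt (fun z : ℝ × ℝ => M • z) (M • ContinuousLinearMap.id ℝ (ℝ × ℝ)) z :=
    (hasFDerivAt_id z).const_smul M
  have h2 : HasFDerivAt v (fderiv ℝ v (M • z)) (M • z) :=
    ((hv.differentiable (by simp)).differentiableAt).hasFDerivAt
  have h3 := h2.comp z h1
  have e : (fderiv ℝ v (M • z)).comp (M • ContinuousLinearMap.id ℝ (ℝ × ℝ))
      = M • fderiv ℝ v (M * z.1, M * z.2) := by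
    ext <;> simp [Prod.smul_def]
  rw [e] at h3
  exact h3

lemma u2_fd_prof {g : ℝ → ℝ} {g' : ℝ} (a b : ℝ) (z : ℝ × ℝ)
    (hg : HasDerivAt g g' (a * z.1 + b * z.2)) :
    HasFDerivAt (fun z : ℝ × ℝ => g (a * z.1 + b * z.2))
      (g' • (a • ContinuousLinearMap.fst ℝ ℝ ℝ + b • ContinuousLinearMap.snd ℝ ℝ ℝ)) z := by
  have h1 : HasFDerivAt (fun z : ℝ × ℝ => a * z.1 + b * z.2)
      (a • ContinuousLinearMap.fst ℝ ℝ ℝ + b • ContinuousLinearMap.snd ℝ ℝ ℝ) z :=
    (hasFDerivAt_fst.const_mul a).add (hasFDerivAt_snd.const_mul b)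
  exact hg.comp_hasFDerivAt z h1

/-- the trial potential -/
noncomputable def tr (ψ α : ℝ → ℝ) (u₁ u₂ : ℝ × ℝ → ℝ) (a b t M : ℝ) (z : ℝ × ℝ) : ℝ :=
  t * ψ (a * z.1 + b * z.2)
    + M⁻¹ * ((1 + α (a * z.1 + b * z.2)) / 2 * u₁ (M * z.1, M * z.2)
      + (1 - α (a * z.1 + b * z.2)) / 2 * u₂ (M * z.1, M * z.2))

lemma u2_tr_fd {ψ α ψ' α' : ℝ → ℝ} (hψ : ∀ x, HasDerivAt ψ (ψ' x) x)
    (hα : ∀ x, HasDerivAt α (α' x) x) {u₁ u₂ : ℝ × ℝ → ℝ} (hu₁ : ContDiff ℝ ∞ u₁)
    (hu₂ : ContDiff ℝ ∞ u₂) (a b t : ℝ) {M : ℝ} (hM : M ≠ 0) (z v : ℝ × ℝ) :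
    fderiv ℝ (tr ψ α u₁ u₂ a b t M) z v
      = t * (ψ' (a * z.1 + b * z.2) * (a * v.1 + b * v.2))
        + (1 + α (a * z.1 + b * z.2)) / 2 * fderiv ℝ u₁ (M * z.1, M * z.2) v
        + (1 - α (a * z.1 + b * z.2)) / 2 * fderiv ℝ u₂ (M * z.1, M * z.2) v
        + M⁻¹ * (α' (a * z.1 + b * z.2) * (a * v.1 + b * v.2) / 2
          * (u₁ (M * z.1, M * z.2) - u₂ (M * z.1, M * z.2))) := by
  have p1 := u2_fd_prof a b z (hψ (a * z.1 + b * z.2))
  have p2 : HasDerivAt (fun x => (1 + α x) / 2) (α' (a * z.1 + b * z.2) / 2)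
      (a * z.1 + b * z.2) := ((hα _).const_add 1).div_const 2
  have p3 : HasDerivAt (fun x => (1 - α x) / 2) (-α' (a * z.1 + b * z.2) / 2)
      (a * z.1 + b * z.2) := ((hα _).const_sub 1).div_const 2
  have q2 := u2_fd_prof (g := fun x => (1 + α x) / 2) a b z p2
  have q3 := u2_fd_prof (g := fun x => (1 - α x) / 2) a b z p3
  have f1 := u2_fd_fine hu₁ M z
  have f2 := u2_fd_fine hu₂ M z
  have key := (p1.const_mul t).add (((q2.mul f1).add (q3.mul f2)).const_mul M⁻¹)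
  have : HasFDerivAt (tr ψ α u₁ u₂ a b t M) _ z := key
  rw [this.fderiv]
  simp only [ContinuousLinearMap.add_apply, ContinuousLinearMap.smul_apply, smul_eq_mul,
    ContinuousLinearMap.coe_fst', ContinuousLinearMap.coe_snd']
  field_simp
  ring

lemma u2_tr_pot {ψ α : ℝ → ℝ} (hψ : ContDiff ℝ ∞ ψ) (hα : ContDiff ℝ ∞ α)
    (hψp : ∀ x, ψ (x + 1) = ψ x) (hαp : ∀ x, α (x + 1) = α x) {u₁ u₂ : ℝ × ℝ → ℝ}
    (hu₁ : IsPot u₁) (hu₂ : IsPot u₂) (p q : ℤ) (t : ℝ) (N : ℕ) :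
    IsPot (tr ψ α u₁ u₂ p q t N) := by
  have hN : ContDiff ℝ ∞ (fun z : ℝ × ℝ => ((N : ℝ) * z.1, (N : ℝ) * z.2)) := by fun_prop
  have hT : ContDiff ℝ ∞ (fun z : ℝ × ℝ => (p : ℝ) * z.1 + (q : ℝ) * z.2) := by fun_prop
  refine ⟨?_, fun x y => ?_⟩
  · have c1 := hψ.comp hT
    have c2 := hα.comp hT
    have c3 := hu₁.1.comp hN
    have c4 := hu₂.1.comp hN
    exact (contDiff_const.mul c1).add (contDiff_const.mul
      ((((contDiff_const.add c2).div_const 2).mul c3).add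
        (((contDiff_const.sub c2).div_const 2).mul c4)))
  · have pp : ∀ g : ℝ → ℝ, (∀ x, g (x + 1) = g x) → ∀ (m : ℤ) (x : ℝ), g (x + m) = g x := by
      intro g hg m x
      have h : Function.Periodic g 1 := hg
      have := h.int_mul m x
      rwa [mul_one] at this
    have p1 : ∀ v : ℝ × ℝ → ℝ, IsPot v → ∀ x y : ℝ, v (x + N, y) = v (x, y) := by
      intro v hv x y
      have h : Function.Periodic (fun x => v (x, y)) 1 := fun x => (hv.2 x y).1
      have := h.nat_mul N x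
      rwa [mul_one] at this
    have p2 : ∀ v : ℝ × ℝ → ℝ, IsPot v → ∀ x y : ℝ, v (x, y + N) = v (x, y) := by
      intro v hv x y
      have h : Function.Periodic (fun y => v (x, y)) 1 := fun y => (hv.2 x y).2
      have := h.nat_mul N y
      rwa [mul_one] at this
    constructor
    · unfold tr
      show t * ψ (p * (x + 1) + q * y) + (N : ℝ)⁻¹ * ((1 + α (p * (x + 1) + q * y)) / 2
        * u₁ (N * (x + 1), N * y) + (1 - α (p * (x + 1) + q * y)) / 2 * u₂ (N * (x + 1), N * y))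
        = _
      have e1 : (p : ℝ) * (x + 1) + q * y = (p * x + q * y) + (p : ℤ) := by ring
      have e2 : (N : ℝ) * (x + 1) = N * x + N := by ring
      rw [e1, e2, pp ψ hψp, pp α hαp, p1 u₁ hu₁, p1 u₂ hu₂]
    · unfold tr
      show t * ψ (p * x + q * (y + 1)) + (N : ℝ)⁻¹ * ((1 + α (p * x + q * (y + 1))) / 2
        * u₁ (N * x, N * (y + 1)) + (1 - α (p * x + q * (y + 1))) / 2 * u₂ (N * x, N * (y + 1)))
        = _
      have e1 : (p : ℝ) * x + q * (y + 1) = (p * x + q * y) + (q : ℤ) := by ring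
      have e2 : (N : ℝ) * (y + 1) = N * y + N := by ring
      rw [e1, e2, pp ψ hψp, pp α hαp, p2 u₁ hu₁, p2 u₂ hu₂]

lemma u2_field {d tp G1 G2 r T D δ : ℝ} (htp : |tp| ≤ T) (h1 : |G1| ≤ D) (h2 : |G2| ≤ D)
    (hr : |r| ≤ δ) : |d / 2 * (tp + G1 - G2) + r| ≤ |d| * (T + 2 * D) + δ := by
  have hT : 0 ≤ T := (abs_nonneg _).trans htp
  have hD : 0 ≤ D := (abs_nonneg _).trans h1
  have a1 : |tp + G1 - G2| ≤ T + 2 * D := by
    calc |tp + G1 - G2| ≤ |tp + G1| + |G2| := abs_sub _ _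
      _ ≤ |tp| + |G1| + |G2| := by linarith [abs_add_le tp G1]
      _ ≤ _ := by linarith
  have a2 : |d / 2| ≤ |d| := by
    rw [abs_div, abs_two]
    linarith [abs_nonneg d]
  calc |d / 2 * (tp + G1 - G2) + r| ≤ |d / 2 * (tp + G1 - G2)| + |r| := abs_add_le _ _
    _ ≤ |d| * (T + 2 * D) + δ := add_le_add (u2_abs_mul_le a2 a1) hr

lemma u2_amgm {κ : ℝ} (hκ : 0 < κ) (d : ℝ) : |d| ≤ κ / 2 + (2 * κ)⁻¹ * d ^ 2 := by
  have h : 0 ≤ (|d| - κ) ^ 2 := sq_nonneg _
  have h2 : |d| ^ 2 = d ^ 2 := sq_abs d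
  rw [← sub_nonneg]
  have e : κ / 2 + (2 * κ)⁻¹ * d ^ 2 - |d| = (2 * κ)⁻¹ * (|d| - κ) ^ 2 := by
    rw [← h2]
    field_simp
    ring
  rw [e]
  positivity

/-- the pointwise estimate -/
lemma u2_point {Ka : Ph} {S R Be : ℝ} (hS1 : ∀ i, |Ka i| ≤ S) (hR : 0 ≤ R)
    (hBe : Be = S * (4 * (1 + R) ^ 2)) {a fx fy E1 E2 e' δ : ℝ}
    (hE1 : |E1| ≤ R) (hE2 : |E2| ≤ R) (hfx : |fx| ≤ R) (hfy : |fy| ≤ R)
    (hd1 : |fx - E1| ≤ δ) (hd2 : |fy - E2| ≤ δ) (he' : |e'| ≤ Be) :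
    W Ka fx fy ≤ (1 + a) / 2 * W Ka E1 E2 + (1 - a) / 2 * e' + Be * |1 - a|
      + S * (4 * R + 2) * (2 * δ) := by
  have hS0 : 0 ≤ S := (abs_nonneg _).trans (hS1 0)
  have h1 := u2_W_lip hS1 hfx hfy hE1 hE2
  have h2 : |W Ka E1 E2| ≤ Be := by
    rw [hBe]
    exact u2_W_bdd hS1 hR hE1 hE2
  have h3 : S * (4 * R + 2) * (|fx - E1| + |fy - E2|) ≤ S * (4 * R + 2) * (2 * δ) := by
    apply mul_le_mul_of_nonneg_left (by linarith)
    positivity
  have h4 : (1 - a) / 2 * (W Ka E1 E2 - e') ≤ Be * |1 - a| := by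
    have h5 : |W Ka E1 E2 - e'| ≤ 2 * Be := (abs_sub _ _).trans (by linarith)
    have h6 := u2_mul_le (le_refl |(1 - a) / 2|) h5
    have h7 : |(1 - a) / 2| = |1 - a| / 2 := by rw [abs_div]; norm_num
    rw [h7] at h6
    linarith
  linarith

lemma u2_sq16 {d : ℝ} (h : |d| ≤ 4) : |d ^ 2| ≤ 16 := by
  rw [abs_pow]
  nlinarith [abs_nonneg d]

/-- MODULE U2 (upper bound for the energy of layered composites). -/
theorem layer_upper {k : ℕ} (K : Fin k → Ph) {χ₁ χ₂ : ℝ × ℝ → Fin k}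
    (h₁ : IsPartition χ₁) (h₂ : IsPartition χ₂) {u₁ u₂ : ℝ × ℝ → ℝ} (hu₁ : IsPot u₁)
    (hu₂ : IsPot u₂) (p q : ℤ) (hp : 0 < p) {s : ℝ} (hs0 : 0 < s) (hs1 : s < 1 / 2)
    (x y t : ℝ) {ε : ℝ} (hε : 0 < ε) :
    ∃ n₀ : ℕ, ∀ n : ℕ, n₀ ≤ n → ∃ u, IsPot u ∧
      En K (layP p q s (n * p.toNat + 1) χ₁ χ₂) x y u
        ≤ 2 * s * En K χ₁ (x + (1 - 2 * s) * t * p) (y + (1 - 2 * s) * t * q) u₁
          + (1 - 2 * s) * En K χ₂ (x - 2 * s * t * p) (y - 2 * s * t * q) u₂ + ε := by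
  obtain ⟨S, hS0, hS⟩ := u2_exists_sum K
  obtain ⟨D1, hD1, hb1⟩ := u2_pot_bdd hu₁
  obtain ⟨D2, hD2, hb2⟩ := u2_pot_bdd hu₂
  -- common bound
  set D := D1 + D2 with hDdef
  have hD : 0 ≤ D := by positivity
  have hb1' : ∀ z, |u₁ z| ≤ D ∧ |dX u₁ z| ≤ D ∧ |dY u₁ z| ≤ D := fun z =>
    ⟨(hb1 z).1.trans (by linarith), (hb1 z).2.1.trans (by linarith),
      (hb1 z).2.2.trans (by linarith)⟩
  have hb2' : ∀ z, |u₂ z| ≤ D ∧ |dX u₂ z| ≤ D ∧ |dY u₂ z| ≤ D := fun z =>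
    ⟨(hb2 z).1.trans (by linarith), (hb2 z).2.1.trans (by linarith),
      (hb2 z).2.2.trans (by linarith)⟩
  set P := |(p : ℝ)| + |(q : ℝ)| with hPdef
  have hP0 : 0 ≤ P := by positivity
  have hPp : |(p : ℝ)| ≤ P := by rw [hPdef]; linarith [abs_nonneg (q : ℝ)]
  have hPq : |(q : ℝ)| ≤ P := by rw [hPdef]; linarith [abs_nonneg (p : ℝ)]
  set T := |t| * P with hTdef
  have hT0 : 0 ≤ T := by positivity
  set C0 := T + 2 * D with hC0
  have hC00 : 0 ≤ C0 := by positivity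
  set R := |x| + |y| + T + D + 4 * C0 + 1 with hR
  have hR0 : 0 ≤ R := by positivity
  set L := S * (4 * R + 2) with hL
  have hL0 : 0 ≤ L := by positivity
  set Be := S * (4 * (1 + R) ^ 2) with hBe
  have hBe0 : 0 ≤ Be := by positivity
  set Kt := 2 * L * C0 + Be + 1 with hKt
  have hKt0 : 0 < Kt := by positivity
  set κ := ε / (2 * Kt) with hκ
  have hκ0 : 0 < κ := by positivity
  obtain ⟨α, hα, hαp, hαb, hαm, hαc⟩ := T2.exists_wave hs0.le hs1.le (κ ^ 2) (by positivity)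
  obtain ⟨θ, hθ, hθp, hθd⟩ := T2.exists_primitive hα hαp hαm
  set ψ : ℝ → ℝ := fun x => θ x / 2 with hψ
  have hψc : ContDiff ℝ ∞ ψ := hθ.div_const 2
  have hψp : ∀ x, ψ (x + 1) = ψ x := fun x => by simp only [hψ, hθp]
  have hψd : ∀ x, HasDerivAt ψ ((α x - (4 * s - 1)) / 2) x := fun x => (hθd x).div_const 2
  have hαd : ∀ x, HasDerivAt α (deriv α x) x := fun x =>
    (hα.differentiable (by simp) x).hasDerivAt
  have hdc : Continuous (deriv α) := hα.continuous_deriv (by simp)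
  have hdp : ∀ x, deriv α (x + 1) = deriv α x := by
    intro x
    have h := deriv_comp_add_const (f := α) (a := 1) (x := x)
    have e : (fun x => α (x + 1)) = α := by ext x; exact hαp x
    rw [e] at h
    exact h.symm
  obtain ⟨A, hA0, hA⟩ := u2_per1_bdd hdc hdp
  have hLip : ∀ x y, |α x - α y| ≤ A * |x - y| := by
    intro x y
    have := Convex.norm_image_sub_le_of_norm_deriv_le (f := α) (C := A) (s := Set.univ)
      (x := y) (y := x) (fun z _ => hα.differentiable (by simp) z)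
      (fun z _ => by rw [Real.norm_eq_abs]; exact hA z) convex_univ (Set.mem_univ _)
      (Set.mem_univ _)
    simpa only [Real.norm_eq_abs] using this
  set C1 := P * A * D with hC1
  have hC10 : 0 ≤ C1 := by positivity
  refine ⟨⌈2 * (2 * L * C1 + 2 * (Be * A)) / ε + C1 + 1⌉₊, fun n hn => ?_⟩
  set N : ℕ := n * p.toNat + 1 with hN
  have hnN : n ≤ N := by
    have h1 : 0 < p.toNat := by omega
    exact (Nat.le_mul_of_pos_right n h1).trans (Nat.le_succ _)
  have hM : 2 * (2 * L * C1 + 2 * (Be * A)) / ε + C1 + 1 ≤ (N : ℝ) := by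
    have h1 := Nat.ceil_le.1 hn
    have h2 : (n : ℝ) ≤ N := by exact_mod_cast hnN
    linarith
  have hX0 : 0 ≤ 2 * (2 * L * C1 + 2 * (Be * A)) / ε := by positivity
  have hN0 : (0 : ℝ) < N := by linarith
  have hN0' : (N : ℝ) ≠ 0 := hN0.ne'
  have hCN : C1 / N ≤ 1 := by
    rw [div_le_one hN0]
    linarith
  have hCN0 : 0 ≤ C1 / N := by positivity
  have hErr : (2 * L * C1 + 2 * (Be * A)) / N ≤ ε / 2 := by
    rw [div_le_iff₀ hN0]
    have h1 : 2 * (2 * L * C1 + 2 * (Be * A)) / ε ≤ N := by linarith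
    rw [div_le_iff₀ hε] at h1
    linarith
  refine ⟨tr ψ α u₁ u₂ p q t N, u2_tr_pot hψc hα hψp hαp hu₁ hu₂ p q t N, ?_⟩
  have hup := u2_tr_pot hψc hα hψp hαp hu₁ hu₂ p q t N
  set u := tr ψ α u₁ u₂ p q t N with hu
  set e₁ : ℝ × ℝ → ℝ := fun z => W (K (χ₁ z)) (x + (1 - 2 * s) * t * p + dX u₁ z)
    (y + (1 - 2 * s) * t * q + dY u₁ z) with he₁
  set e₂ : ℝ × ℝ → ℝ := fun z => W (K (χ₂ z)) (x - 2 * s * t * p + dX u₂ z)
    (y - 2 * s * t * q + dY u₂ z) with he₂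
  have hE1 : En K χ₁ (x + (1 - 2 * s) * t * p) (y + (1 - 2 * s) * t * q) u₁ = avg e₁ := rfl
  have hE2 : En K χ₂ (x - 2 * s * t * p) (y - 2 * s * t * q) u₂ = avg e₂ := rfl
  rw [hE1, hE2]
  -- bounds of the target fields
  have hT1 : ∀ c : ℝ, |c| ≤ 1 → |c * t * p| ≤ T ∧ |c * t * q| ≤ T := by
    intro c hc
    constructor
    · calc |c * t * p| = |c| * (|t| * |(p : ℝ)|) := by rw [abs_mul, abs_mul, mul_assoc]
        _ ≤ 1 * (|t| * P) := by
          apply mul_le_mul hc _ (by positivity) zero_le_one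
          exact mul_le_mul_of_nonneg_left hPp (abs_nonneg _)
        _ = T := by rw [one_mul]
    · calc |c * t * q| = |c| * (|t| * |(q : ℝ)|) := by rw [abs_mul, abs_mul, mul_assoc]
        _ ≤ 1 * (|t| * P) := by
          apply mul_le_mul hc _ (by positivity) zero_le_one
          exact mul_le_mul_of_nonneg_left hPq (abs_nonneg _)
        _ = T := by rw [one_mul]
  have hc1 : |1 - 2 * s| ≤ 1 := by rw [abs_le]; constructor <;> linarith
  have hc2 : |2 * s| ≤ 1 := by rw [abs_le]; constructor <;> linarith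
  have hR1 : ∀ z, |x + (1 - 2 * s) * t * p + dX u₁ z| ≤ |x| + T + D ∧
      |y + (1 - 2 * s) * t * q + dY u₁ z| ≤ |y| + T + D := by
    intro z
    have h1 := (hT1 _ hc1).1
    have h2 := (hT1 _ hc1).2
    have h3 := (hb1' z).2.1
    have h4 := (hb1' z).2.2
    constructor
    · calc _ ≤ |x + (1 - 2 * s) * t * p| + |dX u₁ z| := abs_add_le _ _
        _ ≤ |x| + |(1 - 2 * s) * t * p| + |dX u₁ z| := by linarith [abs_add_le x ((1 - 2 * s) * t * p)]
        _ ≤ _ := by linarith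
    · calc _ ≤ |y + (1 - 2 * s) * t * q| + |dY u₁ z| := abs_add_le _ _
        _ ≤ |y| + |(1 - 2 * s) * t * q| + |dY u₁ z| := by linarith [abs_add_le y ((1 - 2 * s) * t * q)]
        _ ≤ _ := by linarith
  have hR2 : ∀ z, |x - 2 * s * t * p + dX u₂ z| ≤ |x| + T + D ∧
      |y - 2 * s * t * q + dY u₂ z| ≤ |y| + T + D := by
    intro z
    have h1 := (hT1 _ hc2).1
    have h2 := (hT1 _ hc2).2
    have h3 := (hb2' z).2.1
    have h4 := (hb2' z).2.2
    constructor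
    · calc _ ≤ |x - 2 * s * t * p| + |dX u₂ z| := abs_add_le _ _
        _ ≤ |x| + |2 * s * t * p| + |dX u₂ z| := by linarith [abs_sub x (2 * s * t * p)]
        _ ≤ _ := by linarith
    · calc _ ≤ |y - 2 * s * t * q| + |dY u₂ z| := abs_add_le _ _
        _ ≤ |y| + |2 * s * t * q| + |dY u₂ z| := by linarith [abs_sub y (2 * s * t * q)]
        _ ≤ _ := by linarith
  have hRx : |x| + T + D ≤ R := by rw [hR]; linarith [abs_nonneg y]
  have hRy : |y| + T + D ≤ R := by rw [hR]; linarith [abs_nonneg x]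
  have hRx' : |x| + T + D + (4 * C0 + 1) ≤ R := by rw [hR]; linarith [abs_nonneg y]
  have hRy' : |y| + T + D + (4 * C0 + 1) ≤ R := by rw [hR]; linarith [abs_nonneg x]
  have hbe1 : ∀ z, |e₁ z| ≤ Be := fun z =>
    u2_W_bdd (hS _) hR0 ((hR1 z).1.trans hRx) ((hR1 z).2.trans hRy)
  have hbe2 : ∀ z, |e₂ z| ≤ Be := fun z =>
    u2_W_bdd (hS _) hR0 ((hR2 z).1.trans hRx) ((hR2 z).2.trans hRy)
  -- the field of the trial potential
  have hfx : ∀ z : ℝ × ℝ, dX u z = t * ((α (p * z.1 + q * z.2) - (4 * s - 1)) / 2 * p)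
      + (1 + α (p * z.1 + q * z.2)) / 2 * dX u₁ (N * z.1, N * z.2)
      + (1 - α (p * z.1 + q * z.2)) / 2 * dX u₂ (N * z.1, N * z.2)
      + (N : ℝ)⁻¹ * (deriv α (p * z.1 + q * z.2) * p / 2
        * (u₁ (N * z.1, N * z.2) - u₂ (N * z.1, N * z.2))) := by
    intro z
    have h := u2_tr_fd hψd hαd hu₁.1 hu₂.1 p q t hN0' z (1, 0)
    simp only [mul_one, mul_zero, add_zero] at h
    exact h
  have hfy : ∀ z : ℝ × ℝ, dY u z = t * ((α (p * z.1 + q * z.2) - (4 * s - 1)) / 2 * q)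
      + (1 + α (p * z.1 + q * z.2)) / 2 * dY u₁ (N * z.1, N * z.2)
      + (1 - α (p * z.1 + q * z.2)) / 2 * dY u₂ (N * z.1, N * z.2)
      + (N : ℝ)⁻¹ * (deriv α (p * z.1 + q * z.2) * q / 2
        * (u₁ (N * z.1, N * z.2) - u₂ (N * z.1, N * z.2))) := by
    intro z
    have h := u2_tr_fd hψd hαd hu₁.1 hu₂.1 p q t hN0' z (0, 1)
    simp only [mul_one, mul_zero, zero_add] at h
    exact h
  have hr : ∀ (z : ℝ × ℝ) (c : ℝ), |c| ≤ P → |(N : ℝ)⁻¹ * (deriv α (p * z.1 + q * z.2) * c / 2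
      * (u₁ (N * z.1, N * z.2) - u₂ (N * z.1, N * z.2)))| ≤ C1 / N := by
    intro z c hc
    have h1 : |u₁ (N * z.1, N * z.2) - u₂ (N * z.1, N * z.2)| ≤ 2 * D :=
      (abs_sub _ _).trans (by linarith [(hb1' (N * z.1, N * z.2)).1, (hb2' (N * z.1, N * z.2)).1])
    have h2 : |deriv α (p * z.1 + q * z.2) * c / 2| ≤ A * P / 2 := by
      rw [abs_div, abs_two]
      have := u2_abs_mul_le (hA (p * z.1 + q * z.2)) hc
      linarith
    have h3 := u2_abs_mul_le h2 h1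
    rw [abs_mul, abs_of_pos (inv_pos.2 hN0), show C1 / (N : ℝ) = (N : ℝ)⁻¹ * C1 from
      div_eq_inv_mul _ _]
    apply mul_le_mul_of_nonneg_left _ (inv_pos.2 hN0).le
    rw [hC1]
    linarith
  have hwa : ∀ z : ℝ × ℝ, |α (p * z.1 + q * z.2) - T2.wv s (p * z.1 + q * z.2)| ≤ 4 := by
    intro z
    have h1 := hαb (p * z.1 + q * z.2)
    have h2 := T2.abs_wv s (p * z.1 + q * z.2)
    exact (abs_sub _ _).trans (by linarith)
  -- pointwise estimate
  have hpt : ∀ z : ℝ × ℝ, |x + dX u z| ≤ R ∧ |y + dY u z| ≤ R ∧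
      W (K (layP p q s N χ₁ χ₂ z)) (x + dX u z) (y + dY u z)
      ≤ e₁ (N * z.1, N * z.2) * ((1 + α (p * z.1 + q * z.2)) / 2)
        + e₂ (N * z.1, N * z.2) * ((1 - α (p * z.1 + q * z.2)) / 2)
        + (Be * |α (p * z.1 + q * z.2) - T2.wv s (p * z.1 + q * z.2)|
          + L * (2 * (|α (p * z.1 + q * z.2) - T2.wv s (p * z.1 + q * z.2)| * C0 + C1 / N))) := by
    intro z
    have r1 := hr z p hPp
    have r2 := hr z q hPq
    have g1 := hb1' (N * z.1, N * z.2)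
    have g2 := hb2' (N * z.1, N * z.2)
    have k1 := hR1 (N * z.1, N * z.2)
    have k2 := hR2 (N * z.1, N * z.2)
    have w4 := hwa z
    have tp1 : |t * p| ≤ T := by
      rw [abs_mul]
      exact mul_le_mul_of_nonneg_left hPp (abs_nonneg _)
    have tp2 : |t * q| ≤ T := by
      rw [abs_mul]
      exact mul_le_mul_of_nonneg_left hPq (abs_nonneg _)
    have hx := hfx z
    have hy := hfy z
    have b1 := hbe1 (N * z.1, N * z.2)
    have b2 := hbe2 (N * z.1, N * z.2)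
    set a := α (p * z.1 + q * z.2) with ha
    set w := T2.wv s (p * z.1 + q * z.2) with hw
    set rx := (N : ℝ)⁻¹ * (deriv α (p * z.1 + q * z.2) * p / 2
        * (u₁ (N * z.1, N * z.2) - u₂ (N * z.1, N * z.2))) with hrx
    set ry := (N : ℝ)⁻¹ * (deriv α (p * z.1 + q * z.2) * q / 2
        * (u₁ (N * z.1, N * z.2) - u₂ (N * z.1, N * z.2))) with hry
    have dx := u2_field (d := a - w) tp1 g1.2.1 g2.2.1 r1
    have dy := u2_field (d := a - w) tp2 g1.2.2 g2.2.2 r2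
    have hdC : |a - w| * (T + 2 * D) ≤ 4 * C0 := by
      rw [hC0]
      exact mul_le_mul_of_nonneg_right w4 hC00
    rcases T2.wv_eq s (p * z.1 + q * z.2) with hw1 | hw1
    · have hw' : w = 1 := hw1
      have hlay : layP p q s N χ₁ χ₂ z = χ₁ (N * z.1, N * z.2) := by
        unfold layP; rw [if_pos hw1]
      have ex : x + dX u z - (x + (1 - 2 * s) * t * p + dX u₁ (N * z.1, N * z.2))
          = (a - w) / 2 * (t * p + dX u₁ (N * z.1, N * z.2) - dX u₂ (N * z.1, N * z.2)) + rx := by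
        rw [hx, hw']; ring
      have ey : y + dY u z - (y + (1 - 2 * s) * t * q + dY u₁ (N * z.1, N * z.2))
          = (a - w) / 2 * (t * q + dY u₁ (N * z.1, N * z.2) - dY u₂ (N * z.1, N * z.2)) + ry := by
        rw [hy, hw']; ring
      rw [← ex] at dx
      rw [← ey] at dy
      have bx : |x + dX u z| ≤ R := by
        have := abs_add_le (x + dX u z - (x + (1 - 2 * s) * t * p + dX u₁ (N * z.1, N * z.2)))
          (x + (1 - 2 * s) * t * p + dX u₁ (N * z.1, N * z.2))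
        rw [sub_add_cancel] at this
        linarith [k1.1]
      have bY : |y + dY u z| ≤ R := by
        have := abs_add_le (y + dY u z - (y + (1 - 2 * s) * t * q + dY u₁ (N * z.1, N * z.2)))
          (y + (1 - 2 * s) * t * q + dY u₁ (N * z.1, N * z.2))
        rw [sub_add_cancel] at this
        linarith [k1.2]
      refine ⟨bx, bY, ?_⟩
      rw [hlay]
      have := u2_point (hS (χ₁ (N * z.1, N * z.2))) hR0 hBe (a := a) (k1.1.trans hRx)
        (k1.2.trans hRy) bx bY dx dy b2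
      have eab : |1 - a| = |a - w| := by rw [hw', abs_sub_comm]
      rw [eab] at this
      calc _ ≤ _ := this
        _ = _ := by
          rw [hL, hC0]
          simp only [he₁]
          ring
    · have hw' : w = -1 := hw1
      have hlay : layP p q s N χ₁ χ₂ z = χ₂ (N * z.1, N * z.2) := by
        unfold layP
        rw [if_neg]
        rw [hw1]
        norm_num
      have ex : x + dX u z - (x - 2 * s * t * p + dX u₂ (N * z.1, N * z.2))
          = (a - w) / 2 * (t * p + dX u₁ (N * z.1, N * z.2) - dX u₂ (N * z.1, N * z.2)) + rx := by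
        rw [hx, hw']; ring
      have ey : y + dY u z - (y - 2 * s * t * q + dY u₂ (N * z.1, N * z.2))
          = (a - w) / 2 * (t * q + dY u₁ (N * z.1, N * z.2) - dY u₂ (N * z.1, N * z.2)) + ry := by
        rw [hy, hw']; ring
      rw [← ex] at dx
      rw [← ey] at dy
      have bx : |x + dX u z| ≤ R := by
        have := abs_add_le (x + dX u z - (x - 2 * s * t * p + dX u₂ (N * z.1, N * z.2)))
          (x - 2 * s * t * p + dX u₂ (N * z.1, N * z.2))
        rw [sub_add_cancel] at this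
        linarith [k2.1]
      have bY : |y + dY u z| ≤ R := by
        have := abs_add_le (y + dY u z - (y - 2 * s * t * q + dY u₂ (N * z.1, N * z.2)))
          (y - 2 * s * t * q + dY u₂ (N * z.1, N * z.2))
        rw [sub_add_cancel] at this
        linarith [k2.2]
      refine ⟨bx, bY, ?_⟩
      rw [hlay]
      have := u2_point (hS (χ₂ (N * z.1, N * z.2))) hR0 hBe (a := -a) (k2.1.trans hRx)
        (k2.2.trans hRy) bx bY dx dy b1
      have eab : |1 - -a| = |a - w| := by rw [hw']; congr 1; ring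
      rw [eab] at this
      calc _ ≤ _ := this
        _ = _ := by
          rw [hL, hC0]
          simp only [he₂]
          ring
  -- measurability and integrability
  have m1 : Measurable e₁ := u2_meas_W K h₁.1
    (continuous_const.add (u2_cont_dX hu₁)).measurable
    (continuous_const.add (u2_cont_dY hu₁)).measurable
  have m2 : Measurable e₂ := u2_meas_W K h₂.1
    (continuous_const.add (u2_cont_dX hu₂)).measurable
    (continuous_const.add (u2_cont_dY hu₂)).measurable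
  have per1 : Per e₁ := fun x' y' => by
    simp only [he₁]
    rw [(h₁.2 x' y').1, (h₁.2 x' y').2, (u2_per_dX hu₁ x' y').1, (u2_per_dX hu₁ x' y').2,
      (u2_per_dY hu₁ x' y').1, (u2_per_dY hu₁ x' y').2]
    exact ⟨rfl, rfl⟩
  have per2 : Per e₂ := fun x' y' => by
    simp only [he₂]
    rw [(h₂.2 x' y').1, (h₂.2 x' y').2, (u2_per_dX hu₂ x' y').1, (u2_per_dX hu₂ x' y').2,
      (u2_per_dY hu₂ x' y').1, (u2_per_dY hu₂ x' y').2]
    exact ⟨rfl, rfl⟩
  have mN : Measurable (fun z : ℝ × ℝ => ((N : ℝ) * z.1, (N : ℝ) * z.2)) := by fun_prop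
  have mT : Measurable (fun z : ℝ × ℝ => (p : ℝ) * z.1 + (q : ℝ) * z.2) := by fun_prop
  have mα : Measurable α := hα.continuous.measurable
  have hH1 : ∀ r, |(1 + α r) / 2| ≤ 2 := by
    intro r
    have := hαb r
    rw [abs_div, abs_two]
    have h3 := abs_add_le 1 (α r)
    rw [abs_one] at h3
    linarith
  have hH2 : ∀ r, |(1 - α r) / 2| ≤ 2 := by
    intro r
    have := hαb r
    rw [abs_div, abs_two]
    have h3 := abs_sub 1 (α r)
    rw [abs_one] at h3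
    linarith
  have i1 : IntegrableOn (fun z : ℝ × ℝ => e₁ (N * z.1, N * z.2)
      * ((1 + α (p * z.1 + q * z.2)) / 2)) cell :=
    u2_intOn ((m1.comp mN).mul ((((mα.comp mT)).const_add 1).div_const 2))
      (fun z => u2_abs_mul_le (hbe1 _) (hH1 _))
  have i2 : IntegrableOn (fun z : ℝ × ℝ => e₂ (N * z.1, N * z.2)
      * ((1 - α (p * z.1 + q * z.2)) / 2)) cell :=
    u2_intOn ((m2.comp mN).mul ((((mα.comp mT)).const_sub 1).div_const 2))
      (fun z => u2_abs_mul_le (hbe2 _) (hH2 _))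
  have mw : Measurable (fun r => (α r - T2.wv s r) ^ 2) :=
    (mα.sub (T2.measurable_wv s)).pow_const 2
  have bw : ∀ r, |(α r - T2.wv s r) ^ 2| ≤ 16 := by
    intro r
    have h1 := hαb r
    have h2 := T2.abs_wv s r
    have h3 : |α r - T2.wv s r| ≤ 4 := (abs_sub _ _).trans (by linarith)
    exact u2_sq16 h3
  have i3 : IntegrableOn (fun z : ℝ × ℝ => (α (p * z.1 + q * z.2)
      - T2.wv s (p * z.1 + q * z.2)) ^ 2) cell :=
    u2_intOn (mw.comp mT) (fun z => bw _)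
  have a3 : avg (fun z : ℝ × ℝ => (α (p * z.1 + q * z.2) - T2.wv s (p * z.1 + q * z.2)) ^ 2)
      = ∫ r in Set.Icc (0 : ℝ) 1, (α r - T2.wv s r) ^ 2 :=
    u2_avg_profile mw bw (fun r => by rw [hαp, T2.wv_per]) p q hp
  have i0 : IntegrableOn (fun z : ℝ × ℝ => W (K (layP p q s N χ₁ χ₂ z)) (x + dX u z)
      (y + dY u z)) cell :=
    u2_intOn (u2_meas_W K (layP_partition p q s N h₁ h₂).1
      (continuous_const.add (u2_cont_dX hup)).measurable
      (continuous_const.add (u2_cont_dY hup)).measurable)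
      (fun z => u2_W_bdd (hS _) hR0 (hpt z).1 (hpt z).2.1)
  -- fine averages
  have hlip1 : ∀ r r', |(1 + α r) / 2 - (1 + α r') / 2| ≤ A * |r - r'| := by
    intro r r'
    have h1 := hLip r r'
    have e : (1 + α r) / 2 - (1 + α r') / 2 = (α r - α r') / 2 := by ring
    rw [e, abs_div, abs_two]
    linarith [abs_nonneg (α r - α r')]
  have hlip2 : ∀ r r', |(1 - α r) / 2 - (1 - α r') / 2| ≤ A * |r - r'| := by
    intro r r'
    have h1 := hLip r r'
    have e : (1 - α r) / 2 - (1 - α r') / 2 = -((α r - α r') / 2) := by ring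
    rw [e, abs_neg, abs_div, abs_two]
    linarith [abs_nonneg (α r - α r')]
  have int1 : ∫ r in (0 : ℝ)..1, (1 + α r) / 2 = 2 * s := by
    rw [intervalIntegral.integral_of_le zero_le_one, ← integral_Icc_eq_integral_Ioc]
    rw [integral_div, integral_add (integrable_const _) (T2.intOn_cont hα.continuous), hαm]
    simp
    ring
  have int2 : ∫ r in (0 : ℝ)..1, (1 - α r) / 2 = 1 - 2 * s := by
    rw [intervalIntegral.integral_of_le zero_le_one, ← integral_Icc_eq_integral_Ioc]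
    rw [integral_div, integral_sub (integrable_const _) (T2.intOn_cont hα.continuous), hαm]
    simp
    ring
  have f1 := avg_fine m1 hbe1 per1 (h := fun r => (1 + α r) / 2) (B := A)
    ((continuous_const.add hα.continuous).div_const 2) hlip1
    (fun r => by simp only [hαp]) p q hp n
  have f2 := avg_fine m2 hbe2 per2 (h := fun r => (1 - α r) / 2) (B := A)
    ((continuous_const.sub hα.continuous).div_const 2) hlip2
    (fun r => by simp only [hαp]) p q hp n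
  rw [int1] at f1
  rw [int2] at f2
  have f1' := (abs_le.1 f1).2
  have f2' := (abs_le.1 f2).2
  -- conclusion
  have i12 : IntegrableOn (fun z : ℝ × ℝ => e₁ (N * z.1, N * z.2)
      * ((1 + α (p * z.1 + q * z.2)) / 2) + e₂ (N * z.1, N * z.2)
      * ((1 - α (p * z.1 + q * z.2)) / 2)) cell := i1.add i2
  have ic : IntegrableOn (fun _ : ℝ × ℝ => Kt * (κ / 2) + 2 * L * C1 / N) cell :=
    continuous_const.continuousOn.integrableOn_compact isCompact_cell
  have i3' : IntegrableOn (fun z : ℝ × ℝ => Kt * (2 * κ)⁻¹ * (α (p * z.1 + q * z.2)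
      - T2.wv s (p * z.1 + q * z.2)) ^ 2) cell := i3.const_mul _
  have ic3 : IntegrableOn (fun z : ℝ × ℝ => (Kt * (κ / 2) + 2 * L * C1 / N)
      + Kt * (2 * κ)⁻¹ * (α (p * z.1 + q * z.2) - T2.wv s (p * z.1 + q * z.2)) ^ 2) cell :=
    ic.add i3'
  have hle : En K (layP p q s N χ₁ χ₂) x y u ≤ avg (fun z : ℝ × ℝ =>
      (e₁ (N * z.1, N * z.2) * ((1 + α (p * z.1 + q * z.2)) / 2)
        + e₂ (N * z.1, N * z.2) * ((1 - α (p * z.1 + q * z.2)) / 2))
      + ((Kt * (κ / 2) + 2 * L * C1 / N)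
        + Kt * (2 * κ)⁻¹ * (α (p * z.1 + q * z.2) - T2.wv s (p * z.1 + q * z.2)) ^ 2)) := by
    apply avg_mono i0
    · exact i12.add ic3
    · intro z
      have h1 := (hpt z).2.2
      have h2 := u2_amgm hκ0 (α (p * z.1 + q * z.2) - T2.wv s (p * z.1 + q * z.2))
      set d := |α (p * z.1 + q * z.2) - T2.wv s (p * z.1 + q * z.2)| with hd
      have hd0 : 0 ≤ d := abs_nonneg _
      have h3 : Be * d + L * (2 * (d * C0 + C1 / N)) ≤ Kt * d + 2 * L * C1 / N := by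
        have e : L * (2 * (d * C0 + C1 / N)) = 2 * L * C0 * d + 2 * L * C1 / N := by ring
        have e2 : Kt * d = 2 * L * C0 * d + Be * d + d := by rw [hKt]; ring
        rw [e, e2]
        linarith only [hd0]
      have h4 := mul_le_mul_of_nonneg_left h2 hKt0.le
      have h5 : Kt * (κ / 2 + (2 * κ)⁻¹ * (α (p * z.1 + q * z.2)
          - T2.wv s (p * z.1 + q * z.2)) ^ 2) = Kt * (κ / 2) + Kt * (2 * κ)⁻¹
          * (α (p * z.1 + q * z.2) - T2.wv s (p * z.1 + q * z.2)) ^ 2 := by ring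
      linarith
  have hsum : avg (fun z : ℝ × ℝ =>
      (e₁ (N * z.1, N * z.2) * ((1 + α (p * z.1 + q * z.2)) / 2)
        + e₂ (N * z.1, N * z.2) * ((1 - α (p * z.1 + q * z.2)) / 2))
      + ((Kt * (κ / 2) + 2 * L * C1 / N)
        + Kt * (2 * κ)⁻¹ * (α (p * z.1 + q * z.2) - T2.wv s (p * z.1 + q * z.2)) ^ 2))
      = (avg (fun z : ℝ × ℝ => e₁ (N * z.1, N * z.2) * ((1 + α (p * z.1 + q * z.2)) / 2))
        + avg (fun z : ℝ × ℝ => e₂ (N * z.1, N * z.2) * ((1 - α (p * z.1 + q * z.2)) / 2)))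
      + ((Kt * (κ / 2) + 2 * L * C1 / N) + Kt * (2 * κ)⁻¹
        * ∫ r in Set.Icc (0 : ℝ) 1, (α r - T2.wv s r) ^ 2) := by
    rw [avg_add i12 ic3, avg_add i1 i2, avg_add ic i3', avg_const, avg_mul, a3]
  have hfin : Kt * (κ / 2) + Kt * (2 * κ)⁻¹ * (∫ r in Set.Icc (0 : ℝ) 1, (α r - T2.wv s r) ^ 2)
      ≤ ε / 2 := by
    have h1 : Kt * (2 * κ)⁻¹ * (∫ r in Set.Icc (0 : ℝ) 1, (α r - T2.wv s r) ^ 2)
        ≤ Kt * (2 * κ)⁻¹ * κ ^ 2 := mul_le_mul_of_nonneg_left hαc.le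
          (mul_pos hKt0 (inv_pos.2 (mul_pos two_pos hκ0))).le
    have h2 : Kt * (2 * κ)⁻¹ * κ ^ 2 = Kt * (κ / 2) := by field_simp
    have h3 : Kt * κ = ε / 2 := by rw [hκ]; field_simp
    linarith
  have hE' : 2 * L * C1 / N + (Be * A / N + Be * A / N) ≤ ε / 2 := by
    have e : 2 * L * C1 / N + (Be * A / N + Be * A / N) = (2 * L * C1 + 2 * (Be * A)) / N := by
      ring
    rw [e]
    exact hErr
  rw [hsum] at hle
  have f1'' : avg (fun z : ℝ × ℝ => e₁ (N * z.1, N * z.2) * ((1 + α (p * z.1 + q * z.2)) / 2))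
      ≤ avg e₁ * (2 * s) + Be * A / N := by linarith
  have f2'' : avg (fun z : ℝ × ℝ => e₂ (N * z.1, N * z.2) * ((1 - α (p * z.1 + q * z.2)) / 2))
      ≤ avg e₂ * (1 - 2 * s) + Be * A / N := by linarith
  calc En K (layP p q s N χ₁ χ₂) x y u ≤ _ := hle
    _ ≤ 2 * s * avg e₁ + (1 - 2 * s) * avg e₂ + ε := by linarith

end Pool.Agent.Lib.MP_2a9317_an.N1
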