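import Pool.Agent.Lib.MP_2a9317_an.N1.S5
import Pool.Agent.Lib.MP_2a9317_an.N1.S6
import Pool.Agent.Lib.MP_2a9317_an.N1.U2

set_option autoImplicit false

namespace Pool.Agent.Lib.MP_2a9317_an.N1

open MeasureTheory Filter Topology
open scoped ContDiff
/-- the layered material, explicitly -/
noncomputable def layM (A B : Ph) (θ ξ η : ℝ) : Ph :=
  let D := (1 - θ) * Q A ξ η + θ * Q B ξ η
  let a := ξ * (A 0 - B 0) + η * (A 1 - B 1)
  let b := ξ * (A 1 - B 1) + η * (A 2 - B 2)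
  let v := ξ * (A 3 - B 3) + η * (A 4 - B 4)
  ![θ * A 0 + (1 - θ) * B 0 - θ * (1 - θ) * (a * a) / D,
    θ * A 1 + (1 - θ) * B 1 - θ * (1 - θ) * (a * b) / D,
    θ * A 2 + (1 - θ) * B 2 - θ * (1 - θ) * (b * b) / D,
    θ * A 3 + (1 - θ) * B 3 - θ * (1 - θ) * (a * v) / D,
    θ * A 4 + (1 - θ) * B 4 - θ * (1 - θ) * (b * v) / D,
    θ * A 5 + (1 - θ) * B 5 - θ * (1 - θ) * (v * v) / D]

end Pool.Agent.Lib.MP_2a9317_an.N1
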