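import Pool.Agent.Lib.MP_2a9317_an.N1.Base

set_option autoImplicit false

namespace Pool.Agent.Lib.MP_2a9317_an.N1

open MeasureTheory Filter Topology
open scoped ContDiff

/-- integer periods -/
theorem F2_per {f : ℝ × ℝ → ℝ} (hf : Per f) (m n : ℤ) (x y : ℝ) :
    f (x + m, y + n) = f (x, y) := by
  have h1 : ∀ (m : ℤ) (x y : ℝ), f (x + m, y) = f (x, y) := by
    intro m
    induction m using Int.induction_on with
    | zero => intro x y; simp
    | succ i ih =>
      intro x y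
      push_cast
      rw [← add_assoc, (hf _ _).1]
      exact_mod_cast ih x y
    | pred i ih =>
      intro x y
      have h := (hf (x + ((-(i : ℤ) - 1 : ℤ) : ℝ)) y).1
      rw [← h]
      have e : x + ((-(i : ℤ) - 1 : ℤ) : ℝ) + 1 = x + ((-(i : ℤ) : ℤ) : ℝ) := by
        push_cast; ring
      rw [e]
      exact ih x y
  have h2 : ∀ (m : ℤ) (x y : ℝ), f (x, y + m) = f (x, y) := by
    intro m
    induction m using Int.induction_on with
    | zero => intro x y; simp
    | succ i ih =>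
      intro x y
      push_cast
      rw [← add_assoc, (hf _ _).2]
      exact_mod_cast ih x y
    | pred i ih =>
      intro x y
      have h := (hf x (y + ((-(i : ℤ) - 1 : ℤ) : ℝ))).2
      rw [← h]
      have e : y + ((-(i : ℤ) - 1 : ℤ) : ℝ) + 1 = y + ((-(i : ℤ) : ℤ) : ℝ) := by
        push_cast; ring
      rw [e]
      exact ih x y
  rw [h1, h2]

/-! ### exact Helmholtz decomposable fields -/

/-- `(F, G) = const + ∇a + R∇b` -/
def HS (F G : ℝ × ℝ → ℝ) : Prop :=
  ∃ (c d : ℝ) (a b : ℝ × ℝ → ℝ), IsPot a ∧ IsPot b ∧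
    ∀ p, F p = c + dX a p - dY b p ∧ G p = d + dY a p + dX b p

theorem IsPot.diff {u : ℝ × ℝ → ℝ} (hu : IsPot u) : Differentiable ℝ u :=
  hu.1.differentiable (by simp)

theorem F2_IsPot_add {u v : ℝ × ℝ → ℝ} (hu : IsPot u) (hv : IsPot v) :
    IsPot (fun p => u p + v p) := by
  refine ⟨hu.1.add hv.1, fun x y => ⟨?_, ?_⟩⟩
  · simp only [(hu.2 x y).1, (hv.2 x y).1]
  · simp only [(hu.2 x y).2, (hv.2 x y).2]

theorem F2_dX_add {u v : ℝ × ℝ → ℝ} (hu : IsPot u) (hv : IsPot v) (p : ℝ × ℝ) :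
    dX (fun p => u p + v p) p = dX u p + dX v p := by
  unfold dX
  rw [fderiv_fun_add (hu.diff p) (hv.diff p)]
  rfl

theorem F2_dY_add {u v : ℝ × ℝ → ℝ} (hu : IsPot u) (hv : IsPot v) (p : ℝ × ℝ) :
    dY (fun p => u p + v p) p = dY u p + dY v p := by
  unfold dY
  rw [fderiv_fun_add (hu.diff p) (hv.diff p)]
  rfl

theorem HS.add {F G F' G' : ℝ × ℝ → ℝ} (h : HS F G) (h' : HS F' G') :
    HS (fun p => F p + F' p) (fun p => G p + G' p) := by
  obtain ⟨c, d, a, b, ha, hb, hab⟩ := h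
  obtain ⟨c', d', a', b', ha', hb', hab'⟩ := h'
  refine ⟨c + c', d + d', fun p => a p + a' p, fun p => b p + b' p, F2_IsPot_add ha ha',
    F2_IsPot_add hb hb', fun p => ⟨?_, ?_⟩⟩
  · show F p + F' p = _
    rw [F2_dX_add ha ha', F2_dY_add hb hb', (hab p).1, (hab' p).1]
    ring
  · show G p + G' p = _
    rw [F2_dY_add ha ha', F2_dX_add hb hb', (hab p).2, (hab' p).2]
    ring

theorem F2_zero_pot : IsPot (fun _ => 0) :=
  ⟨contDiff_const, fun _ _ => ⟨rfl, rfl⟩⟩

theorem HS.const (c d : ℝ) : HS (fun _ => c) (fun _ => d) := by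
  refine ⟨c, d, fun _ => 0, fun _ => 0, F2_zero_pot, F2_zero_pot, fun p => ⟨?_, ?_⟩⟩
  · simp [dX, dY]
  · simp [dX, dY]

/-- the phase of a mode -/
noncomputable def ph (k l : ℤ) (p : ℝ × ℝ) : ℝ := 2 * Real.pi * (k * p.1 + l * p.2)

noncomputable def psi (k l : ℤ) (α β A : ℝ) (p : ℝ × ℝ) : ℝ :=
  A * (α * Real.sin (ph k l p) - β * Real.cos (ph k l p)) / (2 * Real.pi)

theorem psi_pot (k l : ℤ) (α β A : ℝ) : IsPot (psi k l α β A) := by
  refine ⟨?_, fun x y => ⟨?_, ?_⟩⟩
  · unfold psi ph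
    fun_prop
  · have e : ph k l (x + 1, y) = ph k l (x, y) + k * (2 * Real.pi) := by
      unfold ph; ring
    unfold psi
    rw [e, Real.sin_add_int_mul_two_pi, Real.cos_add_int_mul_two_pi]
  · have e : ph k l (x, y + 1) = ph k l (x, y) + l * (2 * Real.pi) := by
      unfold ph; ring
    unfold psi
    rw [e, Real.sin_add_int_mul_two_pi, Real.cos_add_int_mul_two_pi]

theorem psi_fderiv (k l : ℤ) (α β A : ℝ) (p : ℝ × ℝ) (v : ℝ × ℝ) :
    fderiv ℝ (psi k l α β A) p v =
      A * (k * v.1 + l * v.2) * (α * Real.cos (ph k l p) + β * Real.sin (ph k l p)) := by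
  have h1 : HasFDerivAt (ph k l)
      ((2 * Real.pi) • ((k : ℝ) • ContinuousLinearMap.fst ℝ ℝ ℝ +
        (l : ℝ) • ContinuousLinearMap.snd ℝ ℝ ℝ)) p := by
    unfold ph
    have h2 := ((ContinuousLinearMap.fst ℝ ℝ ℝ).hasFDerivAt (x := p)).const_mul (k : ℝ)
    have h3 := ((ContinuousLinearMap.snd ℝ ℝ ℝ).hasFDerivAt (x := p)).const_mul (l : ℝ)
    exact (h2.add h3).const_mul (2 * Real.pi)
  have h4 := ((((h1.sin).const_mul α).fun_sub ((h1.cos).const_mul β)).const_mul A).mul_const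
    (2 * Real.pi)⁻¹
  have h5 : psi k l α β A = fun p => A * (α * Real.sin (ph k l p) - β * Real.cos (ph k l p)) *
      (2 * Real.pi)⁻¹ := by
    ext p
    unfold psi
    rw [div_eq_mul_inv]
  rw [h5, h4.fderiv]
  have hpi := Real.pi_ne_zero
  simp only [ContinuousLinearMap.smul_apply, ContinuousLinearMap.sub_apply,
    ContinuousLinearMap.add_apply, smul_eq_mul, ContinuousLinearMap.coe_fst',
    ContinuousLinearMap.coe_snd']
  field_simp
  ring

theorem HS.mode (k l : ℤ) (α β m₁ m₂ : ℝ) :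
    HS (fun p => m₁ * (α * Real.cos (ph k l p) + β * Real.sin (ph k l p)))
      (fun p => m₂ * (α * Real.cos (ph k l p) + β * Real.sin (ph k l p))) := by
  by_cases hkl : (k : ℝ) ^ 2 + (l : ℝ) ^ 2 = 0
  · have hk : (k : ℝ) = 0 := by nlinarith [sq_nonneg (k : ℝ), sq_nonneg (l : ℝ)]
    have hl : (l : ℝ) = 0 := by nlinarith [sq_nonneg (k : ℝ), sq_nonneg (l : ℝ)]
    have h0 : ∀ p, ph k l p = 0 := by
      intro p
      unfold ph
      rw [hk, hl]; ring
    have h1 := HS.const (m₁ * α) (m₂ * α)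
    simpa [h0] using h1
  · refine ⟨0, 0, psi k l α β ((k * m₁ + l * m₂) / ((k : ℝ) ^ 2 + (l : ℝ) ^ 2)),
      psi k l α β ((k * m₂ - l * m₁) / ((k : ℝ) ^ 2 + (l : ℝ) ^ 2)), psi_pot _ _ _ _ _,
      psi_pot _ _ _ _ _, fun p => ⟨?_, ?_⟩⟩
    · unfold dX dY
      rw [psi_fderiv, psi_fderiv]
      simp only
      field_simp
      ring
    · unfold dX dY
      rw [psi_fderiv, psi_fderiv]
      simp only
      field_simp
      ring

/-! ### the torus -/

/-- the covering map of the torus -/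
noncomputable def qq (p : ℝ × ℝ) : UnitAddTorus (Fin 2) := ![(p.1 : UnitAddCircle), (p.2 : UnitAddCircle)]

theorem qq_cont : Continuous qq := by
  unfold qq
  refine continuous_pi (fun i => ?_)
  fin_cases i
  · exact (AddCircle.continuous_mk' 1).comp continuous_fst
  · exact (AddCircle.continuous_mk' 1).comp continuous_snd

theorem mFourier_qq (n : Fin 2 → ℤ) (z : ℂ) (p : ℝ × ℝ) :
    (z * UnitAddTorus.mFourier n (qq p)).re =
      z.re * Real.cos (ph (n 0) (n 1) p) + (-z.im) * Real.sin (ph (n 0) (n 1) p) := by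
  have h1 : UnitAddTorus.mFourier n (qq p) =
      Complex.exp (((ph (n 0) (n 1) p : ℝ) : ℂ) * Complex.I) := by
    have : UnitAddTorus.mFourier n (qq p) = ∏ i : Fin 2, fourier (n i) (qq p i) := rfl
    rw [this, Fin.prod_univ_two]
    have e0 : qq p 0 = (p.1 : UnitAddCircle) := rfl
    have e1 : qq p 1 = (p.2 : UnitAddCircle) := rfl
    rw [e0, e1, fourier_coe_apply, fourier_coe_apply, ← Complex.exp_add]
    congr 1
    unfold ph
    push_cast
    ring
  rw [h1, Complex.mul_re, Complex.exp_ofReal_mul_I_re, Complex.exp_ofReal_mul_I_im]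
  ring

theorem F2_good {P : C(UnitAddTorus (Fin 2), ℂ)}
    (hP : P ∈ Submodule.span ℂ (Set.range (UnitAddTorus.mFourier (d := Fin 2)))) :
    ∀ (z : ℂ) (m₁ m₂ : ℝ), HS (fun p => m₁ * (z * P (qq p)).re) (fun p => m₂ * (z * P (qq p)).re) := by
  induction hP using Submodule.span_induction with
  | mem x hx =>
    obtain ⟨n, rfl⟩ := hx
    intro z m₁ m₂
    simp only [mFourier_qq]
    exact HS.mode _ _ _ _ _ _
  | zero =>
    intro z m₁ m₂
    have := HS.const 0 0
    simpa using this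
  | add x y _ _ hx hy =>
    intro z m₁ m₂
    have := (hx z m₁ m₂).add (hy z m₁ m₂)
    refine (cast ?_ this)
    congr 1
    · ext p
      simp only [ContinuousMap.add_apply, mul_add, Complex.add_re]
    · ext p
      simp only [ContinuousMap.add_apply, mul_add, Complex.add_re]
  | smul c x _ hx =>
    intro z m₁ m₂
    have := hx (z * c) m₁ m₂
    refine (cast ?_ this)
    congr 1
    · ext p
      simp only [ContinuousMap.smul_apply, smul_eq_mul, mul_assoc]
    · ext p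
      simp only [ContinuousMap.smul_apply, smul_eq_mul, mul_assoc]

/-- representative in `(0, 1]` -/
noncomputable def rep (t : UnitAddCircle) : ℝ := (AddCircle.measurableEquivIoc (1 : ℝ) 0 t : ℝ)

theorem rep_meas : Measurable rep :=
  measurable_subtype_coe.comp (AddCircle.measurableEquivIoc (1 : ℝ) 0).measurable

theorem rep_coe (t : UnitAddCircle) : ((rep t : ℝ) : UnitAddCircle) = t :=
  (AddCircle.equivIoc (1 : ℝ) 0).symm_apply_apply t

theorem rep_int (x : ℝ) : ∃ m : ℤ, x = rep (x : UnitAddCircle) + m := by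
  have h : ((x - rep (x : UnitAddCircle) : ℝ) : UnitAddCircle) = 0 := by
    rw [AddCircle.coe_sub, rep_coe, sub_self]
  obtain ⟨m, hm⟩ := (AddCircle.coe_eq_zero_iff (1 : ℝ)).mp h
  refine ⟨m, ?_⟩
  have : (m : ℝ) = x - rep (x : UnitAddCircle) := by simpa using hm
  linarith

theorem F2_lift {f : ℝ × ℝ → ℝ} (hf : Per f) (p : ℝ × ℝ) :
    f (rep (qq p 0), rep (qq p 1)) = f p := by
  have e0 : qq p 0 = (p.1 : UnitAddCircle) := rfl
  have e1 : qq p 1 = (p.2 : UnitAddCircle) := rfl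
  obtain ⟨m, hm⟩ := rep_int p.1
  obtain ⟨n, hn⟩ := rep_int p.2
  rw [e0, e1]
  have h := F2_per hf m n (rep (p.1 : UnitAddCircle)) (rep (p.2 : UnitAddCircle))
  rw [← hm, ← hn] at h
  exact h.symm

theorem F2_int {φ : ℝ × ℝ → ℝ} (h1 : Measurable φ) {C : ℝ} (h2 : ∀ p, |φ p| ≤ C) :
    IntegrableOn φ cell := by
  refine Measure.integrableOn_of_bounded (M := C) ?_ h1.aestronglyMeasurable ?_
  · rw [volume_cell]; simp
  · exact ae_of_all _ (fun p => h2 p)

theorem F2_dens {f : ℝ × ℝ → ℝ} (hf : BMP f) {ε : ℝ} (hε : 0 < ε) :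
    ∃ P ∈ Submodule.span ℂ (Set.range (UnitAddTorus.mFourier (d := Fin 2))),
      avg (fun p => (f p - (P (qq p)).re) ^ 2) ≤ ε := by
  obtain ⟨hm, ⟨C, hC⟩, hper⟩ := hf
  obtain ⟨F, hF⟩ : ∃ F : UnitAddTorus (Fin 2) → ℝ, F = fun t => f (rep (t 0), rep (t 1)) := ⟨_, rfl⟩
  have hFq : ∀ p, F (qq p) = f p := by
    intro p
    rw [hF]
    exact F2_lift hper p
  have hFm : Measurable F := by
    rw [hF]
    exact hm.comp ((rep_meas.comp (measurable_pi_apply 0)).prodMk
      (rep_meas.comp (measurable_pi_apply 1)))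
  have hFb : ∀ t, |F t| ≤ C := by
    intro t
    rw [hF]
    exact hC _
  obtain ⟨ν, hν⟩ : ∃ ν : Measure (UnitAddTorus (Fin 2)), ν = (volume.restrict cell).map qq := ⟨_, rfl⟩
  have hqm : Measurable qq := qq_cont.measurable
  haveI : IsFiniteMeasure (volume.restrict cell : Measure (ℝ × ℝ)) := by
    refine ⟨?_⟩
    rw [Measure.restrict_apply_univ, volume_cell]
    simp
  haveI : IsFiniteMeasure ν := by
    rw [hν]
    exact Measure.isFiniteMeasure_map _ _
  have hMem : MemLp F (ENNReal.ofReal 2) ν :=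
    MemLp.of_bound hFm.aestronglyMeasurable C (ae_of_all _ (fun t => hFb t))
  obtain ⟨g, hg, _⟩ := hMem.exists_boundedContinuous_integral_rpow_sub_le (by norm_num)
    (show (0 : ℝ) < ε / 4 by linarith)
  obtain ⟨g', hg'⟩ : ∃ g' : C(UnitAddTorus (Fin 2), ℂ), ∀ t, g' t = ((g t : ℝ) : ℂ) :=
    ⟨⟨fun t => ((g t : ℝ) : ℂ), Complex.continuous_ofReal.comp g.continuous⟩, fun t => rfl⟩
  have hcl : g' ∈ closure (Submodule.span ℂ (Set.range (UnitAddTorus.mFourier (d := Fin 2))) :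
      Set C(UnitAddTorus (Fin 2), ℂ)) := by
    rw [← Submodule.topologicalClosure_coe, UnitAddTorus.span_mFourier_closure_eq_top]
    exact Submodule.mem_top
  obtain ⟨P, hP, hdist⟩ := Metric.mem_closure_iff.mp hcl (Real.sqrt (ε / 4))
    (Real.sqrt_pos.mpr (by linarith))
  refine ⟨P, hP, ?_⟩
  have hsup : ∀ p, (g (qq p) - (P (qq p)).re) ^ 2 ≤ ε / 4 := by
    intro p
    have h1 : ‖g' (qq p) - P (qq p)‖ ≤ Real.sqrt (ε / 4) := by
      have := ContinuousMap.dist_apply_le_dist (f := g') (g := P) (qq p)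
      rw [dist_eq_norm] at this
      linarith
    have h2 : |g (qq p) - (P (qq p)).re| ≤ ‖g' (qq p) - P (qq p)‖ := by
      have := Complex.abs_re_le_norm (g' (qq p) - P (qq p))
      have hre : (g' (qq p)).re = g (qq p) := by rw [hg', Complex.ofReal_re]
      rw [Complex.sub_re, hre] at this
      exact this
    have h3 : |g (qq p) - (P (qq p)).re| ≤ Real.sqrt (ε / 4) := h2.trans h1
    have h4 := Real.sq_sqrt (show 0 ≤ ε / 4 by linarith)
    calc (g (qq p) - (P (qq p)).re) ^ 2 = |g (qq p) - (P (qq p)).re| ^ 2 := (sq_abs _).symm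
      _ ≤ Real.sqrt (ε / 4) ^ 2 := pow_le_pow_left₀ (abs_nonneg _) h3 2
      _ = ε / 4 := h4
  have hmain : avg (fun p => (f p - g (qq p)) ^ 2) ≤ ε / 4 := by
    rw [hν, integral_map hqm.aemeasurable] at hg
    · refine le_trans (le_of_eq ?_) hg
      rw [avg_eq]
      refine integral_congr_ae (ae_of_all _ (fun p => ?_))
      simp only
      rw [hFq, Real.norm_eq_abs]
      have : |f p - g (qq p)| ^ (2 : ℝ) = |f p - g (qq p)| ^ (2 : ℕ) := by
        exact_mod_cast Real.rpow_natCast _ 2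
      rw [this, sq_abs]
    · have : Measurable (fun x => ‖F x - g x‖ ^ (2 : ℝ)) :=
        ((hFm.sub g.continuous.measurable).norm).pow_const _
      exact this.aestronglyMeasurable
  have hgm : Measurable (fun p => g (qq p)) := (g.continuous.comp qq_cont).measurable
  have hPm : Measurable (fun p => (P (qq p)).re) :=
    (Complex.continuous_re.comp (P.continuous.comp qq_cont)).measurable
  have hgb : ∀ p, |g (qq p)| ≤ ‖g‖ := fun p => g.norm_coe_le_norm (qq p)
  have hPb : ∀ p, |(P (qq p)).re| ≤ ‖P‖ := fun p =>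
    (Complex.abs_re_le_norm _).trans (P.norm_coe_le_norm (qq p))
  have hi1 : IntegrableOn (fun p => (f p - (P (qq p)).re) ^ 2) cell := by
    refine F2_int ((hm.sub hPm).pow_const 2) (C := (C + ‖P‖) ^ 2) (fun p => ?_)
    rw [abs_of_nonneg (sq_nonneg _), ← sq_abs]
    exact pow_le_pow_left₀ (abs_nonneg _) ((abs_sub _ _).trans (add_le_add (hC p) (hPb p))) 2
  have hi2 : IntegrableOn (fun p => 2 * (f p - g (qq p)) ^ 2) cell := by
    refine Integrable.const_mul ?_ 2
    refine F2_int ((hm.sub hgm).pow_const 2) (C := (C + ‖g‖) ^ 2) (fun p => ?_)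
    rw [abs_of_nonneg (sq_nonneg _), ← sq_abs]
    exact pow_le_pow_left₀ (abs_nonneg _) ((abs_sub _ _).trans (add_le_add (hC p) (hgb p))) 2
  have hi3 : IntegrableOn (fun _ : ℝ × ℝ => 2 * (ε / 4)) cell :=
    F2_int measurable_const (fun _ => le_rfl)
  calc avg (fun p => (f p - (P (qq p)).re) ^ 2)
      ≤ avg (fun p => 2 * (f p - g (qq p)) ^ 2 + 2 * (ε / 4)) := by
        apply avg_mono hi1 (hi2.add hi3)
        intro p
        have h1 := hsup p
        have h3 := sq_nonneg ((f p - g (qq p)) - (g (qq p) - (P (qq p)).re))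
        have h2 : (f p - (P (qq p)).re) ^ 2 = 2 * (f p - g (qq p)) ^ 2 +
            2 * (g (qq p) - (P (qq p)).re) ^ 2 -
            ((f p - g (qq p)) - (g (qq p) - (P (qq p)).re)) ^ 2 := by ring
        show (f p - (P (qq p)).re) ^ 2 ≤ 2 * (f p - g (qq p)) ^ 2 + 2 * (ε / 4)
        linarith
    _ = 2 * avg (fun p => (f p - g (qq p)) ^ 2) + 2 * (ε / 4) := by
        rw [avg_add hi2 hi3, avg_mul, avg_const]
    _ ≤ ε := by linarith

/-- MODULE F. Helmholtz decomposition in `L²` of the torus: bounded measurable periodic vector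
fields `(f, g)` are approximated in mean square by `constant + ∇a + R∇b`, `R∇b = (-b_y, b_x)`. -/
theorem helmholtz {f g : ℝ × ℝ → ℝ} (hf : BMP f) (hg : BMP g) {δ : ℝ} (hδ : 0 < δ) :
    ∃ (c d : ℝ) (a b : ℝ × ℝ → ℝ), IsPot a ∧ IsPot b ∧
      avg (fun p => (f p - c - dX a p + dY b p) ^ 2 + (g p - d - dY a p - dX b p) ^ 2) ≤ δ := by
  obtain ⟨P, hP, hfP⟩ := F2_dens hf (show 0 < δ / 2 by linarith)
  obtain ⟨Q, hQ, hgQ⟩ := F2_dens hg (show 0 < δ / 2 by linarith)
  obtain ⟨c, d, a, b, ha, hb, hab⟩ := (F2_good hP 1 1 0).add (F2_good hQ 1 0 1)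
  refine ⟨c, d, a, b, ha, hb, ?_⟩
  have e : (fun p => (f p - c - dX a p + dY b p) ^ 2 + (g p - d - dY a p - dX b p) ^ 2) =
      fun p => (f p - (P (qq p)).re) ^ 2 + (g p - (Q (qq p)).re) ^ 2 := by
    ext p
    obtain ⟨h1, h2⟩ := hab p
    simp only [one_mul, zero_mul, add_zero, zero_add] at h1 h2
    have e1 : f p - c - dX a p + dY b p = f p - (P (qq p)).re := by rw [h1]; ring
    have e2 : g p - d - dY a p - dX b p = g p - (Q (qq p)).re := by rw [h2]; ring
    rw [e1, e2]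
  have hint : ∀ {f : ℝ × ℝ → ℝ} (_ : BMP f) (P : C(UnitAddTorus (Fin 2), ℂ)),
      IntegrableOn (fun p => (f p - (P (qq p)).re) ^ 2) cell := by
    intro f hf P
    obtain ⟨hm, ⟨C, hC⟩, _⟩ := hf
    have hPm : Measurable (fun p => (P (qq p)).re) :=
      (Complex.continuous_re.comp (P.continuous.comp qq_cont)).measurable
    have hPb : ∀ p, |(P (qq p)).re| ≤ ‖P‖ := fun p =>
      (Complex.abs_re_le_norm _).trans (P.norm_coe_le_norm (qq p))
    refine F2_int ((hm.sub hPm).pow_const 2) (C := (C + ‖P‖) ^ 2) (fun p => ?_)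
    rw [abs_of_nonneg (sq_nonneg _), ← sq_abs]
    exact pow_le_pow_left₀ (abs_nonneg _) ((abs_sub _ _).trans (add_le_add (hC p) (hPb p))) 2
  rw [e, avg_add (hint hf P) (hint hg Q)]
  linarith

end Pool.Agent.Lib.MP_2a9317_an.N1
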