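import Pool.Agent.Lib.MP_2a9317_an.N1.B3
import Pool.Agent.Lib.MP_2a9317_an.T2.Main

set_option autoImplicit false

namespace Pool.Agent.Lib.MP_2a9317_an.N1

open Matrix

/-- Every effective tensor of a two-phase composite (one potential) is the tensor of a
multiple-rank laminate. -/
theorem linEffective_laminate (L : Fin 2 → Matrix (Ent 1) (Ent 1) ℝ) (hL : ∀ j, (L j).PosDef)
    {χ : ℝ × ℝ → Fin 2} (hχ : IsPartition χ) {M : Matrix (Ent 1) (Ent 1) ℝ}
    (hM : LinEffective L χ M) : LinLaminate L M := by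
  obtain ⟨hs, hE⟩ := (linEffective_iff L hL hχ M).1 hM
  exact (linLaminate_iff L hL M).2 ⟨hs, eff_lam _ (fun j => ell_phL (hL j)) hχ hE⟩

/-- The same for the affine problem. -/
theorem affEffective_laminate (K : Fin 2 → Mt) (hK : ∀ j, (K j).PosDef)
    {χ : ℝ × ℝ → Fin 2} (hχ : IsPartition χ) {M : Mt} (hM : AffEffective K χ M) :
    AffLaminate K M := by
  obtain ⟨hs, hE⟩ := (affEffective_iff K hK hχ M).1 hM
  exact (affLaminate_iff K hK M).2 ⟨hs, eff_lam _ (fun j => ell_of_posDef (hK j)) hχ hE⟩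

theorem nL_two : nL 2 = 2 := by
  apply le_antisymm (T2.nL_le_two' 2 le_rfl)
  apply le_sInf
  rintro m ⟨n, rfl, h1, L, hL, hne⟩
  rcases Nat.lt_or_ge n 2 with h | h
  · have h' : n = 1 := by omega
    subst h'
    exact absurd (linG_one_two L hL) hne
  · exact_mod_cast h

theorem nK_two : nK 2 = 2 := by
  apply le_antisymm (T2.nK_le_two' 2 le_rfl)
  apply le_sInf
  rintro m ⟨n, rfl, h1, K, hK, hne⟩
  rcases Nat.lt_or_ge n 2 with h | h
  · have h' : n = 1 := by omega
    subst h'
    exact absurd (affG_one_two K hK) hne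
  · exact_mod_cast h

end Pool.Agent.Lib.MP_2a9317_an.N1
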