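import Pool.Agent.Lib.MP_2a9317_an.N1.Bm
import Pool.Agent.Lib.MP_2a9317_an.N1.F1
import Pool.Agent.Lib.MP_2a9317_an.N1.F2

set_option autoImplicit false

namespace Pool.Agent.Lib.MP_2a9317_an.N1

open MeasureTheory Filter Topology
open scoped ContDiff
/-- S4a (done). -/
theorem dual_ell {K : Ph} (hK : Ell K) : Ell (dual K) := by
  obtain ⟨ha, hd⟩ := hK
  have hd' := hd.ne'
  refine ⟨?_, ?_⟩
  · show 0 < K 0 / Dt K
    positivity
  · have : Dt (dual K) = 1 / Dt K := by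
      have e : Dt (dual K) = (K 0 / Dt K) * (K 2 / Dt K) - (K 1 / Dt K) ^ 2 := rfl
      rw [e]
      have h2 : Dt K = K 0 * K 2 - K 1 ^ 2 := rfl
      field_simp
      exact h2.symm
    rw [this]; positivity

/-- S4b (done). The Fenchel gap: with `P = R G = (-h, g)` and `J = L (x, y) + V`,
`W_K (x, y) + W_{dual K} (G) - 2 P·(x, y) = (P - J)·L⁻¹ (P - J)`. -/
theorem fenchel {K : Ph} (hK : Ell K) (x y g h : ℝ) :
    W K x y + W (dual K) g h - 2 * (g * y - h * x)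
      = (K 2 * (-h - FX K x y) ^ 2 - 2 * K 1 * (-h - FX K x y) * (g - FY K x y)
        + K 0 * (g - FY K x y) ^ 2) / Dt K := by
  have hd := hK.2.ne'
  have e : W (dual K) g h = (K 0 / Dt K) * g ^ 2 + 2 * (K 1 / Dt K) * g * h + (K 2 / Dt K) * h ^ 2
    + 2 * ((K 1 * K 3 - K 0 * K 4) / Dt K) * g + 2 * ((K 2 * K 3 - K 1 * K 4) / Dt K) * h
    + ((K 2 * K 3 ^ 2 - 2 * K 1 * K 3 * K 4 + K 0 * K 4 ^ 2) / Dt K - K 5) := rfl
  rw [e]
  unfold W FX FY
  field_simp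
  have h2 : Dt K = K 0 * K 2 - K 1 ^ 2 := rfl
  rw [h2]
  ring

end Pool.Agent.Lib.MP_2a9317_an.N1
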