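import Pool.Agent.Lib.MP_2a9317_an.N1.Bm

set_option autoImplicit false

namespace Pool.Agent.Lib.MP_2a9317_an.N1

open MeasureTheory Filter Topology
open scoped ContDiff




lemma En_line {k : ℕ} (K : Fin k → Ph) {χ : ℝ × ℝ → Fin k} (hχ : Measurable χ) (x y : ℝ)
    {u : ℝ × ℝ → ℝ} (hu : IsPot u) (x' y' : ℝ) {φ : ℝ × ℝ → ℝ} (hφ : IsPot φ) (t : ℝ) :
    En K χ (x + t * x') (y + t * y') (fun p => u p + t * φ p) =
      En K χ x y u + 2 * t * avg (fun p =>
        FX (K (χ p)) (x + dX u p) (y + dY u p) * (x' + dX φ p)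
        + FY (K (χ p)) (x + dX u p) (y + dY u p) * (y' + dY φ p))
      + t ^ 2 * avg (fun p => Q (K (χ p)) (x' + dX φ p) (y' + dY φ p)) := by
  have bX : BM (fun p => x + dX u p) := (BM.const x).add (bm_dX hu)
  have bY : BM (fun p => y + dY u p) := (BM.const y).add (bm_dY hu)
  have bX' : BM (fun p => x' + dX φ p) := (BM.const x').add (bm_dX hφ)
  have bY' : BM (fun p => y' + dY φ p) := (BM.const y').add (bm_dY hφ)
  have b1 : BM (fun p => W (K (χ p)) (x + dX u p) (y + dY u p)) := BM.W K hχ bX bY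
  have b2 : BM (fun p => FX (K (χ p)) (x + dX u p) (y + dY u p) * (x' + dX φ p)
        + FY (K (χ p)) (x + dX u p) (y + dY u p) * (y' + dY φ p)) :=
    ((BM.FX K hχ bX bY).mul bX').add ((BM.FY K hχ bX bY).mul bY')
  have b3 : BM (fun p => Q (K (χ p)) (x' + dX φ p) (y' + dY φ p)) := BM.Q K hχ bX' bY'
  have h : (fun p => W (K (χ p)) ((x + t * x') + dX (fun p => u p + t * φ p) p)
        ((y + t * y') + dY (fun p => u p + t * φ p) p)) =
      fun p => (W (K (χ p)) (x + dX u p) (y + dY u p) +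
        (2 * t) * (FX (K (χ p)) (x + dX u p) (y + dY u p) * (x' + dX φ p)
        + FY (K (χ p)) (x + dX u p) (y + dY u p) * (y' + dY φ p))) +
        t ^ 2 * Q (K (χ p)) (x' + dX φ p) (y' + dY φ p) := by
    funext p
    rw [dX_add hu (hφ.smul t), dX_smul t hφ, dY_add hu (hφ.smul t), dY_smul t hφ]
    have e1 : x + t * x' + (dX u p + t * dX φ p) = (x + dX u p) + t * (x' + dX φ p) := by ring
    have e2 : y + t * y' + (dY u p + t * dY φ p) = (y + dY u p) + t * (y' + dY φ p) := by ring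
    rw [e1, e2, W_add, Q_smul]
    ring
  unfold En
  rw [h, avg_add' (b1.add (b2.const_mul _)) (b3.const_mul _), avg_add' b1 (b2.const_mul _),
    avg_mul', avg_mul']

/-- S1. Near minimizers. -/
theorem near_min {k : ℕ} (K : Fin k → Ph) {χ : ℝ × ℝ → Fin k} (hχ : IsPartition χ) {M : Ph}
    (hM : Eff K χ M) {x y ε : ℝ} {u : ℝ × ℝ → ℝ} (hu : IsPot u)
    (hle : En K χ x y u ≤ W M x y + ε) (x' y' : ℝ) {φ : ℝ × ℝ → ℝ} (hφ : IsPot φ) :
    (avg (fun p => FX (K (χ p)) (x + dX u p) (y + dY u p) * (x' + dX φ p)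
        + FY (K (χ p)) (x + dX u p) (y + dY u p) * (y' + dY φ p))
      - (FX M x y * x' + FY M x y * y')) ^ 2
      ≤ ε * (avg (fun p => Q (K (χ p)) (x' + dX φ p) (y' + dY φ p)) - Q M x' y') := by
  apply sq_le_of_quad
  intro t
  have h1 := (hM (x + t * x') (y + t * y')).1 (fun p => u p + t * φ p) (hu.add (hφ.smul t))
  rw [En_line K hχ.1 x y hu x' y' hφ t, W_add, Q_smul] at h1
  nlinarith

end Pool.Agent.Lib.MP_2a9317_an.N1
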