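import Pool.Agent.Lib.MP_2a9317_an.N1.Bm
import Pool.Agent.Lib.MP_2a9317_an.N1.F1
import Pool.Agent.Lib.MP_2a9317_an.N1.F2

set_option autoImplicit false

namespace Pool.Agent.Lib.MP_2a9317_an.N1

open MeasureTheory Filter Topology
open scoped ContDiff




lemma S2_three (x y z : ℝ) : (x + y + z) ^ 2 ≤ 3 * (x ^ 2 + y ^ 2 + z ^ 2) := by
  nlinarith [sq_nonneg (x - y), sq_nonneg (y - z), sq_nonneg (x - z)]

lemma S2_mean {r : ℝ × ℝ → ℝ} (hr : BM r) : avg r ^ 2 ≤ avg (fun p => r p ^ 2) := by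
  have h := avg_cs hr (BM.const 1)
  have e1 : (fun p => r p * (fun _ : ℝ × ℝ => (1 : ℝ)) p) = r := by ext p; simp
  have e2 : avg (fun p => (fun _ : ℝ × ℝ => (1 : ℝ)) p ^ 2) = 1 := by
    have : (fun p => (fun _ : ℝ × ℝ => (1 : ℝ)) p ^ 2) = fun _ => (1 : ℝ) := by ext p; simp
    rw [this, avg_const]
  rw [e1, e2, mul_one] at h
  exact h

theorem stream {f g : ℝ × ℝ → ℝ} (hf : BMP f) (hg : BMP g) {ε : ℝ} (hε : 0 ≤ ε)
    (h : ∀ φ, IsPot φ → avg (fun p => f p * dX φ p + g p * dY φ p) ^ 2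
      ≤ ε * avg (fun p => dX φ p ^ 2 + dY φ p ^ 2)) {δ : ℝ} (hδ : 0 < δ) :
    ∃ b, IsPot b ∧
      avg (fun p => (f p - avg f + dY b p) ^ 2 + (g p - avg g - dX b p) ^ 2) ≤ 6 * ε + δ := by
  obtain ⟨c, d, a, b, ha, hb, hr⟩ := helmholtz hf hg (show 0 < δ / 12 by linarith)
  refine ⟨b, hb, ?_⟩
  have hf1 := hf.bm
  have hg1 := hg.bm
  have hax := bm_dX ha
  have hay := bm_dY ha
  have hbx := bm_dX hb
  have hby := bm_dY hb
  obtain ⟨r1, hr1⟩ : ∃ r : ℝ × ℝ → ℝ, r = fun p => f p - c - dX a p + dY b p := ⟨_, rfl⟩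
  obtain ⟨r2, hr2⟩ : ∃ r : ℝ × ℝ → ℝ, r = fun p => g p - d - dY a p - dX b p := ⟨_, rfl⟩
  have br1 : BM r1 := by rw [hr1]; exact ((hf1.sub (BM.const c)).sub hax).add hby
  have br2 : BM r2 := by rw [hr2]; exact ((hg1.sub (BM.const d)).sub hay).sub hbx
  have er1 : ∀ p, f p = c + dX a p - dY b p + r1 p := by
    intro p; rw [hr1]; ring
  have er2 : ∀ p, g p = d + dY a p + dX b p + r2 p := by
    intro p; rw [hr2]; ring
  have hr' : avg (fun p => r1 p ^ 2 + r2 p ^ 2) ≤ δ / 12 := by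
    rw [hr1, hr2]; exact hr
  -- averages
  have m1 : avg f = c + avg r1 := by
    have e : f = fun p => ((fun _ => c) p + dX a p) - dY b p + r1 p := by
      ext p; exact er1 p
    rw [e, avg_add' (((BM.const c).add hax).sub hby) br1,
      avg_sub' ((BM.const c).add hax) hby, avg_add' (BM.const c) hax, avg_const, avg_dX ha,
      avg_dY hb]
    ring
  have m2 : avg g = d + avg r2 := by
    have e : g = fun p => ((fun _ => d) p + dY a p) + dX b p + r2 p := by
      ext p; exact er2 p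
    rw [e, avg_add' (((BM.const d).add hay).add hbx) br2,
      avg_add' ((BM.const d).add hay) hbx, avg_add' (BM.const d) hay, avg_const, avg_dX hb,
      avg_dY ha]
    ring
  obtain ⟨A, hA⟩ : ∃ A, A = avg (fun p => dX a p ^ 2 + dY a p ^ 2) := ⟨_, rfl⟩
  have hA0 : 0 ≤ A := by
    rw [hA]; exact avg_nonneg (fun p => by positivity)
  have bA : BM (fun p => dX a p ^ 2 + dY a p ^ 2) := hax.sq.add hay.sq
  have bS : BM (fun p => r1 p * dX a p + r2 p * dY a p) := (br1.mul hax).add (br2.mul hay)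
  have hS := avg_cs2 br1 br2 hax hay
  rw [← hA] at hS
  obtain ⟨S, hSdef⟩ : ∃ S, S = avg (fun p => r1 p * dX a p + r2 p * dY a p) := ⟨_, rfl⟩
  rw [← hSdef] at hS
  have hP := h a ha
  rw [← hA] at hP
  have eP : avg (fun p => f p * dX a p + g p * dY a p) = A + S := by
    have e : (fun p => f p * dX a p + g p * dY a p) = fun p =>
        ((dX a p ^ 2 + dY a p ^ 2) + (r1 p * dX a p + r2 p * dY a p)) +
          ((c * dX a p + d * dY a p) + (dX b p * dY a p - dY b p * dX a p)) := by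
      ext p
      have h1 := er1 p
      have h2 := er2 p
      calc f p * dX a p + g p * dY a p
          = (c + dX a p - dY b p + r1 p) * dX a p + (d + dY a p + dX b p + r2 p) * dY a p := by
            rw [← h1, ← h2]
        _ = _ := by ring
    have bj : BM (fun p => dX b p * dY a p - dY b p * dX a p) := (hbx.mul hay).sub (hby.mul hax)
    have bl : BM (fun p => c * dX a p + d * dY a p) := (hax.const_mul c).add (hay.const_mul d)
    rw [e, avg_add' (bA.add bS) (bl.add bj), avg_add' bA bS, avg_add' bl bj,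
      avg_add' (hax.const_mul c) (hay.const_mul d), avg_mul', avg_mul', avg_dX ha, avg_dY ha,
      avg_jac hb ha, ← hA, ← hSdef]
    ring
  rw [eP] at hP
  have hA1 : A ≤ 2 * (ε + δ / 12) := by
    have hS2 : S ^ 2 ≤ δ / 12 * A := hS.trans (mul_le_mul_of_nonneg_right hr' hA0)
    have h1 : A ^ 2 ≤ 2 * (ε + δ / 12) * A := by
      nlinarith [sq_nonneg (A + 2 * S)]
    rcases hA0.lt_or_eq with hpos | h0
    · have h2 : A * A ≤ 2 * (ε + δ / 12) * A := by rw [← sq]; exact h1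
      exact le_of_mul_le_mul_right h2 hpos
    · rw [← h0]; positivity
  have q1 := S2_mean br1
  have q2 := S2_mean br2
  have hsum : avg (fun p => r1 p ^ 2 + r2 p ^ 2) = avg (fun p => r1 p ^ 2) +
      avg (fun p => r2 p ^ 2) := avg_add' br1.sq br2.sq
  have hpt : ∀ p, (f p - avg f + dY b p) ^ 2 + (g p - avg g - dX b p) ^ 2 ≤
      3 * ((r1 p ^ 2 + r2 p ^ 2) + (dX a p ^ 2 + dY a p ^ 2)) +
        3 * (avg r1 ^ 2 + avg r2 ^ 2) := by
    intro p
    have e1 : f p - avg f + dY b p = r1 p + dX a p + (- avg r1) := by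
      rw [m1, er1 p]; ring
    have e2 : g p - avg g - dX b p = r2 p + dY a p + (- avg r2) := by
      rw [m2, er2 p]; ring
    rw [e1, e2]
    have t1 := S2_three (r1 p) (dX a p) (- avg r1)
    have t2 := S2_three (r2 p) (dY a p) (- avg r2)
    nlinarith
  have bL : BM (fun p => (f p - avg f + dY b p) ^ 2 + (g p - avg g - dX b p) ^ 2) :=
    ((hf1.sub (BM.const _)).add hby).sq.add ((hg1.sub (BM.const _)).sub hbx).sq
  have bR : BM (fun p => (r1 p ^ 2 + r2 p ^ 2) + (dX a p ^ 2 + dY a p ^ 2)) :=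
    (br1.sq.add br2.sq).add bA
  refine (avg_mono' bL ((bR.const_mul 3).add (BM.const _)) hpt).trans ?_
  rw [avg_add' (bR.const_mul 3) (BM.const _), avg_mul', avg_add' (br1.sq.add br2.sq) bA,
    avg_const, ← hA]
  linarith

end Pool.Agent.Lib.MP_2a9317_an.N1
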