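import Pool.Agent.Lib.MP_2a9317_an.N1.Bm
import Pool.Agent.Lib.MP_2a9317_an.N1.F1

set_option autoImplicit false

namespace Pool.Agent.Lib.MP_2a9317_an.N1

open MeasureTheory Filter Topology
open scoped ContDiff


/-!
Module S3: effective tensors of elliptic phases are (uniformly) elliptic.
Uses `avg_dX`, `avg_dY` of F1.
-/



/-- adding a constant to a mean zero field does not decrease the mean square below the square of
the constant -/
lemma avg_sq_add_ge {f : ℝ × ℝ → ℝ} (hf : BM f) (h0 : avg f = 0) (x : ℝ) :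
    x ^ 2 ≤ avg (fun p => (x + f p) ^ 2) := by
  have h1 : (fun p => (x + f p) ^ 2) = fun p => (x ^ 2 + (2 * x) * f p) + f p ^ 2 := by
    ext p; ring
  rw [h1, avg_add' ((BM.const _).add (hf.const_mul _)) hf.sq,
    avg_add' (BM.const _) (hf.const_mul _), avg_mul', h0, avg_const]
  have := avg_nonneg (f := fun p => f p ^ 2) fun p => sq_nonneg _
  linarith

/-- coercivity of the energies, uniformly in the partition and the potential -/
lemma En_coercive {k : ℕ} (K : Fin k → Ph) {m C : ℝ} (hm : 0 < m)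
    (H : ∀ j x y, m * (x ^ 2 + y ^ 2) - C ≤ W (K j) x y) {χ : ℝ × ℝ → Fin k}
    (hχ : IsPartition χ) (x y : ℝ) {u : ℝ × ℝ → ℝ} (hu : IsPot u) :
    m * (x ^ 2 + y ^ 2) - C ≤ En K χ x y u := by
  have bx : BM (fun p => x + dX u p) := (BM.const x).add (bm_dX hu)
  have by' : BM (fun p => y + dY u p) := (BM.const y).add (bm_dY hu)
  have h1 : avg (fun p => m * ((x + dX u p) ^ 2 + (y + dY u p) ^ 2) + (-C)) ≤ En K χ x y u := by
    refine avg_mono' (((bx.sq.add by'.sq).const_mul m).add (BM.const _))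
      (BM.W K hχ.1 bx by') fun p => ?_
    have := H (χ p) (x + dX u p) (y + dY u p)
    linarith
  rw [avg_add' ((bx.sq.add by'.sq).const_mul m) (BM.const _), avg_mul', avg_add' bx.sq by'.sq,
    avg_const] at h1
  have h2 := avg_sq_add_ge (bm_dX hu) (avg_dX hu) x
  have h3 := avg_sq_add_ge (bm_dY hu) (avg_dY hu) y
  have h4 : m * (x ^ 2 + y ^ 2)
      ≤ m * (avg (fun p => (x + dX u p) ^ 2) + avg (fun p => (y + dY u p) ^ 2)) :=
    mul_le_mul_of_nonneg_left (add_le_add h2 h3) hm.le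
  linarith

/-- coercivity of the effective energies -/
lemma W_eff_coercive {k : ℕ} (K : Fin k → Ph) {m C : ℝ} (hm : 0 < m)
    (H : ∀ j x y, m * (x ^ 2 + y ^ 2) - C ≤ W (K j) x y) {χ : ℝ × ℝ → Fin k}
    (hχ : IsPartition χ) {M : Ph} (hM : Eff K χ M) (x y : ℝ) :
    m * (x ^ 2 + y ^ 2) - C ≤ W M x y := by
  refine le_of_forall_pos_le_add fun ε hε => ?_
  obtain ⟨u, hu, hle⟩ := (hM x y).2 ε hε
  exact (En_coercive K hm H hχ x y hu).trans hle

/-- a coercive energy has a coercive quadratic part -/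
lemma Q_ge_of_W_ge {M : Ph} {m C : ℝ} (H : ∀ x y, m * (x ^ 2 + y ^ 2) - C ≤ W M x y) (x y : ℝ) :
    m * (x ^ 2 + y ^ 2) ≤ Q M x y := by
  by_contra hcon
  push Not at hcon
  have hq : ∀ t : ℝ, 0 ≤ (M 5 + C) + 2 * (M 3 * x + M 4 * y) * t
      + (Q M x y - m * (x ^ 2 + y ^ 2)) * t ^ 2 := by
    intro t
    have := H (t * x) (t * y)
    unfold W at this
    unfold Q
    nlinarith
  have h1 := sq_le_of_quad hq
  have h2 := hq 0
  have h3 := hq 1
  have h4 := hq (-1)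
  have h5 : (M 5 + C) * (Q M x y - m * (x ^ 2 + y ^ 2)) ≤ 0 :=
    mul_nonpos_of_nonneg_of_nonpos (by linarith) (by linarith)
  have h6 : M 3 * x + M 4 * y = 0 := by
    have : (M 3 * x + M 4 * y) ^ 2 ≤ 0 := h1.trans h5
    nlinarith [sq_nonneg (M 3 * x + M 4 * y)]
  rw [h6] at h1
  have h7 : (M 5 + C) * (Q M x y - m * (x ^ 2 + y ^ 2)) = 0 :=
    le_antisymm h5 (by simpa using h1)
  rcases mul_eq_zero.1 h7 with h | h
  · rw [h, h6] at h3
    linarith
  · linarith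

/-- a coercive quadratic form is elliptic -/
lemma ell_of_Q_ge {M : Ph} {m : ℝ} (hm : 0 < m) (H : ∀ x y, m * (x ^ 2 + y ^ 2) ≤ Q M x y) :
    Ell M := by
  have h0 : 0 < M 0 := by
    have := H 1 0
    unfold Q at this
    linarith
  refine ⟨h0, ?_⟩
  have h1 := H (-M 1) (M 0)
  have e : Q M (-M 1) (M 0) = M 0 * Dt M := by unfold Q Dt; ring
  rw [e] at h1
  have h2 : 0 < M 0 * Dt M := lt_of_lt_of_le (by positivity) h1
  exact (pos_iff_pos_of_mul_pos h2).1 h0

/-- S3. Effective tensors of elliptic phases are elliptic: `W_M ≥ m |F|² - C` by `W_coercive` and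
`avg |F + ∇u|² = |F|² + avg |∇u|²`. -/
theorem ell_of_eff {k : ℕ} (K : Fin k → Ph) (hK : ∀ j, Ell (K j)) {χ : ℝ × ℝ → Fin k}
    (hχ : IsPartition χ) {M : Ph} (hM : Eff K χ M) : Ell M := by
  obtain ⟨m, C, hm, H⟩ := W_coercive K hK
  exact ell_of_Q_ge hm (Q_ge_of_W_ge (W_eff_coercive K hm H hχ hM))

/-- the G-closure -/
def GE {k : ℕ} (K : Fin k → Ph) : Set Ph := closure {M | ∃ χ, IsPartition χ ∧ Eff K χ M}

/-- uniform ellipticity on the G-closure -/
lemma unif_ell_GE {k : ℕ} (K : Fin k → Ph) (hK : ∀ j, Ell (K j)) :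
    ∃ m : ℝ, 0 < m ∧ ∀ M ∈ GE K, ∀ x y, m * (x ^ 2 + y ^ 2) ≤ Q M x y := by
  obtain ⟨m, C, hm, H⟩ := W_coercive K hK
  refine ⟨m, hm, fun M hM x y => ?_⟩
  have hc : IsClosed {M : Ph | m * (x ^ 2 + y ^ 2) ≤ Q M x y} := by
    refine isClosed_le continuous_const ?_
    unfold Q
    fun_prop
  refine closure_minimal ?_ hc hM
  rintro N ⟨χ, hχ, hN⟩
  exact Q_ge_of_W_ge (W_eff_coercive K hm H hχ hN) x y

/-- C5a. uniform ellipticity on the closure: `∃ m > 0, ∀ M ∈ GE K, m |F|² ≤ Q M F`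
(`Q_M F = lim W_M (t F) / t²`, `W_coercive`, `avg |F + ∇u|² ≥ |F|²`; closed condition). -/
theorem ell_of_mem_GE {k : ℕ} (K : Fin k → Ph) (hK : ∀ j, Ell (K j)) {M : Ph} (hM : M ∈ GE K) :
    Ell M := by
  obtain ⟨m, hm, H⟩ := unif_ell_GE K hK
  exact ell_of_Q_ge hm (H M hM)

end Pool.Agent.Lib.MP_2a9317_an.N1
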