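import Pool.Agent.Lib.MP_2a9317_an.N1.S0
import Pool.Agent.Lib.MP_2a9317_an.N1.S1
import Pool.Agent.Lib.MP_2a9317_an.N1.S2
import Pool.Agent.Lib.MP_2a9317_an.N1.S3

set_option autoImplicit false

namespace Pool.Agent.Lib.MP_2a9317_an.N1

open MeasureTheory Filter Topology
open scoped ContDiff




/-- the Fenchel gap -/
lemma s5_fenchelQ {K : Ph} (hK : Ell K) (x y g h : ℝ) :
    W K x y + W (dual K) g h - 2 * (g * y - h * x)
      = Q (dual K) (g - FY K x y) (h + FX K x y) := by
  rw [fenchel hK]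
  have e : Q (dual K) (g - FY K x y) (h + FX K x y)
      = (K 0 / Dt K) * (g - FY K x y) ^ 2 + 2 * (K 1 / Dt K) * (g - FY K x y) * (h + FX K x y)
        + (K 2 / Dt K) * (h + FX K x y) ^ 2 := rfl
  rw [e]
  have hd := hK.2.ne'
  field_simp
  ring

/-- average of the coupling term -/
lemma s5_coupling {u v : ℝ × ℝ → ℝ} (hu : IsPot u) (hv : IsPot v) (x y g h : ℝ) :
    avg (fun p => 2 * ((g + dX v p) * (y + dY u p) - (h + dY v p) * (x + dX u p)))
      = 2 * (g * y - h * x) := by
  have uX := bm_dX hu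
  have uY := bm_dY hu
  have vX := bm_dX hv
  have vY := bm_dY hv
  have e : (fun p => 2 * ((g + dX v p) * (y + dY u p) - (h + dY v p) * (x + dX u p)))
      = fun p => (2 * (g * y - h * x)) + (2 * g * dY u p + (-(2 * h) * dX u p
        + (2 * y * dX v p + (-(2 * x) * dY v p
          + 2 * (dX v p * dY u p - dY v p * dX u p))))) := by
    ext p; ring
  have b5 : BM (fun p => 2 * (dX v p * dY u p - dY v p * dX u p)) :=
    ((vX.mul uY).sub (vY.mul uX)).const_mul 2
  have b4 : BM (fun p => -(2 * x) * dY v p + 2 * (dX v p * dY u p - dY v p * dX u p)) :=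
    (vY.const_mul _).add b5
  have b3 : BM (fun p => 2 * y * dX v p + (-(2 * x) * dY v p
      + 2 * (dX v p * dY u p - dY v p * dX u p))) := (vX.const_mul _).add b4
  have b2 : BM (fun p => -(2 * h) * dX u p + (2 * y * dX v p + (-(2 * x) * dY v p
      + 2 * (dX v p * dY u p - dY v p * dX u p)))) := (uX.const_mul _).add b3
  have b1 : BM (fun p => 2 * g * dY u p + (-(2 * h) * dX u p + (2 * y * dX v p
      + (-(2 * x) * dY v p + 2 * (dX v p * dY u p - dY v p * dX u p))))) :=
    (uY.const_mul _).add b2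
  rw [e, avg_add' (BM.const _) b1, avg_add' (uY.const_mul _) b2, avg_add' (uX.const_mul _) b3,
    avg_add' (vX.const_mul _) b4, avg_add' (vY.const_mul _) b5]
  simp only [avg_mul']
  have hux : avg (fun p => dX u p) = 0 := avg_dX hu
  have huy : avg (fun p => dY u p) = 0 := avg_dY hu
  have hvx : avg (fun p => dX v p) = 0 := avg_dX hv
  have hvy : avg (fun p => dY v p) = 0 := avg_dY hv
  have hj := avg_jac hv hu
  have hc : avg (fun _ : ℝ × ℝ => g * y - h * x) = g * y - h * x := by
    have := avg_const (g * y - h * x); simpa using this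
  rw [hux, huy, hvx, hvy, hj, hc]
  ring

/-- the exact duality identity -/
lemma s5_identity {k : ℕ} (K : Fin k → Ph) (hK : ∀ j, Ell (K j)) {χ : ℝ × ℝ → Fin k}
    (hχ : IsPartition χ) {u v : ℝ × ℝ → ℝ} (hu : IsPot u) (hv : IsPot v) (x y g h : ℝ) :
    En K χ x y u + En (fun j => dual (K j)) χ g h v
      = 2 * (g * y - h * x)
        + avg (fun p => Q (dual (K (χ p)))
          (g + dX v p - FY (K (χ p)) (x + dX u p) (y + dY u p))
          (h + dY v p + FX (K (χ p)) (x + dX u p) (y + dY u p))) := by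
  have bX : BM (fun p => x + dX u p) := (BM.const x).add (bm_dX hu)
  have bY : BM (fun p => y + dY u p) := (BM.const y).add (bm_dY hu)
  have bG : BM (fun p => g + dX v p) := (BM.const g).add (bm_dX hv)
  have bH : BM (fun p => h + dY v p) := (BM.const h).add (bm_dY hv)
  have bW1 : BM (fun p => W (K (χ p)) (x + dX u p) (y + dY u p)) := BM.W K hχ.1 bX bY
  have bW2 : BM (fun p => W (dual (K (χ p))) (g + dX v p) (h + dY v p)) :=
    BM.W (fun j => dual (K j)) hχ.1 bG bH
  have bFX := BM.FX K hχ.1 bX bY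
  have bFY := BM.FY K hχ.1 bX bY
  have bQ : BM (fun p => Q (dual (K (χ p)))
      (g + dX v p - FY (K (χ p)) (x + dX u p) (y + dY u p))
      (h + dY v p + FX (K (χ p)) (x + dX u p) (y + dY u p))) :=
    BM.Q (fun j => dual (K j)) hχ.1 (bG.sub bFY) (bH.add bFX)
  have bC : BM (fun p => 2 * ((g + dX v p) * (y + dY u p) - (h + dY v p) * (x + dX u p))) :=
    ((bG.mul bY).sub (bH.mul bX)).const_mul 2
  have e : (fun p => W (K (χ p)) (x + dX u p) (y + dY u p)
        + W (dual (K (χ p))) (g + dX v p) (h + dY v p))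
      = fun p => 2 * ((g + dX v p) * (y + dY u p) - (h + dY v p) * (x + dX u p))
        + Q (dual (K (χ p)))
          (g + dX v p - FY (K (χ p)) (x + dX u p) (y + dY u p))
          (h + dY v p + FX (K (χ p)) (x + dX u p) (y + dY u p)) := by
    ext p
    rw [← s5_fenchelQ (hK (χ p))]
    ring
  have h1 : En K χ x y u + En (fun j => dual (K j)) χ g h v
      = avg (fun p => W (K (χ p)) (x + dX u p) (y + dY u p)
        + W (dual (K (χ p))) (g + dX v p) (h + dY v p)) := (avg_add' bW1 bW2).symm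
  rw [h1, e, avg_add' bC bQ, s5_coupling hu hv]

/-- the dual load -/
lemma s5_load {M : Ph} (hM : Ell M) (g h : ℝ) : ∃ x y : ℝ, FX M x y = -h ∧ FY M x y = g := by
  have hd : Dt M ≠ 0 := hM.2.ne'
  have hD : Dt M = M 0 * M 2 - M 1 ^ 2 := rfl
  refine ⟨(M 2 * (-h - M 3) - M 1 * (g - M 4)) / Dt M,
    (M 0 * (g - M 4) - M 1 * (-h - M 3)) / Dt M, ?_, ?_⟩
  · unfold FX
    field_simp
    rw [hD]; ring
  · unfold FY
    field_simp
    rw [hD]; ring

theorem eff_dual {k : ℕ} (K : Fin k → Ph) (hK : ∀ j, Ell (K j)) {χ : ℝ × ℝ → Fin k}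
    (hχ : IsPartition χ) {M : Ph} (hM : Eff K χ M) :
    Eff (fun j => dual (K j)) χ (dual M) := by
  have hMe : Ell M := ell_of_eff K hK hχ hM
  have hKd : ∀ j, Ell (dual (K j)) := fun j => dual_ell (hK j)
  intro g h
  obtain ⟨x, y, hx, hy⟩ := s5_load hMe g h
  have hfen : W M x y + W (dual M) g h = 2 * (g * y - h * x) := by
    have h1 := s5_fenchelQ hMe x y g h
    rw [hx, hy] at h1
    have h2 : Q (dual M) (g - g) (h + -h) = 0 := by
      unfold Q; simp
    rw [h2] at h1
    linarith
  constructor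
  · intro v hv
    apply le_of_forall_pos_le_add
    intro ε hε
    obtain ⟨u, hu, hle⟩ := (hM x y).2 ε hε
    have h1 := s5_identity K hK hχ hu hv x y g h
    have h2 : 0 ≤ avg (fun p => Q (dual (K (χ p)))
          (g + dX v p - FY (K (χ p)) (x + dX u p) (y + dY u p))
          (h + dY v p + FX (K (χ p)) (x + dX u p) (y + dY u p))) :=
      avg_nonneg fun p => Q_nonneg (hKd _) _ _
    linarith
  · intro η hη
    obtain ⟨m1, C, hm1, hC, HC⟩ := unif_ell K hK
    obtain ⟨m2, D, hm2, hD, HD⟩ := unif_ell (fun j => dual (K j)) hKd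
    set ε : ℝ := η / (D * (16 * C + 2)) with hεdef
    have hden : 0 < D * (16 * C + 2) := by positivity
    have hε : 0 < ε := by positivity
    obtain ⟨u, hu, hle⟩ := (hM x y).2 ε hε
    have bX : BM (fun p => x + dX u p) := (BM.const x).add (bm_dX hu)
    have bY : BM (fun p => y + dY u p) := (BM.const y).add (bm_dY hu)
    have bFX := BM.FX K hχ.1 bX bY
    have bFY := BM.FY K hχ.1 bX bY
    set f : ℝ × ℝ → ℝ := fun p => FX (K (χ p)) (x + dX u p) (y + dY u p) with hf
    set f' : ℝ × ℝ → ℝ := fun p => FY (K (χ p)) (x + dX u p) (y + dY u p) with hf'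
    -- hypothesis of `stream`
    have hstr : ∀ φ, IsPot φ → avg (fun p => f p * dX φ p + f' p * dY φ p) ^ 2
        ≤ (ε * C) * avg (fun p => dX φ p ^ 2 + dY φ p ^ 2) := by
      intro φ hφ
      have h1 := near_min K hχ hM hu hle 0 0 hφ
      have e1 : (fun p => FX (K (χ p)) (x + dX u p) (y + dY u p) * (0 + dX φ p)
          + FY (K (χ p)) (x + dX u p) (y + dY u p) * (0 + dY φ p))
          = fun p => f p * dX φ p + f' p * dY φ p := by
        ext p; rw [zero_add, zero_add]
      have e2 : (fun p => Q (K (χ p)) (0 + dX φ p) (0 + dY φ p))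
          = fun p => Q (K (χ p)) (dX φ p) (dY φ p) := by
        ext p; rw [zero_add, zero_add]
      rw [e1, e2] at h1
      have e3 : Q M 0 0 = 0 := by unfold Q; simp
      rw [e3] at h1
      have h2 : avg (fun p => Q (K (χ p)) (dX φ p) (dY φ p))
          ≤ C * avg (fun p => dX φ p ^ 2 + dY φ p ^ 2) := by
        rw [← avg_mul']
        exact avg_mono' (BM.Q K hχ.1 (bm_dX hφ) (bm_dY hφ))
          (((bm_dX hφ).sq.add (bm_dY hφ).sq).const_mul C) fun p => (HC _ _ _).2
      have h3 : ε * (avg (fun p => Q (K (χ p)) (dX φ p) (dY φ p)) - 0)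
          ≤ ε * (C * avg (fun p => dX φ p ^ 2 + dY φ p ^ 2)) := by
        apply mul_le_mul_of_nonneg_left _ hε.le
        linarith
      have h4 : (avg (fun p => f p * dX φ p + f' p * dY φ p) - (FX M x y * 0 + FY M x y * 0))
          = avg (fun p => f p * dX φ p + f' p * dY φ p) := by ring
      rw [h4] at h1
      linarith
    -- the mean currents
    have hmean : ∀ x' y' : ℝ, ((avg f + h) * x' + (avg f' - g) * y') ^ 2
        ≤ ε * (C * (x' ^ 2 + y' ^ 2)) := by
      intro x' y'
      have h1 := near_min K hχ hM hu hle x' y' (IsPot.const 0)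
      simp only [dX_const, dY_const, add_zero] at h1
      have e1 : avg (fun p => FX (K (χ p)) (x + dX u p) (y + dY u p) * x'
          + FY (K (χ p)) (x + dX u p) (y + dY u p) * y') = avg f * x' + avg f' * y' := by
        rw [avg_add' (bFX.mul_const x') (bFY.mul_const y'), avg_mul_const', avg_mul_const']
      rw [e1, hx, hy] at h1
      have h2 : avg (fun p => Q (K (χ p)) x' y') ≤ C * (x' ^ 2 + y' ^ 2) := by
        have h3 := avg_mono' (BM.Q K hχ.1 (BM.const x') (BM.const y'))
          (BM.const (C * (x' ^ 2 + y' ^ 2))) fun p => (HC (χ p) x' y').2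
        have h4 : avg (fun _ : ℝ × ℝ => C * (x' ^ 2 + y' ^ 2)) = C * (x' ^ 2 + y' ^ 2) := by
          have := avg_const (C * (x' ^ 2 + y' ^ 2)); simpa using this
        rw [h4] at h3
        exact h3
      have h5 := Q_nonneg hMe x' y'
      have h6 : ε * (avg (fun p => Q (K (χ p)) x' y') - Q M x' y')
          ≤ ε * (C * (x' ^ 2 + y' ^ 2)) := by
        apply mul_le_mul_of_nonneg_left _ hε.le
        linarith
      have h7 : avg f * x' + avg f' * y' - (-h * x' + g * y')
          = (avg f + h) * x' + (avg f' - g) * y' := by ring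
      rw [h7] at h1
      linarith
    have hm1' : (avg f + h) ^ 2 ≤ ε * C := by
      have := hmean 1 0
      simpa using this
    have hm2' : (avg f' - g) ^ 2 ≤ ε * C := by
      have := hmean 0 1
      simpa using this
    have hper : ∀ a b : ℝ, (χ (a + 1, b) = χ (a, b) ∧ dX u (a + 1, b) = dX u (a, b)
        ∧ dY u (a + 1, b) = dY u (a, b)) ∧ (χ (a, b + 1) = χ (a, b)
        ∧ dX u (a, b + 1) = dX u (a, b) ∧ dY u (a, b + 1) = dY u (a, b)) := fun a b =>
      ⟨⟨(hχ.2 a b).1, (dX_per hu a b).1, (dY_per hu a b).1⟩,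
        ⟨(hχ.2 a b).2, (dX_per hu a b).2, (dY_per hu a b).2⟩⟩
    have pf : Per f := by
      intro a b
      obtain ⟨⟨h1, h2, h3⟩, ⟨h4, h5, h6⟩⟩ := hper a b
      simp only [hf, h1, h2, h3, h4, h5, h6, and_self]
    have pf' : Per f' := by
      intro a b
      obtain ⟨⟨h1, h2, h3⟩, ⟨h4, h5, h6⟩⟩ := hper a b
      simp only [hf', h1, h2, h3, h4, h5, h6, and_self]
    obtain ⟨b, hb, hbs⟩ := stream (ε := ε * C) (f := f) (g := f') ⟨bFX.1, bFX.2, pf⟩
      ⟨bFY.1, bFY.2, pf'⟩ (by positivity) hstr hε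
    refine ⟨b, hb, ?_⟩
    have hid := s5_identity K hK hχ hu hb x y g h
    -- the gap
    have bdX := bm_dX hb
    have bdY := bm_dY hb
    have bG : BM (fun p => g + dX b p) := (BM.const g).add bdX
    have bH : BM (fun p => h + dY b p) := (BM.const h).add bdY
    have bS1 : BM (fun p => (f p - avg f + dY b p) ^ 2 + (f' p - avg f' - dX b p) ^ 2) :=
      (((bFX.sub (BM.const _)).add bdY).sq).add (((bFY.sub (BM.const _)).sub bdX).sq)
    have hgap : avg (fun p => Q (dual (K (χ p)))
          (g + dX b p - FY (K (χ p)) (x + dX u p) (y + dY u p))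
          (h + dY b p + FX (K (χ p)) (x + dX u p) (y + dY u p)))
        ≤ D * (2 * (6 * (ε * C) + ε) + 2 * (ε * C + ε * C)) := by
      have bQ : BM (fun p => Q (dual (K (χ p)))
          (g + dX b p - FY (K (χ p)) (x + dX u p) (y + dY u p))
          (h + dY b p + FX (K (χ p)) (x + dX u p) (y + dY u p))) :=
        BM.Q (fun j => dual (K j)) hχ.1 (bG.sub bFY) (bH.add bFX)
      have h1 := avg_mono' bQ (((bS1.const_mul 2).add
        (BM.const (2 * ((avg f + h) ^ 2 + (avg f' - g) ^ 2)))).const_mul D) (fun p => by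
          refine ((HD (χ p) _ _).2).trans ?_
          apply mul_le_mul_of_nonneg_left _ hD.le
          have ef : FX (K (χ p)) (x + dX u p) (y + dY u p) = f p := rfl
          have ef' : FY (K (χ p)) (x + dX u p) (y + dY u p) = f' p := rfl
          rw [ef, ef']
          nlinarith [sq_nonneg ((f p - avg f + dY b p) - (avg f + h)),
            sq_nonneg ((f' p - avg f' - dX b p) - (avg f' - g))])
      rw [avg_mul', avg_add' (bS1.const_mul 2) (BM.const _), avg_mul'] at h1
      have h4 : avg (fun _ : ℝ × ℝ => 2 * ((avg f + h) ^ 2 + (avg f' - g) ^ 2))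
          = 2 * ((avg f + h) ^ 2 + (avg f' - g) ^ 2) := by
        have := avg_const (2 * ((avg f + h) ^ 2 + (avg f' - g) ^ 2)); simpa using this
      rw [h4] at h1
      refine h1.trans ?_
      apply mul_le_mul_of_nonneg_left _ hD.le
      linarith
    have hη' : D * (2 * (6 * (ε * C) + ε) + 2 * (ε * C + ε * C)) = η := by
      have : D * (2 * (6 * (ε * C) + ε) + 2 * (ε * C + ε * C)) = ε * (D * (16 * C + 2)) := by ring
      rw [this, hεdef]
      field_simp
    have hlow := (hM x y).1 u hu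
    linarith

end Pool.Agent.Lib.MP_2a9317_an.N1
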