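import Pool.Agent.Lib.MP_2a9317_an.N1.Base
import Pool.Agent.Lib.MP_2a9317_an.T2.Wv

set_option autoImplicit false

namespace Pool.Agent.Lib.MP_2a9317_an.N1

open MeasureTheory Filter Topology
open scoped ContDiff

/-- Layers with normal `(p, q)` filled by the composites `χ₁` (fraction `2 s`) and `χ₂` (fraction
`1 - 2 s`) on a scale that is `N` times finer. -/
noncomputable def layP {k : ℕ} (p q : ℤ) (s : ℝ) (N : ℕ) (χ₁ χ₂ : ℝ × ℝ → Fin k) :
    ℝ × ℝ → Fin k := fun z =>
  if T2.wv s (p * z.1 + q * z.2) = 1 then χ₁ (N * z.1, N * z.2) else χ₂ (N * z.1, N * z.2)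

lemma per_nat {f : ℝ → ℝ} (hf : ∀ x, f (x + 1) = f x) (n : ℕ) (x : ℝ) : f (x + n) = f x := by
  have h : Function.Periodic f 1 := hf
  simpa using h.nat_mul n x

lemma per_int {f : ℝ → ℝ} (hf : ∀ x, f (x + 1) = f x) (n : ℤ) (x : ℝ) : f (x + n) = f x := by
  have h : Function.Periodic f 1 := hf
  simpa using h.int_mul n x

lemma per_natα {α : Type} {f : ℝ → α} (hf : ∀ x, f (x + 1) = f x) (n : ℕ) (x : ℝ) :
    f (x + n) = f x := by
  have h : Function.Periodic f 1 := hf
  simpa using h.nat_mul n x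

theorem layP_partition {k : ℕ} (p q : ℤ) (s : ℝ) (N : ℕ) {χ₁ χ₂ : ℝ × ℝ → Fin k}
    (h₁ : IsPartition χ₁) (h₂ : IsPartition χ₂) : IsPartition (layP p q s N χ₁ χ₂) := by
  constructor
  · unfold layP
    refine Measurable.ite ?_ ?_ ?_
    · have h : Measurable fun z : ℝ × ℝ => T2.wv s (p * z.1 + q * z.2) :=
        (T2.measurable_wv s).comp (by fun_prop)
      exact h (measurableSet_singleton 1)
    · exact h₁.1.comp (by fun_prop)
    · exact h₂.1.comp (by fun_prop)
  · intro x y
    have hw1 : T2.wv s (p * (x + 1) + q * y) = T2.wv s (p * x + q * y) := by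
      have := per_int (T2.wv_per s) p (p * x + q * y)
      rw [← this]; congr 1; ring
    have hw2 : T2.wv s (p * x + q * (y + 1)) = T2.wv s (p * x + q * y) := by
      have := per_int (T2.wv_per s) q (p * x + q * y)
      rw [← this]; congr 1; ring
    have e1 : ∀ χ : ℝ × ℝ → Fin k, IsPartition χ →
        χ (N * (x + 1), N * y) = χ (N * x, N * y) := by
      intro χ hχ
      have := per_natα (f := fun a => χ (a, N * y)) (fun a => (hχ.2 a (N * y)).1) N (N * x)
      rw [mul_add, mul_one]; exact this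
    have e2 : ∀ χ : ℝ × ℝ → Fin k, IsPartition χ →
        χ (N * x, N * (y + 1)) = χ (N * x, N * y) := by
      intro χ hχ
      have := per_natα (f := fun a => χ (N * x, a)) (fun a => (hχ.2 (N * x) a).2) N (N * y)
      rw [mul_add, mul_one]; exact this
    unfold layP
    simp only [hw1, hw2, e1 χ₁ h₁, e1 χ₂ h₂, e2 χ₁ h₁, e2 χ₂ h₂, and_self]

/-! ### Averages of Riemann-sum type -/

lemma riemann_aux {h : ℝ → ℝ} {B : ℝ} (hh : Continuous h)
    (hLip : ∀ x y, |h x - h y| ≤ B * |x - y|) (hhper : ∀ x, h (x + 1) = h x) (N : ℕ) (hN : 0 < N)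
    (t : ℝ) : |(∑ i ∈ Finset.range N, h (t + i / N)) / N - ∫ x in (0 : ℝ)..1, h x| ≤ B / N := by
  have hN' : (0 : ℝ) < N := by exact_mod_cast hN
  have hi : ∀ a b : ℝ, IntervalIntegrable h volume a b := fun a b => hh.intervalIntegrable a b
  have hB : 0 ≤ B := by
    have := hLip 1 0
    have h0 := abs_nonneg (h 1 - h 0)
    simp at this
    linarith
  have e1 : ∫ x in (0 : ℝ)..1, h x = ∑ i ∈ Finset.range N, ∫ x in (t + i / N)..(t + (i + 1 : ℕ) / N), h x := by
    have hp : Function.Periodic h 1 := hhper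
    have := hp.intervalIntegral_add_eq 0 t
    rw [zero_add] at this
    rw [this]
    have hs := intervalIntegral.sum_integral_adjacent_intervals (f := h) (μ := volume)
      (a := fun i : ℕ => t + (i : ℝ) / N) (n := N) (fun k _ => hi _ _)
    rw [hs]
    congr 1 <;> simp [div_self hN'.ne']
  have e2 : ∀ i : ℕ, |h (t + i / N) / N - ∫ x in (t + i / N)..(t + (i + 1 : ℕ) / N), h x|
      ≤ B / N * (1 / N) := by
    intro i
    have hlen : (t + (i + 1 : ℕ) / N) - (t + (i : ℝ) / N) = 1 / N := by push_cast; field_simp; ring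
    have hc : ∫ x in (t + i / N)..(t + (i + 1 : ℕ) / N), h (t + i / N) = h (t + i / N) / N := by
      rw [intervalIntegral.integral_const, hlen]; simp; ring
    rw [← hc, ← intervalIntegral.integral_sub (by simp) (hi _ _), ← Real.norm_eq_abs]
    have hle : t + (i : ℝ) / N ≤ t + (i + 1 : ℕ) / N := by
      have : (0 : ℝ) ≤ 1 / N := by positivity
      linarith
    have := intervalIntegral.norm_integral_le_of_norm_le_const (a := t + (i : ℝ) / N)
      (b := t + (i + 1 : ℕ) / N) (C := B / N) (f := fun x => h (t + i / N) - h x) (by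
        intro x hx
        rw [Set.uIoc_of_le hle] at hx
        rw [Real.norm_eq_abs]
        refine (hLip _ _).trans ?_
        rw [div_eq_mul_one_div B]
        refine mul_le_mul_of_nonneg_left ?_ hB
        rw [abs_sub_comm, abs_of_nonneg (by linarith [hx.1])]
        linarith [hx.2])
    rw [hlen, abs_of_nonneg (by positivity)] at this
    exact this
  rw [e1, Finset.sum_div, ← Finset.sum_sub_distrib]
  refine (Finset.abs_sum_le_sum_abs _ _).trans ?_
  refine (Finset.sum_le_sum fun i _ => e2 i).trans ?_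
  rw [Finset.sum_const, Finset.card_range, nsmul_eq_mul]
  apply le_of_eq
  field_simp

lemma sum_reindex {g : ℕ → ℝ} {N : ℕ} (hg : Function.Periodic g N) (hN : 0 < N) {P : ℕ}
    (hc : Nat.Coprime P N) : ∑ i ∈ Finset.range N, g (P * i) = ∑ i ∈ Finset.range N, g i := by
  have hinj : Set.InjOn (fun i => P * i % N) (Finset.range N : Set ℕ) := by
    intro i hi j hj hij
    simp only [Finset.coe_range, Set.mem_Iio] at hi hj
    have h1 : P * i ≡ P * j [MOD N] := hij
    have h2 : i ≡ j [MOD N] := Nat.ModEq.cancel_left_of_coprime (by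
      rw [Nat.gcd_comm]; exact hc) h1
    exact Nat.ModEq.eq_of_lt_of_lt h2 hi hj
  have hmaps : Set.MapsTo (fun i => P * i % N) (Finset.range N : Set ℕ) (Finset.range N : Set ℕ) := by
    intro i _
    simp only [Finset.coe_range, Set.mem_Iio]
    exact Nat.mod_lt _ hN
  refine Finset.sum_nbij (fun i => P * i % N) (fun i hi => by simpa using Nat.mod_lt _ hN) hinj
    (Finset.surjOn_of_injOn_of_card_le _ hmaps hinj le_rfl) ?_
  intro i _
  exact (hg.map_mod_nat _).symm

lemma avg_iter {g : ℝ × ℝ → ℝ} (hg : Measurable g) {C : ℝ} (hC : ∀ z, |g z| ≤ C) :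
    avg g = ∫ y in (0 : ℝ)..1, ∫ x in (0 : ℝ)..1, g (x, y) := by
  have hint : Integrable g ((volume.restrict (Set.Icc (0 : ℝ) 1)).prod
      (volume.restrict (Set.Icc (0 : ℝ) 1))) :=
    Integrable.of_bound hg.aestronglyMeasurable C (ae_of_all _ fun z => by
      rw [Real.norm_eq_abs]; exact hC z)
  unfold avg
  rw [Measure.volume_eq_prod, ← Measure.prod_restrict, integral_prod_symm _ hint]
  rw [intervalIntegral.integral_of_le zero_le_one, ← integral_Icc_eq_integral_Ioc]
  refine integral_congr_ae (ae_of_all _ fun y => ?_)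
  simp only
  rw [intervalIntegral.integral_of_le zero_le_one, ← integral_Icc_eq_integral_Ioc]

lemma intv_bdd {g : ℝ → ℝ} (hg : Measurable g) {C : ℝ} (hC : ∀ z, |g z| ≤ C) (a b : ℝ) :
    IntervalIntegrable g volume a b := by
  rw [intervalIntegrable_iff]
  refine IntegrableOn.of_bound (by simp) hg.aestronglyMeasurable C (ae_of_all _ fun z => by
      rw [Real.norm_eq_abs]; exact hC z)

/-- one variable version -/
lemma line_fine {F : ℝ → ℝ} {C : ℝ} (hF : Measurable F) (hC : ∀ x, |F x| ≤ C) (N : ℕ) (hN : 0 < N)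
    (hper : ∀ x, F (x + 1 / N) = F x)
    {h : ℝ → ℝ} {B : ℝ} (hh : Continuous h) (hLip : ∀ x y, |h x - h y| ≤ B * |x - y|)
    (hhper : ∀ x, h (x + 1) = h x) {P : ℕ} (hc : Nat.Coprime P N) (c : ℝ) :
    |(∫ x in (0 : ℝ)..1, F x * h (P * x + c)) - (∫ x in (0 : ℝ)..1, F x) * ∫ x in (0 : ℝ)..1, h x|
      ≤ C * B / N := by
  have hN' : (0 : ℝ) < N := by exact_mod_cast hN
  have hC0 : 0 ≤ C := (abs_nonneg _).trans (hC 0)
  have hFp : ∀ (i : ℕ) x, F (x + i / N) = F x := by
    intro i x
    have hp : Function.Periodic F (1 / N) := hper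
    have := hp.nat_mul i x
    rw [← this]; congr 1; ring
  obtain ⟨M, hM⟩ : ∃ M, ∀ x, |h x| ≤ M := by
    refine ⟨|h 0| + B, fun x => ?_⟩
    have hB : 0 ≤ B := by
      have := hLip 1 0
      have h0 := abs_nonneg (h 1 - h 0)
      simp at this
      linarith
    have hx : h x = h (Int.fract x) := by
      conv_lhs => rw [← Int.fract_add_floor x]
      exact per_int hhper _ _
    rw [hx]
    have := hLip (Int.fract x) 0
    rw [sub_zero, abs_of_nonneg (Int.fract_nonneg x)] at this
    have h1 : B * Int.fract x ≤ B * 1 := mul_le_mul_of_nonneg_left (Int.fract_lt_one x).le hB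
    have h2 : |h (Int.fract x)| ≤ |h (Int.fract x) - h 0| + |h 0| := by
      have := abs_add_le (h (Int.fract x) - h 0) (h 0)
      simpa using this
    linarith
  have hM0 : 0 ≤ M := (abs_nonneg _).trans (hM 0)
  set G : ℝ → ℝ := fun x => F x * h (P * x + c) with hG
  have hGper : Function.Periodic G 1 := by
    intro x
    have h1 : F (x + 1) = F x := by
      have := hFp N x
      rwa [div_self hN'.ne'] at this
    have h2 : h (P * (x + 1) + c) = h (P * x + c) := by
      have := per_nat hhper P (P * x + c)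
      rw [← this]; congr 1; ring
    simp only [hG, h1, h2]
  have hint : ∀ (d : ℝ) (a b : ℝ), IntervalIntegrable (fun x => F x * h (P * x + d)) volume a b := by
    intro d a b
    refine intv_bdd (g := fun x => F x * h (P * x + d)) (C := C * M)
      (hF.mul (hh.measurable.comp (by fun_prop))) (fun z => ?_) a b
    rw [abs_mul]
    exact mul_le_mul (hC z) (hM _) (abs_nonneg _) hC0
  have e1 : ∀ i : ℕ, ∫ x in (0 : ℝ)..1, F x * h (P * x + (c + P * i / N)) = ∫ x in (0 : ℝ)..1, G x := by
    intro i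
    have h1 : ∫ x in (0 : ℝ)..1, G (x + i / N) = ∫ x in (0 : ℝ)..1, G x := by
      rw [intervalIntegral.integral_comp_add_right]
      have := hGper.intervalIntegral_add_eq (0 + i / N) 0
      rw [zero_add 1] at this
      rw [← this]; congr 1; ring
    rw [← h1]
    refine intervalIntegral.integral_congr fun x _ => ?_
    simp only [hG]
    rw [hFp]
    congr 2; ring
  have e2 : ∫ x in (0 : ℝ)..1, G x
      = ∫ x in (0 : ℝ)..1, F x * ((∑ i ∈ Finset.range N, h (P * x + c + i / N)) / N) := by
    have h1 : (N : ℝ) * ∫ x in (0 : ℝ)..1, G x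
        = ∑ i ∈ Finset.range N, ∫ x in (0 : ℝ)..1, F x * h (P * x + (c + P * i / N)) := by
      rw [Finset.sum_congr rfl fun i _ => e1 i, Finset.sum_const, Finset.card_range, nsmul_eq_mul]
    rw [← intervalIntegral.integral_finsetSum (fun i _ => hint _ _ _)] at h1
    have h2 : ∫ x in (0 : ℝ)..1, G x = (1 / N) * ∫ x in (0 : ℝ)..1,
        ∑ i ∈ Finset.range N, F x * h (P * x + (c + P * i / N)) := by
      rw [← h1]; field_simp
    rw [h2, ← intervalIntegral.integral_const_mul]
    refine intervalIntegral.integral_congr fun x _ => ?_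
    rw [← Finset.mul_sum]
    have hg : Function.Periodic (fun i : ℕ => h (P * x + c + i / N)) N := by
      intro i
      have := hhper (P * x + c + i / N)
      simp only
      rw [← this]; congr 1; push_cast; field_simp; ring
    have hs := sum_reindex hg hN hc
    rw [← hs]
    have : ∀ i : ℕ, h (P * x + (c + P * i / N)) = h (P * x + c + ((P * i : ℕ) : ℝ) / N) := by
      intro i; congr 1; push_cast; ring
    simp only [this]
    ring
  have e3 : (∫ x in (0 : ℝ)..1, F x) * ∫ x in (0 : ℝ)..1, h x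
      = ∫ x in (0 : ℝ)..1, F x * ∫ x in (0 : ℝ)..1, h x := by
    rw [intervalIntegral.integral_mul_const]
  rw [e3, e2, ← intervalIntegral.integral_sub]
  · rw [← Real.norm_eq_abs]
    have := intervalIntegral.norm_integral_le_of_norm_le_const (a := (0 : ℝ)) (b := 1)
      (C := C * B / N)
      (f := fun x => F x * ((∑ i ∈ Finset.range N, h (P * x + c + i / N)) / N)
        - F x * ∫ x in (0 : ℝ)..1, h x) (by
        intro x _
        rw [← mul_sub, Real.norm_eq_abs, abs_mul, mul_div_assoc]
        exact mul_le_mul (hC x) (riemann_aux hh hLip hhper N hN _) (abs_nonneg _) hC0)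
    simpa using this
  · refine intv_bdd (g := fun x => F x * ((∑ i ∈ Finset.range N, h (P * x + c + i / N)) / N))
      (C := C * M) (hF.mul ?_) (fun z => ?_) _ _
    · refine Measurable.div_const ?_ _
      refine Finset.measurable_sum _ fun i _ => ?_
      exact hh.measurable.comp (by fun_prop)
    · rw [abs_mul]
      refine mul_le_mul (hC z) ?_ (abs_nonneg _) hC0
      rw [abs_div, abs_of_pos hN', div_le_iff₀ hN']
      refine (Finset.abs_sum_le_sum_abs _ _).trans ?_
      refine (Finset.sum_le_sum fun i _ => hM _).trans ?_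
      rw [Finset.sum_const, Finset.card_range, nsmul_eq_mul]
      exact le_of_eq (mul_comm _ _)
  · exact (intv_bdd hF hC _ _).mul_const _

lemma int_scale {k : ℝ → ℝ} (hk : Measurable k) {C : ℝ} (hC : ∀ x, |k x| ≤ C)
    (hper : ∀ x, k (x + 1) = k x) (N : ℕ) (hN : 0 < N) :
    ∫ x in (0 : ℝ)..1, k (N * x) = ∫ x in (0 : ℝ)..1, k x := by
  have hN' : (0 : ℝ) < N := by exact_mod_cast hN
  have hp : Function.Periodic k 1 := hper
  rw [intervalIntegral.integral_comp_mul_left _ hN'.ne']
  have := hp.intervalIntegral_add_zsmul_eq (N : ℤ) 0 (fun a b => intv_bdd hk hC a b)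
  simp at this
  simp [this]
  field_simp

/-- MODULE U1 (averaging). For bounded measurable periodic `f`, continuously differentiable
1-periodic `h`, and `N ≡ 1 mod p`, `N → ∞`: the mean of `f(N z) h(p z₁ + q z₂)` tends to
`mean f * ∫₀¹ h`, with an explicit rate. -/
theorem avg_fine {f : ℝ × ℝ → ℝ} {C : ℝ} (hf : Measurable f) (hC : ∀ z, |f z| ≤ C) (hper : Per f)
    {h : ℝ → ℝ} {B : ℝ} (hh : Continuous h) (hLip : ∀ x y, |h x - h y| ≤ B * |x - y|)
    (hhper : ∀ x, h (x + 1) = h x) (p q : ℤ) (hp : 0 < p) (n : ℕ) :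
    |(avg fun z => f ((n * p.toNat + 1 : ℕ) * z.1, (n * p.toNat + 1 : ℕ) * z.2)
        * h (p * z.1 + q * z.2)) - avg f * ∫ x in (0 : ℝ)..1, h x|
      ≤ C * B / ((n * p.toNat + 1 : ℕ) : ℝ) := by
  set P : ℕ := p.toNat with hP
  have hPp : (p : ℝ) = (P : ℝ) := by
    have : (P : ℤ) = p := Int.toNat_of_nonneg hp.le
    rw [← this]; simp
  set N : ℕ := n * P + 1 with hNdef
  have hN : 0 < N := by omega
  have hN' : (0 : ℝ) < N := by exact_mod_cast hN
  have hcop : Nat.Coprime P N := by
    rw [hNdef, Nat.coprime_mul_right_add_right]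
    exact Nat.coprime_one_right P
  have hC0 : 0 ≤ C := (abs_nonneg _).trans (hC 0)
  obtain ⟨M, hM⟩ : ∃ M, ∀ x, |h x| ≤ M := by
    refine ⟨|h 0| + B, fun x => ?_⟩
    have hB : 0 ≤ B := by
      have := hLip 1 0
      have h0 := abs_nonneg (h 1 - h 0)
      simp at this
      linarith
    have hx : h x = h (Int.fract x) := by
      conv_lhs => rw [← Int.fract_add_floor x]
      exact per_int hhper _ _
    rw [hx]
    have := hLip (Int.fract x) 0
    rw [sub_zero, abs_of_nonneg (Int.fract_nonneg x)] at this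
    have h1 : B * Int.fract x ≤ B * 1 := mul_le_mul_of_nonneg_left (Int.fract_lt_one x).le hB
    have h2 : |h (Int.fract x)| ≤ |h (Int.fract x) - h 0| + |h 0| := by
      have := abs_add_le (h (Int.fract x) - h 0) (h 0)
      simpa using this
    linarith
  have hm1 : Measurable fun z : ℝ × ℝ => f ((N : ℕ) * z.1, (N : ℕ) * z.2) * h (p * z.1 + q * z.2) :=
    (hf.comp (by fun_prop)).mul (hh.measurable.comp (by fun_prop))
  have hm2 : Measurable fun z : ℝ × ℝ => f ((N : ℕ) * z.1, (N : ℕ) * z.2) :=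
    hf.comp (by fun_prop)
  have a1 := avg_iter (g := fun z : ℝ × ℝ => f ((N : ℕ) * z.1, (N : ℕ) * z.2) * h (p * z.1 + q * z.2))
    hm1 (C := C * M) (fun z => by
      rw [abs_mul]; exact mul_le_mul (hC _) (hM _) (abs_nonneg _) hC0)
  have a2 := avg_iter (g := fun z : ℝ × ℝ => f ((N : ℕ) * z.1, (N : ℕ) * z.2)) hm2 (C := C)
    (fun z => hC _)
  have a3 := avg_iter hf hC
  have hmG : Measurable fun y : ℝ => ∫ x in (0 : ℝ)..1, f (x, y) := by
    simp only [intervalIntegral.integral_of_le zero_le_one]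
    exact (hf.stronglyMeasurable.integral_prod_left' (μ := volume.restrict (Set.Ioc (0 : ℝ) 1))).measurable
  have hbd : ∀ g : ℝ → ℝ, (∀ x, |g x| ≤ C) → |∫ x in (0 : ℝ)..1, g x| ≤ C := by
    intro g hg
    have := intervalIntegral.norm_integral_le_of_norm_le_const (a := (0 : ℝ)) (b := 1)
      (C := C) (f := g) (fun x _ => by rw [Real.norm_eq_abs]; exact hg x)
    simpa using this
  have e1 : avg (fun z : ℝ × ℝ => f ((N : ℕ) * z.1, (N : ℕ) * z.2)) = avg f := by
    rw [a2, a3]
    simp only
    have h1 : ∀ y : ℝ, ∫ x in (0 : ℝ)..1, f (N * x, N * y) = ∫ x in (0 : ℝ)..1, f (x, N * y) := by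
      intro y
      exact int_scale (k := fun x => f (x, N * y)) (hf.comp (by fun_prop)) (fun x => hC _)
        (fun x => (hper x (N * y)).1) N hN
    simp only [h1]
    exact int_scale (k := fun y => ∫ x in (0 : ℝ)..1, f (x, y)) hmG
      (fun y => hbd _ fun x => hC _)
      (fun y => intervalIntegral.integral_congr fun x _ => (hper x y).2) N hN
  rw [← e1, a1, a2, ← intervalIntegral.integral_mul_const]
  have hmG2 : Measurable fun y : ℝ => ∫ x in (0 : ℝ)..1, f ((N : ℕ) * x, (N : ℕ) * y) := by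
    simp only [intervalIntegral.integral_of_le zero_le_one]
    exact (hm2.stronglyMeasurable.integral_prod_left' (μ := volume.restrict (Set.Ioc (0 : ℝ) 1))).measurable
  have hmG1 : Measurable fun y : ℝ => ∫ x in (0 : ℝ)..1, f ((N : ℕ) * x, (N : ℕ) * y) * h (p * x + q * y) := by
    simp only [intervalIntegral.integral_of_le zero_le_one]
    exact (hm1.stronglyMeasurable.integral_prod_left' (μ := volume.restrict (Set.Ioc (0 : ℝ) 1))).measurable
  have hi1 : IntervalIntegrable (fun y : ℝ => ∫ x in (0 : ℝ)..1,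
      f ((N : ℕ) * x, (N : ℕ) * y) * h (p * x + q * y)) volume 0 1 := by
    refine intv_bdd (C := C * M) hmG1 (fun y => ?_) _ _
    have := intervalIntegral.norm_integral_le_of_norm_le_const (a := (0 : ℝ)) (b := 1)
      (C := C * M) (f := fun x => f ((N : ℕ) * x, (N : ℕ) * y) * h (p * x + q * y))
      (fun x _ => by
        rw [Real.norm_eq_abs, abs_mul]; exact mul_le_mul (hC _) (hM _) (abs_nonneg _) hC0)
    simpa using this
  have hi2 : IntervalIntegrable (fun y : ℝ => ∫ x in (0 : ℝ)..1,
      f ((N : ℕ) * x, (N : ℕ) * y)) volume 0 1 :=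
    intv_bdd (C := C) hmG2 (fun y => hbd _ fun x => hC _) _ _
  rw [← intervalIntegral.integral_sub hi1 (hi2.mul_const _), ← Real.norm_eq_abs]
  have := intervalIntegral.norm_integral_le_of_norm_le_const (a := (0 : ℝ)) (b := 1)
    (C := C * B / N) (f := fun y => (∫ x in (0 : ℝ)..1,
      f ((N : ℕ) * x, (N : ℕ) * y) * h (p * x + q * y))
      - (∫ x in (0 : ℝ)..1, f ((N : ℕ) * x, (N : ℕ) * y)) * ∫ x in (0 : ℝ)..1, h x) (by
      intro y _
      rw [Real.norm_eq_abs, hPp]
      refine line_fine (F := fun x => f ((N : ℕ) * x, (N : ℕ) * y)) (hf.comp (by fun_prop))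
        (fun x => hC _) N hN (fun x => ?_) hh hLip hhper hcop (q * y)
      have := (hper (N * x) (N * y)).1
      rw [← this]; congr 2; field_simp)
  simpa using this

end Pool.Agent.Lib.MP_2a9317_an.N1
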