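import Pool.Agent.Lib.MP_2a9317_an.Eff
import Pool.Agent.Lib.MP_2a9317_an.VolDefs

set_option autoImplicit false

/-!
Module V, part 1: effective matrices of the phases `L_j ⊕ c_j`, `c_0 = 2`, `c_1 = 1`, are
`L_* ⊕ (1 + θ)`.
-/

namespace Pool.Agent.Lib.MP_2a9317_an.N1

open MeasureTheory Matrix Filter Topology
open scoped ContDiff

abbrev Mc : Type := Matrix (Ent 1) (Ent 1) ℝ

/-- `M ⊕ (1 + θ)` -/
def bk (θ : ℝ) (M : Mc) : Matrix (Ent 1 ⊕ Unit) (Ent 1 ⊕ Unit) ℝ :=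
  Matrix.fromBlocks M 0 0 (fun _ _ => 1 + θ)

/-- the phases `L_0 ⊕ 2`, `L_1 ⊕ 1` -/
def Kv (L : Fin 2 → Mc) (j : Fin 2) : Matrix (Ent 1 ⊕ Unit) (Ent 1 ⊕ Unit) ℝ :=
  bk (if j = 0 then 1 else 0) (L j)

lemma bk_quad (θ : ℝ) (M : Mc) (v : Ent 1 ⊕ Unit → ℝ) :
    v ⬝ᵥ (bk θ M *ᵥ v) = (fun i => v (Sum.inl i)) ⬝ᵥ (M *ᵥ fun i => v (Sum.inl i)) +
      (1 + θ) * v (Sum.inr ()) ^ 2 := by
  have hv : v = Sum.elim (fun i => v (Sum.inl i)) (fun i => v (Sum.inr i)) := by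
    ext i; rcases i with i | i <;> rfl
  conv_lhs => rw [hv]
  rw [bk, Matrix.fromBlocks_mulVec]
  simp only [dotProduct, Fintype.sum_sum_type, Sum.elim_inl, Sum.elim_inr, Matrix.zero_mulVec,
    add_zero, zero_add]
  congr 1
  simp [Matrix.mulVec, dotProduct]
  ring

lemma bk_symm {θ : ℝ} {M : Mc} (hM : M.IsSymm) : (bk θ M).IsSymm := by
  rw [Matrix.IsSymm, bk, Matrix.fromBlocks_transpose]
  congr 1
  
lemma bk_posDef {θ : ℝ} (hθ : 0 ≤ θ) {M : Mc} (hM : M.PosDef) : (bk θ M).PosDef := by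
  refine Matrix.PosDef.of_dotProduct_mulVec_pos ?_ ?_
  · have h1 : M.IsSymm := by
      have := hM.1
      rwa [Matrix.IsHermitian, Matrix.conjTranspose_eq_transpose_of_trivial] at this
    rw [Matrix.IsHermitian, Matrix.conjTranspose_eq_transpose_of_trivial]
    exact bk_symm h1
  · intro v hv
    rw [star_trivial, bk_quad]
    by_cases h : (fun i => v (Sum.inl i)) = 0
    · have h5 : v (Sum.inr ()) ≠ 0 := by
        intro h5
        apply hv
        ext i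
        rcases i with i | i
        · exact congrFun h i
        · exact h5
      rw [h]
      simp only [Matrix.mulVec_zero, dotProduct_zero, zero_add]
      positivity
    · have h1 := hM.dotProduct_mulVec_pos h
      rw [star_trivial] at h1
      positivity

theorem Kv_posDef (L : Fin 2 → Mc) (hL : ∀ j, (L j).PosDef) : ∀ j, (Kv L j).PosDef := by
  intro j
  refine bk_posDef ?_ (hL j)
  split_ifs <;> norm_num

lemma affW_bk (θ : ℝ) (M : Mc) (F : Ent 1 → ℝ) : affW (bk θ M) F = linW M F + (1 + θ) := by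
  rw [affW, bk_quad]
  simp [aff, linW]

lemma affStar_Kv (L : Fin 2 → Mc) (hL : ∀ j, (L j).PosDef) {χ : ℝ × ℝ → Fin 2}
    (hχ : IsPartition χ) (F : Ent 1 → ℝ) :
    affStar (Kv L) χ F = linStar L χ F + (1 + frac χ) := by
  have hint : ∀ u : {u : ℝ × ℝ → Fin 1 → ℝ // IsPotential u},
      IntegrableOn (fun p => linW (L (χ p)) (F + grad u.1 p)) cell := by
    intro u
    unfold linW
    have hc : Continuous (fun p => F + grad u.1 p) := continuous_const.add (continuous_grad u.2)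
    exact integrable_quad L hχ.1 hc hc
  have hf : IntegrableOn (fun p => if χ p = 0 then (1 : ℝ) else 0) cell := by
    have hc : IntegrableOn (fun _ : ℝ × ℝ => (1 : ℝ)) cell :=
      (continuous_const.continuousOn).integrableOn_compact isCompact_cell
    refine Integrable.mono' hc ?_ ?_
    · exact ((measurable_from_top (f := fun c : Fin 2 => if c = 0 then (1 : ℝ) else 0)).comp
        hχ.1).aestronglyMeasurable
    · refine Filter.Eventually.of_forall fun p => ?_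
      split_ifs <;> simp
  have h1 : IntegrableOn (fun _ : ℝ × ℝ => (1 : ℝ)) cell :=
    (continuous_const.continuousOn).integrableOn_compact isCompact_cell
  have havg : ∀ u : {u : ℝ × ℝ → Fin 1 → ℝ // IsPotential u},
      (avg fun p => affW (Kv L (χ p)) (F + grad u.1 p)) =
        (avg fun p => linW (L (χ p)) (F + grad u.1 p)) + (1 + frac χ) := by
    intro u
    have e1 : (fun p => affW (Kv L (χ p)) (F + grad u.1 p)) =
        fun p => linW (L (χ p)) (F + grad u.1 p) + (1 + if χ p = 0 then (1 : ℝ) else 0) := by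
      ext p
      rw [Kv, affW_bk]
    have h2 : IntegrableOn (fun p => (1 : ℝ) + if χ p = 0 then (1 : ℝ) else 0) cell := h1.add hf
    rw [e1, avg_add (hint u) h2, avg_add h1 hf, avg_const]
    rfl
  have hne : Nonempty {u : ℝ × ℝ → Fin 1 → ℝ // IsPotential u} :=
    ⟨⟨0, (potSub 1).zero_mem⟩⟩
  unfold affStar linStar
  rw [iInf_congr havg]
  rw [ciInf_add]
  refine ⟨0, ?_⟩
  rintro _ ⟨u, rfl⟩
  refine avg_nonneg fun p => ?_
  have := (hL (χ p)).posSemidef.dotProduct_mulVec_nonneg (F + grad u.1 p)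
  simpa [linW] using this

/-- V1. `affW (bk θ M) F = linW M F + (1 + θ)`, `avg` of the constants is `1 + frac χ` -/
theorem bk_effective (L : Fin 2 → Mc) (hL : ∀ j, (L j).PosDef) {χ : ℝ × ℝ → Fin 2}
    (hχ : IsPartition χ) {M : Mc} (hM : LinEffective L χ M) :
    AffEffective (Kv L) χ (bk (frac χ) M) := by
  refine ⟨bk_symm hM.1, fun F => ?_⟩
  rw [affStar_Kv L hL hχ, affW_bk, hM.2 F]

lemma affW_expand {P : Matrix (Ent 1 ⊕ Unit) (Ent 1 ⊕ Unit) ℝ} (hP : P.IsSymm)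
    (F : Ent 1 → ℝ) : affW P F =
      P (Sum.inl (0, 0)) (Sum.inl (0, 0)) * F (0, 0) ^ 2 +
      2 * P (Sum.inl (0, 0)) (Sum.inl (1, 0)) * F (0, 0) * F (1, 0) +
      P (Sum.inl (1, 0)) (Sum.inl (1, 0)) * F (1, 0) ^ 2 +
      2 * P (Sum.inl (0, 0)) (Sum.inr ()) * F (0, 0) +
      2 * P (Sum.inl (1, 0)) (Sum.inr ()) * F (1, 0) + P (Sum.inr ()) (Sum.inr ()) := by
  have s1 : P (Sum.inl (1, 0)) (Sum.inl (0, 0)) = P (Sum.inl (0, 0)) (Sum.inl (1, 0)) :=
    hP.apply _ _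
  have s2 : P (Sum.inr ()) (Sum.inl (0, 0)) = P (Sum.inl (0, 0)) (Sum.inr ()) :=
    hP.apply _ _
  have s3 : P (Sum.inr ()) (Sum.inl (1, 0)) = P (Sum.inl (1, 0)) (Sum.inr ()) :=
    hP.apply _ _
  rw [affW]
  simp only [dotProduct, mulVec, aff, Fintype.sum_sum_type, Fintype.sum_prod_type,
    Fin.sum_univ_two, Sum.elim_inl, Sum.elim_inr, Finset.univ_unique,
    Finset.sum_singleton, Fin.default_eq_zero, Fin.isValue, PUnit.default_eq_unit]
  rw [s1, s2, s3]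
  ring

lemma eq_of_affW_eq {P R : Matrix (Ent 1 ⊕ Unit) (Ent 1 ⊕ Unit) ℝ} (hP : P.IsSymm)
    (hR : R.IsSymm) (h : ∀ F : Ent 1 → ℝ, affW P F = affW R F) : P = R := by
  let pt : ℝ → ℝ → (Ent 1 → ℝ) := fun x y q => if q.1 = 0 then x else y
  have h' : ∀ x y : ℝ, P (Sum.inl (0, 0)) (Sum.inl (0, 0)) * x ^ 2 +
      2 * P (Sum.inl (0, 0)) (Sum.inl (1, 0)) * x * y +
      P (Sum.inl (1, 0)) (Sum.inl (1, 0)) * y ^ 2 +
      2 * P (Sum.inl (0, 0)) (Sum.inr ()) * x +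
      2 * P (Sum.inl (1, 0)) (Sum.inr ()) * y + P (Sum.inr ()) (Sum.inr ()) =
      R (Sum.inl (0, 0)) (Sum.inl (0, 0)) * x ^ 2 +
      2 * R (Sum.inl (0, 0)) (Sum.inl (1, 0)) * x * y +
      R (Sum.inl (1, 0)) (Sum.inl (1, 0)) * y ^ 2 +
      2 * R (Sum.inl (0, 0)) (Sum.inr ()) * x +
      2 * R (Sum.inl (1, 0)) (Sum.inr ()) * y + R (Sum.inr ()) (Sum.inr ()) := by
    intro x y
    have := h (pt x y)
    rw [affW_expand hP, affW_expand hR] at this
    simpa [pt] using this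
  have k0 := h' 0 0
  have k1 := h' 1 0
  have k2 := h' (-1) 0
  have k3 := h' 0 1
  have k4 := h' 0 (-1)
  have k5 := h' 1 1
  have a1 : P (Sum.inl (0, 0)) (Sum.inl (0, 0)) = R (Sum.inl (0, 0)) (Sum.inl (0, 0)) := by
    linarith
  have a2 : P (Sum.inl (0, 0)) (Sum.inl (1, 0)) = R (Sum.inl (0, 0)) (Sum.inl (1, 0)) := by
    linarith
  have a3 : P (Sum.inl (1, 0)) (Sum.inl (1, 0)) = R (Sum.inl (1, 0)) (Sum.inl (1, 0)) := by
    linarith
  have a4 : P (Sum.inl (0, 0)) (Sum.inr ()) = R (Sum.inl (0, 0)) (Sum.inr ()) := by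
    linarith
  have a5 : P (Sum.inl (1, 0)) (Sum.inr ()) = R (Sum.inl (1, 0)) (Sum.inr ()) := by
    linarith
  have a6 : P (Sum.inr ()) (Sum.inr ()) = R (Sum.inr ()) (Sum.inr ()) := by
    linarith
  have b2 : P (Sum.inl (1, 0)) (Sum.inl (0, 0)) = R (Sum.inl (1, 0)) (Sum.inl (0, 0)) := by
    rw [← hP.apply, ← hR.apply, a2]
  have b4 : P (Sum.inr ()) (Sum.inl (0, 0)) = R (Sum.inr ()) (Sum.inl (0, 0)) := by
    rw [← hP.apply, ← hR.apply, a4]
  have b5 : P (Sum.inr ()) (Sum.inl (1, 0)) = R (Sum.inr ()) (Sum.inl (1, 0)) := by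
    rw [← hP.apply, ← hR.apply, a5]
  ext i j
  rcases i with ⟨i, i'⟩ | i <;> rcases j with ⟨j, j'⟩ | j
  · fin_cases i <;> fin_cases i' <;> fin_cases j <;> fin_cases j'
    · exact a1
    · exact a2
    · exact b2
    · exact a3
  · fin_cases i <;> fin_cases i'
    · exact a4
    · exact a5
  · fin_cases j <;> fin_cases j'
    · exact b4
    · exact b5
  · exact a6

/-- V2. converse (the effective matrix is unique; the effective tensor exists) -/
theorem effective_bk (L : Fin 2 → Mc) (hL : ∀ j, (L j).PosDef) {χ : ℝ × ℝ → Fin 2}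
    (hχ : IsPartition χ) {P : Matrix (Ent 1 ⊕ Unit) (Ent 1 ⊕ Unit) ℝ}
    (hP : AffEffective (Kv L) χ P) :
    ∃ M : Mc, LinEffective L χ M ∧ P = bk (frac χ) M := by
  obtain ⟨M, hM, h⟩ := exists_effective (LinearMap.id : (Ent 1 → ℝ) →ₗ[ℝ] (Ent 1 → ℝ))
    continuous_id L hL hχ.1
  have hM' : LinEffective L χ M := ⟨hM, fun F => h F⟩
  refine ⟨M, hM', eq_of_affW_eq hP.1 (bk_symm hM'.1) fun F => ?_⟩
  rw [← hP.2 F, (bk_effective L hL hχ hM').2 F]

end Pool.Agent.Lib.MP_2a9317_an.N1
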