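import Pool.Agent.Lib.MP_2a9317_an.N1.B3
import Pool.Agent.Lib.MP_2a9317_an.N1.V1
import Pool.Agent.Lib.MP_2a9317_an.AffFinal

set_option autoImplicit false

namespace Pool.Agent.Lib.MP_2a9317_an.N1

open MeasureTheory Matrix Filter Topology
open scoped ContDiff


-- skeleton; delete the two lines namespace V2 / end V2 in the assembly.



/-- the energy of a block diagonal matrix -/
lemma affW_blocks (M : Mc) (c : ℝ) (F : Ent 1 → ℝ) :
    affW (Matrix.fromBlocks M 0 0 (fun _ _ => c) : Mt) F = linW M F + c := by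
  have h1 : (aff F) ∘ Sum.inl = F := by
    funext q
    rfl
  have h2 : (aff F) ∘ (Sum.inr : Unit → Ent 1 ⊕ Unit) = fun _ => (1 : ℝ) := by
    funext q
    rfl
  unfold affW linW
  rw [Matrix.fromBlocks_mulVec, h1, h2]
  simp [dotProduct, Fintype.sum_sum_type, aff, Matrix.mulVec]

lemma v2_affW_bk (θ : ℝ) (M : Mc) (F : Ent 1 → ℝ) : affW (bk θ M) F = linW M F + (1 + θ) :=
  affW_blocks M (1 + θ) F

lemma blocks_symm {M : Mc} (hM : M.IsSymm) (c : ℝ) :
    (Matrix.fromBlocks M 0 0 (fun _ _ => c) : Mt).IsSymm := by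
  refine Matrix.IsSymm.fromBlocks hM (by simp) ?_
  ext i j
  rfl

/-- infimum of a family bounded below plus a constant -/
lemma iInf_add_const {ι : Type} [Nonempty ι] (f : ι → ℝ) (hf : ∀ i, 0 ≤ f i) (c : ℝ) :
    (⨅ i, (f i + c)) = (⨅ i, f i) + c := by
  have hb : BddBelow (Set.range f) := ⟨0, by rintro _ ⟨i, rfl⟩; exact hf i⟩
  exact (OrderIso.map_ciInf (OrderIso.addRight c) hb).symm

/-- the layer energy of two nonnegative forms -/
lemma layer_nonneg {A B : Mc} (hA : ∀ F, 0 ≤ linW A F) (hB : ∀ F, 0 ≤ linW B F) {θ : ℝ}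
    (h0 : 0 < θ) (h1 : θ < 1) (F G : Ent 1 → ℝ) : 0 ≤ θ * linW A F + (1 - θ) * linW B G :=
  add_nonneg (mul_nonneg h0.le (hA F)) (mul_nonneg (by linarith) (hB G))

lemma laminateV_nonneg (L : Fin 2 → Mc) (hL : ∀ j, (L j).PosDef) {θ : ℝ} {M : Mc}
    (hM : LinLaminateV L θ M) : ∀ F, 0 ≤ linW M F := by
  have hp : ∀ j, ∀ F, 0 ≤ linW (L j) F := by
    intro j F
    have h := (hL j).posSemidef.dotProduct_mulVec_nonneg F
    simpa [linW] using h
  induction hM with
  | phase0 => exact hp 0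
  | phase1 => exact hp 1
  | layer A B M s t θ ξ hA hB h0 h1 hξ hM ihA ihB =>
    intro F
    rw [hM.2 F]
    exact Real.iInf_nonneg (fun a => layer_nonneg ihA ihB h0 h1 _ _)

/-- the layer formula for block diagonal matrices -/
lemma affLayer_const {A B : Mc} (hA : ∀ F, 0 ≤ linW A F) (hB : ∀ F, 0 ≤ linW B F) {θ s t : ℝ}
    (h0 : 0 < θ) (h1 : θ < 1) (ξ : Fin 2 → ℝ) (F : Ent 1 → ℝ) :
    (⨅ a : Fin 1 → ℝ, (θ * affW (bk s A) (F + (1 - θ) • tens ξ a) +
      (1 - θ) * affW (bk t B) (F - θ • tens ξ a))) =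
    (⨅ a : Fin 1 → ℝ, (θ * linW A (F + (1 - θ) • tens ξ a) +
      (1 - θ) * linW B (F - θ • tens ξ a))) + (1 + (θ * s + (1 - θ) * t)) := by
  rw [← iInf_add_const _ (fun a => layer_nonneg hA hB h0 h1 _ _)]
  congr 1
  funext a
  rw [v2_affW_bk, v2_affW_bk]
  ring

/-- V3. -/
theorem bk_laminate (L : Fin 2 → Mc) (hL : ∀ j, (L j).PosDef) {θ : ℝ} {M : Mc}
    (hM : LinLaminateV L θ M) : AffLaminate (Kv L) (bk θ M) := by
  induction hM with
  | phase0 =>
    have h : bk 1 (L 0) = Kv L 0 := by simp [Kv]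
    rw [h]
    exact AffLaminate.phase 0
  | phase1 =>
    have h : bk 0 (L 1) = Kv L 1 := by simp [Kv]
    rw [h]
    exact AffLaminate.phase 1
  | layer A B M s t θ ξ hA hB h0 h1 hξ hM ihA ihB =>
    refine AffLaminate.layer _ _ _ θ ξ ihA ihB h0 h1 hξ ⟨blocks_symm hM.1 _, fun F => ?_⟩
    rw [affLayer_const (laminateV_nonneg L hL hA) (laminateV_nonneg L hL hB) h0 h1, v2_affW_bk,
      hM.2 F]

/-- the energy of a general matrix: evenness removes the linear term -/
lemma blocks_of_even {P : Mt} (hP : P.IsSymm) (q : (Ent 1 → ℝ) → ℝ) (c : ℝ)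
    (hq : ∀ F, q (-F) = q F) (h0 : q 0 = 0) (h : ∀ F, affW P F = q F + c) :
    P = Matrix.fromBlocks P.toBlocks₁₁ 0 0 (fun _ _ => c) := by
  have hPb : P = Matrix.fromBlocks P.toBlocks₁₁ P.toBlocks₁₂ P.toBlocks₂₁ P.toBlocks₂₂ :=
    (Matrix.fromBlocks_toBlocks P).symm
  have hW : ∀ F : Ent 1 → ℝ, affW P F = linW P.toBlocks₁₁ F +
      2 * ∑ i : Ent 1, F i * P (Sum.inl i) (Sum.inr ()) + P (Sum.inr ()) (Sum.inr ()) := by
    intro F
    have hs : ∀ i, P (Sum.inr ()) (Sum.inl i) = P (Sum.inl i) (Sum.inr ()) := fun i => hP.apply _ _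
    unfold affW linW
    simp only [dotProduct, Matrix.mulVec, Fintype.sum_sum_type, aff, Sum.elim_inl, Sum.elim_inr,
      Matrix.toBlocks₁₁, Matrix.of_apply, Finset.univ_unique, Finset.sum_singleton, mul_one,
      one_mul, hs, mul_add, Finset.sum_add_distrib, PUnit.default_eq_unit]
    have h3 : ∀ i : Ent 1, P (Sum.inl i) (Sum.inr ()) * F i = F i * P (Sum.inl i) (Sum.inr ()) :=
      fun i => mul_comm _ _
    simp only [h3]
    ring
  have hc : P (Sum.inr ()) (Sum.inr ()) = c := by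
    have h1 := h 0
    rw [h0, hW 0] at h1
    simpa [linW] using h1
  have hlin : ∀ F : Ent 1 → ℝ, ∑ i : Ent 1, F i * P (Sum.inl i) (Sum.inr ()) = 0 := by
    intro F
    have h1 := h F
    have h2 := h (-F)
    rw [hq F, ← h1, hW, hW] at h2
    have h3 : linW P.toBlocks₁₁ (-F) = linW P.toBlocks₁₁ F := by
      simp [linW, Matrix.mulVec_neg]
    have h4 : ∑ i : Ent 1, (-F) i * P (Sum.inl i) (Sum.inr ()) =
        -∑ i : Ent 1, F i * P (Sum.inl i) (Sum.inr ()) := by
      rw [← Finset.sum_neg_distrib]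
      exact Finset.sum_congr rfl (fun i _ => by simp)
    rw [h3, h4] at h2
    linarith
  have hz : ∀ i : Ent 1, P (Sum.inl i) (Sum.inr ()) = 0 := by
    intro i
    have h1 := hlin (Pi.single i 1)
    simpa [Pi.single_apply, ite_mul] using h1
  ext i j
  rcases i with i | i <;> rcases j with j | j
  · simp [Matrix.toBlocks₁₁]
  · simpa using hz i
  · have h1 : P (Sum.inr i) (Sum.inl j) = P (Sum.inl j) (Sum.inr i) := hP.apply _ _
    rw [h1]
    simpa using hz j
  · simpa using hc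

/-- V4. -/
theorem laminate_bk (L : Fin 2 → Mc) (hL : ∀ j, (L j).PosDef) {P : Mt}
    (hP : AffLaminate (Kv L) P) : ∃ (θ : ℝ) (M : Mc), LinLaminateV L θ M ∧ P = bk θ M := by
  induction hP with
  | phase j =>
    by_cases hj : j = 0
    · subst hj
      exact ⟨1, L 0, LinLaminateV.phase0, by simp [Kv]⟩
    · have hj1 : j = 1 := by omega
      subst hj1
      exact ⟨0, L 1, LinLaminateV.phase1, by simp [Kv]⟩
  | layer A B M θ ξ hA hB h0 h1 hξ hM ihA ihB =>
    obtain ⟨s, A', hA', rfl⟩ := ihA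
    obtain ⟨t, B', hB', rfl⟩ := ihB
    have pA := laminateV_nonneg L hL hA'
    have pB := laminateV_nonneg L hL hB'
    set q : (Ent 1 → ℝ) → ℝ := fun F => ⨅ a : Fin 1 → ℝ,
      (θ * linW A' (F + (1 - θ) • tens ξ a) + (1 - θ) * linW B' (F - θ • tens ξ a)) with hq
    have h2 : ∀ F, affW M F = q F + (1 + (θ * s + (1 - θ) * t)) := by
      intro F
      rw [hM.2 F, affLayer_const pA pB h0 h1]
    have hneg : ∀ (Z : Mc) (F : Ent 1 → ℝ), linW Z (-F) = linW Z F := by
      intro Z F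
      simp [linW, Matrix.mulVec_neg]
    have htens : ∀ a : Fin 1 → ℝ, tens ξ (-a) = -tens ξ a := by
      intro a
      funext i
      simp [tens]
    have heven : ∀ F, q (-F) = q F := by
      intro F
      rw [hq]
      show (⨅ a : Fin 1 → ℝ, (θ * linW A' (-F + (1 - θ) • tens ξ a) +
        (1 - θ) * linW B' (-F - θ • tens ξ a))) = ⨅ a : Fin 1 → ℝ,
        (θ * linW A' (F + (1 - θ) • tens ξ a) + (1 - θ) * linW B' (F - θ • tens ξ a))
      rw [← (Equiv.neg (Fin 1 → ℝ)).iInf_comp]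
      congr 1
      funext a
      have e1 : -F + (1 - θ) • tens ξ ((Equiv.neg (Fin 1 → ℝ)) a) =
          -(F + (1 - θ) • tens ξ a) := by
        rw [Equiv.neg_apply, htens, smul_neg]
        abel
      have e2 : -F - θ • tens ξ ((Equiv.neg (Fin 1 → ℝ)) a) = -(F - θ • tens ξ a) := by
        rw [Equiv.neg_apply, htens, smul_neg]
        abel
      rw [e1, e2, hneg, hneg]
    have hzero : q 0 = 0 := by
      apply le_antisymm
      · refine (ciInf_le ⟨0, ?_⟩ (0 : Fin 1 → ℝ)).trans (le_of_eq ?_)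
        · rintro _ ⟨a, rfl⟩
          exact layer_nonneg pA pB h0 h1 _ _
        · have htz : tens ξ (0 : Fin 1 → ℝ) = 0 := by
            funext i
            simp [tens]
          simp [htz, linW]
      · exact Real.iInf_nonneg (fun a => layer_nonneg pA pB h0 h1 _ _)
    have h3 := blocks_of_even hM.1 q _ heven hzero h2
    refine ⟨θ * s + (1 - θ) * t, M.toBlocks₁₁, ?_, h3⟩
    refine LinLaminateV.layer A' B' _ s t θ ξ hA' hB' h0 h1 hξ ⟨?_, fun F => ?_⟩
    · ext i j
      exact hM.1.apply _ _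
    · have h4 := h2 F
      rw [h3, affW_blocks] at h4
      have h5 : linW M.toBlocks₁₁ F = q F := by
        simpa using h4
      exact h5

/-- the embedding -/
lemma bk_leftInverse : Function.LeftInverse
    (fun P : Mt => ((P (Sum.inr ()) (Sum.inr ()) - 1, P.toBlocks₁₁) : ℝ × Mc))
    (fun x : ℝ × Mc => bk x.1 x.2) := by
  rintro ⟨θ, M⟩
  simp [bk]

lemma bk_continuous : Continuous (fun x : ℝ × Mc => bk x.1 x.2) := by
  unfold bk
  refine Continuous.matrix_fromBlocks continuous_snd continuous_const continuous_const ?_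
  exact continuous_matrix (fun _ _ => continuous_const.add continuous_fst)

lemma bk_inv_continuous : Continuous
    (fun P : Mt => ((P (Sum.inr ()) (Sum.inr ()) - 1, P.toBlocks₁₁) : ℝ × Mc)) := by
  refine Continuous.prodMk ?_ ?_
  · exact (continuous_id.matrix_elem _ _).sub continuous_const
  · exact continuous_matrix (fun i j => continuous_id.matrix_elem _ _)

/-- V5. main theorem of module V -/
theorem linGv_eq (L : Fin 2 → Mc) (hL : ∀ j, (L j).PosDef) : linGv L = linGLv L := by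
  have hce : IsClosedEmbedding (fun x : ℝ × Mc => bk x.1 x.2) :=
    bk_leftInverse.isClosedEmbedding bk_inv_continuous bk_continuous
  have hmain := affG_one_two (Kv L) (Kv_posDef L hL)
  unfold affG affGL at hmain
  have h1 : {P : Mt | ∃ χ : ℝ × ℝ → Fin 2, IsPartition χ ∧ AffEffective (Kv L) χ P} =
      (fun x : ℝ × Mc => bk x.1 x.2) '' {x | ∃ χ : ℝ × ℝ → Fin 2, IsPartition χ ∧
        frac χ = x.1 ∧ LinEffective L χ x.2} := by
    ext P
    constructor
    · rintro ⟨χ, hχ, hP⟩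
      obtain ⟨M, hM, rfl⟩ := effective_bk L hL hχ hP
      exact ⟨(frac χ, M), ⟨χ, hχ, rfl, hM⟩, rfl⟩
    · rintro ⟨⟨θ, M⟩, ⟨χ, hχ, hθ, hM⟩, rfl⟩
      refine ⟨χ, hχ, ?_⟩
      have h2 := bk_effective L hL hχ hM
      have h3 : frac χ = θ := hθ
      rw [h3] at h2
      exact h2
  have h2 : {P : Mt | AffLaminate (Kv L) P} =
      (fun x : ℝ × Mc => bk x.1 x.2) '' {x | LinLaminateV L x.1 x.2} := by
    ext P
    constructor
    · intro hP
      obtain ⟨θ, M, hM, rfl⟩ := laminate_bk L hL hP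
      exact ⟨(θ, M), hM, rfl⟩
    · rintro ⟨⟨θ, M⟩, hM, rfl⟩
      exact bk_laminate L hL hM
  rw [h1, h2, hce.closure_image_eq, hce.closure_image_eq] at hmain
  exact hce.injective.image_injective hmain

end Pool.Agent.Lib.MP_2a9317_an.N1
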