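import Pool.Agent.Lib.MP_2a9317_an.N1.V2
import Pool.Agent.Lib.MP_2a9317_an.N1.Fin

set_option autoImplicit false

namespace Pool.Agent.Lib.MP_2a9317_an.N1

open Matrix

/-- Every effective tensor of a two-phase composite (one potential) is the tensor of a
multiple-rank laminate with the same volume fraction. -/
theorem linEffective_laminateV (L : Fin 2 → Mc) (hL : ∀ j, (L j).PosDef)
    {χ : ℝ × ℝ → Fin 2} (hχ : IsPartition χ) {M : Mc} (hM : LinEffective L χ M) :
    LinLaminateV L (frac χ) M := by
  have h1 := affEffective_laminate (Kv L) (Kv_posDef L hL) hχ (bk_effective L hL hχ hM)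
  obtain ⟨θ, M', hM', he⟩ := laminate_bk L hL h1
  unfold bk at he
  obtain ⟨e1, -, -, e4⟩ := Matrix.fromBlocks_inj.1 he
  have e5 := congrFun (congrFun e4 ()) ()
  have e6 : frac χ = θ := by linarith
  rw [e6, e1]
  exact hM'

end Pool.Agent.Lib.MP_2a9317_an.N1
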