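import Pool.Agent.Lib.MP_2a9317_an.N1.ZD

set_option autoImplicit false

namespace Pool.Agent.Lib.MP_2a9317_an.N1

open MeasureTheory Filter Topology
open scoped ContDiff




/-- a quadratic form `[[p, q], [q, r]]` with `2 c (s₁ t₂ - t₁ s₂) ≤ P(s₁, t₁) + P(s₂, t₂)` has `c² ≤ p r - q²` -/
lemma det_of_bound {p q r c : ℝ} (h : ∀ s₁ t₁ s₂ t₂ : ℝ, 2 * c * (s₁ * t₂ - t₁ * s₂)
    ≤ (p * s₁ ^ 2 + 2 * q * s₁ * t₁ + r * t₁ ^ 2) + (p * s₂ ^ 2 + 2 * q * s₂ * t₂ + r * t₂ ^ 2)) :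
    c ^ 2 ≤ p * r - q ^ 2 := by
  have hr : 0 ≤ r := by have := h 0 1 0 0; nlinarith
  rcases hr.eq_or_lt with h0 | h0
  · have hc : c = 0 := by
      by_contra hc
      have h1 := h 1 0 0 ((p + 1) / (2 * c))
      rw [← h0] at h1
      have h2 : 2 * c * (1 * ((p + 1) / (2 * c)) - 0 * 0) = p + 1 := by
        rw [mul_zero, sub_zero, one_mul, mul_div_cancel₀ _ (by simpa using hc)]
      rw [h2] at h1
      norm_num at h1
    have hq : q = 0 := by
      by_contra hq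
      have h1 := h 1 (-((p + 1) / (2 * q))) 0 0
      rw [← h0] at h1
      have h2 : 2 * q * 1 * (-((p + 1) / (2 * q))) = -(p + 1) := by field_simp
      rw [h2] at h1
      norm_num at h1
    rw [hc, hq, ← h0]; norm_num
  · have h1 := h r (-q) 0 c
    have h2 : r * c ^ 2 ≤ r * (p * r - q ^ 2) := by nlinarith
    exact le_of_mul_le_mul_left h2 h0

/-- Z5. -/
theorem bounds_alg (K : Fin 2 → Ph) (hK : ∀ j, Ell (K j)) {θ x y z : ℝ} (h0 : 0 < θ) (h1 : θ < 1)
    (hb1 : ∀ τ : ℝ, (∀ j, τ ^ 2 ≤ Dt (K j)) → ∀ s₁ t₁ s₂ t₂ : ℝ,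
      2 * τ * ((x * z - y ^ 2) * (s₁ * t₂ - t₁ * s₂)) ≤ Pf K θ x y z s₁ t₁ + Pf K θ x y z s₂ t₂)
    (hb2 : ∀ τ : ℝ, (∀ j, τ ^ 2 * Dt (K j) ≤ 1) → ∀ s₁ t₁ s₂ t₂ : ℝ,
      2 * τ * (gD (K 0) (K 1) θ 0 x y z * (s₁ * t₂ - t₁ * s₂))
        ≤ Pf K θ x y z s₁ t₁ + Pf K θ x y z s₂ t₂) :
    (∀ s t : ℝ, (1 - θ) * Q (K 0) (x * s + y * t) (y * s + z * t)
        + θ * Q (K 1) (x * s + y * t) (y * s + z * t) ≤ x * s ^ 2 + 2 * y * s * t + z * t ^ 2) ∧
    0 ≤ gD (K 0) (K 1) θ (min (Dt (K 0)) (Dt (K 1))) x y z ∧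
    gD (K 0) (K 1) θ (max (Dt (K 0)) (Dt (K 1))) x y z ≤ 0 := by
  have hD0 := (hK 0).2
  have hD1 := (hK 1).2
  set m := min (Dt (K 0)) (Dt (K 1)) with hm
  set M := max (Dt (K 0)) (Dt (K 1)) with hM
  have hm0 : 0 < m := lt_min hD0 hD1
  have hM0 : 0 < M := lt_of_lt_of_le hD0 (le_max_left _ _)
  have hmj : ∀ j, m ≤ Dt (K j) := by
    intro j
    fin_cases j
    · exact min_le_left _ _
    · exact min_le_right _ _
  have hMj : ∀ j, Dt (K j) ≤ M := by
    intro j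
    fin_cases j
    · exact le_max_left _ _
    · exact le_max_right _ _
  -- the form is nonnegative
  have hP0 : ∀ s t : ℝ, 0 ≤ Pf K θ x y z s t := by
    intro s t
    have := hb1 0 (fun j => by rw [zero_pow two_ne_zero]; exact (hK j).2.le) s t 0 0
    have h2 : Pf K θ x y z 0 0 = 0 := by unfold Pf Q; ring
    rw [h2] at this
    linarith
  have hP : ∀ s t : ℝ, (1 - θ) * Q (K 0) (x * s + y * t) (y * s + z * t)
        + θ * Q (K 1) (x * s + y * t) (y * s + z * t) ≤ x * s ^ 2 + 2 * y * s * t + z * t ^ 2 := by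
    intro s t
    have := hP0 s t
    unfold Pf at this
    linarith
  set D := x * z - y ^ 2 with hD
  set g := gD (K 0) (K 1) θ 0 x y z with hg
  -- coefficients
  set a := (1 - θ) * K 0 0 + θ * K 1 0 with ha
  set b := (1 - θ) * K 0 1 + θ * K 1 1 with hb
  set c := (1 - θ) * K 0 2 + θ * K 1 2 with hc
  set p := x - (a * x ^ 2 + 2 * b * x * y + c * y ^ 2) with hp
  set q := y - (a * x * y + b * (x * z + y ^ 2) + c * y * z) with hq
  set r := z - (a * y ^ 2 + 2 * b * y * z + c * z ^ 2) with hr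
  have hPf : ∀ s t : ℝ, Pf K θ x y z s t = p * s ^ 2 + 2 * q * s * t + r * t ^ 2 := by
    intro s t
    rw [hp, hq, hr, ha, hb, hc]
    unfold Pf Q
    ring
  have hg' : g = 1 - (a * x + 2 * b * y + c * z) + (a * c - b ^ 2) * D := by
    rw [hg, ha, hb, hc, hD]
    unfold gD
    ring
  have hdet : p * r - q ^ 2 = D * g := by
    rw [hg', hp, hq, hr, hD]
    ring
  have hgD : ∀ d : ℝ, gD (K 0) (K 1) θ d x y z = g - d * D := by
    intro d
    rw [hg, hD]
    unfold gD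
    ring
  have hDnn : 0 ≤ D := by
    have h2 : ∀ t : ℝ, 0 ≤ x + 2 * y * t + z * t ^ 2 := by
      intro t
      have h3 := hP 1 t
      have h4 := Q_nonneg (hK 0) (x * 1 + y * t) (y * 1 + z * t)
      have h5 := Q_nonneg (hK 1) (x * 1 + y * t) (y * 1 + z * t)
      have h6 := mul_nonneg (by linarith : (0 : ℝ) ≤ 1 - θ) h4
      have h7 := mul_nonneg h0.le h5
      linarith
    have h3 := sq_le_of_quad h2
    rw [hD]; linarith
  have e1 : m * D ^ 2 ≤ D * g := by
    have hs : Real.sqrt m ^ 2 = m := Real.sq_sqrt hm0.le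
    have h2 := det_of_bound (p := p) (q := q) (r := r) (c := Real.sqrt m * D) (by
      intro s₁ t₁ s₂ t₂
      have h3 := hb1 (Real.sqrt m) (fun j => by rw [hs]; exact hmj j) s₁ t₁ s₂ t₂
      rw [hPf, hPf] at h3
      linarith)
    rw [hdet, mul_pow, hs] at h2
    exact h2
  have e2 : g ^ 2 ≤ M * (D * g) := by
    have hs : Real.sqrt M⁻¹ ^ 2 = M⁻¹ := Real.sq_sqrt (inv_pos.2 hM0).le
    have h2 := det_of_bound (p := p) (q := q) (r := r) (c := Real.sqrt M⁻¹ * g) (by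
      intro s₁ t₁ s₂ t₂
      have h3 := hb2 (Real.sqrt M⁻¹) (fun j => by
        rw [hs, inv_mul_le_iff₀ hM0, mul_one]; exact hMj j) s₁ t₁ s₂ t₂
      rw [hPf, hPf] at h3
      linarith)
    rw [hdet, mul_pow, hs, inv_mul_le_iff₀ hM0] at h2
    exact h2
  refine ⟨hP, ?_, ?_⟩
  · rw [hgD]
    rcases hDnn.eq_or_lt with h | h
    · rw [← h] at e2 ⊢
      have : g = 0 := by
        rw [zero_mul, mul_zero] at e2
        exact pow_eq_zero_iff (two_ne_zero) |>.1 (le_antisymm e2 (sq_nonneg g))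
      rw [this]; norm_num
    · have : D * (m * D) ≤ D * g := by
        have e : D * (m * D) = m * D ^ 2 := by ring
        rw [e]; exact e1
      have := le_of_mul_le_mul_left this h
      linarith
  · rw [hgD]
    rcases hDnn.eq_or_lt with h | h
    · rw [← h] at e2 ⊢
      have : g = 0 := by
        rw [zero_mul, mul_zero] at e2
        exact pow_eq_zero_iff (two_ne_zero) |>.1 (le_antisymm e2 (sq_nonneg g))
      rw [this]; norm_num
    · have h2 : D * (m * D) ≤ D * g := by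
        have e : D * (m * D) = m * D ^ 2 := by ring
        rw [e]; exact e1
      have h3 := le_of_mul_le_mul_left h2 h
      have hgp : 0 < g := lt_of_lt_of_le (mul_pos hm0 h) h3
      have h4 : g * g ≤ g * (M * D) := by
        have e : g * g = g ^ 2 := by ring
        have e' : g * (M * D) = M * (D * g) := by ring
        rw [e, e']; exact e2
      have := le_of_mul_le_mul_left h4 hgp
      linarith

end Pool.Agent.Lib.MP_2a9317_an.N1
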