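import Pool.Agent.Lib.MP_2a9317_an.N1.Z4
import Pool.Agent.Lib.MP_2a9317_an.N1.Z5
import Pool.Agent.Lib.MP_2a9317_an.N1.A2

set_option autoImplicit false

namespace Pool.Agent.Lib.MP_2a9317_an.N1

open MeasureTheory Filter Topology
open scoped ContDiff
/-- Main theorem of module Z: effective tensors of two phases are laminates (assembled by helper61). -/
theorem eff_lam (K : Fin 2 → Ph) (hK : ∀ j, Ell (K j)) {χ : ℝ × ℝ → Fin 2} (hχ : IsPartition χ)
    {M : Ph} (hM : Eff K χ M) : Lam K M := by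
  obtain ⟨hv0, hv1, hge, hle⟩ := eff_pure K hK hχ hM
  rcases hge.eq_or_lt with h | h0
  · rw [hv0 h.symm]; exact Lam.phase 1
  rcases hle.eq_or_lt with h | h1
  · rw [hv1 h]; exact Lam.phase 0
  obtain ⟨X, Y, Z, hZ⟩ := exists_Z K hK hχ
  have hκ : 0 < vf χ * (1 - vf χ) := mul_pos h0 (by linarith)
  have hX : vf χ * (1 - vf χ) * (X / (vf χ * (1 - vf χ))) = X := by field_simp
  have hY : vf χ * (1 - vf χ) * (Y / (vf χ * (1 - vf χ))) = Y := by field_simp
  have hZ' : vf χ * (1 - vf χ) * (Z / (vf χ * (1 - vf χ))) = Z := by field_simp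
  set x := X / (vf χ * (1 - vf χ)) with hx
  set y := Y / (vf χ * (1 - vf χ)) with hy
  set z := Z / (vf χ * (1 - vf χ)) with hz
  have hZ2 : IsZ K χ (vf χ * (1 - vf χ) * x) (vf χ * (1 - vf χ) * y) (vf χ * (1 - vf χ) * z) := by
    rw [hX, hY, hZ']; exact hZ
  obtain ⟨hP, hlo, hhi⟩ := bounds_alg K hK h0 h1
    (fun τ hτ => bound1 K hK hχ h0 h1 hZ2 hτ) (fun τ hτ => bound2 K hK hχ h0 h1 hZ2 hτ)
  refine lam_of_bounds (hK 0) (hK 1) K (Lam.phase 0) (Lam.phase 1) h0 h1 hP hlo hhi (M := M) ?_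
  intro a b
  have := isKX_of_eff K hχ hZ2 hM a b
  rw [this]
  unfold FX FY
  ring

end Pool.Agent.Lib.MP_2a9317_an.N1
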