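import Pool.Agent.Lib.MP_2a9317_an.N1.ZD

set_option autoImplicit false

namespace Pool.Agent.Lib.MP_2a9317_an.N1

open MeasureTheory Filter Topology
open scoped ContDiff
lemma bm_i0 {χ : ℝ × ℝ → Fin 2} (hχ : Measurable χ) : BM (i0 χ) :=
  BM.phase (fun j : Fin 2 => if j = 0 then (1 : ℝ) else 0) hχ

lemma phase_i0 (c : Fin 2 → ℝ) (χ : ℝ × ℝ → Fin 2) (p : ℝ × ℝ) :
    c (χ p) = c 1 + i0 χ p * (c 0 - c 1) := by
  unfold i0
  generalize χ p = j
  fin_cases j <;> simp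

lemma bm_pol (K : Fin 2 → Ph) {χ : ℝ × ℝ → Fin 2} (hχ : Measurable χ) (s t : ℝ)
    {u : ℝ × ℝ → ℝ} (hu : IsPot u) :
    BM (fun p => Q (K (χ p)) (dX u p) (dY u p) + 2 * (i0 χ p * (s * dX u p + t * dY u p))) :=
  (BM.Q K hχ (bm_dX hu) (bm_dY hu)).add
    (((bm_i0 hχ).mul (((bm_dX hu).const_mul s).add ((bm_dY hu).const_mul t))).const_mul 2)

/-- the space of smooth periodic functions -/
def pot1 : Submodule ℝ (ℝ × ℝ → ℝ) where
  carrier := {u | IsPot u}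
  zero_mem' := IsPot.const 0
  add_mem' := fun hu hv => IsPot.add hu hv
  smul_mem' := fun c _ hu => IsPot.smul c hu

/-- Z1a. Existence of `(X, Y, Z)`. -/
theorem exists_Z (K : Fin 2 → Ph) (hK : ∀ j, Ell (K j)) {χ : ℝ × ℝ → Fin 2}
    (hχ : IsPartition χ) : ∃ X Y Z : ℝ, IsZ K χ X Y Z := by
  obtain ⟨m, C0, hm, -, H⟩ := unif_ell K hK
  obtain ⟨C, hC⟩ : ∃ C : ℝ, C = 1 / m := ⟨_, rfl⟩
  have hC0 : 0 < C := by rw [hC]; positivity
  have hpt : ∀ (s t : ℝ) (u : ℝ × ℝ → ℝ) (p : ℝ × ℝ), -(C * (s ^ 2 + t ^ 2))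
      ≤ Q (K (χ p)) (dX u p) (dY u p) + 2 * (i0 χ p * (s * dX u p + t * dY u p)) := by
    intro s t u p
    have h1 := (H (χ p) (dX u p) (dY u p)).1
    have hi : i0 χ p = 0 ∨ i0 χ p = 1 := by
      unfold i0; split_ifs <;> simp
    have e : m * (dX u p ^ 2 + dY u p ^ 2) + 2 * (s * dX u p + t * dY u p) + C * (s ^ 2 + t ^ 2)
        = m * ((dX u p + s / m) ^ 2 + (dY u p + t / m) ^ 2) := by
      rw [hC]; field_simp; ring
    have h2 : 0 ≤ m * ((dX u p + s / m) ^ 2 + (dY u p + t / m) ^ 2) := by positivity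
    rcases hi with h | h
    · rw [h]
      have h3 : 0 ≤ m * (dX u p ^ 2 + dY u p ^ 2) := by positivity
      have h4 : 0 ≤ C * (s ^ 2 + t ^ 2) := by positivity
      linarith
    · rw [h]
      linarith
  let F : (Fin 2 → ℝ) → pot1 → ℝ := fun v u => Pol K χ (v 0) (v 1) u.1 + C * (v 0 ^ 2 + v 1 ^ 2)
  have hpar : ∀ v w u u', F (v + w) (u + u') + F (v - w) (u - u') = 2 * F v u + 2 * F w u' := by
    rintro v w ⟨u, hu⟩ ⟨u', hu'⟩
    have hup : ∀ p, dX (u + u') p = dX u p + dX u' p := fun p => dX_add hu hu' p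
    have huq : ∀ p, dY (u + u') p = dY u p + dY u' p := fun p => dY_add hu hu' p
    have hn : IsPot (fun p => -1 * u' p) := hu'.smul (-1)
    have hfun : u - u' = fun p => u p + (-1 * u' p) := by ext p; simp; ring
    have hvp : ∀ p, dX (u - u') p = dX u p - dX u' p := fun p => by
      rw [hfun, dX_add hu hn p, dX_smul (-1) hu' p]; ring
    have hvq : ∀ p, dY (u - u') p = dY u p - dY u' p := fun p => by
      rw [hfun, dY_add hu hn p, dY_smul (-1) hu' p]; ring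
    have hP : IsPot (u + u') := hu.add hu'
    have hM' : IsPot (u - u') := by rw [hfun]; exact hu.add hn
    show Pol K χ (v 0 + w 0) (v 1 + w 1) (u + u') + C * ((v 0 + w 0) ^ 2 + (v 1 + w 1) ^ 2)
      + (Pol K χ (v 0 - w 0) (v 1 - w 1) (u - u') + C * ((v 0 - w 0) ^ 2 + (v 1 - w 1) ^ 2))
      = 2 * (Pol K χ (v 0) (v 1) u + C * (v 0 ^ 2 + v 1 ^ 2))
        + 2 * (Pol K χ (w 0) (w 1) u' + C * (w 0 ^ 2 + w 1 ^ 2))
    have key : Pol K χ (v 0 + w 0) (v 1 + w 1) (u + u') + Pol K χ (v 0 - w 0) (v 1 - w 1) (u - u')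
        = 2 * Pol K χ (v 0) (v 1) u + 2 * Pol K χ (w 0) (w 1) u' := by
      unfold Pol
      rw [← avg_add' (bm_pol K hχ.1 _ _ hP) (bm_pol K hχ.1 _ _ hM'), ← avg_mul', ← avg_mul',
        ← avg_add' ((bm_pol K hχ.1 _ _ hu).const_mul 2) ((bm_pol K hχ.1 _ _ hu').const_mul 2)]
      congr 1
      ext p
      rw [hup, huq, hvp, hvq]
      unfold Q
      ring
    linarith
  have hnn : ∀ v u, 0 ≤ F v u := by
    rintro v ⟨u, hu⟩
    have h3 : avg (fun _ => -(C * (v 0 ^ 2 + v 1 ^ 2))) ≤ Pol K χ (v 0) (v 1) u :=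
      avg_mono' (BM.const _) (bm_pol K hχ.1 _ _ hu) (hpt _ _ u)
    rw [avg_const] at h3
    show (0 : ℝ) ≤ Pol K χ (v 0) (v 1) u + C * (v 0 ^ 2 + v 1 ^ 2)
    linarith
  have hbd : ∀ v, F v 0 ≤ C * ∑ i, v i ^ 2 := by
    intro v
    have h0 : Pol K χ (v 0) (v 1) (0 : pot1).1 = 0 := by
      have e1 : ∀ p, dX (0 : pot1).1 p = 0 := fun p => dX_const 0 p
      have e2 : ∀ p, dY (0 : pot1).1 p = 0 := fun p => dY_const 0 p
      unfold Pol
      simp only [e1, e2]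
      have : (fun p => Q (K (χ p)) 0 0 + 2 * (i0 χ p * (v 0 * 0 + v 1 * 0)))
          = fun _ => (0 : ℝ) := by
        ext p; unfold Q; ring
      rw [this, avg_const]
    show Pol K χ (v 0) (v 1) (0 : pot1).1 + C * (v 0 ^ 2 + v 1 ^ 2) ≤ C * ∑ i, v i ^ 2
    rw [h0, Fin.sum_univ_two]
    linarith
  obtain ⟨M, hMs, hM⟩ := exists_matrix_of_iInf (ι := Fin 2) (U := pot1) F hpar hnn C hbd
  refine ⟨C - M 0 0, - M 0 1, C - M 1 1, fun s t => ?_⟩
  have h1 := hM ![s, t]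
  have h2 : (![s, t] : Fin 2 → ℝ) ⬝ᵥ (M.mulVec ![s, t])
      = M 0 0 * s ^ 2 + 2 * M 0 1 * s * t + M 1 1 * t ^ 2 := by
    have h10 : M 1 0 = M 0 1 := hMs.apply 0 1
    simp only [Matrix.mulVec, dotProduct, Fin.sum_univ_two, Matrix.cons_val_zero,
      Matrix.cons_val_one, h10]
    ring
  have h1' : (⨅ u : pot1, (Pol K χ s t u.1 + C * (s ^ 2 + t ^ 2)))
      = M 0 0 * s ^ 2 + 2 * M 0 1 * s * t + M 1 1 * t ^ 2 := h1.trans h2
  have hbdd : BddBelow (Set.range fun u : pot1 => Pol K χ s t u.1 + C * (s ^ 2 + t ^ 2)) := by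
    refine ⟨0, ?_⟩
    rintro _ ⟨u, rfl⟩
    have h3 : avg (fun _ => -(C * (s ^ 2 + t ^ 2))) ≤ Pol K χ s t u.1 :=
      avg_mono' (BM.const _) (bm_pol K hχ.1 s t u.2) (hpt s t u.1)
    rw [avg_const] at h3
    show (0 : ℝ) ≤ Pol K χ s t u.1 + C * (s ^ 2 + t ^ 2)
    linarith
  refine ⟨fun u hu => ?_, fun ε hε => ?_⟩
  · have h3 := ciInf_le hbdd ⟨u, hu⟩
    rw [h1'] at h3
    linarith
  · obtain ⟨u, hu⟩ := exists_lt_of_ciInf_lt (f := fun u : pot1 =>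
      Pol K χ s t u.1 + C * (s ^ 2 + t ^ 2)) (a := M 0 0 * s ^ 2 + 2 * M 0 1 * s * t
      + M 1 1 * t ^ 2 + ε) (by rw [h1']; linarith)
    exact ⟨u.1, u.2, by linarith⟩

/-- Z1b. `En K χ x y u = θ W_0 + (1 - θ) W_1 + Pol K χ (d₁, d₂) u` because `avg ∇u = 0`. -/
theorem En_eq_Pol (K : Fin 2 → Ph) {χ : ℝ × ℝ → Fin 2} (hχ : IsPartition χ) {u : ℝ × ℝ → ℝ}
    (hu : IsPot u) (x y : ℝ) :
    En K χ x y u = vf χ * W (K 0) x y + (1 - vf χ) * W (K 1) x y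
      + Pol K χ (FX (K 0) x y - FX (K 1) x y) (FY (K 0) x y - FY (K 1) x y) u := by
  have hi := bm_i0 hχ.1
  have hX := bm_dX hu
  have hY := bm_dY hu
  have e : (fun p => W (K (χ p)) (x + dX u p) (y + dY u p))
      = fun p => ((W (K 1) x y + i0 χ p * (W (K 0) x y - W (K 1) x y))
        + (dX u p * (2 * FX (K 1) x y) + dY u p * (2 * FY (K 1) x y)))
        + (Q (K (χ p)) (dX u p) (dY u p)
          + 2 * (i0 χ p * ((FX (K 0) x y - FX (K 1) x y) * dX u p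
            + (FY (K 0) x y - FY (K 1) x y) * dY u p))) := by
    ext p
    rw [W_add, phase_i0 (fun j => W (K j) x y) χ p, phase_i0 (fun j => FX (K j) x y) χ p,
      phase_i0 (fun j => FY (K j) x y) χ p]
    ring
  unfold En
  rw [e, avg_add' (((BM.const _).add (hi.mul_const _)).add ((hX.mul_const _).add
    (hY.mul_const _))) (bm_pol K hχ.1 _ _ hu),
    avg_add' ((BM.const _).add (hi.mul_const _)) ((hX.mul_const _).add (hY.mul_const _)),
    avg_add' (BM.const _) (hi.mul_const _), avg_add' (hX.mul_const _) (hY.mul_const _),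
    avg_mul_const', avg_mul_const', avg_mul_const', avg_const, avg_dX hu, avg_dY hu]
  show W (K 1) x y + vf χ * (W (K 0) x y - W (K 1) x y)
    + (0 * (2 * FX (K 1) x y) + 0 * (2 * FY (K 1) x y))
    + Pol K χ (FX (K 0) x y - FX (K 1) x y) (FY (K 0) x y - FY (K 1) x y) u = _
  ring

/-- Z1c. -/
theorem isKX_of_eff (K : Fin 2 → Ph) {χ : ℝ × ℝ → Fin 2} (hχ : IsPartition χ) {X Y Z : ℝ}
    (hZ : IsZ K χ X Y Z) {M : Ph} (hM : Eff K χ M) : IsKX K (vf χ) X Y Z M := by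
  intro x y
  obtain ⟨h1, h2⟩ := hM x y
  obtain ⟨h3, h4⟩ := hZ (FX (K 0) x y - FX (K 1) x y) (FY (K 0) x y - FY (K 1) x y)
  apply le_antisymm
  · refine le_of_forall_pos_le_add fun ε hε => ?_
    obtain ⟨u, hu, hle⟩ := h4 ε hε
    have h5 := h1 u hu
    rw [En_eq_Pol K hχ hu] at h5
    linarith
  · refine le_of_forall_pos_le_add fun ε hε => ?_
    obtain ⟨u, hu, hle⟩ := h2 ε hε
    have h5 := h3 u hu
    rw [En_eq_Pol K hχ hu] at hle
    linarith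

/-- Z1d. -/
theorem eff_of_isKX (K : Fin 2 → Ph) {χ : ℝ × ℝ → Fin 2} (hχ : IsPartition χ) {X Y Z : ℝ}
    (hZ : IsZ K χ X Y Z) {M : Ph} (hM : IsKX K (vf χ) X Y Z M) : Eff K χ M := by
  intro x y
  obtain ⟨h3, h4⟩ := hZ (FX (K 0) x y - FX (K 1) x y) (FY (K 0) x y - FY (K 1) x y)
  refine ⟨fun u hu => ?_, fun ε hε => ?_⟩
  · have h5 := h3 u hu
    rw [En_eq_Pol K hχ hu, hM x y]
    linarith
  · obtain ⟨u, hu, hle⟩ := h4 ε hε
    refine ⟨u, hu, ?_⟩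
    rw [En_eq_Pol K hχ hu, hM x y]
    linarith

end Pool.Agent.Lib.MP_2a9317_an.N1
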