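import Pool.Agent.Lib.MP_2a9317_an.N1.Z1

set_option autoImplicit false

namespace Pool.Agent.Lib.MP_2a9317_an.N1

open MeasureTheory Filter Topology
open scoped ContDiff




lemma z2_bm_i0 {χ : ℝ × ℝ → Fin 2} (hχ : IsPartition χ) : BM (i0 χ) :=
  BM.phase (fun j : Fin 2 => if j = 0 then (1 : ℝ) else 0) hχ.1

lemma z2_Pol_eq (K : Fin 2 → Ph) {χ : ℝ × ℝ → Fin 2} (hχ : IsPartition χ) {u : ℝ × ℝ → ℝ}
    (hu : IsPot u) (s t : ℝ) :
    Pol K χ s t u = avg (fun p => Q (K (χ p)) (dX u p) (dY u p))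
      + 2 * (s * avg (fun p => i0 χ p * dX u p) + t * avg (fun p => i0 χ p * dY u p)) := by
  have hQ : BM (fun p => Q (K (χ p)) (dX u p) (dY u p)) := BM.Q K hχ.1 (bm_dX hu) (bm_dY hu)
  have h1 : BM (fun p => i0 χ p * dX u p) := (z2_bm_i0 hχ).mul (bm_dX hu)
  have h2 : BM (fun p => i0 χ p * dY u p) := (z2_bm_i0 hχ).mul (bm_dY hu)
  unfold Pol
  have e : (fun p => Q (K (χ p)) (dX u p) (dY u p) + 2 * (i0 χ p * (s * dX u p + t * dY u p)))
      = fun p => Q (K (χ p)) (dX u p) (dY u p)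
        + ((2 * s) * (i0 χ p * dX u p) + (2 * t) * (i0 χ p * dY u p)) := by
    ext p; ring
  rw [e, avg_add' hQ ((h1.const_mul _).add (h2.const_mul _)),
    avg_add' (h1.const_mul _) (h2.const_mul _), avg_mul', avg_mul']
  ring

/-- the key inequality for near minimizers -/
lemma z2_key (K : Fin 2 → Ph) {χ : ℝ × ℝ → Fin 2} (hχ : IsPartition χ)
    {X Y Z : ℝ} (hZ : IsZ K χ X Y Z) {s t ε : ℝ} {u : ℝ × ℝ → ℝ} (hu : IsPot u)
    (hle : Pol K χ s t u ≤ -(X * s ^ 2 + 2 * Y * s * t + Z * t ^ 2) + ε) (s' t' : ℝ) :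
    (s' * (avg (fun p => i0 χ p * dX u p) + (X * s + Y * t))
      + t' * (avg (fun p => i0 χ p * dY u p) + (Y * s + Z * t))) ^ 2
      ≤ ε * (X * s' ^ 2 + 2 * Y * s' * t' + Z * t' ^ 2) := by
  apply sq_le_of_quad
  intro r
  have h1 := (hZ (s + r * s') (t + r * t')).1 u hu
  rw [z2_Pol_eq K hχ hu] at h1 hle
  nlinarith [h1, hle]

theorem near_seq (K : Fin 2 → Ph) (hK : ∀ j, Ell (K j)) {χ : ℝ × ℝ → Fin 2} (hχ : IsPartition χ)
    {X Y Z : ℝ} (hZ : IsZ K χ X Y Z) (s t : ℝ) :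
    ∃ u : ℕ → ℝ × ℝ → ℝ, (∀ n, IsPot (u n)) ∧
      (∀ n, Pol K χ s t (u n) ≤ -(X * s ^ 2 + 2 * Y * s * t + Z * t ^ 2) + 1 / ((n : ℝ) + 1)) ∧
      Tendsto (fun n => avg fun p => i0 χ p * dX (u n) p) atTop (𝓝 (-(X * s + Y * t))) ∧
      Tendsto (fun n => avg fun p => i0 χ p * dY (u n) p) atTop (𝓝 (-(Y * s + Z * t))) ∧
      Tendsto (fun n => avg fun p => Q (K (χ p)) (dX (u n) p) (dY (u n) p)) atTop
        (𝓝 (X * s ^ 2 + 2 * Y * s * t + Z * t ^ 2)) := by
  have hex : ∀ n : ℕ, ∃ u, IsPot u ∧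
      Pol K χ s t u ≤ -(X * s ^ 2 + 2 * Y * s * t + Z * t ^ 2) + 1 / ((n : ℝ) + 1) :=
    fun n => (hZ s t).2 _ (by positivity)
  choose u hu hle using hex
  have h0 : Tendsto (fun n : ℕ => 1 / ((n : ℝ) + 1)) atTop (𝓝 0) :=
    tendsto_one_div_add_atTop_nhds_zero_nat
  have sqz : ∀ (f : ℕ → ℝ) (c a : ℝ), (∀ n, (f n - a) ^ 2 ≤ 1 / ((n : ℝ) + 1) * c) →
      Tendsto f atTop (𝓝 a) := by
    intro f c a hf
    have h1 : Tendsto (fun n : ℕ => 1 / ((n : ℝ) + 1) * c) atTop (𝓝 0) := by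
      simpa using h0.mul_const c
    have h2 : Tendsto (fun n => (f n - a) ^ 2) atTop (𝓝 0) :=
      squeeze_zero (fun n => sq_nonneg _) hf h1
    have h3 : Tendsto (fun n => |f n - a|) atTop (𝓝 0) := by
      have := h2.sqrt
      simpa [Real.sqrt_sq_eq_abs] using this
    have h4 := (tendsto_zero_iff_abs_tendsto_zero _).2 h3
    have h5 := h4.add_const a
    simpa using h5
  have hA : Tendsto (fun n => avg fun p => i0 χ p * dX (u n) p) atTop (𝓝 (-(X * s + Y * t))) := by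
    refine sqz _ X _ fun n => ?_
    have := z2_key K hχ hZ (hu n) (hle n) 1 0
    rw [sub_neg_eq_add]
    simpa using this
  have hB : Tendsto (fun n => avg fun p => i0 χ p * dY (u n) p) atTop (𝓝 (-(Y * s + Z * t))) := by
    refine sqz _ Z _ fun n => ?_
    have := z2_key K hχ hZ (hu n) (hle n) 0 1
    rw [sub_neg_eq_add]
    simpa using this
  refine ⟨u, hu, hle, hA, hB, ?_⟩
  have hP : Tendsto (fun n => Pol K χ s t (u n)) atTop
      (𝓝 (-(X * s ^ 2 + 2 * Y * s * t + Z * t ^ 2))) := by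
    refine tendsto_of_tendsto_of_tendsto_of_le_of_le tendsto_const_nhds
      (g := fun _ : ℕ => -(X * s ^ 2 + 2 * Y * s * t + Z * t ^ 2))
      (h := fun n : ℕ => -(X * s ^ 2 + 2 * Y * s * t + Z * t ^ 2) + 1 / ((n : ℝ) + 1)) ?_
      (fun n => (hZ s t).1 _ (hu n)) hle
    have h6 := h0.const_add (-(X * s ^ 2 + 2 * Y * s * t + Z * t ^ 2))
    rw [add_zero] at h6
    exact h6
  have e : (fun n => avg fun p => Q (K (χ p)) (dX (u n) p) (dY (u n) p))
      = fun n => Pol K χ s t (u n) - 2 * (s * avg (fun p => i0 χ p * dX (u n) p)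
        + t * avg (fun p => i0 χ p * dY (u n) p)) := by
    ext n
    rw [z2_Pol_eq K hχ (hu n)]; ring
  rw [e]
  have h := hP.sub (((hA.const_mul s).add (hB.const_mul t)).const_mul 2)
  convert h using 2
  ring

lemma avg_const' (c : ℝ) : avg (fun _ => c) = c := by
  have := avg_const c
  simpa using this

/-- the energy of a pure phase -/
lemma z6_pure (A : Ph) {u : ℝ × ℝ → ℝ} (hu : IsPot u) (x y : ℝ) :
    avg (fun p => W A (x + dX u p) (y + dY u p))
      = W A x y + avg (fun p => Q A (dX u p) (dY u p)) := by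
  have hX := bm_dX hu
  have hY := bm_dY hu
  have hQ : BM (fun p => Q A (dX u p) (dY u p)) := by
    unfold Q
    exact ((hX.sq.const_mul _).add ((hX.const_mul _).mul hY)).add (hY.sq.const_mul _)
  have e : (fun p => W A (x + dX u p) (y + dY u p))
      = fun p => (W A x y + (2 * FX A x y * dX u p + 2 * FY A x y * dY u p))
        + Q A (dX u p) (dY u p) := by
    ext p; rw [W_add]; ring
  rw [e, avg_add' ((BM.const _).add ((hX.const_mul _).add (hY.const_mul _))) hQ,
    avg_add' (BM.const _) ((hX.const_mul _).add (hY.const_mul _)),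
    avg_add' (hX.const_mul _) (hY.const_mul _), avg_mul', avg_mul']
  have hx : avg (fun p => dX u p) = 0 := avg_dX hu
  have hy : avg (fun p => dY u p) = 0 := avg_dY hu
  rw [hx, hy, avg_const']
  ring

lemma z6_core {k : ℕ} (K : Fin k → Ph) {χ : ℝ × ℝ → Fin k} {A M : Ph} (hA : Ell A)
    (hM : Eff K χ M)
    (hEn : ∀ x y u, IsPot u → En K χ x y u = avg (fun p => W A (x + dX u p) (y + dY u p))) :
    M = A := by
  apply ph_ext
  intro x y
  apply le_antisymm
  · have h1 := (hM x y).1 _ (IsPot.const 0)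
    rw [hEn x y _ (IsPot.const 0), z6_pure A (IsPot.const 0)] at h1
    have h2 : avg (fun p => Q A (dX (fun _ : ℝ × ℝ => (0 : ℝ)) p)
        (dY (fun _ : ℝ × ℝ => (0 : ℝ)) p)) = 0 := by
      simp only [dX_const, dY_const]
      have : Q A 0 0 = 0 := by unfold Q; simp
      rw [this, avg_const']
    rw [h2] at h1
    linarith
  · apply le_of_forall_pos_le_add
    intro ε hε
    obtain ⟨u, hu, hle⟩ := (hM x y).2 ε hε
    rw [hEn x y u hu, z6_pure A hu] at hle
    have h3 : 0 ≤ avg (fun p => Q A (dX u p) (dY u p)) := avg_nonneg fun p => Q_nonneg hA _ _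
    linarith

theorem eff_pure (K : Fin 2 → Ph) (hK : ∀ j, Ell (K j)) {χ : ℝ × ℝ → Fin 2} (hχ : IsPartition χ)
    {M : Ph} (hM : Eff K χ M) :
    (vf χ = 0 → M = K 1) ∧ (vf χ = 1 → M = K 0) ∧ 0 ≤ vf χ ∧ vf χ ≤ 1 := by
  have hi := z2_bm_i0 hχ
  have hi01 : ∀ p, i0 χ p = 0 ∨ i0 χ p = 1 := by
    intro p; unfold i0; split_ifs <;> simp
  have hsq : (fun p => i0 χ p ^ 2) = i0 χ := by
    ext p; rcases hi01 p with h | h <;> rw [h] <;> norm_num
  have hnn : ∀ p, 0 ≤ i0 χ p := by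
    intro p; rcases hi01 p with h | h <;> rw [h]; norm_num
  have hle1 : ∀ p, i0 χ p ≤ 1 := by
    intro p; rcases hi01 p with h | h <;> rw [h]; norm_num
  have hphase0 : ∀ p, i0 χ p = 1 → χ p = 0 := by
    intro p h; unfold i0 at h; by_contra hc; rw [if_neg hc] at h; norm_num at h
  have hphase1 : ∀ p, i0 χ p = 0 → χ p = 1 := by
    intro p h; unfold i0 at h
    by_cases hc : χ p = 0
    · rw [if_pos hc] at h; norm_num at h
    · omega
  refine ⟨?_, ?_, avg_nonneg hnn, ?_⟩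
  · intro hv
    refine z6_core K (hK 1) hM fun x y u hu => ?_
    have hX := (BM.const x).add (bm_dX hu)
    have hY := (BM.const y).add (bm_dY hu)
    have hW0 : BM (fun p => W (K 0) (x + dX u p) (y + dY u p)) := by
      have := BM.W (fun _ : Fin 2 => K 0) hχ.1 hX hY
      exact this
    have hW1 : BM (fun p => W (K 1) (x + dX u p) (y + dY u p)) := by
      have := BM.W (fun _ : Fin 2 => K 1) hχ.1 hX hY
      exact this
    have e : (fun p => W (K (χ p)) (x + dX u p) (y + dY u p))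
        = fun p => W (K 1) (x + dX u p) (y + dY u p)
          + i0 χ p * (W (K 0) (x + dX u p) (y + dY u p) - W (K 1) (x + dX u p) (y + dY u p)) := by
      ext p
      rcases hi01 p with h | h
      · rw [h, hphase1 p h]; ring
      · rw [h, hphase0 p h]; ring
    unfold En
    rw [e, avg_add' hW1 (hi.mul (hW0.sub hW1))]
    have h1 := avg_cs hi (hW0.sub hW1)
    have h2 : avg (fun p => i0 χ p ^ 2) = 0 := by rw [hsq]; exact hv
    rw [h2, zero_mul] at h1
    have h3 := pow_eq_zero_iff (two_ne_zero) |>.1 (le_antisymm h1 (sq_nonneg _))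
    rw [h3, add_zero]
  · intro hv
    refine z6_core K (hK 0) hM fun x y u hu => ?_
    have hX := (BM.const x).add (bm_dX hu)
    have hY := (BM.const y).add (bm_dY hu)
    have hW0 : BM (fun p => W (K 0) (x + dX u p) (y + dY u p)) := by
      have := BM.W (fun _ : Fin 2 => K 0) hχ.1 hX hY
      exact this
    have hW1 : BM (fun p => W (K 1) (x + dX u p) (y + dY u p)) := by
      have := BM.W (fun _ : Fin 2 => K 1) hχ.1 hX hY
      exact this
    have hj : BM (fun p => 1 - i0 χ p) := (BM.const 1).sub hi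
    have e : (fun p => W (K (χ p)) (x + dX u p) (y + dY u p))
        = fun p => W (K 0) (x + dX u p) (y + dY u p)
          + (1 - i0 χ p) * (W (K 1) (x + dX u p) (y + dY u p)
            - W (K 0) (x + dX u p) (y + dY u p)) := by
      ext p
      rcases hi01 p with h | h
      · rw [h, hphase1 p h]; ring
      · rw [h, hphase0 p h]; ring
    unfold En
    rw [e, avg_add' hW0 (hj.mul (hW1.sub hW0))]
    have h1 := avg_cs hj (hW1.sub hW0)
    have h2 : avg (fun p => (1 - i0 χ p) ^ 2) = 0 := by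
      have e2 : (fun p => (1 - i0 χ p) ^ 2) = fun p => 1 - i0 χ p := by
        ext p; rcases hi01 p with h | h <;> rw [h] <;> norm_num
      rw [e2, avg_sub' (BM.const 1) hi, avg_const']
      have : avg (i0 χ) = 1 := hv
      have h4 : avg (fun p => i0 χ p) = 1 := this
      rw [h4]; norm_num
    rw [h2, zero_mul] at h1
    have h3 := pow_eq_zero_iff (two_ne_zero) |>.1 (le_antisymm h1 (sq_nonneg _))
    rw [h3, add_zero]
  · have := avg_mono' hi (BM.const 1) hle1
    rw [avg_const'] at this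
    exact this

end Pool.Agent.Lib.MP_2a9317_an.N1
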