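import Pool.Agent.Lib.MP_2a9317_an.N1.Z2

set_option autoImplicit false

namespace Pool.Agent.Lib.MP_2a9317_an.N1

open MeasureTheory Filter Topology
open scoped ContDiff
/-- the form `Q e₁ + Q e₂ + 2 τ e₁ × e₂` is nonnegative if `τ² ≤ det L` -/
lemma quad4_nonneg {K : Ph} (hK : Ell K) {τ : ℝ} (hτ : τ ^ 2 ≤ Dt K) (a b c d : ℝ) :
    0 ≤ Q K a b + Q K c d + 2 * τ * (a * d - b * c) := by
  obtain ⟨h0, -⟩ := hK
  unfold Dt at hτ
  have e : K 0 * (Q K a b + Q K c d + 2 * τ * (a * d - b * c))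
      = (K 0 * a + K 1 * b + τ * d) ^ 2 + (K 0 * c + K 1 * d - τ * b) ^ 2
        + (K 0 * K 2 - K 1 ^ 2 - τ ^ 2) * (b ^ 2 + d ^ 2) := by
    unfold Q; ring
  have h1 : 0 ≤ K 0 * (Q K a b + Q K c d + 2 * τ * (a * d - b * c)) := by
    rw [e]
    have : 0 ≤ (K 0 * K 2 - K 1 ^ 2 - τ ^ 2) * (b ^ 2 + d ^ 2) :=
      mul_nonneg (by linarith) (by positivity)
    positivity
  exact nonneg_of_mul_nonneg_right h1 h0

/-- averages of fields that are affine in `∇u` with coefficients depending on the phase -/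
lemma avg_phase_aff {χ : ℝ × ℝ → Fin 2} (hχ : IsPartition χ) {u v : ℝ × ℝ → ℝ} (hu : IsPot u)
    (hv : IsPot v) (r α₁ β₁ α₂ β₂ : Fin 2 → ℝ) :
    avg (fun p => (r (χ p) + (α₁ (χ p) * dX u p + β₁ (χ p) * dY u p))
        + (α₂ (χ p) * dX v p + β₂ (χ p) * dY v p))
      = r 1 + vf χ * (r 0 - r 1)
        + (α₁ 0 - α₁ 1) * avg (fun p => i0 χ p * dX u p)
        + (β₁ 0 - β₁ 1) * avg (fun p => i0 χ p * dY u p)
        + (α₂ 0 - α₂ 1) * avg (fun p => i0 χ p * dX v p)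
        + (β₂ 0 - β₂ 1) * avg (fun p => i0 χ p * dY v p) := by
  have hi : BM (i0 χ) := BM.phase (fun j : Fin 2 => if j = 0 then (1 : ℝ) else 0) hχ.1
  have hph : ∀ (c : Fin 2 → ℝ) (p : ℝ × ℝ), c (χ p) = c 1 + i0 χ p * (c 0 - c 1) := by
    intro c p
    unfold i0
    generalize χ p = j
    fin_cases j <;> simp
  have one : ∀ (c : Fin 2 → ℝ) (f : ℝ × ℝ → ℝ), BM f → avg f = 0 →
      avg (fun p => c (χ p) * f p) = (c 0 - c 1) * avg (fun p => i0 χ p * f p) := by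
    intro c f hf h0
    have e : (fun p => c (χ p) * f p) = fun p => c 1 * f p + (c 0 - c 1) * (i0 χ p * f p) := by
      ext p; rw [hph c p]; ring
    rw [e, avg_add' (hf.const_mul _) ((hi.mul hf).const_mul _), avg_mul', avg_mul', h0]
    ring
  have hr : avg (fun p => r (χ p)) = r 1 + vf χ * (r 0 - r 1) := by
    have e : (fun p => r (χ p)) = fun p => r 1 + i0 χ p * (r 0 - r 1) := by
      ext p; exact hph r p
    rw [e, avg_add' (BM.const _) (hi.mul_const _), avg_const, avg_mul_const']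
    rfl
  have b1 := (BM.phase α₁ hχ.1).mul (bm_dX hu)
  have b2 := (BM.phase β₁ hχ.1).mul (bm_dY hu)
  have b3 := (BM.phase α₂ hχ.1).mul (bm_dX hv)
  have b4 := (BM.phase β₂ hχ.1).mul (bm_dY hv)
  rw [avg_add' ((BM.phase r hχ.1).add (b1.add b2)) (b3.add b4),
    avg_add' (BM.phase r hχ.1) (b1.add b2), avg_add' b1 b2, avg_add' b3 b4, hr,
    one α₁ _ (bm_dX hu) (avg_dX hu), one β₁ _ (bm_dY hu) (avg_dY hu),
    one α₂ _ (bm_dX hv) (avg_dX hv), one β₂ _ (bm_dY hv) (avg_dY hv)]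
  ring

/-- Z3. First bound. -/
theorem bound1 (K : Fin 2 → Ph) (hK : ∀ j, Ell (K j)) {χ : ℝ × ℝ → Fin 2} (hχ : IsPartition χ)
    (h0 : 0 < vf χ) (h1 : vf χ < 1) {x y z : ℝ}
    (hZ : IsZ K χ (vf χ * (1 - vf χ) * x) (vf χ * (1 - vf χ) * y) (vf χ * (1 - vf χ) * z))
    {τ : ℝ} (hτ : ∀ j, τ ^ 2 ≤ Dt (K j)) (s₁ t₁ s₂ t₂ : ℝ) :
    2 * τ * ((x * z - y ^ 2) * (s₁ * t₂ - t₁ * s₂))
      ≤ Pf K (vf χ) x y z s₁ t₁ + Pf K (vf χ) x y z s₂ t₂ := by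
  obtain ⟨u, hu, -, uX, uY, uQ⟩ := near_seq K hK hχ hZ s₁ t₁
  obtain ⟨v, hv, -, vX, vY, vQ⟩ := near_seq K hK hχ hZ s₂ t₂
  obtain ⟨θ, hθ⟩ : ∃ θ, θ = vf χ := ⟨_, rfl⟩
  rw [← hθ] at h0 h1 uX uY uQ vX vY vQ ⊢
  -- the fields `c`
  obtain ⟨gx₁, hgx₁⟩ : ∃ g, g = x * s₁ + y * t₁ := ⟨_, rfl⟩
  obtain ⟨gy₁, hgy₁⟩ : ∃ g, g = y * s₁ + z * t₁ := ⟨_, rfl⟩
  obtain ⟨gx₂, hgx₂⟩ : ∃ g, g = x * s₂ + y * t₂ := ⟨_, rfl⟩
  obtain ⟨gy₂, hgy₂⟩ : ∃ g, g = y * s₂ + z * t₂ := ⟨_, rfl⟩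
  let c : Fin 2 → ℝ := fun j => if j = 0 then -(1 - θ) else θ
  have c0 : c 0 = -(1 - θ) := rfl
  have c1 : c 1 = θ := rfl
  let r : Fin 2 → ℝ := fun j => Q (K j) (c j * gx₁) (c j * gy₁) + Q (K j) (c j * gx₂) (c j * gy₂)
    + 2 * τ * ((c j * gx₁) * (c j * gy₂) - (c j * gy₁) * (c j * gx₂))
  let α₁ : Fin 2 → ℝ := fun j => -2 * (K j 0 * (c j * gx₁) + K j 1 * (c j * gy₁))
    - 2 * τ * (c j * gy₂)
  let β₁ : Fin 2 → ℝ := fun j => -2 * (K j 1 * (c j * gx₁) + K j 2 * (c j * gy₁))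
    + 2 * τ * (c j * gx₂)
  let α₂ : Fin 2 → ℝ := fun j => -2 * (K j 0 * (c j * gx₂) + K j 1 * (c j * gy₂))
    + 2 * τ * (c j * gy₁)
  let β₂ : Fin 2 → ℝ := fun j => -2 * (K j 1 * (c j * gx₂) + K j 2 * (c j * gy₂))
    - 2 * τ * (c j * gx₁)
  have hn : ∀ n : ℕ, 0 ≤ (avg (fun p => Q (K (χ p)) (dX (u n) p) (dY (u n) p))
      + avg (fun p => Q (K (χ p)) (dX (v n) p) (dY (v n) p)))
      + (r 1 + θ * (r 0 - r 1)
        + (α₁ 0 - α₁ 1) * avg (fun p => i0 χ p * dX (u n) p)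
        + (β₁ 0 - β₁ 1) * avg (fun p => i0 χ p * dY (u n) p)
        + (α₂ 0 - α₂ 1) * avg (fun p => i0 χ p * dX (v n) p)
        + (β₂ 0 - β₂ 1) * avg (fun p => i0 χ p * dY (v n) p)) := by
    intro n
    have hun := hu n
    have hvn := hv n
    have e1 := avg_phase_aff hχ hun hvn r α₁ β₁ α₂ β₂
    rw [← hθ] at e1
    rw [← e1]
    have bQ1 := BM.Q K hχ.1 (bm_dX hun) (bm_dY hun)
    have bQ2 := BM.Q K hχ.1 (bm_dX hvn) (bm_dY hvn)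
    have bJ : BM (fun p => dX (u n) p * dY (v n) p - dY (u n) p * dX (v n) p) :=
      ((bm_dX hun).mul (bm_dY hvn)).sub ((bm_dY hun).mul (bm_dX hvn))
    have bA : BM (fun p => (r (χ p) + (α₁ (χ p) * dX (u n) p + β₁ (χ p) * dY (u n) p))
        + (α₂ (χ p) * dX (v n) p + β₂ (χ p) * dY (v n) p)) :=
      ((BM.phase r hχ.1).add (((BM.phase α₁ hχ.1).mul (bm_dX hun)).add
        ((BM.phase β₁ hχ.1).mul (bm_dY hun)))).add
        (((BM.phase α₂ hχ.1).mul (bm_dX hvn)).add ((BM.phase β₂ hχ.1).mul (bm_dY hvn)))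
    have e2 : 2 * τ * avg (fun p => dX (u n) p * dY (v n) p - dY (u n) p * dX (v n) p) = 0 := by
      rw [avg_jac hun hvn, mul_zero]
    have e3 : (avg (fun p => Q (K (χ p)) (dX (u n) p) (dY (u n) p))
      + avg (fun p => Q (K (χ p)) (dX (v n) p) (dY (v n) p)))
      + avg (fun p => (r (χ p) + (α₁ (χ p) * dX (u n) p + β₁ (χ p) * dY (u n) p))
        + (α₂ (χ p) * dX (v n) p + β₂ (χ p) * dY (v n) p))
      = avg (fun p => ((Q (K (χ p)) (dX (u n) p) (dY (u n) p)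
          + Q (K (χ p)) (dX (v n) p) (dY (v n) p))
          + 2 * τ * (dX (u n) p * dY (v n) p - dY (u n) p * dX (v n) p))
          + ((r (χ p) + (α₁ (χ p) * dX (u n) p + β₁ (χ p) * dY (u n) p))
            + (α₂ (χ p) * dX (v n) p + β₂ (χ p) * dY (v n) p))) := by
      rw [avg_add' ((bQ1.add bQ2).add (bJ.const_mul _)) bA,
        avg_add' (bQ1.add bQ2) (bJ.const_mul _), avg_add' bQ1 bQ2, avg_mul', e2, add_zero]
    rw [e3]
    refine avg_nonneg fun p => ?_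
    have h4 := quad4_nonneg (hK (χ p)) (hτ (χ p)) (dX (u n) p - c (χ p) * gx₁)
      (dY (u n) p - c (χ p) * gy₁) (dX (v n) p - c (χ p) * gx₂) (dY (v n) p - c (χ p) * gy₂)
    refine h4.trans (le_of_eq ?_)
    simp only [r, α₁, β₁, α₂, β₂]
    unfold Q
    ring
  have hlim := ((uQ.add vQ).add (((((tendsto_const_nhds (x := r 1 + θ * (r 0 - r 1))).add
    (uX.const_mul (α₁ 0 - α₁ 1))).add (uY.const_mul (β₁ 0 - β₁ 1))).add
    (vX.const_mul (α₂ 0 - α₂ 1))).add (vY.const_mul (β₂ 0 - β₂ 1))))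
  have hge := ge_of_tendsto' hlim hn
  have hκ : 0 < θ * (1 - θ) := mul_pos h0 (by linarith)
  have key : (θ * (1 - θ) * x * s₁ ^ 2 + 2 * (θ * (1 - θ) * y) * s₁ * t₁
        + θ * (1 - θ) * z * t₁ ^ 2
      + (θ * (1 - θ) * x * s₂ ^ 2 + 2 * (θ * (1 - θ) * y) * s₂ * t₂ + θ * (1 - θ) * z * t₂ ^ 2))
      + (r 1 + θ * (r 0 - r 1)
        + (α₁ 0 - α₁ 1) * -(θ * (1 - θ) * x * s₁ + θ * (1 - θ) * y * t₁)
        + (β₁ 0 - β₁ 1) * -(θ * (1 - θ) * y * s₁ + θ * (1 - θ) * z * t₁)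
        + (α₂ 0 - α₂ 1) * -(θ * (1 - θ) * x * s₂ + θ * (1 - θ) * y * t₂)
        + (β₂ 0 - β₂ 1) * -(θ * (1 - θ) * y * s₂ + θ * (1 - θ) * z * t₂))
      = θ * (1 - θ) * (Pf K θ x y z s₁ t₁ + Pf K θ x y z s₂ t₂
        - 2 * τ * ((x * z - y ^ 2) * (s₁ * t₂ - t₁ * s₂))) := by
    simp only [r, α₁, β₁, α₂, β₂]
    rw [c0, c1, hgx₁, hgy₁, hgx₂, hgy₂]
    unfold Pf Q
    ring
  rw [key] at hge
  have := nonneg_of_mul_nonneg_right hge hκ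
  linarith

end Pool.Agent.Lib.MP_2a9317_an.N1
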