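import Pool.Agent.Lib.MP_2a9317_an.N1.Z3

set_option autoImplicit false

namespace Pool.Agent.Lib.MP_2a9317_an.N1

open MeasureTheory Filter Topology
open scoped ContDiff




/-! ### Helpers of Z4 -/

lemma z4_bm_i0 {χ : ℝ × ℝ → Fin 2} (hχ : Measurable χ) : BM (i0 χ) :=
  BM.phase (fun j : Fin 2 => if j = 0 then (1 : ℝ) else 0) hχ

lemma z4_bm_coef (K : Fin 2 → Ph) {χ : ℝ × ℝ → Fin 2} (hχ : Measurable χ) (i : Fin 6) :
    BM (fun p => K (χ p) i) := BM.phase (fun j => K j i) hχ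

/-- first component of the current -/
noncomputable def z4J (K : Fin 2 → Ph) (χ : ℝ × ℝ → Fin 2) (i j : Fin 6) (s : ℝ)
    (u : ℝ × ℝ → ℝ) (p : ℝ × ℝ) : ℝ :=
  K (χ p) i * dX u p + K (χ p) j * dY u p + i0 χ p * s

lemma z4_bm_J (K : Fin 2 → Ph) {χ : ℝ × ℝ → Fin 2} (hχ : Measurable χ) (i j : Fin 6) (s : ℝ)
    {u : ℝ × ℝ → ℝ} (hu : IsPot u) : BM (z4J K χ i j s u) :=
  (((z4_bm_coef K hχ i).mul (bm_dX hu)).add ((z4_bm_coef K hχ j).mul (bm_dY hu))).add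
    ((z4_bm_i0 hχ).mul_const s)

lemma z4_bmp_J (K : Fin 2 → Ph) {χ : ℝ × ℝ → Fin 2} (hχ : IsPartition χ) (i j : Fin 6) (s : ℝ)
    {u : ℝ × ℝ → ℝ} (hu : IsPot u) : BMP (z4J K χ i j s u) := by
  obtain ⟨h1, h2⟩ := z4_bm_J K hχ.1 i j s hu
  refine ⟨h1, h2, fun x y => ⟨?_, ?_⟩⟩
  · simp only [z4J, i0, (hχ.2 x y).1, (dX_per hu x y).1, (dY_per hu x y).1]
  · simp only [z4J, i0, (hχ.2 x y).2, (dX_per hu x y).2, (dY_per hu x y).2]

lemma z4_pol_expand (K : Fin 2 → Ph) {χ : ℝ × ℝ → Fin 2} (hχ : IsPartition χ)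
    {u φ : ℝ × ℝ → ℝ} (hu : IsPot u) (hφ : IsPot φ) (s t r : ℝ) :
    Pol K χ s t (fun p => u p + r * φ p) = Pol K χ s t u
      + 2 * avg (fun p => z4J K χ 0 1 s u p * dX φ p + z4J K χ 1 2 t u p * dY φ p) * r
      + avg (fun p => Q (K (χ p)) (dX φ p) (dY φ p)) * r ^ 2 := by
  have hm := hχ.1
  have e : (fun p => Q (K (χ p)) (dX (fun p => u p + r * φ p) p) (dY (fun p => u p + r * φ p) p)
        + 2 * (i0 χ p * (s * dX (fun p => u p + r * φ p) p + t * dY (fun p => u p + r * φ p) p)))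
      = fun p => ((Q (K (χ p)) (dX u p) (dY u p) + 2 * (i0 χ p * (s * dX u p + t * dY u p)))
        + (2 * r) * (z4J K χ 0 1 s u p * dX φ p + z4J K χ 1 2 t u p * dY φ p))
        + r ^ 2 * Q (K (χ p)) (dX φ p) (dY φ p) := by
    ext p
    rw [dX_add hu (hφ.smul r), dY_add hu (hφ.smul r), dX_smul r hφ, dY_smul r hφ]
    unfold Q z4J
    ring
  have b1 : BM (fun p => Q (K (χ p)) (dX u p) (dY u p)
      + 2 * (i0 χ p * (s * dX u p + t * dY u p))) :=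
    (BM.Q K hm (bm_dX hu) (bm_dY hu)).add (((z4_bm_i0 hm).mul
      (((bm_dX hu).const_mul s).add ((bm_dY hu).const_mul t))).const_mul 2)
  have b2 : BM (fun p => z4J K χ 0 1 s u p * dX φ p + z4J K χ 1 2 t u p * dY φ p) :=
    ((z4_bm_J K hm 0 1 s hu).mul (bm_dX hφ)).add ((z4_bm_J K hm 1 2 t hu).mul (bm_dY hφ))
  have b3 : BM (fun p => Q (K (χ p)) (dX φ p) (dY φ p)) := BM.Q K hm (bm_dX hφ) (bm_dY hφ)
  unfold Pol
  rw [e, avg_add' (b1.add (b2.const_mul _)) (b3.const_mul _), avg_add' b1 (b2.const_mul _),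
    avg_mul', avg_mul']
  ring

/-- Euler-Lagrange inequality of a near minimizer -/
lemma z4_euler (K : Fin 2 → Ph) {χ : ℝ × ℝ → Fin 2} (hχ : IsPartition χ) {X Y Z : ℝ}
    (hZ : IsZ K χ X Y Z) {s t ε : ℝ} {u φ : ℝ × ℝ → ℝ} (hu : IsPot u) (hφ : IsPot φ)
    (hle : Pol K χ s t u ≤ -(X * s ^ 2 + 2 * Y * s * t + Z * t ^ 2) + ε) :
    avg (fun p => z4J K χ 0 1 s u p * dX φ p + z4J K χ 1 2 t u p * dY φ p) ^ 2
      ≤ ε * avg (fun p => Q (K (χ p)) (dX φ p) (dY φ p)) := by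
  apply sq_le_of_quad
  intro r
  have h := (hZ s t).1 _ (hu.add (hφ.smul r))
  rw [z4_pol_expand K hχ hu hφ] at h
  linarith

lemma z4_one_div_tendsto : Tendsto (fun n : ℕ => 1 / ((n : ℝ) + 1)) atTop (𝓝 0) :=
  tendsto_one_div_add_atTop_nhds_zero_nat

/-- Z4a. -/
theorem near_stream (K : Fin 2 → Ph) (hK : ∀ j, Ell (K j)) {χ : ℝ × ℝ → Fin 2}
    (hχ : IsPartition χ) {X Y Z : ℝ} (hZ : IsZ K χ X Y Z) (s t : ℝ) {u : ℕ → ℝ × ℝ → ℝ}
    (hu : ∀ n, IsPot (u n))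
    (hle : ∀ n, Pol K χ s t (u n) ≤ -(X * s ^ 2 + 2 * Y * s * t + Z * t ^ 2) + 1 / ((n : ℝ) + 1)) :
    ∃ b : ℕ → ℝ × ℝ → ℝ, (∀ n, IsPot (b n)) ∧
      Tendsto (fun n => avg fun p =>
        ((K (χ p) 0 * dX (u n) p + K (χ p) 1 * dY (u n) p + i0 χ p * s)
          - avg (fun p => K (χ p) 0 * dX (u n) p + K (χ p) 1 * dY (u n) p + i0 χ p * s)
          + dY (b n) p) ^ 2
        + ((K (χ p) 1 * dX (u n) p + K (χ p) 2 * dY (u n) p + i0 χ p * t)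
          - avg (fun p => K (χ p) 1 * dX (u n) p + K (χ p) 2 * dY (u n) p + i0 χ p * t)
          - dX (b n) p) ^ 2) atTop (𝓝 0) := by
  obtain ⟨m, C, hm, hC, H⟩ := unif_ell K hK
  have key : ∀ n, ∃ b, IsPot b ∧
      avg (fun p => (z4J K χ 0 1 s (u n) p - avg (z4J K χ 0 1 s (u n)) + dY b p) ^ 2
        + (z4J K χ 1 2 t (u n) p - avg (z4J K χ 1 2 t (u n)) - dX b p) ^ 2)
        ≤ 6 * (C * (1 / ((n : ℝ) + 1))) + 1 / ((n : ℝ) + 1) := by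
    intro n
    have hn : 0 < 1 / ((n : ℝ) + 1) := by positivity
    refine stream (z4_bmp_J K hχ 0 1 s (hu n)) (z4_bmp_J K hχ 1 2 t (hu n))
      (mul_nonneg hC.le hn.le) (fun φ hφ => ?_) hn
    refine (z4_euler K hχ hZ (hu n) hφ (hle n)).trans ?_
    have h1 : avg (fun p => Q (K (χ p)) (dX φ p) (dY φ p))
        ≤ avg (fun p => C * (dX φ p ^ 2 + dY φ p ^ 2)) :=
      avg_mono' (BM.Q K hχ.1 (bm_dX hφ) (bm_dY hφ))
        (((bm_dX hφ).sq.add (bm_dY hφ).sq).const_mul C) fun p => (H (χ p) _ _).2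
    rw [avg_mul'] at h1
    calc 1 / ((n : ℝ) + 1) * avg (fun p => Q (K (χ p)) (dX φ p) (dY φ p))
        ≤ 1 / ((n : ℝ) + 1) * (C * avg (fun p => dX φ p ^ 2 + dY φ p ^ 2)) :=
          mul_le_mul_of_nonneg_left h1 hn.le
      _ = C * (1 / ((n : ℝ) + 1)) * avg (fun p => dX φ p ^ 2 + dY φ p ^ 2) := by ring
  choose b hb1 hb2 using key
  refine ⟨b, hb1, ?_⟩
  have hlim : Tendsto (fun n : ℕ => 6 * (C * (1 / ((n : ℝ) + 1))) + 1 / ((n : ℝ) + 1)) atTop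
      (𝓝 0) := by
    have h := ((z4_one_div_tendsto.const_mul C).const_mul 6).add z4_one_div_tendsto
    simpa using h
  refine squeeze_zero (fun n => avg_nonneg fun p => by positivity) (fun n => ?_) hlim
  exact hb2 n

/-! ### Cross products of currents -/

lemma z4_tendsto_of_sq_le {a b : ℕ → ℝ} (h : ∀ n, a n ^ 2 ≤ b n)
    (hb : Tendsto b atTop (𝓝 0)) : Tendsto a atTop (𝓝 0) := by
  have h1 : Tendsto (fun n => Real.sqrt (b n)) atTop (𝓝 0) := by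
    have := (Real.continuous_sqrt.tendsto 0).comp hb
    simpa [Function.comp_def] using this
  refine squeeze_zero_norm (fun n => ?_) h1
  rw [Real.norm_eq_abs, ← Real.sqrt_sq_eq_abs]
  exact Real.sqrt_le_sqrt (h n)

/-- the variance is at most the second moment -/
lemma z4_var {f : ℝ × ℝ → ℝ} (hf : BM f) :
    avg (fun p => (f p - avg f) ^ 2) ≤ avg (fun p => f p ^ 2) := by
  have e : (fun p => (f p - avg f) ^ 2)
      = fun p => (f p ^ 2 + (-(2 * avg f)) * f p) + avg f ^ 2 := by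
    ext p; ring
  rw [e, avg_add' (hf.sq.add (hf.const_mul _)) (BM.const _), avg_add' hf.sq (hf.const_mul _),
    avg_mul', avg_const]
  nlinarith [sq_nonneg (avg f)]

lemma z4_cross {f₁ g₁ f₂ g₂ b₁ b₂ : ℝ × ℝ → ℝ} (hf₁ : BM f₁) (hg₁ : BM g₁) (hf₂ : BM f₂)
    (hg₂ : BM g₂) (hb₁ : IsPot b₁) (hb₂ : IsPot b₂) :
    avg (fun p => f₁ p * g₂ p - g₁ p * f₂ p) - (avg f₁ * avg g₂ - avg g₁ * avg f₂)
      = avg (fun p => (f₁ p - avg f₁ + dY b₁ p) * (g₂ p - avg g₂)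
          + (g₁ p - avg g₁ - dX b₁ p) * (-(f₂ p - avg f₂)))
        + avg (fun p => (g₂ p - avg g₂ - dX b₂ p) * (f₁ p - avg f₁)
          + (f₂ p - avg f₂ + dY b₂ p) * (-(g₁ p - avg g₁)))
        - avg (fun p => (f₁ p - avg f₁ + dY b₁ p) * (g₂ p - avg g₂ - dX b₂ p)
          + (g₁ p - avg g₁ - dX b₁ p) * (-(f₂ p - avg f₂ + dY b₂ p))) := by
  have F1 := hf₁.sub (BM.const (avg f₁))
  have G1 := hg₁.sub (BM.const (avg g₁))
  have F2 := hf₂.sub (BM.const (avg f₂))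
  have G2 := hg₂.sub (BM.const (avg g₂))
  have P1 := F1.add (bm_dY hb₁)
  have Q1 := G1.sub (bm_dX hb₁)
  have P2 := F2.add (bm_dY hb₂)
  have Q2 := G2.sub (bm_dX hb₂)
  have A := (P1.mul G2).add (Q1.mul F2.neg)
  have B := (Q2.mul F1).add (P2.mul G1.neg)
  have C := (P1.mul Q2).add (Q1.mul P2.neg)
  have D := ((bm_dX hb₁).mul (bm_dY hb₂)).sub ((bm_dY hb₁).mul (bm_dX hb₂))
  have hj := avg_jac hb₁ hb₂
  have e0 : avg (fun p => f₁ p * g₂ p - g₁ p * f₂ p) - (avg f₁ * avg g₂ - avg g₁ * avg f₂)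
      = avg (fun p => (f₁ p - avg f₁) * (g₂ p - avg g₂) - (g₁ p - avg g₁) * (f₂ p - avg f₂)) := by
    have e : (fun p => (f₁ p - avg f₁) * (g₂ p - avg g₂) - (g₁ p - avg g₁) * (f₂ p - avg f₂))
        = fun p => ((f₁ p * g₂ p - g₁ p * f₂ p) + (((-avg g₂) * f₁ p + (-avg f₁) * g₂ p)
          + (avg g₁ * f₂ p + avg f₂ * g₁ p))) + (avg f₁ * avg g₂ - avg g₁ * avg f₂) := by
      ext p; ring
    rw [e, avg_add' (((hf₁.mul hg₂).sub (hg₁.mul hf₂)).add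
      (((hf₁.const_mul _).add (hg₂.const_mul _)).add ((hf₂.const_mul _).add (hg₁.const_mul _))))
      (BM.const _), avg_add' ((hf₁.mul hg₂).sub (hg₁.mul hf₂))
      (((hf₁.const_mul _).add (hg₂.const_mul _)).add ((hf₂.const_mul _).add (hg₁.const_mul _))),
      avg_add' ((hf₁.const_mul _).add (hg₂.const_mul _)) ((hf₂.const_mul _).add (hg₁.const_mul _)),
      avg_add' (hf₁.const_mul _) (hg₂.const_mul _), avg_add' (hf₂.const_mul _) (hg₁.const_mul _),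
      avg_mul', avg_mul', avg_mul', avg_mul', avg_const]
    ring
  have e1 : (fun p => (f₁ p - avg f₁) * (g₂ p - avg g₂) - (g₁ p - avg g₁) * (f₂ p - avg f₂))
      = fun p => ((((f₁ p - avg f₁ + dY b₁ p) * (g₂ p - avg g₂)
          + (g₁ p - avg g₁ - dX b₁ p) * (-(f₂ p - avg f₂)))
        + ((g₂ p - avg g₂ - dX b₂ p) * (f₁ p - avg f₁)
          + (f₂ p - avg f₂ + dY b₂ p) * (-(g₁ p - avg g₁))))
        - ((f₁ p - avg f₁ + dY b₁ p) * (g₂ p - avg g₂ - dX b₂ p)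
          + (g₁ p - avg g₁ - dX b₁ p) * (-(f₂ p - avg f₂ + dY b₂ p))))
        + (dX b₁ p * dY b₂ p - dY b₁ p * dX b₂ p) := by
    ext p; ring
  rw [e0, e1, avg_add' ((A.add B).sub C) D, avg_sub' (A.add B) C, avg_add' A B, hj, add_zero]

lemma z4_cross_tendsto {f₁ g₁ f₂ g₂ b₁ b₂ : ℕ → ℝ × ℝ → ℝ} (hf₁ : ∀ n, BM (f₁ n))
    (hg₁ : ∀ n, BM (g₁ n)) (hf₂ : ∀ n, BM (f₂ n)) (hg₂ : ∀ n, BM (g₂ n))
    (hb₁ : ∀ n, IsPot (b₁ n)) (hb₂ : ∀ n, IsPot (b₂ n))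
    (h1 : Tendsto (fun n => avg fun p => (f₁ n p - avg (f₁ n) + dY (b₁ n) p) ^ 2
      + (g₁ n p - avg (g₁ n) - dX (b₁ n) p) ^ 2) atTop (𝓝 0))
    (h2 : Tendsto (fun n => avg fun p => (f₂ n p - avg (f₂ n) + dY (b₂ n) p) ^ 2
      + (g₂ n p - avg (g₂ n) - dX (b₂ n) p) ^ 2) atTop (𝓝 0))
    {B : ℝ} (hB₁ : ∀ n, avg (fun p => f₁ n p ^ 2 + g₁ n p ^ 2) ≤ B)
    (hB₂ : ∀ n, avg (fun p => f₂ n p ^ 2 + g₂ n p ^ 2) ≤ B) :
    Tendsto (fun n => avg (fun p => f₁ n p * g₂ n p - g₁ n p * f₂ n p)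
      - (avg (f₁ n) * avg (g₂ n) - avg (g₁ n) * avg (f₂ n))) atTop (𝓝 0) := by
  have F1 := fun n => (hf₁ n).sub (BM.const (avg (f₁ n)))
  have G1 := fun n => (hg₁ n).sub (BM.const (avg (g₁ n)))
  have F2 := fun n => (hf₂ n).sub (BM.const (avg (f₂ n)))
  have G2 := fun n => (hg₂ n).sub (BM.const (avg (g₂ n)))
  have P1 := fun n => (F1 n).add (bm_dY (hb₁ n))
  have Q1 := fun n => (G1 n).sub (bm_dX (hb₁ n))
  have P2 := fun n => (F2 n).add (bm_dY (hb₂ n))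
  have Q2 := fun n => (G2 n).sub (bm_dX (hb₂ n))
  have V : ∀ {f g : ℝ × ℝ → ℝ}, BM f → BM g → avg (fun p => f p ^ 2 + g p ^ 2) ≤ B →
      avg (fun p => (g p - avg g) ^ 2 + (-(f p - avg f)) ^ 2) ≤ B := by
    intro f g hf hg h
    have a1 := z4_var hf
    have a2 := z4_var hg
    rw [avg_add' hf.sq hg.sq] at h
    have e : (fun p => (g p - avg g) ^ 2 + (-(f p - avg f)) ^ 2)
        = fun p => (g p - avg g) ^ 2 + (f p - avg f) ^ 2 := by ext p; ring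
    rw [e, avg_add' (hg.sub (BM.const _)).sq (hf.sub (BM.const _)).sq]
    linarith
  have V' : ∀ {f g : ℝ × ℝ → ℝ}, BM f → BM g → avg (fun p => f p ^ 2 + g p ^ 2) ≤ B →
      avg (fun p => (f p - avg f) ^ 2 + (-(g p - avg g)) ^ 2) ≤ B := by
    intro f g hf hg h
    refine V hg hf ?_
    rw [avg_add' hg.sq hf.sq]
    rw [avg_add' hf.sq hg.sq] at h
    linarith
  have T1 : Tendsto (fun n => avg (fun p => (f₁ n p - avg (f₁ n) + dY (b₁ n) p)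
        * (g₂ n p - avg (g₂ n))
        + (g₁ n p - avg (g₁ n) - dX (b₁ n) p) * (-(f₂ n p - avg (f₂ n))))) atTop (𝓝 0) := by
    refine z4_tendsto_of_sq_le (fun n => ?_) (b := fun n => (avg fun p =>
      (f₁ n p - avg (f₁ n) + dY (b₁ n) p) ^ 2 + (g₁ n p - avg (g₁ n) - dX (b₁ n) p) ^ 2) * B) ?_
    · refine (avg_cs2 (P1 n) (Q1 n) (G2 n) (F2 n).neg).trans ?_
      exact mul_le_mul_of_nonneg_left (V (hf₂ n) (hg₂ n) (hB₂ n))
        (avg_nonneg fun p => by positivity)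
    · simpa using h1.mul_const B
  have T2 : Tendsto (fun n => avg (fun p => (g₂ n p - avg (g₂ n) - dX (b₂ n) p)
        * (f₁ n p - avg (f₁ n))
        + (f₂ n p - avg (f₂ n) + dY (b₂ n) p) * (-(g₁ n p - avg (g₁ n))))) atTop (𝓝 0) := by
    refine z4_tendsto_of_sq_le (fun n => ?_) (b := fun n => (avg fun p =>
      (f₂ n p - avg (f₂ n) + dY (b₂ n) p) ^ 2 + (g₂ n p - avg (g₂ n) - dX (b₂ n) p) ^ 2) * B) ?_
    · refine (avg_cs2 (Q2 n) (P2 n) (F1 n) (G1 n).neg).trans ?_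
      have e : avg (fun p => (g₂ n p - avg (g₂ n) - dX (b₂ n) p) ^ 2
            + (f₂ n p - avg (f₂ n) + dY (b₂ n) p) ^ 2)
          = avg (fun p => (f₂ n p - avg (f₂ n) + dY (b₂ n) p) ^ 2
            + (g₂ n p - avg (g₂ n) - dX (b₂ n) p) ^ 2) := by
        congr 1; ext p; ring
      rw [e]
      exact mul_le_mul_of_nonneg_left (V' (hf₁ n) (hg₁ n) (hB₁ n))
        (avg_nonneg fun p => by positivity)
    · simpa using h2.mul_const B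
  have T3 : Tendsto (fun n => avg (fun p => (f₁ n p - avg (f₁ n) + dY (b₁ n) p)
        * (g₂ n p - avg (g₂ n) - dX (b₂ n) p)
        + (g₁ n p - avg (g₁ n) - dX (b₁ n) p) * (-(f₂ n p - avg (f₂ n) + dY (b₂ n) p))))
        atTop (𝓝 0) := by
    refine z4_tendsto_of_sq_le (fun n => ?_) (b := fun n => (avg fun p =>
      (f₁ n p - avg (f₁ n) + dY (b₁ n) p) ^ 2 + (g₁ n p - avg (g₁ n) - dX (b₁ n) p) ^ 2)
      * (avg fun p => (f₂ n p - avg (f₂ n) + dY (b₂ n) p) ^ 2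
        + (g₂ n p - avg (g₂ n) - dX (b₂ n) p) ^ 2)) ?_
    · refine (avg_cs2 (P1 n) (Q1 n) (Q2 n) (P2 n).neg).trans ?_
      have e : avg (fun p => (g₂ n p - avg (g₂ n) - dX (b₂ n) p) ^ 2
            + (-(f₂ n p - avg (f₂ n) + dY (b₂ n) p)) ^ 2)
          = avg (fun p => (f₂ n p - avg (f₂ n) + dY (b₂ n) p) ^ 2
            + (g₂ n p - avg (g₂ n) - dX (b₂ n) p) ^ 2) := by
        congr 1; ext p; ring
      rw [e]
    · simpa using h1.mul h2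
  have T := (T1.add T2).sub T3
  simp only [add_zero, sub_zero] at T
  refine T.congr fun n => ?_
  exact (z4_cross (hf₁ n) (hg₁ n) (hf₂ n) (hg₂ n) (hb₁ n) (hb₂ n)).symm

/-! ### The second bound -/

lemma z4_form {K : Ph} (hK : Ell K) {τ : ℝ} (hτ : τ ^ 2 * Dt K ≤ 1) (a b c d : ℝ) :
    0 ≤ Q K a b + Q K c d + 2 * τ * (Dt K * (a * d - b * c)) := by
  obtain ⟨h0, hD⟩ := hK
  have e : K 0 * (Q K a b + Q K c d + 2 * τ * (Dt K * (a * d - b * c)))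
      = (K 0 * a + K 1 * b + τ * Dt K * d) ^ 2 + (K 0 * c + K 1 * d - τ * Dt K * b) ^ 2
        + Dt K * (1 - τ ^ 2 * Dt K) * (b ^ 2 + d ^ 2) := by
    unfold Q Dt; ring
  have h1 : 0 ≤ Dt K * (1 - τ ^ 2 * Dt K) * (b ^ 2 + d ^ 2) :=
    mul_nonneg (mul_nonneg hD.le (by linarith)) (by positivity)
  have h2 : 0 ≤ K 0 * (Q K a b + Q K c d + 2 * τ * (Dt K * (a * d - b * c))) := by
    rw [e]
    have := sq_nonneg (K 0 * a + K 1 * b + τ * Dt K * d)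
    have := sq_nonneg (K 0 * c + K 1 * d - τ * Dt K * b)
    linarith
  exact nonneg_of_mul_nonneg_right (by linarith) h0

/-- coefficient of `∂ₓ u` -/
def z4a (K : Ph) (τ cx cy jx jy : ℝ) : ℝ :=
  -2 * (K 0 * cx + K 1 * cy) + 2 * τ * (K 1 * jx - K 0 * jy)

/-- coefficient of `∂ᵧ u` -/
def z4b (K : Ph) (τ cx cy jx jy : ℝ) : ℝ :=
  -2 * (K 1 * cx + K 2 * cy) + 2 * τ * (K 2 * jx - K 1 * jy)

/-- current -/
def z4jx (K : Ph) (cx cy s : ℝ) : ℝ := K 0 * cx + K 1 * cy + s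
def z4jy (K : Ph) (cx cy s : ℝ) : ℝ := K 1 * cx + K 2 * cy + s

/-- constant term -/
def z4g (K : Ph) (τ cx cy dx dy s t s' t' : ℝ) : ℝ :=
  Q K cx cy + Q K dx dy + 2 * τ * ((z4jx K cx cy s * z4jy K dx dy t' - z4jy K cx cy t * z4jx K dx dy s')
    - (s * z4jy K dx dy t' - t * z4jx K dx dy s') - (z4jx K cx cy s * t' - z4jy K cx cy t * s'))

lemma z4_pt {K : Ph} (hK : Ell K) {τ : ℝ} (hτ : τ ^ 2 * Dt K ≤ 1)
    (cx cy dx dy s t s' t' v w v' w' : ℝ) :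
    0 ≤ Q K v w + Q K v' w' + 2 * τ * ((K 0 * v + K 1 * w + s) * (K 1 * v' + K 2 * w' + t')
        - (K 1 * v + K 2 * w + t) * (K 0 * v' + K 1 * w' + s'))
      + (z4a K τ cx cy (z4jx K dx dy s') (z4jy K dx dy t') * v
        + z4b K τ cx cy (z4jx K dx dy s') (z4jy K dx dy t') * w)
      + (z4a K (-τ) dx dy (z4jx K cx cy s) (z4jy K cx cy t) * v'
        + z4b K (-τ) dx dy (z4jx K cx cy s) (z4jy K cx cy t) * w')
      + z4g K τ cx cy dx dy s t s' t' := by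
  have h := z4_form hK hτ (v - cx) (w - cy) (v' - dx) (w' - dy)
  refine h.trans_eq ?_
  unfold z4g z4a z4b z4jx z4jy Q Dt
  ring

lemma z4_split (χ : ℝ × ℝ → Fin 2) (c : Fin 2 → ℝ) (p : ℝ × ℝ) :
    c (χ p) = c 1 + i0 χ p * (c 0 - c 1) := by
  unfold i0
  by_cases h : χ p = 0
  · rw [if_pos h, h]; ring
  · have h' : χ p = 1 := by
      have := (χ p).isLt
      ext
      have h2 : (χ p : ℕ) ≠ 0 := fun h3 => h (Fin.ext h3)
      simp only [Fin.val_one]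
      omega
    rw [if_neg h, h']; ring

lemma z4_avg_lin {χ : ℝ × ℝ → Fin 2} (hχ : Measurable χ) (a b : Fin 2 → ℝ)
    {u : ℝ × ℝ → ℝ} (hu : IsPot u) :
    avg (fun p => a (χ p) * dX u p + b (χ p) * dY u p)
      = (a 0 - a 1) * avg (fun p => i0 χ p * dX u p)
        + (b 0 - b 1) * avg (fun p => i0 χ p * dY u p) := by
  have e : (fun p => a (χ p) * dX u p + b (χ p) * dY u p)
      = fun p => (a 1 * dX u p + b 1 * dY u p)
        + ((a 0 - a 1) * (i0 χ p * dX u p) + (b 0 - b 1) * (i0 χ p * dY u p)) := by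
    ext p
    rw [z4_split χ a p, z4_split χ b p]; ring
  have x := bm_dX hu
  have y := bm_dY hu
  have i := z4_bm_i0 hχ
  rw [e, avg_add' ((x.const_mul _).add (y.const_mul _))
    (((i.mul x).const_mul _).add ((i.mul y).const_mul _)),
    avg_add' (x.const_mul _) (y.const_mul _),
    avg_add' ((i.mul x).const_mul _) ((i.mul y).const_mul _), avg_mul', avg_mul', avg_mul', avg_mul',
    avg_dX hu, avg_dY hu]
  ring

lemma z4_avg_const {χ : ℝ × ℝ → Fin 2} (hχ : Measurable χ) (g : Fin 2 → ℝ) :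
    avg (fun p => g (χ p)) = g 1 + (g 0 - g 1) * vf χ := by
  have e : (fun p => g (χ p)) = fun p => g 1 + (g 0 - g 1) * i0 χ p := by
    ext p
    rw [z4_split χ g p]; ring
  rw [e, avg_add' (BM.const _) ((z4_bm_i0 hχ).const_mul _), avg_const, avg_mul']
  rfl

lemma z4_avg_J (K : Fin 2 → Ph) {χ : ℝ × ℝ → Fin 2} (hχ : Measurable χ) (i j : Fin 6) (s : ℝ)
    {u : ℝ × ℝ → ℝ} (hu : IsPot u) :
    avg (z4J K χ i j s u) = (K 0 i - K 1 i) * avg (fun p => i0 χ p * dX u p)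
      + (K 0 j - K 1 j) * avg (fun p => i0 χ p * dY u p) + s * vf χ := by
  have e : z4J K χ i j s u = fun p => (K (χ p) i * dX u p + K (χ p) j * dY u p) + s * i0 χ p := by
    ext p; unfold z4J; ring
  rw [e, avg_add' (((z4_bm_coef K hχ i).mul (bm_dX hu)).add ((z4_bm_coef K hχ j).mul (bm_dY hu)))
    ((z4_bm_i0 hχ).const_mul _), avg_mul',
    z4_avg_lin hχ (fun k => K k i) (fun k => K k j) hu]
  rfl

/-- the energies of the currents of near minimizers are bounded -/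
lemma z4_bdd (K : Fin 2 → Ph) (hK : ∀ j, Ell (K j)) {χ : ℝ × ℝ → Fin 2} (hχ : IsPartition χ)
    (s t : ℝ) {u : ℕ → ℝ × ℝ → ℝ} (hu : ∀ n, IsPot (u n)) {L : ℝ}
    (hQ : Tendsto (fun n => avg fun p => Q (K (χ p)) (dX (u n) p) (dY (u n) p)) atTop (𝓝 L)) :
    ∃ B : ℝ, ∀ n, avg (fun p => z4J K χ 0 1 s (u n) p ^ 2 + z4J K χ 1 2 t (u n) p ^ 2) ≤ B := by
  obtain ⟨m, C, hm, hC, H⟩ := unif_ell K hK
  obtain ⟨B0, hB0⟩ := hQ.bddAbove_range
  set M : ℝ := ∑ j, (K j 0 ^ 2 + K j 1 ^ 2 + K j 2 ^ 2) with hM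
  have hM0 : 0 ≤ M := Finset.sum_nonneg fun j _ => by positivity
  refine ⟨6 * M / m * B0 + 3 * (s ^ 2 + t ^ 2), fun n => ?_⟩
  have bQ := BM.Q K hχ.1 (bm_dX (hu n)) (bm_dY (hu n))
  have h1 : avg (fun p => z4J K χ 0 1 s (u n) p ^ 2 + z4J K χ 1 2 t (u n) p ^ 2)
      ≤ avg (fun p => 6 * M / m * Q (K (χ p)) (dX (u n) p) (dY (u n) p)
        + 3 * (s ^ 2 + t ^ 2)) := by
    refine avg_mono' ((z4_bm_J K hχ.1 0 1 s (hu n)).sq.add (z4_bm_J K hχ.1 1 2 t (hu n)).sq)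
      ((bQ.const_mul _).add (BM.const _)) fun p => ?_
    have hj : K (χ p) 0 ^ 2 + K (χ p) 1 ^ 2 + K (χ p) 2 ^ 2 ≤ M :=
      Finset.single_le_sum (f := fun j => K j 0 ^ 2 + K j 1 ^ 2 + K j 2 ^ 2)
        (fun j _ => by positivity) (Finset.mem_univ (χ p))
    have hi : i0 χ p ^ 2 ≤ 1 := by
      unfold i0; split <;> norm_num
    have h2 := (H (χ p) (dX (u n) p) (dY (u n) p)).1
    set a := dX (u n) p
    set b := dY (u n) p
    set q := Q (K (χ p)) a b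
    have h3 : a ^ 2 + b ^ 2 ≤ q / m := by rw [le_div_iff₀ hm]; linarith
    have h4 : 6 * M * (a ^ 2 + b ^ 2) ≤ 6 * M * (q / m) :=
      mul_le_mul_of_nonneg_left h3 (by positivity)
    have h5 : 6 * M * (q / m) = 6 * M / m * q := by ring
    rw [h5] at h4
    have h6 : ∀ x y z : ℝ, (x + y + z) ^ 2 ≤ 3 * (x ^ 2 + y ^ 2 + z ^ 2) := fun x y z => by
      nlinarith [sq_nonneg (x - y), sq_nonneg (y - z), sq_nonneg (x - z)]
    have h7 := h6 (K (χ p) 0 * a) (K (χ p) 1 * b) (i0 χ p * s)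
    have h8 := h6 (K (χ p) 1 * a) (K (χ p) 2 * b) (i0 χ p * t)
    unfold z4J
    have h9 : (K (χ p) 0 ^ 2 + K (χ p) 1 ^ 2 + K (χ p) 2 ^ 2) * (a ^ 2 + b ^ 2)
        ≤ M * (a ^ 2 + b ^ 2) := mul_le_mul_of_nonneg_right hj (by positivity)
    have h10 : i0 χ p ^ 2 * (s ^ 2 + t ^ 2) ≤ 1 * (s ^ 2 + t ^ 2) :=
      mul_le_mul_of_nonneg_right hi (by positivity)
    nlinarith [mul_nonneg (sq_nonneg (K (χ p) 0)) (sq_nonneg b),
      mul_nonneg (sq_nonneg (K (χ p) 1)) (sq_nonneg b),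
      mul_nonneg (sq_nonneg (K (χ p) 2)) (sq_nonneg a), 
      mul_nonneg (sq_nonneg (K (χ p) 1)) (sq_nonneg a),
      mul_nonneg (sq_nonneg (K (χ p) 0)) (sq_nonneg a),
      mul_nonneg (sq_nonneg (K (χ p) 2)) (sq_nonneg b)]
  rw [avg_add' (bQ.const_mul _) (BM.const _), avg_mul', avg_const] at h1
  refine h1.trans ?_
  have h2 : avg (fun p => Q (K (χ p)) (dX (u n) p) (dY (u n) p)) ≤ B0 := hB0 ⟨n, rfl⟩
  have h3 : 0 ≤ 6 * M / m := by positivity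
  have := mul_le_mul_of_nonneg_left h2 h3
  linarith

/-- the averaged form of `z4_pt` -/
lemma z4_avg_pt (K : Fin 2 → Ph) (hK : ∀ j, Ell (K j)) {χ : ℝ × ℝ → Fin 2} (hχ : IsPartition χ)
    {τ : ℝ} (hτ : ∀ j, τ ^ 2 * Dt (K j) ≤ 1) (s t s' t' : ℝ) {u v : ℝ × ℝ → ℝ} (hu : IsPot u)
    (hv : IsPot v) (cx cy dx dy σ ρ σ' ρ' : Fin 2 → ℝ)
    (hσ : ∀ p, σ (χ p) = i0 χ p * s) (hρ : ∀ p, ρ (χ p) = i0 χ p * t)
    (hσ' : ∀ p, σ' (χ p) = i0 χ p * s') (hρ' : ∀ p, ρ' (χ p) = i0 χ p * t')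
    (a b a' b' g : Fin 2 → ℝ)
    (ha : ∀ j, a j = z4a (K j) τ (cx j) (cy j) (z4jx (K j) (dx j) (dy j) (σ' j))
      (z4jy (K j) (dx j) (dy j) (ρ' j)))
    (hb : ∀ j, b j = z4b (K j) τ (cx j) (cy j) (z4jx (K j) (dx j) (dy j) (σ' j))
      (z4jy (K j) (dx j) (dy j) (ρ' j)))
    (ha' : ∀ j, a' j = z4a (K j) (-τ) (dx j) (dy j) (z4jx (K j) (cx j) (cy j) (σ j))
      (z4jy (K j) (cx j) (cy j) (ρ j)))
    (hb' : ∀ j, b' j = z4b (K j) (-τ) (dx j) (dy j) (z4jx (K j) (cx j) (cy j) (σ j))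
      (z4jy (K j) (cx j) (cy j) (ρ j)))
    (hg : ∀ j, g j = z4g (K j) τ (cx j) (cy j) (dx j) (dy j) (σ j) (ρ j) (σ' j) (ρ' j)) :
    0 ≤ avg (fun p => Q (K (χ p)) (dX u p) (dY u p)) + avg (fun p => Q (K (χ p)) (dX v p) (dY v p))
      + 2 * τ * avg (fun p => z4J K χ 0 1 s u p * z4J K χ 1 2 t' v p
        - z4J K χ 1 2 t u p * z4J K χ 0 1 s' v p)
      + ((a 0 - a 1) * avg (fun p => i0 χ p * dX u p)
        + (b 0 - b 1) * avg (fun p => i0 χ p * dY u p))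
      + ((a' 0 - a' 1) * avg (fun p => i0 χ p * dX v p)
        + (b' 0 - b' 1) * avg (fun p => i0 χ p * dY v p))
      + (g 1 + (g 0 - g 1) * vf χ) := by
  have hm := hχ.1
  have B1 := BM.Q K hm (bm_dX hu) (bm_dY hu)
  have B2 := BM.Q K hm (bm_dX hv) (bm_dY hv)
  have B3 := ((z4_bm_J K hm 0 1 s hu).mul (z4_bm_J K hm 1 2 t' hv)).sub
    ((z4_bm_J K hm 1 2 t hu).mul (z4_bm_J K hm 0 1 s' hv))
  have B4 := ((BM.phase a hm).mul (bm_dX hu)).add ((BM.phase b hm).mul (bm_dY hu))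
  have B5 := ((BM.phase a' hm).mul (bm_dX hv)).add ((BM.phase b' hm).mul (bm_dY hv))
  have B6 := BM.phase g hm
  have e : avg (fun p => ((((Q (K (χ p)) (dX u p) (dY u p) + Q (K (χ p)) (dX v p) (dY v p))
      + 2 * τ * (z4J K χ 0 1 s u p * z4J K χ 1 2 t' v p
        - z4J K χ 1 2 t u p * z4J K χ 0 1 s' v p))
      + (a (χ p) * dX u p + b (χ p) * dY u p))
      + (a' (χ p) * dX v p + b' (χ p) * dY v p)) + g (χ p))
      = avg (fun p => Q (K (χ p)) (dX u p) (dY u p))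
        + avg (fun p => Q (K (χ p)) (dX v p) (dY v p))
      + 2 * τ * avg (fun p => z4J K χ 0 1 s u p * z4J K χ 1 2 t' v p
        - z4J K χ 1 2 t u p * z4J K χ 0 1 s' v p)
      + ((a 0 - a 1) * avg (fun p => i0 χ p * dX u p)
        + (b 0 - b 1) * avg (fun p => i0 χ p * dY u p))
      + ((a' 0 - a' 1) * avg (fun p => i0 χ p * dX v p)
        + (b' 0 - b' 1) * avg (fun p => i0 χ p * dY v p))
      + (g 1 + (g 0 - g 1) * vf χ) := by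
    rw [avg_add' (((((B1.add B2).add (B3.const_mul _)).add B4).add B5)) B6,
      avg_add' ((((B1.add B2).add (B3.const_mul _)).add B4)) B5,
      avg_add' (((B1.add B2).add (B3.const_mul _))) B4,
      avg_add' (B1.add B2) (B3.const_mul _), avg_add' B1 B2, avg_mul',
      z4_avg_lin hm a b hu, z4_avg_lin hm a' b' hv, z4_avg_const hm g]
  rw [← e]
  refine avg_nonneg fun p => ?_
  have h := z4_pt (hK (χ p)) (hτ (χ p)) (cx (χ p)) (cy (χ p)) (dx (χ p)) (dy (χ p)) (σ (χ p))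
    (ρ (χ p)) (σ' (χ p)) (ρ' (χ p)) (dX u p) (dY u p) (dX v p) (dY v p)
  rw [← ha, ← hb, ← ha', ← hb', ← hg, hσ, hρ, hσ', hρ'] at h
  exact h

/-- Z4b. Second bound. -/
theorem bound2 (K : Fin 2 → Ph) (hK : ∀ j, Ell (K j)) {χ : ℝ × ℝ → Fin 2} (hχ : IsPartition χ)
    (h0 : 0 < vf χ) (h1 : vf χ < 1) {x y z : ℝ}
    (hZ : IsZ K χ (vf χ * (1 - vf χ) * x) (vf χ * (1 - vf χ) * y) (vf χ * (1 - vf χ) * z))
    {τ : ℝ} (hτ : ∀ j, τ ^ 2 * Dt (K j) ≤ 1) (s₁ t₁ s₂ t₂ : ℝ) :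
    2 * τ * (gD (K 0) (K 1) (vf χ) 0 x y z * (s₁ * t₂ - t₁ * s₂))
      ≤ Pf K (vf χ) x y z s₁ t₁ + Pf K (vf χ) x y z s₂ t₂ := by
  set θ := vf χ with hθ
  have hκ : 0 < θ * (1 - θ) := mul_pos h0 (by linarith)
  obtain ⟨u, hu, hule, hux, huy, huQ⟩ := near_seq K hK hχ hZ s₁ t₁
  obtain ⟨v, hv, hvle, hvx, hvy, hvQ⟩ := near_seq K hK hχ hZ s₂ t₂
  obtain ⟨b₁, hb₁, hT₁⟩ := near_stream K hK hχ hZ s₁ t₁ hu hule
  obtain ⟨b₂, hb₂, hT₂⟩ := near_stream K hK hχ hZ s₂ t₂ hv hvle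
  obtain ⟨B₁, hB₁⟩ := z4_bdd K hK hχ s₁ t₁ hu huQ
  obtain ⟨B₂, hB₂⟩ := z4_bdd K hK hχ s₂ t₂ hv hvQ
  have hm := hχ.1
  have hcross := z4_cross_tendsto (f₁ := fun n => z4J K χ 0 1 s₁ (u n))
    (g₁ := fun n => z4J K χ 1 2 t₁ (u n)) (f₂ := fun n => z4J K χ 0 1 s₂ (v n))
    (g₂ := fun n => z4J K χ 1 2 t₂ (v n)) (fun n => z4_bm_J K hm 0 1 s₁ (hu n))
    (fun n => z4_bm_J K hm 1 2 t₁ (hu n)) (fun n => z4_bm_J K hm 0 1 s₂ (hv n))
    (fun n => z4_bm_J K hm 1 2 t₂ (hv n)) hb₁ hb₂ hT₁ hT₂ (B := max B₁ B₂)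
    (fun n => (hB₁ n).trans (le_max_left _ _)) (fun n => (hB₂ n).trans (le_max_right _ _))
  -- limits of the averages of the currents
  have hJ : ∀ (i j : Fin 6) (s : ℝ) {w : ℕ → ℝ × ℝ → ℝ} (_ : ∀ n, IsPot (w n)) {X Y : ℝ},
      Tendsto (fun n => avg fun p => i0 χ p * dX (w n) p) atTop (𝓝 X) →
      Tendsto (fun n => avg fun p => i0 χ p * dY (w n) p) atTop (𝓝 Y) →
      Tendsto (fun n => avg (z4J K χ i j s (w n))) atTop
        (𝓝 ((K 0 i - K 1 i) * X + (K 0 j - K 1 j) * Y + s * θ)) := by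
    intro i j s w hw X Y hX hY
    refine (((hX.const_mul (K 0 i - K 1 i)).add (hY.const_mul (K 0 j - K 1 j))).add_const
      (s * θ)).congr fun n => ?_
    exact (z4_avg_J K hm i j s (hw n)).symm
  have hf₁ := hJ 0 1 s₁ hu hux huy
  have hg₁ := hJ 1 2 t₁ hu hux huy
  have hf₂ := hJ 0 1 s₂ hv hvx hvy
  have hg₂ := hJ 1 2 t₂ hv hvx hvy
  have hC := hcross.add ((hf₁.mul hg₂).sub (hg₁.mul hf₂))
  simp only [sub_add_cancel, zero_add] at hC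
  -- the coefficients
  let zx : ℝ → ℝ → ℝ := fun s t => x * s + y * t
  let zy : ℝ → ℝ → ℝ := fun s t => y * s + z * t
  let w : Fin 2 → ℝ := ![-(1 - θ), θ]
  let o : Fin 2 → ℝ := ![1, 0]
  let cx : Fin 2 → ℝ := fun j => w j * zx s₁ t₁
  let cy : Fin 2 → ℝ := fun j => w j * zy s₁ t₁
  let dx : Fin 2 → ℝ := fun j => w j * zx s₂ t₂
  let dy : Fin 2 → ℝ := fun j => w j * zy s₂ t₂
  have ho : ∀ (s : ℝ) (p : ℝ × ℝ), (fun j => o j * s) (χ p) = i0 χ p * s := by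
    intro s p
    have h : o (χ p) = i0 χ p := by
      rw [z4_split χ o p]; simp [o]
    show o (χ p) * s = i0 χ p * s
    rw [h]
  let a : Fin 2 → ℝ := fun j => z4a (K j) τ (cx j) (cy j) (z4jx (K j) (dx j) (dy j) (o j * s₂))
      (z4jy (K j) (dx j) (dy j) (o j * t₂))
  let b : Fin 2 → ℝ := fun j => z4b (K j) τ (cx j) (cy j) (z4jx (K j) (dx j) (dy j) (o j * s₂))
      (z4jy (K j) (dx j) (dy j) (o j * t₂))
  let a' : Fin 2 → ℝ := fun j => z4a (K j) (-τ) (dx j) (dy j)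
      (z4jx (K j) (cx j) (cy j) (o j * s₁)) (z4jy (K j) (cx j) (cy j) (o j * t₁))
  let b' : Fin 2 → ℝ := fun j => z4b (K j) (-τ) (dx j) (dy j)
      (z4jx (K j) (cx j) (cy j) (o j * s₁)) (z4jy (K j) (cx j) (cy j) (o j * t₁))
  let g : Fin 2 → ℝ := fun j => z4g (K j) τ (cx j) (cy j) (dx j) (dy j) (o j * s₁) (o j * t₁)
      (o j * s₂) (o j * t₂)
  have hn : ∀ n, _ := fun n => z4_avg_pt K hK hχ hτ s₁ t₁ s₂ t₂ (hu n) (hv n) cx cy dx dy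
    (fun j => o j * s₁) (fun j => o j * t₁) (fun j => o j * s₂) (fun j => o j * t₂)
    (ho s₁) (ho t₁) (ho s₂) (ho t₂) a b a' b' g (fun _ => rfl) (fun _ => rfl) (fun _ => rfl)
    (fun _ => rfl) (fun _ => rfl)
  have hlim := ((((huQ.add hvQ).add (hC.const_mul (2 * τ))).add
    ((hux.const_mul (a 0 - a 1)).add (huy.const_mul (b 0 - b 1)))).add
    ((hvx.const_mul (a' 0 - a' 1)).add (hvy.const_mul (b' 0 - b' 1)))).add_const
    (g 1 + (g 0 - g 1) * θ)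
  have hge := ge_of_tendsto' hlim hn
  have hfin : (θ * (1 - θ)) * (2 * τ * (gD (K 0) (K 1) θ 0 x y z * (s₁ * t₂ - t₁ * s₂)))
      ≤ (θ * (1 - θ)) * (Pf K θ x y z s₁ t₁ + Pf K θ x y z s₂ t₂) := by
    rw [← sub_nonneg]
    refine hge.trans_eq ?_
    simp only [a, b, a', b', g, cx, cy, dx, dy, zx, zy, w, o, z4a, z4b, z4g, z4jx, z4jy, Pf, gD, Q,
      Matrix.cons_val_zero, Matrix.cons_val_one]
    ring
  exact le_of_mul_le_mul_left hfin hκ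

end Pool.Agent.Lib.MP_2a9317_an.N1
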