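import Pool.Agent.Lib.MP_2a9317_an.N1.S5
import Pool.Agent.Lib.MP_2a9317_an.N1.S6
import Pool.Agent.Lib.MP_2a9317_an.N1.A1

set_option autoImplicit false

namespace Pool.Agent.Lib.MP_2a9317_an.N1

open MeasureTheory Filter Topology
open scoped ContDiff
/-- indicator of phase 0 -/
def i0 (χ : ℝ × ℝ → Fin 2) (p : ℝ × ℝ) : ℝ := if χ p = 0 then 1 else 0

/-- volume fraction of phase 0 -/
noncomputable def vf (χ : ℝ × ℝ → Fin 2) : ℝ := avg (i0 χ)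

/-- the polarization functional `avg (∇u·L_χ ∇u + 2 χ₀ (s, t)·∇u)` -/
noncomputable def Pol (K : Fin 2 → Ph) (χ : ℝ × ℝ → Fin 2) (s t : ℝ) (u : ℝ × ℝ → ℝ) : ℝ :=
  avg fun p => Q (K (χ p)) (dX u p) (dY u p) + 2 * (i0 χ p * (s * dX u p + t * dY u p))

/-- `inf_u Pol (s, t) = - (X s² + 2 Y s t + Z t²)` -/
def IsZ (K : Fin 2 → Ph) (χ : ℝ × ℝ → Fin 2) (X Y Z : ℝ) : Prop :=
  ∀ s t : ℝ, (∀ u, IsPot u → -(X * s ^ 2 + 2 * Y * s * t + Z * t ^ 2) ≤ Pol K χ s t u) ∧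
    ∀ ε : ℝ, 0 < ε → ∃ u, IsPot u ∧ Pol K χ s t u ≤ -(X * s ^ 2 + 2 * Y * s * t + Z * t ^ 2) + ε

/-- `M` with `W_M = θ W_0 + (1 - θ) W_1 - (X d₁² + 2 Y d₁ d₂ + Z d₂²)`, `d = (L_0 - L_1) (x, y) + V_0 - V_1` -/
def IsKX (K : Fin 2 → Ph) (θ X Y Z : ℝ) (M : Ph) : Prop :=
  ∀ x y : ℝ, W M x y = θ * W (K 0) x y + (1 - θ) * W (K 1) x y
    - (X * (FX (K 0) x y - FX (K 1) x y) ^ 2
      + 2 * Y * (FX (K 0) x y - FX (K 1) x y) * (FY (K 0) x y - FY (K 1) x y)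
      + Z * (FY (K 0) x y - FY (K 1) x y) ^ 2)

/-- `P(s, t) = (s,t)·Z (s,t) - L'(Z (s,t))`, `L' = (1 - θ) L_0 + θ L_1` -/
def Pf (K : Fin 2 → Ph) (θ x y z s t : ℝ) : ℝ :=
  (x * s ^ 2 + 2 * y * s * t + z * t ^ 2)
    - ((1 - θ) * Q (K 0) (x * s + y * t) (y * s + z * t)
      + θ * Q (K 1) (x * s + y * t) (y * s + z * t))

end Pool.Agent.Lib.MP_2a9317_an.N1
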